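import Mathlib

/-!
# Growth of partial sums that are bounded off a thin strip
-/

namespace Pool.Agent.X122.UTS

open Set Filter Topology Metric

/-- Partial sum with coefficients `a`. -/
noncomputable def ps (a : ℕ → ℂ) (n : ℕ) (z : ℂ) : ℂ := ∑ k ∈ Finset.range (n + 1), a k * z ^ k

lemma ps_differentiable (a : ℕ → ℂ) (n : ℕ) : Differentiable ℂ (ps a n) := by
  unfold ps
  fun_prop

/-- The annulus minus a strip of half-width `h` around the negative real axis. -/
def Kh (r R h : ℝ) : Set ℂ := {z | r ≤ ‖z‖ ∧ ‖z‖ ≤ R ∧ ¬ (z.re < 0 ∧ |z.im| < h)}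

/-- The maximum principle step: a polynomial bounded by `1` off the strip and by `A` everywhere in
the annulus is bounded by `max (2 ^ B) (A * κ ^ B)` in the middle, with `κ = 4 h / s`. -/
lemma middle_bound {P : ℂ → ℂ} (hP : Differentiable ℂ P) {r R h s ρ : ℝ} (hs : 0 < s)
    (hρ1 : r + s ≤ ρ) (hρ2 : ρ + s ≤ R) (hh : 0 < h) {A : ℝ} (hA0 : 0 ≤ A)
    (h1 : ∀ z ∈ Kh r R h, ‖P z‖ ≤ 1) (hA : ∀ z, ‖z‖ ≤ R → ‖P z‖ ≤ A) (B : ℕ) {w : ℂ}
    (hw : ‖w‖ = ρ) : ‖P w‖ ≤ max (2 ^ B) (A * (4 * h / s) ^ B) := by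
  by_cases hwK : w ∈ Kh r R h
  · refine le_trans (h1 w hwK) (le_trans ?_ (le_max_left _ _))
    exact one_le_pow₀ (by norm_num)
  have hwstrip : w.re < 0 ∧ |w.im| < h := by
    by_contra hcon
    exact hwK ⟨by rw [hw]; linarith, by rw [hw]; linarith, hcon⟩
  set Q : ℂ → ℂ := fun ζ => P (w + ζ) * (ζ ^ 2 - (s : ℂ) ^ 2) ^ B with hQ
  have hQd : Differentiable ℂ Q := by
    apply Differentiable.mul
    · exact hP.comp (by fun_prop)
    · fun_prop
  have hbound : ∀ ζ ∈ frontier (ball (0 : ℂ) s), ‖Q ζ‖ ≤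
      max (2 ^ B) (A * (4 * h / s) ^ B) * (s ^ 2) ^ B := by
    intro ζ hζ
    rw [frontier_ball _ hs.ne', mem_sphere_zero_iff_norm] at hζ
    have hζ2 : ζ.re ^ 2 + ζ.im ^ 2 = s ^ 2 := by
      rw [← hζ, ← Complex.normSq_eq_norm_sq, Complex.normSq_apply]; ring
    have hprod : ζ ^ 2 - (s : ℂ) ^ 2 = 2 * Complex.I * ζ.im * ζ := by
      apply Complex.ext
      · simp [pow_two]
        nlinarith
      · simp [pow_two]
        ring
    have hnorm : ‖ζ ^ 2 - (s : ℂ) ^ 2‖ = 2 * |ζ.im| * s := by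
      rw [hprod, norm_mul, norm_mul, norm_mul, Complex.norm_I, hζ, Complex.norm_real,
        Real.norm_eq_abs]
      simp
    have hims : |ζ.im| ≤ s := by rw [← hζ]; exact Complex.abs_im_le_norm ζ
    have hmod1 : r ≤ ‖w + ζ‖ := by
      have := norm_sub_norm_le w (-ζ)
      rw [sub_neg_eq_add, norm_neg, hw, hζ] at this
      linarith
    have hmod2 : ‖w + ζ‖ ≤ R := by
      have := norm_add_le w ζ
      rw [hw, hζ] at this
      linarith
    simp only [hQ]
    rw [norm_mul, norm_pow, hnorm]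
    by_cases hK : w + ζ ∈ Kh r R h
    · have hs2 : 2 * |ζ.im| * s ≤ 2 * s ^ 2 := by nlinarith
      calc ‖P (w + ζ)‖ * (2 * |ζ.im| * s) ^ B ≤ 1 * (2 * s ^ 2) ^ B := by
            apply mul_le_mul (h1 _ hK) _ (by positivity) (by norm_num)
            gcongr
        _ = 2 ^ B * (s ^ 2) ^ B := by rw [one_mul, mul_pow]
        _ ≤ _ := mul_le_mul_of_nonneg_right (le_max_left _ _) (by positivity)
    · have hstrip : (w + ζ).re < 0 ∧ |(w + ζ).im| < h := by
        by_contra hcon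
        exact hK ⟨hmod1, hmod2, hcon⟩
      have him : |ζ.im| < 2 * h := by
        have e : ζ.im = (w + ζ).im - w.im := by simp
        rw [e]
        have := abs_sub (w + ζ).im w.im
        linarith [hstrip.2, hwstrip.2]
      have hs2 : 2 * |ζ.im| * s ≤ 4 * h / s * s ^ 2 := by
        have : 4 * h / s * s ^ 2 = 4 * h * s := by field_simp
        rw [this]
        nlinarith
      calc ‖P (w + ζ)‖ * (2 * |ζ.im| * s) ^ B ≤ A * (4 * h / s * s ^ 2) ^ B := by
            apply mul_le_mul (hA _ hmod2) _ (by positivity) hA0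
            gcongr
        _ = A * (4 * h / s) ^ B * (s ^ 2) ^ B := by rw [mul_pow]; ring
        _ ≤ _ := mul_le_mul_of_nonneg_right (le_max_right _ _) (by positivity)
  have hmax := Complex.norm_le_of_forall_mem_frontier_norm_le isBounded_ball
    hQd.diffContOnCl hbound (z := 0) (by
      rw [closure_ball _ hs.ne']
      exact mem_closedBall_self hs.le)
  have hQ0 : ‖Q 0‖ = ‖P w‖ * (s ^ 2) ^ B := by
    simp only [hQ, add_zero]
    rw [norm_mul, norm_pow]
    congr 2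
    rw [zero_pow (by norm_num), zero_sub, norm_neg, norm_pow, Complex.norm_real, Real.norm_eq_abs,
      abs_of_pos hs]
  rw [hQ0] at hmax
  exact le_of_mul_le_mul_right hmax (by positivity)

/-- Iterated derivatives of a polynomial function. -/
lemma iteratedDeriv_poly (p : Polynomial ℂ) (k : ℕ) :
    iteratedDeriv k (fun z => p.eval z) = fun z => (Polynomial.derivative^[k] p).eval z := by
  induction k with
  | zero => simp
  | succ k ih =>
    rw [iteratedDeriv_succ, ih, Function.iterate_succ_apply']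
    funext z
    exact Polynomial.deriv _

lemma coeff_bound (a : ℕ → ℂ) (n : ℕ) {ρ C : ℝ} (hρ : 0 < ρ)
    (hC : ∀ z, ‖z‖ = ρ → ‖ps a n z‖ ≤ C) {k : ℕ} (hk : k ≤ n) : ‖a k‖ ≤ C / ρ ^ k := by
  set p : Polynomial ℂ := ∑ j ∈ Finset.range (n + 1), Polynomial.C (a j) * Polynomial.X ^ j with hp
  have hev : (fun z => p.eval z) = ps a n := by
    funext z
    simp [hp, ps, Polynomial.eval_finset_sum]
  have hcoeff : p.coeff k = a k := by
    rw [hp, Polynomial.finset_sum_coeff]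
    simp only [Polynomial.coeff_C_mul, Polynomial.coeff_X_pow]
    rw [Finset.sum_eq_single k]
    · simp
    · intro j _ hjk
      rw [if_neg (Ne.symm hjk), mul_zero]
    · intro h
      exact absurd (Finset.mem_range.mpr (by omega)) h
  have h1 := Complex.norm_iteratedDeriv_le_of_forall_mem_sphere_norm_le (c := 0) (R := ρ) (C := C)
    (f := ps a n) k hρ (ps_differentiable a n).diffContOnCl (fun z hz => hC z (by simpa using hz))
  rw [← hev, iteratedDeriv_poly] at h1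
  have h2 : (Polynomial.derivative^[k] p).eval 0 = (k.factorial : ℂ) * a k := by
    rw [← Polynomial.coeff_zero_eq_eval_zero, Polynomial.coeff_iterate_derivative]
    simp [hcoeff, Nat.descFactorial_self]
  simp only [h2] at h1
  rw [norm_mul, Complex.norm_natCast] at h1
  have hf : (0 : ℝ) < k.factorial := by exact_mod_cast k.factorial_pos
  have h3 : (k.factorial : ℝ) * ‖a k‖ ≤ k.factorial * (C / ρ ^ k) := by
    rw [mul_div_assoc] at h1; exact h1
  exact le_of_mul_le_mul_left h3 hf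

/-- Crude exponential bound. -/
lemma crude (a : ℕ → ℂ) {C₀ : ℝ} (hC₀ : 0 ≤ C₀) (ha : ∀ k, ‖a k‖ ≤ C₀ * 2 ^ k) {R : ℝ}
    (hR : 1 ≤ R) (n : ℕ) {z : ℂ} (hz : ‖z‖ ≤ R) : ‖ps a n z‖ ≤ 2 * C₀ * (4 * R) ^ n := by
  unfold ps
  have hterm : ∀ k ∈ Finset.range (n + 1), ‖a k * z ^ k‖ ≤ C₀ * (2 * R) ^ n := by
    intro k hk
    have hk' : k ≤ n := by have := Finset.mem_range.mp hk; omega
    rw [norm_mul, norm_pow]
    calc ‖a k‖ * ‖z‖ ^ k ≤ (C₀ * 2 ^ k) * R ^ k := by
          apply mul_le_mul (ha k) _ (by positivity) (by positivity)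
          gcongr
      _ = C₀ * (2 * R) ^ k := by rw [mul_pow]; ring
      _ ≤ C₀ * (2 * R) ^ n := by
          apply mul_le_mul_of_nonneg_left _ hC₀
          exact pow_le_pow_right₀ (by linarith) hk'
  refine le_trans (norm_sum_le _ _) (le_trans (Finset.sum_le_sum hterm) ?_)
  rw [Finset.sum_const, Finset.card_range, nsmul_eq_mul]
  have h2 : ((n + 1 : ℕ) : ℝ) ≤ 2 * 2 ^ n := by
    have : n + 1 ≤ 2 * 2 ^ n := by
      have := (Nat.lt_two_pow_self (n := n))
      omega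
    exact_mod_cast this
  calc ((n + 1 : ℕ) : ℝ) * (C₀ * (2 * R) ^ n) ≤ (2 * 2 ^ n) * (C₀ * (2 * R) ^ n) :=
        mul_le_mul_of_nonneg_right h2 (by positivity)
    _ = 2 * C₀ * (4 * R) ^ n := by
        have : (4 * R) ^ n = 2 ^ n * (2 * R) ^ n := by rw [← mul_pow]; ring_nf
        rw [this]; ring

/-- The analytic core: for `c > 0` there are a strip width `h` and `n₀` such that for `n ≥ n₀`, if
the partial sum of order `n` is bounded by `1` off the strip, then all partial sums of order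
`k ∈ [c n, n]` are less than `2` in absolute value at the point `r`. -/
theorem core (a : ℕ → ℂ) {C₀ : ℝ} (hC₀ : 0 ≤ C₀) (ha : ∀ k, ‖a k‖ ≤ C₀ * 2 ^ k) {r R : ℝ}
    (hr : 1 ≤ r) (hrR : r < R) {c : ℝ} (hc : 0 < c) :
    ∃ h : ℝ, 0 < h ∧ ∃ n₀ : ℕ, ∀ n : ℕ, n₀ ≤ n → (∀ z ∈ Kh r R h, ‖ps a n z‖ ≤ 1) →
      ∀ k : ℕ, c * n ≤ k → k ≤ n → ‖ps a k (r : ℂ)‖ < 2 := by
  set ρ : ℝ := (r + R) / 2 with hρ
  set s : ℝ := (R - r) / 4 with hs
  have hs0 : 0 < s := by rw [hs]; linarith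
  have hρ0 : 0 < ρ := by rw [hρ]; linarith
  have hr0 : 0 < r := by linarith
  set τ : ℝ := r / ρ with hτ
  have hτ0 : 0 < τ := by positivity
  have hτ1 : τ < 1 := by
    rw [hτ, div_lt_one hρ0, hρ]; linarith
  -- choose β
  have hτc : τ ^ c < 1 := Real.rpow_lt_one hτ0.le hτ1 hc
  have hτc0 : 0 < τ ^ c := Real.rpow_pos_of_pos hτ0 c
  obtain ⟨β, hβ0, hβ⟩ : ∃ β : ℝ, 0 < β ∧ (2 : ℝ) ^ β * τ ^ c < 1 := by
    have hcont : Tendsto (fun β : ℝ => (2 : ℝ) ^ β * τ ^ c) (𝓝 0) (𝓝 ((2 : ℝ) ^ (0 : ℝ) * τ ^ c)) := by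
      apply Tendsto.mul_const
      exact (Real.continuous_const_rpow (by norm_num)).tendsto 0
    rw [Real.rpow_zero, one_mul] at hcont
    have hev := hcont.eventually (gt_mem_nhds hτc)
    have hev2 : ∀ᶠ β : ℝ in 𝓝[>] 0, (2 : ℝ) ^ β * τ ^ c < 1 :=
      nhdsWithin_le_nhds hev
    obtain ⟨β, h1, h2⟩ := (hev2.and self_mem_nhdsWithin).exists
    exact ⟨β, h2, h1⟩
  set M : ℝ := 4 * R with hM
  have hM1 : 1 < M := by rw [hM]; linarith
  -- choose h
  set κ : ℝ := M ^ (-(1 / β)) with hκ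
  have hκ0 : 0 < κ := Real.rpow_pos_of_pos (by linarith) _
  have hκ1 : κ < 1 := by
    rw [hκ]
    exact Real.rpow_lt_one_of_one_lt_of_neg hM1 (by
      have : 0 < 1 / β := by positivity
      linarith)
  set h : ℝ := κ * s / 4 with hh
  have hh0 : 0 < h := by positivity
  have h4 : 4 * h / s = κ := by rw [hh]; field_simp
  -- the small quantity
  set D : ℝ := (2 + 2 * C₀) / (1 - τ) with hD
  have hD0 : 0 < D := by
    apply div_pos (by linarith) (by linarith)
  have hlim : Tendsto (fun n : ℕ => D * ((2 : ℝ) ^ β * τ ^ c) ^ n) atTop (𝓝 0) := by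
    have := (tendsto_pow_atTop_nhds_zero_of_lt_one (by positivity) hβ).const_mul D
    rwa [mul_zero] at this
  obtain ⟨n₀, hn₀⟩ := eventually_atTop.mp (hlim.eventually (gt_mem_nhds one_pos))
  refine ⟨h, hh0, n₀, ?_⟩
  intro n hn hK k hck hkn
  -- bound on the middle circle
  set B : ℕ := ⌈β * n⌉₊ with hB
  have hB1 : β * n ≤ B := Nat.le_ceil _
  have hB2 : (B : ℝ) < β * n + 1 := Nat.ceil_lt_add_one (by positivity)
  have hcrude : ∀ z : ℂ, ‖z‖ ≤ R → ‖ps a n z‖ ≤ 2 * C₀ * M ^ n := fun z hz =>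
    crude a hC₀ ha (by linarith) n hz
  have hmid : ∀ w : ℂ, ‖w‖ = ρ → ‖ps a n w‖ ≤ (2 + 2 * C₀) * ((2 : ℝ) ^ β) ^ n := by
    intro w hw
    refine le_trans (middle_bound (ps_differentiable a n) (r := r) (R := R) (h := h) (s := s)
      (ρ := ρ) hs0 (by rw [hρ, hs]; linarith) (by rw [hρ, hs]; linarith) hh0 (by positivity) hK
      hcrude B hw) ?_
    rw [h4]
    have h2pos : (1 : ℝ) ≤ ((2 : ℝ) ^ β) ^ n :=
      one_le_pow₀ (Real.one_le_rpow (by norm_num) hβ0.le)
    apply max_le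
    · have : (2 : ℝ) ^ B ≤ 2 * ((2 : ℝ) ^ β) ^ n := by
        rw [← Real.rpow_natCast 2 B, ← Real.rpow_natCast ((2 : ℝ) ^ β) n,
          ← Real.rpow_mul (by norm_num)]
        calc (2 : ℝ) ^ (B : ℝ) ≤ 2 ^ (β * n + 1) :=
              Real.rpow_le_rpow_of_exponent_le (by norm_num) hB2.le
          _ = 2 * 2 ^ (β * n) := by rw [Real.rpow_add (by norm_num), Real.rpow_one]; ring
      nlinarith
    · have hMκ : M ^ n * κ ^ B ≤ 1 := by
        have e1 : κ ^ B ≤ κ ^ (β * n : ℝ) := by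
          rw [← Real.rpow_natCast κ B]
          exact Real.rpow_le_rpow_of_exponent_ge hκ0 hκ1.le hB1
        have e2 : κ ^ (β * n : ℝ) = (M ^ n)⁻¹ := by
          rw [hκ, ← Real.rpow_mul (by linarith), ← Real.rpow_natCast M n,
            ← Real.rpow_neg (by linarith)]
          congr 1
          field_simp
        have hMn : (0 : ℝ) < M ^ n := by positivity
        calc M ^ n * κ ^ B ≤ M ^ n * (M ^ n)⁻¹ := by
              apply mul_le_mul_of_nonneg_left _ hMn.le
              rw [← e2]; exact e1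
          _ = 1 := mul_inv_cancel₀ hMn.ne'
      calc 2 * C₀ * M ^ n * κ ^ B = 2 * C₀ * (M ^ n * κ ^ B) := by ring
        _ ≤ 2 * C₀ * 1 := mul_le_mul_of_nonneg_left hMκ (by positivity)
        _ ≤ (2 + 2 * C₀) * ((2 : ℝ) ^ β) ^ n := by nlinarith
  -- coefficient bounds and the tail
  set E : ℝ := (2 + 2 * C₀) * ((2 : ℝ) ^ β) ^ n with hE
  have hE0 : 0 ≤ E := by positivity
  have hcoef : ∀ j, j ≤ n → ‖a j * (r : ℂ) ^ j‖ ≤ E * τ ^ j := by
    intro j hj
    rw [norm_mul, norm_pow, Complex.norm_real, Real.norm_eq_abs, abs_of_pos hr0]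
    calc ‖a j‖ * r ^ j ≤ E / ρ ^ j * r ^ j :=
          mul_le_mul_of_nonneg_right (coeff_bound a n hρ0 hmid hj) (by positivity)
      _ = E * τ ^ j := by
          rw [hτ, div_pow r ρ j, div_mul_eq_mul_div, mul_div_assoc]
  have hdiff : ‖ps a n (r : ℂ) - ps a k (r : ℂ)‖ ≤ E * τ ^ k / (1 - τ) := by
    have hsplit : ps a n (r : ℂ) - ps a k (r : ℂ) =
        ∑ j ∈ Finset.Ico (k + 1) (n + 1), a j * (r : ℂ) ^ j := by
      unfold ps
      rw [Finset.sum_Ico_eq_sub _ (by omega)]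
    rw [hsplit]
    refine le_trans (norm_sum_le _ _) ?_
    calc ∑ j ∈ Finset.Ico (k + 1) (n + 1), ‖a j * (r : ℂ) ^ j‖
        ≤ ∑ j ∈ Finset.Ico (k + 1) (n + 1), E * τ ^ j := by
          apply Finset.sum_le_sum
          intro j hj
          exact hcoef j (by have := (Finset.mem_Ico.mp hj).2; omega)
      _ ≤ ∑ j ∈ Finset.Ico k (n + 1), E * τ ^ j := by
          apply Finset.sum_le_sum_of_subset_of_nonneg
          · exact Finset.Ico_subset_Ico_left (by omega)
          · intro j _ _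
            positivity
      _ = ∑ j ∈ Finset.range (n + 1 - k), E * τ ^ k * τ ^ j := by
          rw [Finset.sum_Ico_eq_sum_range]
          apply Finset.sum_congr rfl
          intro j _
          rw [pow_add]; ring
      _ = E * τ ^ k * ∑ j ∈ Finset.range (n + 1 - k), τ ^ j := by rw [Finset.mul_sum]
      _ ≤ E * τ ^ k * (1 / (1 - τ)) := by
          apply mul_le_mul_of_nonneg_left _ (by positivity)
          rw [geom_sum_eq hτ1.ne]
          have : (τ ^ (n + 1 - k) - 1) / (τ - 1) = (1 - τ ^ (n + 1 - k)) / (1 - τ) := by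
            rw [← neg_sub 1 (τ ^ (n + 1 - k)), ← neg_sub 1 τ, neg_div_neg_eq]
          rw [this]
          apply div_le_div_of_nonneg_right _ (by linarith)
          have : 0 < τ ^ (n + 1 - k) := by positivity
          linarith
      _ = E * τ ^ k / (1 - τ) := by ring
  have hτk : τ ^ k ≤ (τ ^ c) ^ n := by
    rw [← Real.rpow_natCast τ k, ← Real.rpow_natCast (τ ^ c) n, ← Real.rpow_mul hτ0.le]
    exact Real.rpow_le_rpow_of_exponent_ge hτ0 hτ1.le hck
  have hsmall : E * τ ^ k / (1 - τ) < 1 := by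
    refine lt_of_le_of_lt ?_ (hn₀ n hn)
    calc E * τ ^ k / (1 - τ) ≤ E * (τ ^ c) ^ n / (1 - τ) := by
          apply div_le_div_of_nonneg_right _ (by linarith)
          exact mul_le_mul_of_nonneg_left hτk hE0
      _ = D * ((2 : ℝ) ^ β * τ ^ c) ^ n := by rw [hE, hD, mul_pow]; ring
  have hrK : (r : ℂ) ∈ Kh r R h := by
    refine ⟨?_, ?_, ?_⟩
    · rw [Complex.norm_real, Real.norm_eq_abs, abs_of_pos hr0]
    · rw [Complex.norm_real, Real.norm_eq_abs, abs_of_pos hr0]; exact hrR.le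
    · rintro ⟨h1, _⟩
      rw [Complex.ofReal_re] at h1
      linarith
  have h1 := hK _ hrK
  have h2 : ‖ps a k (r : ℂ)‖ ≤ ‖ps a n (r : ℂ)‖ + ‖ps a n (r : ℂ) - ps a k (r : ℂ)‖ := by
    have := norm_sub_le (ps a n (r : ℂ)) (ps a n (r : ℂ) - ps a k (r : ℂ))
    rwa [sub_sub_cancel] at this
  linarith

end Pool.Agent.X122.UTS
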