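import Pool.Agent.X184.SS.Stm

namespace X122KH

open Finset Filter Topology

/-- truncation -/
noncomputable def tr (M : ℕ) (h : ℕ → ℝ) : ZeroAtInftyContinuousMap ℕ ℝ where
  toFun := fun s => if s < M then h s else 0
  continuous_toFun := continuous_of_discreteTopology
  zero_at_infty' := by
    rw [cocompact_eq_cofinite, Nat.cofinite_eq_atTop]
    refine tendsto_const_nhds.congr' ?_
    filter_upwards [eventually_ge_atTop M] with s hs
    rw [if_neg (not_lt.2 hs)]

lemma tr_apply (M : ℕ) (h : ℕ → ℝ) (s : ℕ) : tr M h s = if s < M then h s else 0 := rfl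

lemma norm_le_iff {C : ℝ} (hC : 0 ≤ C) (v : ZeroAtInftyContinuousMap ℕ ℝ) : ‖v‖ ≤ C ↔ ∀ s, |v s| ≤ C := by
  rw [← ZeroAtInftyContinuousMap.norm_toBCF_eq_norm, BoundedContinuousFunction.norm_le hC]
  rfl

/-- unit vectors -/
noncomputable def ee (s : ℕ) : ZeroAtInftyContinuousMap ℕ ℝ := tr (s + 1) (fun t => if t = s then 1 else 0)

lemma ee_apply (s t : ℕ) : ee s t = if t = s then 1 else 0 := by
  unfold ee
  rw [tr_apply]
  by_cases h : t = s
  · subst h; simp
  · simp [h]

lemma tr_eq (M : ℕ) (h : ℕ → ℝ) : tr M h = ∑ s ∈ range M, h s • ee s := by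
  ext t
  rw [tr_apply]
  have : (∑ s ∈ range M, h s • ee s) t = ∑ s ∈ range M, h s * ee s t := by
    induction M with
    | zero => simp
    | succ n ih => rw [sum_range_succ, sum_range_succ, ZeroAtInftyContinuousMap.add_apply, ih]; rfl
  rw [this]
  simp only [ee_apply, mul_ite, mul_one, mul_zero]
  rw [sum_ite_eq]
  simp

lemma tr_tendsto (v : ZeroAtInftyContinuousMap ℕ ℝ) : Tendsto (fun M => tr M v) atTop (𝓝 v) := by
  rw [Metric.tendsto_atTop]
  intro δ hδ
  have h0 : Tendsto v (cocompact ℕ) (𝓝 0) := v.zero_at_infty'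
  rw [cocompact_eq_cofinite, Nat.cofinite_eq_atTop, Metric.tendsto_atTop] at h0
  obtain ⟨N, hN⟩ := h0 (δ / 2) (by positivity)
  refine ⟨N, fun M hM => ?_⟩
  rw [dist_eq_norm]
  refine lt_of_le_of_lt ((norm_le_iff (by positivity : (0:ℝ) ≤ δ / 2) _).2 fun s => ?_) (by linarith)
  rw [ZeroAtInftyContinuousMap.sub_apply, tr_apply]
  by_cases hs : s < M
  · rw [if_pos hs, sub_self, abs_zero]; positivity
  · rw [if_neg hs, zero_sub, abs_neg]
    have := hN s (by omega)
    rw [Real.dist_eq, sub_zero] at this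
    exact this.le

/-- `∑ |G(e_s)| ≤ ‖U‖`-type bound -/
lemma sum_abs_le (M : ℕ) (G : ZeroAtInftyContinuousMap ℕ ℝ →L[ℝ] ℝ) (K : ℝ)
    (hG : ∀ w : ZeroAtInftyContinuousMap ℕ ℝ, ‖w‖ ≤ 1 → |G w| ≤ K) :
    ∑ s ∈ range M, |G (ee s)| ≤ K := by
  set w := tr M (fun s => SignType.sign (G (ee s)) : ℕ → ℝ) with hw
  have h1 : G w = ∑ s ∈ range M, |G (ee s)| := by
    rw [hw, tr_eq, map_sum]
    refine sum_congr rfl fun s _ => ?_
    rw [map_smul, smul_eq_mul]
    exact sign_mul_self _
  have h2 : ‖w‖ ≤ 1 := by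
    rw [norm_le_iff zero_le_one]
    intro s
    rw [hw, tr_apply]
    by_cases hs : s < M
    · rw [if_pos hs]
      rcases lt_trichotomy (G (ee s)) 0 with h | h | h
      · rw [sign_neg h]; simp
      · rw [h]; simp
      · rw [sign_pos h]; simp
    · rw [if_neg hs]; simp
  rw [← h1]
  exact (le_abs_self _).trans (hG w h2)

theorem t_KH : Pool.Agent.X184.SS.S_KH := by
  intro hKH X _ _ p U V x f hx hf
  set g : Fin p → ZeroAtInftyContinuousMap ℕ ℝ →L[ℝ] ℝ := fun i => (f i).comp U with hg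
  have hv : ∀ i s, |V (x i) s| ≤ ‖V‖ := by
    intro i
    have h1 : ‖V (x i)‖ ≤ ‖V‖ := by
      calc ‖V (x i)‖ ≤ ‖V‖ * ‖x i‖ := V.le_opNorm _
        _ ≤ ‖V‖ * 1 := mul_le_mul_of_nonneg_left (hx i) V.opNorm_nonneg
        _ = ‖V‖ := mul_one _
    exact (norm_le_iff V.opNorm_nonneg _).1 h1
  -- the bound for truncations
  have main : ∀ M, ∑ i, g i (tr M (V (x i))) ≤ Real.sqrt (3 * p) * ‖U‖ * ‖V‖ := by
    intro M
    have h1 : ∑ i, g i (tr M (V (x i))) = ∑ s ∈ range M, ∑ i, V (x i) s * g i (ee s) := by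
      rw [sum_comm]
      refine sum_congr rfl fun i _ => ?_
      rw [tr_eq, map_sum]
      refine sum_congr rfl fun s _ => ?_
      rw [map_smul, smul_eq_mul]
    have h2 : ∀ s, ∑ i, V (x i) s * g i (ee s) ≤ ‖V‖ * (Real.sqrt (3 * p) *
        ((∑ e : Fin p → Bool, |∑ i, (if e i then g i (ee s) else - g i (ee s))|) / 2 ^ p)) := by
      intro s
      have k1 : ∑ i, V (x i) s * g i (ee s) ≤ ‖V‖ * ∑ i, |g i (ee s)| := by
        rw [mul_sum]
        refine sum_le_sum fun i _ => ?_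
        calc V (x i) s * g i (ee s) ≤ |V (x i) s * g i (ee s)| := le_abs_self _
          _ = |V (x i) s| * |g i (ee s)| := abs_mul _ _
          _ ≤ ‖V‖ * |g i (ee s)| := mul_le_mul_of_nonneg_right (hv i s) (abs_nonneg _)
      have k2 : ∑ i, |g i (ee s)| ≤ Real.sqrt p * Real.sqrt (∑ i, g i (ee s) ^ 2) := by
        rw [← Real.sqrt_mul (Nat.cast_nonneg p)]
        apply Real.le_sqrt_of_sq_le
        have := sq_sum_le_card_mul_sum_sq (s := (univ : Finset (Fin p))) (f := fun i => |g i (ee s)|)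
        simp only [sq_abs, card_univ, Fintype.card_fin] at this
        exact this
      have k3 := hKH p (fun i => g i (ee s))
      have k4 : Real.sqrt (3 * p) = Real.sqrt p * Real.sqrt 3 := by
        rw [mul_comm, Real.sqrt_mul (Nat.cast_nonneg p)]
      refine k1.trans (mul_le_mul_of_nonneg_left ?_ V.opNorm_nonneg)
      refine k2.trans ?_
      rw [k4, mul_assoc]
      exact mul_le_mul_of_nonneg_left k3 (Real.sqrt_nonneg _)
    have h3 : ∀ e : Fin p → Bool, ∑ s ∈ range M, |∑ i, (if e i then g i (ee s) else - g i (ee s))| ≤ ‖U‖ := by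
      intro e
      set G : ZeroAtInftyContinuousMap ℕ ℝ →L[ℝ] ℝ := ∑ i, (if e i then g i else - g i) with hG
      have hGa : ∀ w, G w = ∑ i, (if e i then g i w else - g i w) := by
        intro w
        rw [hG, ContinuousLinearMap.sum_apply]
        refine sum_congr rfl fun i _ => ?_
        split_ifs <;> rfl
      have := sum_abs_le M G ‖U‖ (fun w hw => by
        rw [hGa]
        calc |∑ i, (if e i then g i w else - g i w)| ≤ ∑ i, |if e i then g i w else - g i w| :=
              abs_sum_le_sum_abs _ _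
          _ = ∑ i, |f i (U w)| := by
              refine sum_congr rfl fun i _ => ?_
              split_ifs
              · rfl
              · rw [abs_neg]; rfl
          _ ≤ ‖U w‖ := hf _
          _ ≤ ‖U‖ * ‖w‖ := U.le_opNorm _
          _ ≤ ‖U‖ * 1 := mul_le_mul_of_nonneg_left hw U.opNorm_nonneg
          _ = ‖U‖ := mul_one _)
      refine le_trans (le_of_eq ?_) this
      refine sum_congr rfl fun s _ => ?_
      rw [hGa]
    have h4 : ∑ s ∈ range M, (∑ e : Fin p → Bool, |∑ i, (if e i then g i (ee s) else - g i (ee s))|) / 2 ^ p ≤ ‖U‖ := by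
      rw [← sum_div, sum_comm, div_le_iff₀ (by positivity)]
      calc ∑ e : Fin p → Bool, ∑ s ∈ range M, |∑ i, (if e i then g i (ee s) else - g i (ee s))|
          ≤ ∑ _e : Fin p → Bool, ‖U‖ := sum_le_sum fun e _ => h3 e
        _ = ‖U‖ * 2 ^ p := by
            rw [sum_const, card_univ, Fintype.card_fun, Fintype.card_bool, Fintype.card_fin, nsmul_eq_mul]
            push_cast; ring
    rw [h1]
    calc ∑ s ∈ range M, ∑ i, V (x i) s * g i (ee s) ≤ ∑ s ∈ range M, ‖V‖ * (Real.sqrt (3 * p) *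
        ((∑ e : Fin p → Bool, |∑ i, (if e i then g i (ee s) else - g i (ee s))|) / 2 ^ p)) :=
          sum_le_sum fun s _ => h2 s
      _ = ‖V‖ * (Real.sqrt (3 * p) * ∑ s ∈ range M,
        ((∑ e : Fin p → Bool, |∑ i, (if e i then g i (ee s) else - g i (ee s))|) / 2 ^ p)) := by
          rw [← mul_sum, ← mul_sum]
      _ ≤ ‖V‖ * (Real.sqrt (3 * p) * ‖U‖) :=
          mul_le_mul_of_nonneg_left (mul_le_mul_of_nonneg_left h4 (Real.sqrt_nonneg _)) V.opNorm_nonneg
      _ = Real.sqrt (3 * p) * ‖U‖ * ‖V‖ := by ring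
  have hlim : Tendsto (fun M => ∑ i, g i (tr M (V (x i)))) atTop (𝓝 (∑ i, g i (V (x i)))) :=
    tendsto_finset_sum _ fun i _ => ((g i).continuous.tendsto _).comp (tr_tendsto _)
  exact le_of_tendsto' hlim main

end X122KH
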