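import Pool.Agent.X19.RS.Stm

/-!
# Part RS_DET1: `S_DET1` of `Pool.Agent.X19.RS.Stm`
-/

set_option autoImplicit false

open scoped ENNReal Matrix

namespace Pool.Agent.X122.DET1

open Pool.Agent.X19.SS Pool.Agent.X19.RS

section
variable {K : Type} [RCLike K]

theorem nsq_smul {ι : Type} [Fintype ι] (σ : K) (x : ι → K) : nsq (σ • x) = ‖σ‖ₑ ^ 2 * nsq x := by
  unfold nsq
  rw [Finset.mul_sum]
  refine Finset.sum_congr rfl fun i _ => ?_
  rw [Pi.smul_apply, smul_eq_mul, enorm_mul, mul_pow]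

theorem del_scale {d n l : ℕ} (S : Matrix (Fin d) (Fin n) K) (G : Matrix (Fin n) (Fin l) K) (j : Fin d)
    (σ : K) (hσ : σ ≠ 0) (c : Fin l → K) :
    ‖σ‖ₑ ^ 2 * del S G j ≤ nsq (σ • (Pi.single j 1 : Fin d → K) - (S * G) *ᵥ c) := by
  have h : σ • (Pi.single j 1 : Fin d → K) - (S * G) *ᵥ c =
      σ • (Pi.single j 1 - (S * G) *ᵥ (σ⁻¹ • c)) := by
    rw [smul_sub, Matrix.mulVec_smul, smul_smul, mul_inv_cancel₀ hσ, one_smul]
  rw [h, nsq_smul]
  gcongr
  exact iInf_le _ _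

theorem e1 {d : ℕ} (x : Fin d → K) : RCLike.re (star x ⬝ᵥ x) = ∑ k, ‖x k‖ ^ 2 := by
  rw [dotProduct, map_sum]
  refine Finset.sum_congr rfl fun k _ => ?_
  rw [Pi.star_apply, RCLike.star_def, RCLike.conj_mul]
  norm_cast

theorem e2 {d : ℕ} (x : Fin d → K) : nsq x = ENNReal.ofReal (∑ k, ‖x k‖ ^ 2) := by
  rw [ENNReal.ofReal_sum_of_nonneg (fun j _ => by positivity)]
  unfold nsq
  refine Finset.sum_congr rfl fun j _ => ?_
  rw [← ofReal_norm, ENNReal.ofReal_pow (norm_nonneg _)]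

theorem diag_re {d : ℕ} (T : Matrix (Fin d) (Fin d) K) (hTT : T * T = T) (hTs : Tᴴ = T) (j : Fin d) :
    RCLike.re (T j j) = ∑ k, ‖T k j‖ ^ 2 := by
  have h : T j j = (Tᴴ * T) j j := by rw [hTs, hTT]
  rw [h, Matrix.mul_apply, map_sum]
  refine Finset.sum_congr rfl fun k _ => ?_
  rw [Matrix.conjTranspose_apply, RCLike.star_def, RCLike.conj_mul]
  norm_cast

theorem gen {d : ℕ} (T : Matrix (Fin d) (Fin d) K) (hTT : T * T = T) (hTs : Tᴴ = T) (j : Fin d)
    (v : Fin d → K) (hv : T *ᵥ v = T *ᵥ Pi.single j 1) : ENNReal.ofReal (RCLike.re (T j j)) ≤ nsq v := by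
  rw [e2]
  apply ENNReal.ofReal_le_ofReal
  have hj : RCLike.re (T j j) = RCLike.re (star (T *ᵥ v) ⬝ᵥ (T *ᵥ v)) := by
    rw [e1, diag_re T hTT hTs, hv]
    refine Finset.sum_congr rfl fun k _ => ?_
    rw [Matrix.mulVec_single_one]
    rfl
  have h1 : star (T *ᵥ v) ⬝ᵥ (T *ᵥ v) = star (T *ᵥ v) ⬝ᵥ v := by
    rw [Matrix.dotProduct_mulVec]
    congr 1
    rw [Matrix.star_mulVec, hTs, Matrix.vecMul_vecMul, hTT]
  have h2 : RCLike.re (star v ⬝ᵥ (T *ᵥ v)) = RCLike.re (star (T *ᵥ v) ⬝ᵥ v) := by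
    rw [Matrix.star_dotProduct, RCLike.star_def, RCLike.conj_re]
  have h3 : 0 ≤ RCLike.re (star (v - T *ᵥ v) ⬝ᵥ (v - T *ᵥ v)) := by
    rw [e1]
    positivity
  rw [star_sub, sub_dotProduct, dotProduct_sub, dotProduct_sub, map_sub, map_sub, map_sub] at h3
  have h4 := e1 v
  rw [← h4, hj]
  rw [h1] at *
  linarith

theorem del_ge {d n l : ℕ} (S : Matrix (Fin d) (Fin n) K) (G : Matrix (Fin n) (Fin l) K)
    (Q : Matrix (Fin d) (Fin d) K) (hQQ : Q * Q = Q) (hQs : Qᴴ = Q) (hQY : Q * (S * G) = S * G) (j : Fin d) :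
    ENNReal.ofReal (1 - RCLike.re (Q j j)) ≤ del S G j := by
  unfold del
  refine le_iInf fun c => ?_
  have hT : (1 - Q) * (1 - Q) = 1 - Q := by
    rw [sub_mul, mul_sub, mul_sub, hQQ, one_mul, mul_one, one_mul]
    abel
  have hTs : (1 - Q)ᴴ = 1 - Q := by
    rw [Matrix.conjTranspose_sub, Matrix.conjTranspose_one, hQs]
  have h := gen (1 - Q) hT hTs j (Pi.single j 1 - (S * G) *ᵥ c) (by
    rw [Matrix.mulVec_sub, Matrix.mulVec_mulVec, Matrix.sub_mul, Matrix.one_mul, hQY, sub_self,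
      Matrix.zero_mulVec, sub_zero])
  rw [Matrix.sub_apply, Matrix.one_apply_eq, map_sub, RCLike.one_re] at h
  exact h

end

theorem t_DET1 : S_DET1 := by
  intro K _ d e q m l hd s hs hl G
  set S := Sg K d (q + m + e) q (q + m) s with hS
  obtain ⟨P, hP⟩ := Pool.Agent.X28.SS.t_MP K d l (S * G)
  have hP1 := hP.h1
  have hP3 := hP.h3
  have hP4 := hP.h4
  have hP2 := hP.h2
  set Q : Matrix (Fin d) (Fin d) K := S * G * P with hQ
  set R : Matrix (Fin l) (Fin l) K := P * (S * G) with hR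
  have hQQ : Q * Q = Q := by
    rw [hQ, ← Matrix.mul_assoc, hP.h1]
  have hRR : R * R = R := by
    rw [hR, Matrix.mul_assoc, ← Matrix.mul_assoc (S * G) P (S * G), hP.h1]
  have hQY : Q * (S * G) = S * G := hP.h1
  have hQd := fun j => diag_re Q hQQ hP.h3 j
  have hRd := fun j => diag_re R hRR hP.h4 j
  have hQ0 : ∀ j, 0 ≤ RCLike.re (Q j j) := fun j => by rw [hQd]; positivity
  have hR1 : ∀ j, RCLike.re (R j j) ≤ 1 := by
    intro j
    have h1 : ‖R j j‖ ^ 2 ≤ RCLike.re (R j j) := by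
      rw [hRd]
      exact Finset.single_le_sum (f := fun k => ‖R k j‖ ^ 2) (fun k _ => by positivity) (Finset.mem_univ j)
    have h2 : RCLike.re (R j j) ≤ ‖R j j‖ := RCLike.re_le_norm _
    have h3 : 0 ≤ RCLike.re (R j j) := by rw [hRd]; positivity
    nlinarith [norm_nonneg (R j j)]
  have htr : ∑ j, RCLike.re (Q j j) ≤ l := by
    have h1 : Matrix.trace Q = Matrix.trace R := Matrix.trace_mul_comm _ _
    have h2 : ∑ j, RCLike.re (Q j j) = ∑ j, RCLike.re (R j j) := by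
      have := congrArg RCLike.re h1
      simpa only [Matrix.trace, Matrix.diag_apply, map_sum] using this
    rw [h2]
    calc ∑ j, RCLike.re (R j j) ≤ ∑ j : Fin l, (1 : ℝ) := Finset.sum_le_sum fun j _ => hR1 j
      _ = l := by simp
  -- sum of the `del`
  have hQ1 : ∀ j, RCLike.re (Q j j) ≤ 1 := by
    intro j
    have h1 : ‖Q j j‖ ^ 2 ≤ RCLike.re (Q j j) := by
      rw [hQd]
      exact Finset.single_le_sum (f := fun k => ‖Q k j‖ ^ 2) (fun k _ => by positivity) (Finset.mem_univ j)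
    have h2 : RCLike.re (Q j j) ≤ ‖Q j j‖ := RCLike.re_le_norm _
    nlinarith [norm_nonneg (Q j j), hQ0 j]
  have hsumr : ∑ j : Fin (q + m), RCLike.re (Q (Fin.castLE hd j) (Fin.castLE hd j)) ≤ l := by
    refine le_trans ?_ htr
    have h := Finset.sum_image (s := (Finset.univ : Finset (Fin (q + m)))) (g := fun j => Fin.castLE hd j)
      (f := fun j : Fin d => RCLike.re (Q j j)) (fun a _ b _ hab => Fin.castLE_injective hd hab)
    rw [← h]
    exact Finset.sum_le_sum_of_subset_of_nonneg (Finset.subset_univ _) fun j _ _ => hQ0 j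
  have hdel : ((q + m - l : ℕ) : ℝ≥0∞) ≤ ∑ j : Fin (q + m), del S G (Fin.castLE hd j) := by
    calc ((q + m - l : ℕ) : ℝ≥0∞) = ENNReal.ofReal (((q + m - l : ℕ) : ℝ)) := by
          rw [ENNReal.ofReal_natCast]
      _ ≤ ENNReal.ofReal (∑ j : Fin (q + m), (1 - RCLike.re (Q (Fin.castLE hd j) (Fin.castLE hd j)))) := by
          apply ENNReal.ofReal_le_ofReal
          rw [Finset.sum_sub_distrib, Nat.cast_sub hl]
          simp only [Finset.sum_const, Finset.card_univ, Fintype.card_fin, nsmul_eq_mul, mul_one]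
          linarith
      _ = ∑ j : Fin (q + m), ENNReal.ofReal (1 - RCLike.re (Q (Fin.castLE hd j) (Fin.castLE hd j))) :=
          ENNReal.ofReal_sum_of_nonneg fun j _ => by linarith [hQ1 (Fin.castLE hd j)]
      _ ≤ _ := Finset.sum_le_sum fun j _ => del_ge S G Q hQQ hP.h3 hQY _
  -- columns
  unfold err
  refine le_iInf fun C => ?_
  have hcol : ∀ j : Fin (q + m), (ENNReal.ofReal (if j.val < q then s ^ 2 else 1)) *
      del S G (Fin.castLE hd j) ≤ ∑ i, ‖(S - S * G * C) i (Fin.castAdd e j)‖ₑ ^ 2 := by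
    intro j
    set σ : K := if j.val < q then (s : K) else 1 with hσ
    have hσ0 : σ ≠ 0 := by
      rw [hσ]
      split_ifs
      · have : s ≠ 0 := by linarith
        exact_mod_cast this
      · exact one_ne_zero
    have hn : ‖σ‖ₑ ^ 2 = ENNReal.ofReal (if j.val < q then s ^ 2 else 1) := by
      rw [← ofReal_norm, ← ENNReal.ofReal_pow (norm_nonneg _), hσ]
      congr 1
      split_ifs
      · rw [RCLike.norm_ofReal, sq_abs]
      · simp
    rw [← hn]
    refine le_trans (del_scale S G (Fin.castLE hd j) σ hσ0 (fun k => C k (Fin.castAdd e j))) (le_of_eq ?_)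
    unfold nsq
    refine Finset.sum_congr rfl fun i _ => ?_
    congr 2
    rw [Pi.sub_apply, Matrix.sub_apply]
    congr 1
    · rw [Pi.smul_apply, smul_eq_mul, hS]
      simp only [Sg, Matrix.of_apply, Fin.val_castAdd]
      by_cases hij : i = Fin.castLE hd j
      · subst hij
        simp [hσ]
      · rw [Pi.single_eq_of_ne hij, mul_zero, if_neg]
        rintro ⟨h, -⟩
        exact hij (Fin.ext h)
  have hfr : frob2 (S - S * G * C) = ∑ j, ∑ i, ‖(S - S * G * C) i j‖ₑ ^ 2 := by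
    unfold frob2
    rw [Finset.sum_comm]
  rw [hfr, Fin.sum_univ_add]
  refine le_trans ?_ le_self_add
  refine le_trans ?_ (Finset.sum_le_sum fun j _ => hcol j)
  have hsplit : ∑ j : Fin (q + m), (ENNReal.ofReal (if j.val < q then s ^ 2 else 1)) *
      del S G (Fin.castLE hd j) = (∑ j : Fin (q + m), del S G (Fin.castLE hd j)) +
        ∑ j : Fin q, ENNReal.ofReal (s ^ 2 - 1) * del S G (Fin.castLE hd (Fin.castAdd m j)) := by
    rw [Fin.sum_univ_add, Fin.sum_univ_add]
    have h1 : ∀ j : Fin q, ENNReal.ofReal (if (Fin.castAdd m j).val < q then s ^ 2 else 1) *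
        del S G (Fin.castLE hd (Fin.castAdd m j)) = del S G (Fin.castLE hd (Fin.castAdd m j)) +
          ENNReal.ofReal (s ^ 2 - 1) * del S G (Fin.castLE hd (Fin.castAdd m j)) := by
      intro j
      rw [if_pos (by simp)]
      have : ENNReal.ofReal (s ^ 2) = 1 + ENNReal.ofReal (s ^ 2 - 1) := by
        rw [← ENNReal.ofReal_one, ← ENNReal.ofReal_add (by norm_num) (by nlinarith)]
        congr 1
        ring
      rw [this, add_mul, one_mul]
    have h2 : ∀ k : Fin m, ENNReal.ofReal (if (Fin.natAdd q k).val < q then s ^ 2 else 1) *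
        del S G (Fin.castLE hd (Fin.natAdd q k)) = del S G (Fin.castLE hd (Fin.natAdd q k)) := by
      intro k
      rw [if_neg (by simp), ENNReal.ofReal_one, one_mul]
    rw [Finset.sum_congr rfl fun j _ => h1 j, Finset.sum_congr rfl fun k _ => h2 k,
      Finset.sum_add_distrib]
    ring
  rw [hsplit]
  gcongr

end Pool.Agent.X122.DET1
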