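import Mathlib

/-!
# Banach spaces with a basis given by `max (ℓ₂ norm) (sup of functionals)`

The space is the closed linear span of the vectors `(δ_i, (c ω i)_ω)` in `ℓ₂ × ℓ_∞(Ω)`.
-/

namespace Pool.Agent.X122.LpBasis

open scoped ENNReal

variable {𝕜 : Type} [RCLike 𝕜] {Ω : Type} (c : Ω → ℕ → 𝕜)

/-- The ambient space `ℓ₂ × ℓ_∞(Ω)`. -/
abbrev Amb (𝕜 Ω : Type) [RCLike 𝕜] : Type :=
  (lp (fun _ : ℕ => 𝕜) 2) × (lp (fun _ : Ω => 𝕜) ∞)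

/-- The second component of the `i`-th vector (junk `0` if the family is unbounded). -/
noncomputable def vv (hc : ∀ ω i, ‖c ω i‖ ≤ 1) (i : ℕ) : lp (fun _ : Ω => 𝕜) ∞ :=
  ⟨fun ω => c ω i, memℓp_infty ⟨1, by rintro _ ⟨ω, rfl⟩; exact hc ω i⟩⟩

/-- The `i`-th vector. -/
noncomputable def tt (hc : ∀ ω i, ‖c ω i‖ ≤ 1) (i : ℕ) : Amb 𝕜 Ω :=
  (lp.single 2 i (1 : 𝕜), vv c hc i)

/-- The space. -/
noncomputable def XX (hc : ∀ ω i, ‖c ω i‖ ≤ 1) : Submodule 𝕜 (Amb 𝕜 Ω) :=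
  (Submodule.span 𝕜 (Set.range (tt c hc))).topologicalClosure

instance (hc : ∀ ω i, ‖c ω i‖ ≤ 1) : CompleteSpace (XX c hc) :=
  (Submodule.isClosed_topologicalClosure _).completeSpace_coe

/-- The basis. -/
noncomputable def ee (hc : ∀ ω i, ‖c ω i‖ ≤ 1) (i : ℕ) : XX c hc :=
  ⟨tt c hc i, Submodule.le_topologicalClosure _ (Submodule.subset_span ⟨i, rfl⟩)⟩

/-- The coordinate functionals. -/
noncomputable def es (hc : ∀ ω i, ‖c ω i‖ ≤ 1) (i : ℕ) : XX c hc →L[𝕜] 𝕜 :=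
  ((lp.evalCLM 𝕜 (fun _ : ℕ => 𝕜) 2 i).comp (ContinuousLinearMap.fst 𝕜 _ _)).comp
    (XX c hc).subtypeL

variable {c}

lemma es_apply (hc : ∀ ω i, ‖c ω i‖ ≤ 1) (i : ℕ) (x : XX c hc) :
    es c hc i x = (x : Amb 𝕜 Ω).1 i := rfl

lemma biorth (hc : ∀ ω i, ‖c ω i‖ ≤ 1) (i j : ℕ) :
    es c hc i (ee c hc j) = if i = j then 1 else 0 := by
  rw [es_apply]
  change (lp.single 2 j (1 : 𝕜) : lp (fun _ : ℕ => 𝕜) 2) i = _
  by_cases h : i = j
  · subst h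
    rw [lp.single_apply_self, if_pos rfl]
  · rw [lp.single_apply_ne 2 j _ h, if_neg h]

lemma dense_span (hc : ∀ ω i, ‖c ω i‖ ≤ 1) :
    (Submodule.span 𝕜 (Set.range (ee c hc))).topologicalClosure = ⊤ := by
  rw [Submodule.eq_top_iff']
  intro x
  have hx := x.2
  have h1 : (x : Amb 𝕜 Ω) ∈ closure (Submodule.span 𝕜 (Set.range (tt c hc)) : Set (Amb 𝕜 Ω)) := hx
  change x ∈ closure (Submodule.span 𝕜 (Set.range (ee c hc)) : Set (XX c hc))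
  rw [Metric.mem_closure_iff] at h1 ⊢
  intro ε hε
  obtain ⟨y, hy, hd⟩ := h1 ε hε
  have hyX : y ∈ XX c hc := Submodule.le_topologicalClosure _ hy
  refine ⟨⟨y, hyX⟩, ?_, hd⟩
  have hmap : Submodule.map (XX c hc).subtype (Submodule.span 𝕜 (Set.range (ee c hc))) =
      Submodule.span 𝕜 (Set.range (tt c hc)) := by
    rw [Submodule.map_span, ← Set.range_comp]
    rfl
  have hy' : y ∈ Submodule.map (XX c hc).subtype (Submodule.span 𝕜 (Set.range (ee c hc))) := by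
    rw [hmap]; exact hy
  obtain ⟨z, hz, hzy⟩ := hy'
  have : z = ⟨y, hyX⟩ := Subtype.ext hzy
  rw [← this]
  exact hz

/-- The relation between the two components. -/
lemma rel (hc : ∀ ω i, ‖c ω i‖ ≤ 1) {F : Ω → Finset ℕ} (hF : ∀ ω i, i ∉ F ω → c ω i = 0)
    (x : XX c hc) (ω : Ω) : (x : Amb 𝕜 Ω).2 ω = ∑ i ∈ F ω, c ω i * es c hc i x := by
  -- both sides are continuous linear functionals which agree on the basis
  set L1 : XX c hc →L[𝕜] 𝕜 := ((lp.evalCLM 𝕜 (fun _ : Ω => 𝕜) ∞ ω).comp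
    (ContinuousLinearMap.snd 𝕜 _ _)).comp (XX c hc).subtypeL with hL1
  set L2 : XX c hc →L[𝕜] 𝕜 := ∑ i ∈ F ω, c ω i • es c hc i with hL2
  have hagree : ∀ j, L1 (ee c hc j) = L2 (ee c hc j) := by
    intro j
    have h1 : L1 (ee c hc j) = c ω j := rfl
    rw [h1, hL2]
    simp only [ContinuousLinearMap.sum_apply, ContinuousLinearMap.smul_apply, smul_eq_mul,
      biorth]
    by_cases hj : j ∈ F ω
    · rw [Finset.sum_eq_single j]
      · rw [if_pos rfl, mul_one]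
      · intro i _ hij
        rw [if_neg hij, mul_zero]
      · intro h; exact absurd hj h
    · rw [hF ω j hj]
      symm
      apply Finset.sum_eq_zero
      intro i hi
      rw [if_neg (show ¬ i = j from fun h => hj (h ▸ hi)), mul_zero]
  have heq : L1 = L2 := by
    have hsub : (⊤ : Submodule 𝕜 (XX c hc)) ≤ (L1 - L2).ker := by
      rw [← dense_span hc]
      apply Submodule.topologicalClosure_minimal
      · rw [Submodule.span_le]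
        rintro _ ⟨j, rfl⟩
        simp [hagree j]
      · exact (L1 - L2).isClosed_ker
    ext y
    have := hsub (Submodule.mem_top : y ∈ ⊤)
    have h0 : (L1 - L2) y = 0 := this
    rw [ContinuousLinearMap.sub_apply, sub_eq_zero] at h0
    exact h0
  have := congrArg (fun L : XX c hc →L[𝕜] 𝕜 => L x) heq
  simp only [hL2, ContinuousLinearMap.sum_apply, ContinuousLinearMap.smul_apply,
    smul_eq_mul] at this
  exact this

/-- Finite combinations. -/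
noncomputable def comb (c : Ω → ℕ → 𝕜) (hc : ∀ ω i, ‖c ω i‖ ≤ 1) (f : ℕ → 𝕜) (A : Finset ℕ) :
    XX c hc := ∑ i ∈ A, f i • ee c hc i

lemma comb_fst (hc : ∀ ω i, ‖c ω i‖ ≤ 1) (f : ℕ → 𝕜) (A : Finset ℕ) :
    (comb c hc f A : Amb 𝕜 Ω).1 = ∑ i ∈ A, lp.single 2 i (f i) := by
  unfold comb
  rw [Submodule.coe_sum, Prod.fst_sum]
  apply Finset.sum_congr rfl
  intro i _
  change f i • (lp.single 2 i (1 : 𝕜) : lp (fun _ : ℕ => 𝕜) 2) = _
  rw [← lp.single_smul, smul_eq_mul, mul_one]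

lemma comb_snd (hc : ∀ ω i, ‖c ω i‖ ≤ 1) (f : ℕ → 𝕜) (A : Finset ℕ) (ω : Ω) :
    (comb c hc f A : Amb 𝕜 Ω).2 ω = ∑ i ∈ A, f i * c ω i := by
  unfold comb
  rw [Submodule.coe_sum, Prod.snd_sum]
  have : ∀ s : Finset ℕ, (∑ i ∈ s, ((f i • ee c hc i : XX c hc) : Amb 𝕜 Ω).2 :
      lp (fun _ : Ω => 𝕜) ∞) ω = ∑ i ∈ s, f i * c ω i := by
    intro s
    classical
    induction s using Finset.induction_on with
    | empty => rfl
    | insert a s ha ih =>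
      rw [Finset.sum_insert ha, Finset.sum_insert ha, ← ih]
      rfl
  exact this A

lemma norm_comb_fst_sq (hc : ∀ ω i, ‖c ω i‖ ≤ 1) (f : ℕ → 𝕜) (A : Finset ℕ) :
    ‖(comb c hc f A : Amb 𝕜 Ω).1‖ ^ 2 = ∑ i ∈ A, ‖f i‖ ^ 2 := by
  rw [comb_fst]
  have h2 : (2 : ℝ≥0∞).toReal = 2 := by simp
  have := lp.norm_sum_single (E := fun _ : ℕ => 𝕜) (p := 2) (by simp) f A
  rw [h2] at this
  simpa using this

/-- Upper bound for the norm of a finite combination. -/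
lemma norm_comb_le (hc : ∀ ω i, ‖c ω i‖ ≤ 1) (f : ℕ → 𝕜) (A : Finset ℕ) {C : ℝ} (hC : 0 ≤ C)
    (h1 : ∑ i ∈ A, ‖f i‖ ^ 2 ≤ C ^ 2) (h2 : ∀ ω, ‖∑ i ∈ A, f i * c ω i‖ ≤ C) :
    ‖comb c hc f A‖ ≤ C := by
  change ‖(comb c hc f A : Amb 𝕜 Ω)‖ ≤ C
  rw [Prod.norm_def]
  apply max_le
  · rw [← norm_comb_fst_sq hc] at h1
    exact (pow_le_pow_iff_left₀ (norm_nonneg _) hC (by norm_num)).mp h1
  · apply lp.norm_le_of_forall_le hC
    intro ω
    rw [comb_snd]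
    exact h2 ω

lemma le_norm_comb_fst (hc : ∀ ω i, ‖c ω i‖ ≤ 1) (f : ℕ → 𝕜) (A : Finset ℕ) :
    ∑ i ∈ A, ‖f i‖ ^ 2 ≤ ‖comb c hc f A‖ ^ 2 := by
  rw [← norm_comb_fst_sq hc]
  apply pow_le_pow_left₀ (norm_nonneg _)
  exact le_max_left _ _

lemma le_norm_comb_snd (hc : ∀ ω i, ‖c ω i‖ ≤ 1) (f : ℕ → 𝕜) (A : Finset ℕ) (ω : Ω) :
    ‖∑ i ∈ A, f i * c ω i‖ ≤ ‖comb c hc f A‖ := by
  rw [← comb_snd hc]
  refine le_trans (lp.norm_apply_le_norm (by simp) _ ω) ?_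
  exact le_max_right _ _

lemma sum_es_sq_le (hc : ∀ ω i, ‖c ω i‖ ≤ 1) (x : XX c hc) (A : Finset ℕ) :
    ∑ i ∈ A, ‖es c hc i x‖ ^ 2 ≤ ‖x‖ ^ 2 := by
  have h2 : (2 : ℝ≥0∞).toReal = 2 := by simp
  have := lp.sum_rpow_le_norm_rpow (p := 2) (by simp) (x : Amb 𝕜 Ω).1 A
  rw [h2] at this
  have h3 : ∑ i ∈ A, ‖es c hc i x‖ ^ 2 ≤ ‖(x : Amb 𝕜 Ω).1‖ ^ 2 := by
    simpa [es_apply] using this
  refine le_trans h3 ?_
  apply pow_le_pow_left₀ (norm_nonneg _)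
  exact le_max_left _ _

lemma norm_es_le (hc : ∀ ω i, ‖c ω i‖ ≤ 1) (x : XX c hc) (i : ℕ) : ‖es c hc i x‖ ≤ ‖x‖ := by
  have := sum_es_sq_le hc x {i}
  rw [Finset.sum_singleton] at this
  exact (pow_le_pow_iff_left₀ (norm_nonneg _) (norm_nonneg _) (by norm_num)).mp this

lemma snd_le (hc : ∀ ω i, ‖c ω i‖ ≤ 1) {F : Ω → Finset ℕ} (hF : ∀ ω i, i ∉ F ω → c ω i = 0)
    (x : XX c hc) (ω : Ω) : ‖∑ i ∈ F ω, c ω i * es c hc i x‖ ≤ ‖x‖ := by
  rw [← rel hc hF]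
  refine le_trans (lp.norm_apply_le_norm (by simp) _ ω) ?_
  exact le_max_right _ _

lemma total (hc : ∀ ω i, ‖c ω i‖ ≤ 1) {F : Ω → Finset ℕ} (hF : ∀ ω i, i ∉ F ω → c ω i = 0)
    (x : XX c hc) (h : ∀ i, es c hc i x = 0) : x = 0 := by
  apply Subtype.ext
  apply Prod.ext
  · apply lp.ext
    funext i
    exact h i
  · apply lp.ext
    funext ω
    rw [rel hc hF]
    simp [h]

lemma norm_ee_le (hc : ∀ ω i, ‖c ω i‖ ≤ 1) (i : ℕ) : ‖ee c hc i‖ ≤ 1 := by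
  have e : ee c hc i = comb c hc (fun _ => 1) {i} := by
    unfold comb; simp
  rw [e]
  apply norm_comb_le hc _ _ zero_le_one
  · simp
  · intro ω; simpa using hc ω i

end Pool.Agent.X122.LpBasis
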