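import Mathlib

/-!
# Approximation by positive kernels in the Hausdorff metric: the core estimate
-/

namespace Pool.Agent.X122.HausKer

open MeasureTheory Filter Topology Set

/-- `conv K f x = ∫ f (x + s) K(s) ds`. -/
noncomputable def conv (K f : ℝ → ℝ) (x : ℝ) : ℝ := ∫ s, f (x + s) * K s

/-- Positive kernels concentrating at scale `h i`. -/
structure GoodKernel {ι : Type*} (l : Filter ι) (K : ι → ℝ → ℝ) (h : ι → ℝ) : Prop where
  nonneg : ∀ᶠ i in l, ∀ s, 0 ≤ K i s
  integrable : ∀ᶠ i in l, Integrable (K i)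
  mass : ∀ᶠ i in l, ∫ s, K i s = 1
  hpos : ∀ᶠ i in l, 0 < h i
  hlim : Tendsto h l (𝓝 0)
  low : ∀ B : ℝ, 0 < B → ∃ c > 0, ∀ᶠ i in l, ∀ s, |s| ≤ B * h i → c / h i ≤ K i s
  tail : ∀ η > 0, ∀ ε > 0, ∀ᶠ i in l, ∫ s in {s : ℝ | η ≤ |s|}, K i s ≤ ε

lemma integrable_mul {K f : ℝ → ℝ} (hK : Integrable K) (hf : AEStronglyMeasurable f) {F : ℝ}
    (hF : ∀ x, |f x| ≤ F) (x : ℝ) : Integrable (fun s => f (x + s) * K s) := by
  have h1 : AEStronglyMeasurable (fun s => f (x + s)) :=
    hf.comp_quasiMeasurePreserving (measurePreserving_add_left volume x).quasiMeasurePreserving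
  exact hK.bdd_mul h1 (ae_of_all _ fun s => by simpa using hF (x + s))

lemma one_side {ι : Type*} {l : Filter ι} {K : ι → ℝ → ℝ} {h : ι → ℝ} (gk : GoodKernel l K h)
    (B : ℝ) (hB : 0 < B) : ∃ c > 0, ∀ (f : ℝ → ℝ) (F x0 M : ℝ), AEStronglyMeasurable f →
      (∀ x, |f x| ≤ F) → (∀ ε > 0, ∀ᶠ t in 𝓝 x0, f t ≤ M + ε) →
      (∀ ε > 0, ∀ᶠ i in l, ∃ x, |x - x0| ≤ B * h i ∧ M - ε ≤ conv (K i) f x) →
      ∀ ε > 0, ∀ᶠ i in l, ∫ t in (x0 - h i)..(x0 + h i), (M + ε - f t) ≤ h i / c * (3 * ε) := by
  obtain ⟨c, hc, hlow⟩ := gk.low (B + 1) (by linarith)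
  refine ⟨c, hc, ?_⟩
  intro f F x0 M hf hF hup hU ε hε
  obtain ⟨η, hη, hball⟩ := Metric.eventually_nhds_iff.mp (hup ε hε)
  have hF0 : 0 ≤ F := le_trans (abs_nonneg _) (hF 0)
  set G : ℝ := |M| + ε + F with hG
  have hG0 : 0 < G := by have := abs_nonneg M; linarith
  have hsmall : ∀ᶠ i in l, (B + 1) * h i < η / 2 := by
    have : Tendsto (fun i => (B + 1) * h i) l (𝓝 ((B + 1) * 0)) := gk.hlim.const_mul _
    rw [mul_zero] at this
    exact this.eventually (gt_mem_nhds (by linarith))
  filter_upwards [gk.nonneg, gk.integrable, gk.mass, gk.hpos, hlow, gk.tail (η / 2) (by linarith)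
    (ε / G) (by positivity), hU ε hε, hsmall] with i hK0 hKi hK1 hh hKlow hKtail hUi hsm
  obtain ⟨x, hx, hxc⟩ := hUi
  set k := K i with hk
  set r := h i with hr
  set g : ℝ → ℝ := fun t => M + ε - f t with hg
  have hgm : AEStronglyMeasurable g := aestronglyMeasurable_const.sub hf
  have hgb : ∀ t, |g t| ≤ G := by
    intro t
    have h1 := hF t
    have h2 := abs_sub (M + ε) (f t)
    have h3 := abs_add_le M ε
    rw [abs_of_pos hε] at h3
    calc |g t| ≤ |M + ε| + |f t| := h2
      _ ≤ G := by rw [hG]; linarith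
  have hxB : |x - x0| < η / 2 := lt_of_le_of_lt (le_trans hx (by nlinarith)) hsm
  have hgi : Integrable (fun s => g (x + s) * k s) := integrable_mul hKi hgm hgb x
  have hfi : Integrable (fun s => f (x + s) * k s) := integrable_mul hKi hf hF x
  have htot : ∫ s, g (x + s) * k s ≤ 2 * ε := by
    have e1 : (fun s => g (x + s) * k s) = fun s => (M + ε) * k s - f (x + s) * k s := by
      funext s; simp only [hg]; ring
    rw [e1, integral_sub (hKi.const_mul _) hfi, integral_const_mul, hK1]
    have : conv k f x = ∫ s, f (x + s) * k s := rfl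
    linarith
  -- split
  set T : Set ℝ := {s : ℝ | η / 2 ≤ |s|} with hT
  have hTm : MeasurableSet T := measurableSet_le measurable_const measurable_id.abs
  have hsplit := integral_add_compl hTm hgi
  have hTb : -ε ≤ ∫ s in T, g (x + s) * k s := by
    have h1 : |∫ s in T, g (x + s) * k s| ≤ ∫ s in T, G * k s := by
      rw [← Real.norm_eq_abs]
      apply norm_integral_le_of_norm_le (hKi.const_mul G).integrableOn
      refine ae_of_all _ fun s => ?_
      rw [Real.norm_eq_abs, abs_mul, abs_of_nonneg (hK0 s)]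
      exact mul_le_mul_of_nonneg_right (hgb _) (hK0 s)
    rw [integral_const_mul] at h1
    have h2 : G * ∫ s in T, k s ≤ ε := by
      calc G * ∫ s in T, k s ≤ G * (ε / G) := mul_le_mul_of_nonneg_left hKtail hG0.le
        _ = ε := by field_simp
    have h3 := (abs_le.mp (le_trans h1 h2)).1
    exact h3
  have hTc : ∫ s in Tᶜ, g (x + s) * k s ≤ 3 * ε := by linarith
  have hgpos : ∀ s ∈ Tᶜ, 0 ≤ g (x + s) := by
    intro s hs
    have hs' : |s| < η / 2 := by simpa [hT] using hs
    have : dist (x + s) x0 < η := by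
      rw [Real.dist_eq]
      have : x + s - x0 = (x - x0) + s := by ring
      rw [this]
      exact lt_of_le_of_lt (abs_add_le _ _) (by linarith)
    have := hball this
    simp only [hg]; linarith
  -- the short interval
  set J : Set ℝ := Ioc (x0 - x - r) (x0 - x + r) with hJ
  have hJs : ∀ s ∈ J, |s| ≤ (B + 1) * r := by
    intro s hs
    have h1 := (abs_le.mp hx)
    rw [abs_le]
    constructor
    · have := hs.1; nlinarith [h1.2]
    · have := hs.2; nlinarith [h1.1]
  have hJT : J ⊆ Tᶜ := by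
    intro s hs
    have := hJs s hs
    simp only [hT, mem_compl_iff, mem_setOf_eq, not_le]
    exact lt_of_le_of_lt this hsm
  have hint : ∫ t in (x0 - r)..(x0 + r), g t = ∫ s in J, g (x + s) := by
    have h1 := intervalIntegral.integral_comp_add_left (a := x0 - x - r) (b := x0 - x + r) g x
    have e1 : x + (x0 - x - r) = x0 - r := by ring
    have e2 : x + (x0 - x + r) = x0 + r := by ring
    rw [e1, e2] at h1
    rw [← h1, intervalIntegral.integral_of_le (by linarith)]
  change ∫ t in (x0 - r)..(x0 + r), g t ≤ _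
  rw [hint]
  have hstep1 : ∫ s in J, g (x + s) ≤ ∫ s in J, (r / c) * (g (x + s) * k s) := by
    apply setIntegral_mono_on
    · have h1 : AEStronglyMeasurable (fun s => g (x + s)) :=
        hgm.comp_quasiMeasurePreserving
          (measurePreserving_add_left volume x).quasiMeasurePreserving
      apply Measure.integrableOn_of_bounded (M := G)
      · simp [hJ]
      · exact h1
      · exact ae_of_all _ fun s => by simpa using hgb (x + s)
    · exact (hgi.const_mul _).integrableOn
    · exact measurableSet_Ioc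
    · intro s hs
      have h1 := hKlow s (hJs s hs)
      have h2 := hgpos s (hJT hs)
      have h3 : 1 ≤ (r / c) * k s := by
        calc 1 = (r / c) * (c / r) := by field_simp
          _ ≤ (r / c) * k s := mul_le_mul_of_nonneg_left h1 (by positivity)
      calc g (x + s) = g (x + s) * 1 := by ring
        _ ≤ g (x + s) * ((r / c) * k s) := mul_le_mul_of_nonneg_left h3 h2
        _ = (r / c) * (g (x + s) * k s) := by ring
  have hstep2 : ∫ s in J, (r / c) * (g (x + s) * k s) ≤
      ∫ s in Tᶜ, (r / c) * (g (x + s) * k s) := by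
    apply setIntegral_mono_set (hgi.const_mul _).integrableOn
    · refine (ae_restrict_iff' hTm.compl).mpr (ae_of_all _ fun s hs => ?_)
      exact mul_nonneg (by positivity) (mul_nonneg (hgpos s hs) (hK0 s))
    · exact (HasSubset.Subset.eventuallyLE hJT)
  calc ∫ s in J, g (x + s) ≤ ∫ s in Tᶜ, (r / c) * (g (x + s) * k s) := le_trans hstep1 hstep2
    _ = (r / c) * ∫ s in Tᶜ, g (x + s) * k s := integral_const_mul _ _
    _ ≤ (r / c) * (3 * ε) := mul_le_mul_of_nonneg_left hTc (by positivity)

lemma conv_neg (K f : ℝ → ℝ) (x : ℝ) : conv K (fun t => -f t) x = -conv K f x := by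
  unfold conv
  rw [← integral_neg]
  congr 1
  funext s
  ring

/-- The core estimate. -/
theorem core {ι : Type*} {l : Filter ι} [l.NeBot] {K : ι → ℝ → ℝ} {h : ι → ℝ}
    (gk : GoodKernel l K h) {f : ℝ → ℝ} (hf : AEStronglyMeasurable f) {F : ℝ}
    (hF : ∀ x, |f x| ≤ F) {x0 M m : ℝ}
    (hup : ∀ ε > 0, ∀ᶠ t in 𝓝 x0, f t ≤ M + ε) (hlo : ∀ ε > 0, ∀ᶠ t in 𝓝 x0, m - ε ≤ f t)
    {B : ℝ} (hB : 0 < B)
    (hU : ∀ ε > 0, ∀ᶠ i in l, ∃ x, |x - x0| ≤ B * h i ∧ M - ε ≤ conv (K i) f x)
    (hL : ∀ ε > 0, ∀ᶠ i in l, ∃ x, |x - x0| ≤ B * h i ∧ conv (K i) f x ≤ m + ε) : M ≤ m := by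
  obtain ⟨c, hc, H⟩ := one_side gk B hB
  have h1 := H f F x0 M hf hF hup hU
  have h2 := H (fun t => -f t) F x0 (-m) hf.neg (fun x => by rw [abs_neg]; exact hF x)
    (fun ε hε => by
      filter_upwards [hlo ε hε] with t ht
      linarith)
    (fun ε hε => by
      filter_upwards [hL ε hε] with i hi
      obtain ⟨x, hx, hx'⟩ := hi
      exact ⟨x, hx, by rw [conv_neg]; linarith⟩)
  have key : ∀ ε > 0, M - m ≤ 3 * ε / c := by
    intro ε hε
    obtain ⟨i, ⟨ha, hb⟩, hi⟩ := ((h1 ε hε).and (h2 ε hε) |>.and gk.hpos).exists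
    set r := h i with hr
    have hfi : IntervalIntegrable f volume (x0 - r) (x0 + r) := by
      rw [intervalIntegrable_iff]
      apply Measure.integrableOn_of_bounded (M := F)
      · simp [uIoc]
      · exact hf
      · exact ae_of_all _ fun s => by simpa using hF s
    have hsum : (∫ t in (x0 - r)..(x0 + r), (M + ε - f t)) +
        ∫ t in (x0 - r)..(x0 + r), (-m + ε - -f t) = 2 * r * (M - m + 2 * ε) := by
      rw [← intervalIntegral.integral_add]
      · have : (fun t => M + ε - f t + (-m + ε - -f t)) = fun _ => M - m + 2 * ε := by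
          funext t; ring
        rw [this, intervalIntegral.integral_const, smul_eq_mul]
        ring
      · exact (intervalIntegrable_const).sub hfi
      · exact (intervalIntegrable_const).sub hfi.neg
    have hle : 2 * r * (M - m + 2 * ε) ≤ 2 * r * (3 * ε / c) := by
      rw [← hsum]
      calc _ ≤ r / c * (3 * ε) + r / c * (3 * ε) := add_le_add ha hb
        _ = 2 * r * (3 * ε / c) := by ring
    have h5 := le_of_mul_le_mul_left hle (by positivity)
    linarith
  have : M - m ≤ 0 := by
    apply le_of_forall_pos_le_add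
    intro δ hδ
    have := key (c * δ / 3) (by positivity)
    have e : 3 * (c * δ / 3) / c = δ := by field_simp
    rw [e] at this
    linarith
  linarith

end Pool.Agent.X122.HausKer
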