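import Mathlib
import Pool.Agent.X122.HausKer

/-!
# The de la Vallee Poussin kernel is a good kernel
-/

namespace Pool.Agent.X122.HausKer

open MeasureTheory Filter Topology Set

noncomputable def kV (n : ℕ) (s : ℝ) : ℝ :=
  ((n.factorial : ℝ) ^ 2 / ((2 * n).factorial : ℝ)) * (1 / (2 * Real.pi)) *
    (2 * Real.cos (s / 2)) ^ (2 * n)

noncomputable def KV (n : ℕ) : ℝ → ℝ := indicator (Ioc (-Real.pi) Real.pi) (kV n)

lemma fact_eq (n : ℕ) : (n.factorial : ℝ) ^ 2 / ((2 * n).factorial : ℝ) =
    1 / (n.centralBinom : ℝ) := by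
  have h := Nat.choose_mul_factorial_mul_factorial (show n ≤ 2 * n by omega)
  have e : 2 * n - n = n := by omega
  rw [e] at h
  have h1 : ((2 * n).factorial : ℝ) = (n.centralBinom : ℝ) * (n.factorial : ℝ) ^ 2 := by
    rw [← h, Nat.centralBinom_eq_two_mul_choose]
    push_cast
    ring
  have h2 : (0 : ℝ) < n.centralBinom := by exact_mod_cast n.centralBinom_pos
  have h3 : (0 : ℝ) < n.factorial := by exact_mod_cast n.factorial_pos
  rw [h1]
  field_simp

lemma central_sq (n : ℕ) : (n.centralBinom : ℝ) ^ 2 * (2 * n + 1) ≤ 16 ^ n := by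
  induction n with
  | zero => simp
  | succ n ih =>
    have h := Nat.succ_mul_centralBinom_succ n
    have h' : ((n : ℝ) + 1) * ((n + 1).centralBinom : ℝ) =
        2 * (2 * n + 1) * (n.centralBinom : ℝ) := by exact_mod_cast h
    have hn : (0 : ℝ) ≤ n := Nat.cast_nonneg n
    have h1 : (((n : ℝ) + 1) * ((n + 1).centralBinom : ℝ)) ^ 2 * (2 * (n : ℝ) + 3) ≤
        16 ^ (n + 1) * ((n : ℝ) + 1) ^ 2 := by
      rw [h']
      calc (2 * (2 * (n : ℝ) + 1) * (n.centralBinom : ℝ)) ^ 2 * (2 * (n : ℝ) + 3)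
          = ((n.centralBinom : ℝ) ^ 2 * (2 * (n : ℝ) + 1)) *
              (4 * (2 * (n : ℝ) + 1) * (2 * (n : ℝ) + 3)) := by ring
        _ ≤ (16 : ℝ) ^ n * (4 * (2 * (n : ℝ) + 1) * (2 * (n : ℝ) + 3)) :=
            mul_le_mul_of_nonneg_right ih (by positivity)
        _ ≤ (16 : ℝ) ^ n * (16 * ((n : ℝ) + 1) ^ 2) := by
            apply mul_le_mul_of_nonneg_left _ (by positivity)
            nlinarith
        _ = (16 : ℝ) ^ (n + 1) * ((n : ℝ) + 1) ^ 2 := by ring
    have h2 : (((n + 1).centralBinom : ℝ)) ^ 2 * (2 * ((n + 1 : ℕ) : ℝ) + 1) *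
        ((n : ℝ) + 1) ^ 2 ≤ 16 ^ (n + 1) * ((n : ℝ) + 1) ^ 2 := by
      refine le_trans (le_of_eq ?_) h1
      push_cast
      ring
    exact le_of_mul_le_mul_right h2 (by positivity)

lemma central_sqrt (n : ℕ) : (n.centralBinom : ℝ) * √(n : ℝ) ≤ 4 ^ n := by
  have h0 : (0 : ℝ) ≤ (n.centralBinom : ℝ) * √(n : ℝ) := by positivity
  have h1 : ((n.centralBinom : ℝ) * √(n : ℝ)) ^ 2 ≤ (4 ^ n) ^ 2 := by
    rw [mul_pow, Real.sq_sqrt (Nat.cast_nonneg n)]
    have e : ((4 : ℝ) ^ n) ^ 2 = 16 ^ n := by
      rw [← pow_mul, mul_comm, pow_mul]; norm_num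
    rw [e]
    refine le_trans ?_ (central_sq n)
    apply mul_le_mul_of_nonneg_left _ (by positivity)
    have hn : (0 : ℝ) ≤ n := Nat.cast_nonneg n
    linarith
  exact (pow_le_pow_iff_left₀ h0 (by positivity) (by norm_num)).mp h1

lemma prod_central (n : ℕ) : ∏ i ∈ Finset.range n, (2 * (i : ℝ) + 1) / (2 * i + 2) =
    (n.centralBinom : ℝ) / 4 ^ n := by
  induction n with
  | zero => simp
  | succ n ih =>
    rw [Finset.prod_range_succ, ih]
    have h := Nat.succ_mul_centralBinom_succ n
    have h' : ((n : ℝ) + 1) * ((n + 1).centralBinom : ℝ) =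
        2 * (2 * n + 1) * (n.centralBinom : ℝ) := by exact_mod_cast h
    have hn : (0 : ℝ) < (n : ℝ) + 1 := by positivity
    have h2 : ((n + 1).centralBinom : ℝ) = 2 * (2 * n + 1) * (n.centralBinom : ℝ) / (n + 1) := by
      rw [eq_div_iff hn.ne']; linarith
    rw [h2]
    field_simp
    ring

lemma kV_nonneg (n : ℕ) (s : ℝ) : 0 ≤ kV n s := by
  unfold kV
  have := Real.pi_pos
  have h2 : 0 ≤ (2 * Real.cos (s / 2)) ^ (2 * n) := by
    rw [pow_mul]; positivity
  positivity

lemma kV_continuous (n : ℕ) : Continuous (kV n) := by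
  unfold kV
  fun_prop

lemma kV_integral (n : ℕ) : ∫ s in (-Real.pi)..Real.pi, kV n s = 1 := by
  have hpi := Real.pi_pos
  unfold kV
  rw [intervalIntegral.integral_const_mul, fact_eq]
  have h1 : ∫ s in (-Real.pi)..Real.pi, (2 * Real.cos (s / 2)) ^ (2 * n) =
      2 * ∫ u in (-(Real.pi / 2))..(Real.pi / 2), (2 * Real.cos u) ^ (2 * n) := by
    have := intervalIntegral.integral_comp_div (a := -Real.pi) (b := Real.pi)
      (fun u => (2 * Real.cos u) ^ (2 * n)) (two_ne_zero (α := ℝ))
    rw [this, smul_eq_mul, neg_div]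
  have h2 : ∫ u in (-(Real.pi / 2))..(Real.pi / 2), (2 * Real.cos u) ^ (2 * n) =
      4 ^ n * ∫ x in (0 : ℝ)..Real.pi, Real.sin x ^ (2 * n) := by
    have e1 : (fun u => (2 * Real.cos u) ^ (2 * n)) =
        fun u => 4 ^ n * Real.sin (u + Real.pi / 2) ^ (2 * n) := by
      funext u
      rw [Real.sin_add_pi_div_two, mul_pow, pow_mul (2 : ℝ)]
      norm_num
    rw [e1, intervalIntegral.integral_const_mul]
    have := intervalIntegral.integral_comp_add_right (a := -(Real.pi / 2)) (b := Real.pi / 2)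
      (fun x => Real.sin x ^ (2 * n)) (Real.pi / 2)
    rw [this]
    congr 3 <;> ring
  rw [h1, h2, integral_sin_pow_even, prod_central]
  have h3 : (0 : ℝ) < n.centralBinom := by exact_mod_cast n.centralBinom_pos
  field_simp

lemma exp_le_one_sub {x : ℝ} (h0 : 0 ≤ x) (h1 : x ≤ 1 / 2) : Real.exp (-(2 * x)) ≤ 1 - x := by
  have h2 : 1 + 2 * x ≤ Real.exp (2 * x) := by
    have := Real.add_one_le_exp (2 * x)
    linarith
  rw [Real.exp_neg, inv_le_comm₀ (Real.exp_pos _) (by linarith)]
  refine le_trans ?_ h2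
  rw [inv_le_iff_one_le_mul₀ (by linarith)]
  nlinarith

lemma goodV : GoodKernel atTop KV (fun n : ℕ => 1 / √(n : ℝ)) := by
  have hpi := Real.pi_pos
  have hKint : ∀ n, Integrable (KV n) := fun n =>
    (((kV_continuous n).integrableOn_Icc).mono_set Ioc_subset_Icc_self).integrable_indicator
      measurableSet_Ioc
  refine ⟨?_, ?_, ?_, ?_, ?_, ?_, ?_⟩
  · exact Eventually.of_forall fun n s => indicator_nonneg (fun s _ => kV_nonneg n s) s
  · exact Eventually.of_forall hKint
  · refine Eventually.of_forall fun n => ?_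
    unfold KV
    rw [integral_indicator measurableSet_Ioc, ← intervalIntegral.integral_of_le (by linarith)]
    exact kV_integral n
  · filter_upwards [eventually_gt_atTop 0] with n hn
    have hn' : (0 : ℝ) < n := by exact_mod_cast hn
    positivity
  · have h1 : Tendsto (fun n : ℕ => √(n : ℝ)) atTop atTop :=
      Real.tendsto_sqrt_atTop.comp tendsto_natCast_atTop_atTop
    exact h1.inv_tendsto_atTop.congr fun n => by simp
  · intro B hB
    refine ⟨1 / (2 * Real.pi) * Real.exp (-(B ^ 2 / 2)), by positivity, ?_⟩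
    have hlarge : ∀ᶠ n : ℕ in atTop, B ^ 2 + 1 < (n : ℝ) :=
      tendsto_natCast_atTop_atTop.eventually_gt_atTop _
    filter_upwards [eventually_gt_atTop 0, hlarge] with n hn hn2
    have hn' : (0 : ℝ) < n := by exact_mod_cast hn
    intro s hs
    have hsq : √(n : ℝ) ^ 2 = n := Real.sq_sqrt hn'.le
    have hsn : 0 < √(n : ℝ) := by positivity
    have e2 : (n : ℝ) * s ^ 2 ≤ B ^ 2 := by
      have h1 : |s| * √(n : ℝ) ≤ B := by
        calc |s| * √(n : ℝ) ≤ (B * (1 / √(n : ℝ))) * √(n : ℝ) :=
              mul_le_mul_of_nonneg_right hs hsn.le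
          _ = B := by field_simp
      have h2 : 0 ≤ |s| * √(n : ℝ) := by positivity
      have h3 : (|s| * √(n : ℝ)) ^ 2 ≤ B ^ 2 := by gcongr
      rw [mul_pow, sq_abs, hsq] at h3
      linarith
    have hs1 : s ^ 2 ≤ 1 := by
      by_contra hcon
      push Not at hcon
      nlinarith
    have hs1' : |s| ≤ 1 := by
      rw [← sq_abs] at hs1
      nlinarith [abs_nonneg s]
    have hpi3 : (3 : ℝ) < Real.pi := Real.pi_gt_three
    have hmem : s ∈ Ioc (-Real.pi) Real.pi := by
      obtain ⟨h1, h2⟩ := abs_le.mp hs1'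
      exact ⟨by linarith, by linarith⟩
    unfold KV
    rw [indicator_of_mem hmem]
    unfold kV
    rw [fact_eq, mul_pow, pow_mul 2 2 n]
    norm_num only [one_div_one_div]
    have hcos : 1 - (s / 2) ^ 2 / 2 ≤ Real.cos (s / 2) := Real.one_sub_sq_div_two_le_cos
    have hx0 : 0 ≤ (s / 2) ^ 2 / 2 := by positivity
    have hx1 : (s / 2) ^ 2 / 2 ≤ 1 / 2 := by nlinarith
    have hexp := exp_le_one_sub hx0 hx1
    have hcos2 : Real.exp (-(2 * ((s / 2) ^ 2 / 2))) ≤ Real.cos (s / 2) := le_trans hexp hcos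
    have hpow : Real.exp (-(B ^ 2 / 2)) ≤ Real.cos (s / 2) ^ (2 * n) := by
      calc Real.exp (-(B ^ 2 / 2)) ≤ Real.exp (((2 * n : ℕ) : ℝ) * (-(2 * ((s / 2) ^ 2 / 2)))) := by
            apply Real.exp_le_exp.mpr
            push_cast
            nlinarith
        _ = Real.exp (-(2 * ((s / 2) ^ 2 / 2))) ^ (2 * n) := Real.exp_nat_mul _ _
        _ ≤ Real.cos (s / 2) ^ (2 * n) := by gcongr
    have h3 : (0 : ℝ) < n.centralBinom := by exact_mod_cast n.centralBinom_pos
    have h4 : √(n : ℝ) ≤ 4 ^ n / n.centralBinom := by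
      rw [le_div_iff₀ h3, mul_comm]
      exact central_sqrt n
    calc 1 / (2 * Real.pi) * Real.exp (-(B ^ 2 / 2)) / (1 / √(n : ℝ))
        = 1 / (2 * Real.pi) * (√(n : ℝ) * Real.exp (-(B ^ 2 / 2))) := by field_simp
      _ ≤ 1 / (2 * Real.pi) * (4 ^ n / n.centralBinom * Real.cos (s / 2) ^ (2 * n)) := by
          gcongr
      _ = _ := by
          field_simp
  · intro η hη ε hε
    set η' := min η Real.pi with hη'
    have hη'0 : 0 < η' := lt_min hη hpi
    have hη'1 : η' ≤ Real.pi := min_le_right _ _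
    set q := Real.cos (η' / 2) with hq
    have hq0 : 0 ≤ q := Real.cos_nonneg_of_mem_Icc ⟨by linarith, by linarith⟩
    have hq1 : q < 1 := by
      have := Real.cos_lt_cos_of_nonneg_of_le_pi le_rfl (by linarith : η' / 2 ≤ Real.pi)
        (by linarith)
      rwa [Real.cos_zero] at this
    have hlim : Tendsto (fun n : ℕ => 2 * ((n : ℝ) * (q ^ 2) ^ n)) atTop (𝓝 0) := by
      have h1 := (tendsto_self_mul_const_pow_of_lt_one (sq_nonneg q) (by nlinarith : q ^ 2 < 1))
      simpa using h1.const_mul 2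
    filter_upwards [eventually_gt_atTop 0, hlim.eventually (gt_mem_nhds hε)] with n hn hlt
    have hn' : (0 : ℝ) < n := by exact_mod_cast hn
    refine le_trans ?_ hlt.le
    set c := 2 * ((n : ℝ) * (q ^ 2) ^ n) with hc
    have hc0 : 0 ≤ c := by positivity
    have hm : MeasurableSet {s : ℝ | η ≤ |s|} :=
      measurableSet_le measurable_const measurable_id.abs
    have hcint : Integrable (indicator (Ioc (-Real.pi) Real.pi) (fun _ => 1 / (2 * Real.pi) * c)) := by
      rw [integrable_indicator_iff measurableSet_Ioc]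
      exact (continuous_const.integrableOn_Icc).mono_set Ioc_subset_Icc_self
    have h3 : (0 : ℝ) < n.centralBinom := by exact_mod_cast n.centralBinom_pos
    have h4 : (4 : ℝ) ^ n ≤ 2 * n * n.centralBinom := by
      exact_mod_cast Nat.four_pow_le_two_mul_self_mul_centralBinom n hn
    calc ∫ s in {s : ℝ | η ≤ |s|}, KV n s
        ≤ ∫ s in {s : ℝ | η ≤ |s|},
            indicator (Ioc (-Real.pi) Real.pi) (fun _ => 1 / (2 * Real.pi) * c) s := by
          apply setIntegral_mono_on (hKint n).integrableOn hcint.integrableOn hm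
          intro s hs
          have hs' : η ≤ |s| := hs
          unfold KV
          by_cases hmem : s ∈ Ioc (-Real.pi) Real.pi
          · rw [indicator_of_mem hmem, indicator_of_mem hmem]
            unfold kV
            rw [fact_eq, mul_pow, pow_mul 2 2 n]
            have h5 : |s| ≤ Real.pi := abs_le.mpr ⟨hmem.1.le, hmem.2⟩
            have h6 : Real.cos (s / 2) ≤ q := by
              rw [← Real.cos_abs (s / 2), abs_div, abs_two]
              exact Real.cos_le_cos_of_nonneg_of_le_pi (by linarith) (by linarith)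
                (by have := le_trans (min_le_left η Real.pi) hs'; linarith)
            have h7 : 0 ≤ Real.cos (s / 2) := by
              obtain ⟨h8, h9⟩ := abs_le.mp h5
              exact Real.cos_nonneg_of_mem_Icc ⟨by linarith, by linarith⟩
            have h8 : Real.cos (s / 2) ^ (2 * n) ≤ (q ^ 2) ^ n := by
              rw [← pow_mul]; gcongr
            have h9 : (4 : ℝ) ^ n / n.centralBinom ≤ 2 * n := by
              rw [div_le_iff₀ h3]; exact h4
            have h10 : 0 ≤ Real.cos (s / 2) ^ (2 * n) := by positivity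
            calc 1 / (n.centralBinom : ℝ) * (1 / (2 * Real.pi)) *
                  ((2 ^ 2) ^ n * Real.cos (s / 2) ^ (2 * n))
                = 1 / (2 * Real.pi) * (4 ^ n / n.centralBinom * Real.cos (s / 2) ^ (2 * n)) := by
                  norm_num
                  field_simp
              _ ≤ 1 / (2 * Real.pi) * (2 * n * (q ^ 2) ^ n) := by
                  gcongr
              _ = 1 / (2 * Real.pi) * c := by rw [hc]; ring
          · rw [indicator_of_notMem hmem, indicator_of_notMem hmem]
      _ ≤ ∫ s, indicator (Ioc (-Real.pi) Real.pi) (fun _ => 1 / (2 * Real.pi) * c) s := by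
          apply setIntegral_le_integral hcint
          exact Eventually.of_forall fun s => indicator_nonneg (fun _ _ => by positivity) s
      _ = c := by
          rw [integral_indicator measurableSet_Ioc, setIntegral_const]
          simp only [measureReal_def, Real.volume_Ioc, smul_eq_mul]
          rw [ENNReal.toReal_ofReal (by linarith)]
          field_simp
          ring

end Pool.Agent.X122.HausKer
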