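import Mathlib
import Pool.Agent.X122.HausKer

/-!
# The Weierstrass, Poisson and de la Vallee Poussin kernels are good kernels
-/

namespace Pool.Agent.X122.HausKer

open MeasureTheory Filter Topology Set

/-! ### Weierstrass -/

noncomputable def KW (n : ℕ) (s : ℝ) : ℝ := √(n / Real.pi) * Real.exp (-(n : ℝ) * s ^ 2)

lemma goodW : GoodKernel atTop KW (fun n : ℕ => 1 / √(n : ℝ)) := by
  have hpi := Real.pi_pos
  refine ⟨?_, ?_, ?_, ?_, ?_, ?_, ?_⟩
  · exact Eventually.of_forall fun n s => by unfold KW; positivity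
  · filter_upwards [eventually_gt_atTop 0] with n hn
    have hn' : (0 : ℝ) < n := by exact_mod_cast hn
    exact (integrable_exp_neg_mul_sq hn').const_mul _
  · filter_upwards [eventually_gt_atTop 0] with n hn
    have hn' : (0 : ℝ) < n := by exact_mod_cast hn
    unfold KW
    rw [integral_const_mul, integral_gaussian, ← Real.sqrt_mul (by positivity)]
    have : (n : ℝ) / Real.pi * (Real.pi / n) = 1 := by field_simp
    rw [this, Real.sqrt_one]
  · filter_upwards [eventually_gt_atTop 0] with n hn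
    have hn' : (0 : ℝ) < n := by exact_mod_cast hn
    positivity
  · have h1 : Tendsto (fun n : ℕ => √(n : ℝ)) atTop atTop :=
      Real.tendsto_sqrt_atTop.comp tendsto_natCast_atTop_atTop
    exact h1.inv_tendsto_atTop.congr fun n => by simp
  · intro B hB
    refine ⟨√(1 / Real.pi) * Real.exp (-B ^ 2), by positivity, ?_⟩
    filter_upwards [eventually_gt_atTop 0] with n hn
    have hn' : (0 : ℝ) < n := by exact_mod_cast hn
    intro s hs
    have hsq : √(n : ℝ) ^ 2 = n := Real.sq_sqrt hn'.le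
    have hsn : 0 < √(n : ℝ) := by positivity
    unfold KW
    have e1 : √((n : ℝ) / Real.pi) = √(1 / Real.pi) * √(n : ℝ) := by
      rw [← Real.sqrt_mul (by positivity)]; congr 1; ring
    have e2 : (n : ℝ) * s ^ 2 ≤ B ^ 2 := by
      have h1 : |s| * √(n : ℝ) ≤ B := by
        calc |s| * √(n : ℝ) ≤ (B * (1 / √(n : ℝ))) * √(n : ℝ) :=
              mul_le_mul_of_nonneg_right hs hsn.le
          _ = B := by field_simp
      have h2 : 0 ≤ |s| * √(n : ℝ) := by positivity
      have h3 : (|s| * √(n : ℝ)) ^ 2 ≤ B ^ 2 := by gcongr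
      rw [mul_pow, sq_abs, hsq] at h3
      linarith
    rw [e1]
    have e3 : √(1 / Real.pi) * Real.exp (-B ^ 2) / (1 / √(n : ℝ)) =
        √(1 / Real.pi) * √(n : ℝ) * Real.exp (-B ^ 2) := by
      field_simp
    rw [e3]
    apply mul_le_mul_of_nonneg_left _ (by positivity)
    apply Real.exp_le_exp.mpr
    linarith
  · intro η hη ε hε
    have hlim : Tendsto (fun n : ℕ => √2 * Real.exp (-(n : ℝ) * (η ^ 2 / 2))) atTop (𝓝 0) := by
      have h1 : Tendsto (fun n : ℕ => (n : ℝ) * (η ^ 2 / 2)) atTop atTop :=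
        tendsto_natCast_atTop_atTop.atTop_mul_const (by positivity)
      have h2 := (Real.tendsto_exp_neg_atTop_nhds_zero.comp h1).const_mul √2
      rw [mul_zero] at h2
      refine h2.congr fun n => ?_
      simp only [Function.comp]
      rw [neg_mul]
    filter_upwards [eventually_gt_atTop 0, hlim.eventually (gt_mem_nhds hε)] with n hn hlt
    have hn' : (0 : ℝ) < n := by exact_mod_cast hn
    have hn2 : (0 : ℝ) < n / 2 := by positivity
    refine le_trans ?_ hlt.le
    have hI : Integrable (fun s : ℝ => √((n : ℝ) / Real.pi) * Real.exp (-(n : ℝ) * (η ^ 2 / 2)) *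
        Real.exp (-((n : ℝ) / 2) * s ^ 2)) := (integrable_exp_neg_mul_sq hn2).const_mul _
    have hKI : Integrable (KW n) := (integrable_exp_neg_mul_sq hn').const_mul _
    have hm : MeasurableSet {s : ℝ | η ≤ |s|} :=
      measurableSet_le measurable_const measurable_id.abs
    calc ∫ s in {s : ℝ | η ≤ |s|}, KW n s
        ≤ ∫ s in {s : ℝ | η ≤ |s|}, √((n : ℝ) / Real.pi) *
            Real.exp (-(n : ℝ) * (η ^ 2 / 2)) * Real.exp (-((n : ℝ) / 2) * s ^ 2) := by
          apply setIntegral_mono_on hKI.integrableOn hI.integrableOn hm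
          intro s hs
          have hs' : η ≤ |s| := hs
          unfold KW
          rw [mul_assoc, ← Real.exp_add]
          apply mul_le_mul_of_nonneg_left _ (by positivity)
          apply Real.exp_le_exp.mpr
          have h1 : η ^ 2 ≤ s ^ 2 := by
            rw [← sq_abs s]; gcongr
          nlinarith
      _ ≤ ∫ s, √((n : ℝ) / Real.pi) *
            Real.exp (-(n : ℝ) * (η ^ 2 / 2)) * Real.exp (-((n : ℝ) / 2) * s ^ 2) := by
          apply setIntegral_le_integral hI
          exact Eventually.of_forall fun s => by positivity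
      _ = √2 * Real.exp (-(n : ℝ) * (η ^ 2 / 2)) := by
          rw [integral_const_mul, integral_gaussian]
          have : √((n : ℝ) / Real.pi) * √(Real.pi / ((n : ℝ) / 2)) = √2 := by
            rw [← Real.sqrt_mul (by positivity)]
            congr 1
            field_simp
          rw [← this]
          ring

/-! ### Poisson -/

noncomputable def kP (ρ s : ℝ) : ℝ :=
  1 / (2 * Real.pi) * ((1 - ρ ^ 2) / (1 + ρ ^ 2 - 2 * ρ * Real.cos s))

noncomputable def KP (ρ : ℝ) : ℝ → ℝ := indicator (Ioc (-Real.pi) Real.pi) (kP ρ)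

lemma den_pos {ρ : ℝ} (h0 : 0 < ρ) (h1 : ρ < 1) (s : ℝ) : 0 < 1 + ρ ^ 2 - 2 * ρ * Real.cos s := by
  have := Real.cos_le_one s
  nlinarith

lemma kP_nonneg {ρ : ℝ} (h0 : 0 < ρ) (h1 : ρ < 1) (s : ℝ) : 0 ≤ kP ρ s := by
  unfold kP
  have h2 := den_pos h0 h1 s
  have h3 : 0 ≤ 1 - ρ ^ 2 := by nlinarith
  have := Real.pi_pos
  positivity

lemma kP_continuous {ρ : ℝ} (h0 : 0 < ρ) (h1 : ρ < 1) : Continuous (kP ρ) := by
  unfold kP
  apply Continuous.mul continuous_const
  apply Continuous.div continuous_const (by fun_prop)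
  intro s
  exact (den_pos h0 h1 s).ne'

lemma kP_integral {ρ : ℝ} (h0 : 0 < ρ) (h1 : ρ < 1) :
    ∫ s in (-Real.pi)..Real.pi, kP ρ s = 1 := by
  have hpi := Real.pi_pos
  have hper : Function.Periodic (kP ρ) (2 * Real.pi) := by
    intro s
    unfold kP
    rw [Real.cos_add_two_pi]
  have h2 := hper.intervalIntegral_add_eq (-Real.pi) 0
  have e1 : -Real.pi + 2 * Real.pi = Real.pi := by ring
  rw [e1, zero_add] at h2
  rw [h2]
  have hf : DiffContOnCl ℂ (fun _ : ℂ => (1 : ℂ)) (Metric.ball 0 1) := diffContOnCl_const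
  have hw : (ρ : ℂ) ∈ Metric.ball (0 : ℂ) 1 := by
    rw [Metric.mem_ball, dist_zero_right, Complex.norm_real, Real.norm_eq_abs, abs_of_pos h0]
    exact h1
  have h3 := hf.circleAverage_poissonKernel_smul' hw
  rw [Real.circleAverage] at h3
  simp only [sub_zero] at h3
  have h4 : ∀ θ : ℝ, ((‖circleMap 0 1 θ‖ ^ 2 - ‖(ρ : ℂ)‖ ^ 2) / ‖circleMap 0 1 θ - (ρ : ℂ)‖ ^ 2) •
      (1 : ℂ) = ((2 * Real.pi * kP ρ θ : ℝ) : ℂ) := by
    intro θ
    have e3 : ‖circleMap 0 1 θ‖ = 1 := by simp
    have e4 : ‖(ρ : ℂ)‖ ^ 2 = ρ ^ 2 := by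
      rw [Complex.norm_real, Real.norm_eq_abs, sq_abs]
    have e5 : ‖circleMap 0 1 θ - (ρ : ℂ)‖ ^ 2 = 1 + ρ ^ 2 - 2 * ρ * Real.cos θ := by
      rw [← Complex.normSq_eq_norm_sq, Complex.normSq_apply]
      simp only [circleMap, Complex.sub_re, Complex.sub_im, Complex.ofReal_re, Complex.ofReal_im,
        zero_add, Complex.ofReal_one, one_mul, Complex.exp_ofReal_mul_I_re,
        Complex.exp_ofReal_mul_I_im]
      have := Real.sin_sq_add_cos_sq θ
      nlinarith
    rw [e3, e4, e5, Complex.real_smul, mul_one]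
    congr 1
    unfold kP
    have := Real.pi_pos
    have := (den_pos h0 h1 θ).ne'
    field_simp
  simp only [h4] at h3
  rw [intervalIntegral.integral_ofReal, intervalIntegral.integral_const_mul] at h3
  rw [Complex.real_smul] at h3
  have h5 : (2 * Real.pi)⁻¹ * (2 * Real.pi * ∫ θ in (0 : ℝ)..2 * Real.pi, kP ρ θ) = 1 := by
    exact_mod_cast h3
  rw [← mul_assoc, inv_mul_cancel₀ (by positivity), one_mul] at h5
  exact h5

lemma eventually_mem_P : ∀ᶠ ρ : ℝ in 𝓝[<] 1, 0 < ρ ∧ ρ < 1 := by
  have h1 : ∀ᶠ ρ : ℝ in 𝓝[<] 1, ρ ∈ Ioo (0 : ℝ) 1 := Ioo_mem_nhdsLT (by norm_num)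
  exact h1

lemma goodP : GoodKernel (𝓝[<] (1 : ℝ)) KP (fun ρ : ℝ => 1 - ρ) := by
  have hpi := Real.pi_pos
  refine ⟨?_, ?_, ?_, ?_, ?_, ?_, ?_⟩
  · filter_upwards [eventually_mem_P] with ρ hρ s
    exact indicator_nonneg (fun s _ => kP_nonneg hρ.1 hρ.2 s) s
  · filter_upwards [eventually_mem_P] with ρ hρ
    exact (((kP_continuous hρ.1 hρ.2).integrableOn_Icc).mono_set Ioc_subset_Icc_self).integrable_indicator
      measurableSet_Ioc
  · filter_upwards [eventually_mem_P] with ρ hρ
    unfold KP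
    rw [integral_indicator measurableSet_Ioc, ← intervalIntegral.integral_of_le (by linarith)]
    exact kP_integral hρ.1 hρ.2
  · filter_upwards [eventually_mem_P] with ρ hρ
    linarith [hρ.2]
  · have h1 : Tendsto (fun ρ : ℝ => 1 - ρ) (𝓝 1) (𝓝 (1 - 1)) :=
      (continuous_const.sub continuous_id).tendsto 1
    rw [sub_self] at h1
    exact h1.mono_left nhdsWithin_le_nhds
  · intro B hB
    refine ⟨1 / (2 * Real.pi * (1 + B ^ 2)), by positivity, ?_⟩
    have h1 : Tendsto (fun ρ : ℝ => B * (1 - ρ)) (𝓝[<] 1) (𝓝 (B * (1 - 1))) :=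
      ((continuous_const.mul (continuous_const.sub continuous_id)).tendsto 1).mono_left
        nhdsWithin_le_nhds
    rw [sub_self, mul_zero] at h1
    filter_upwards [eventually_mem_P, h1.eventually (gt_mem_nhds hpi)] with ρ hρ hB2
    obtain ⟨hρ0, hρ1⟩ := hρ
    intro s hs
    have hs2 : |s| < Real.pi := lt_of_le_of_lt hs hB2
    obtain ⟨hs3, hs4⟩ := abs_lt.mp hs2
    unfold KP
    rw [indicator_of_mem (show s ∈ Ioc (-Real.pi) Real.pi from ⟨hs3, hs4.le⟩)]
    unfold kP
    have hd := den_pos hρ0 hρ1 s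
    have hcos : 1 - s ^ 2 / 2 ≤ Real.cos s := Real.one_sub_sq_div_two_le_cos
    have hs5 : s ^ 2 ≤ B ^ 2 * (1 - ρ) ^ 2 := by
      have : |s| ^ 2 ≤ (B * (1 - ρ)) ^ 2 := by gcongr
      rw [sq_abs, mul_pow] at this
      exact this
    have hden : 1 + ρ ^ 2 - 2 * ρ * Real.cos s ≤ (1 - ρ) ^ 2 * (1 + B ^ 2) := by
      have e1 : 2 * ρ * (1 - s ^ 2 / 2) ≤ 2 * ρ * Real.cos s := by gcongr
      have e2 : ρ * s ^ 2 ≤ 1 * (B ^ 2 * (1 - ρ) ^ 2) := by gcongr
      nlinarith
    have h1ρ : 0 < 1 - ρ := by linarith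
    have e3 : 1 / (2 * Real.pi * (1 + B ^ 2)) / (1 - ρ) =
        1 / (2 * Real.pi) * ((1 - ρ) / ((1 - ρ) ^ 2 * (1 + B ^ 2))) := by
      field_simp
    rw [e3]
    apply mul_le_mul_of_nonneg_left _ (by positivity)
    apply div_le_div₀ (by nlinarith) (by nlinarith) hd hden
  · intro η hη ε hε
    set η' := min η Real.pi with hη'
    have hη'0 : 0 < η' := lt_min hη hpi
    have hη'1 : η' ≤ Real.pi := min_le_right _ _
    have hcη : Real.cos η' < 1 := by
      have := Real.cos_lt_cos_of_nonneg_of_le_pi le_rfl hη'1 hη'0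
      rwa [Real.cos_zero] at this
    have hlim : Tendsto (fun ρ : ℝ => (1 - ρ ^ 2) / (1 + ρ ^ 2 - 2 * ρ * Real.cos η'))
        (𝓝[<] 1) (𝓝 0) := by
      have h1 : ContinuousAt (fun ρ : ℝ => (1 - ρ ^ 2) / (1 + ρ ^ 2 - 2 * ρ * Real.cos η')) 1 := by
        apply ContinuousAt.div (by fun_prop) (by fun_prop)
        have : (1 : ℝ) + 1 ^ 2 - 2 * 1 * Real.cos η' > 0 := by linarith
        exact this.ne'
      have h2 := h1.tendsto
      have h3 := h2.mono_left (nhdsWithin_le_nhds (s := Iio 1))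
      simpa using h3
    filter_upwards [eventually_mem_P, hlim.eventually (gt_mem_nhds hε)] with ρ hρ hlt
    obtain ⟨hρ0, hρ1⟩ := hρ
    refine le_trans ?_ hlt.le
    have hd := den_pos hρ0 hρ1 η'
    set c := (1 - ρ ^ 2) / (1 + ρ ^ 2 - 2 * ρ * Real.cos η') with hc
    have hc0 : 0 ≤ c := div_nonneg (by nlinarith) hd.le
    have hm : MeasurableSet {s : ℝ | η ≤ |s|} :=
      measurableSet_le measurable_const measurable_id.abs
    have hcint : Integrable (indicator (Ioc (-Real.pi) Real.pi) (fun _ => 1 / (2 * Real.pi) * c)) := by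
      rw [integrable_indicator_iff measurableSet_Ioc]
      exact (continuous_const.integrableOn_Icc).mono_set Ioc_subset_Icc_self
    have hKint : Integrable (KP ρ) :=
      (((kP_continuous hρ0 hρ1).integrableOn_Icc).mono_set Ioc_subset_Icc_self).integrable_indicator
      measurableSet_Ioc
    calc ∫ s in {s : ℝ | η ≤ |s|}, KP ρ s
        ≤ ∫ s in {s : ℝ | η ≤ |s|},
            indicator (Ioc (-Real.pi) Real.pi) (fun _ => 1 / (2 * Real.pi) * c) s := by
          apply setIntegral_mono_on hKint.integrableOn hcint.integrableOn hm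
          intro s hs
          have hs' : η ≤ |s| := hs
          unfold KP
          by_cases hmem : s ∈ Ioc (-Real.pi) Real.pi
          · rw [indicator_of_mem hmem, indicator_of_mem hmem]
            unfold kP
            apply mul_le_mul_of_nonneg_left _ (by positivity)
            have h5 : |s| ≤ Real.pi := abs_le.mpr ⟨hmem.1.le, hmem.2⟩
            have h6 : Real.cos s ≤ Real.cos η' := by
              rw [← Real.cos_abs s]
              exact Real.cos_le_cos_of_nonneg_of_le_pi hη'0.le h5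
                (le_trans (min_le_left _ _) hs')
            apply div_le_div_of_nonneg_left (by nlinarith) hd
            nlinarith
          · rw [indicator_of_notMem hmem, indicator_of_notMem hmem]
      _ ≤ ∫ s, indicator (Ioc (-Real.pi) Real.pi) (fun _ => 1 / (2 * Real.pi) * c) s := by
          apply setIntegral_le_integral hcint
          exact Eventually.of_forall fun s => indicator_nonneg (fun _ _ => by positivity) s
      _ = c := by
          rw [integral_indicator measurableSet_Ioc, setIntegral_const]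
          simp only [measureReal_def, Real.volume_Ioc, smul_eq_mul]
          rw [ENNReal.toReal_ofReal (by linarith)]
          field_simp
          ring

end Pool.Agent.X122.HausKer
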