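import Mathlib

/-!
# Completely monotonic functions extend holomorphically: a Bernstein type bound, and the transfer of
iterated derivatives between a real function and its holomorphic extension.
-/

namespace Pool.Agent.X122.CMCont

open Set Filter Topology
open scoped ContDiff Nat

/-- Bernstein's bound: the Taylor terms of a completely monotonic function at `x0`, evaluated at a
point `y < x0`, are nonnegative and at most `f y`. -/
lemma cm_bound {c : ℝ} {f : ℝ → ℝ} (hf : ∀ x, c < x → ContDiffAt ℝ ∞ f x)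
    (h : ∀ n : ℕ, ∀ x, c < x → 0 ≤ (-1 : ℝ) ^ n * iteratedDeriv n f x) {x0 y : ℝ} (hy : c < y)
    (hyx : y < x0) (n : ℕ) : |iteratedDeriv n f x0| * (x0 - y) ^ n / n ! ≤ f y := by
  have hsub : uIcc x0 y ⊆ Ioi c := by
    intro t ht
    rw [uIcc_of_ge hyx.le] at ht
    exact lt_of_lt_of_le hy ht.1
  have hcd : ContDiffOn ℝ ((n : ℕ∞ω) + 1) f (uIcc x0 y) := by
    intro t ht
    have := (hf t (hsub ht)).contDiffWithinAt (s := uIcc x0 y)
    refine this.of_le ?_
    exact_mod_cast (le_top : ((n : ℕ∞) + 1) ≤ ⊤)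
  obtain ⟨x', hx', heq⟩ := taylor_mean_remainder_lagrange_iteratedDeriv (ne_of_gt hyx) hcd
  have hx'c : c < x' := by
    rw [uIoo_of_ge hyx.le] at hx'
    exact lt_trans hy hx'.1
  have hd : 0 < x0 - y := by linarith
  have hterm : ∀ k : ℕ, ∀ x, c < x → 0 ≤ iteratedDeriv k f x * (y - x0) ^ k / k ! := by
    intro k x hx
    have e : (y - x0) ^ k = (-1) ^ k * (x0 - y) ^ k := by
      rw [← mul_pow]; congr 1; ring
    rw [e]
    have := h k x hx
    have h2 : iteratedDeriv k f x * ((-1) ^ k * (x0 - y) ^ k) / k ! =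
        ((-1) ^ k * iteratedDeriv k f x) * (x0 - y) ^ k / k ! := by ring
    rw [h2]
    positivity
  have hrem := hterm (n + 1) x' hx'c
  have htay : taylorWithinEval f n (uIcc x0 y) x0 y =
      ∑ k ∈ Finset.range (n + 1), iteratedDeriv k f x0 * (y - x0) ^ k / k ! := by
    rw [taylor_within_apply]
    apply Finset.sum_congr rfl
    intro k _
    have hu : UniqueDiffOn ℝ (uIcc x0 y) := uniqueDiffOn_uIcc (ne_of_gt hyx)
    have e : iteratedDerivWithin k f (uIcc x0 y) x0 = iteratedDeriv k f x0 := by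
      apply iteratedDerivWithin_eq_iteratedDeriv hu
      · refine (hf x0 (lt_trans hy hyx)).of_le ?_
        exact_mod_cast le_top
      · exact left_mem_uIcc
    rw [e, smul_eq_mul]
    field_simp
  rw [htay] at heq
  have hx0c : c < x0 := lt_trans hy hyx
  have hsingle : iteratedDeriv n f x0 * (y - x0) ^ n / n ! ≤
      ∑ k ∈ Finset.range (n + 1), iteratedDeriv k f x0 * (y - x0) ^ k / k ! :=
    Finset.single_le_sum (f := fun k => iteratedDeriv k f x0 * (y - x0) ^ k / k !)
      (fun k _ => hterm k x0 hx0c) (Finset.mem_range.mpr (by omega))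
  have habs : |iteratedDeriv n f x0| * (x0 - y) ^ n / n ! =
      iteratedDeriv n f x0 * (y - x0) ^ n / n ! := by
    have h1 := h n x0 hx0c
    have e : (y - x0) ^ n = (-1) ^ n * (x0 - y) ^ n := by
      rw [← mul_pow]; congr 1; ring
    have e2 : |iteratedDeriv n f x0| = (-1) ^ n * iteratedDeriv n f x0 := by
      rw [← abs_of_nonneg h1, abs_mul, abs_pow, abs_neg, abs_one, one_pow, one_mul]
    rw [e, e2]
    ring
  rw [habs]
  linarith

/-- Transfer of iterated derivatives. -/
lemma link {fR : ℝ → ℝ} {fC : ℂ → ℂ} {U : Set ℝ} (hU : IsOpen U)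
    (han : ∀ x ∈ U, AnalyticAt ℂ fC (x : ℂ)) (heq : ∀ x ∈ U, fC (x : ℂ) = (fR x : ℂ)) :
    ∀ n : ℕ, ∀ x ∈ U, iteratedDeriv n fC (x : ℂ) = ((iteratedDeriv n fR x : ℝ) : ℂ) := by
  intro n
  induction n with
  | zero =>
    intro x hx
    simp only [iteratedDeriv_zero]
    exact heq x hx
  | succ n ih =>
    intro x hx
    have hana : AnalyticAt ℂ (iteratedDeriv n fC) (x : ℂ) := by
      rw [iteratedDeriv_eq_iterate]
      exact (han x hx).iterated_deriv n
    have hD : HasDerivAt (iteratedDeriv n fC) (iteratedDeriv (n + 1) fC (x : ℂ)) (x : ℂ) := by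
      rw [iteratedDeriv_succ]
      exact hana.differentiableAt.hasDerivAt
    have hnear : ∀ᶠ y in 𝓝 x, iteratedDeriv n fC ((y : ℝ) : ℂ) = ((iteratedDeriv n fR y : ℝ) : ℂ) := by
      filter_upwards [hU.mem_nhds hx] with y hy
      exact ih y hy
    have hre : HasDerivAt (iteratedDeriv n fR) (iteratedDeriv (n + 1) fC (x : ℂ)).re x := by
      refine hD.real_of_complex.congr_of_eventuallyEq ?_
      filter_upwards [hnear] with y hy
      rw [hy, Complex.ofReal_re]
    have h1 : HasDerivAt (fun y : ℝ => ((iteratedDeriv n fR y : ℝ) : ℂ))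
        (iteratedDeriv (n + 1) fC (x : ℂ)) x := by
      refine hD.comp_ofReal.congr_of_eventuallyEq ?_
      filter_upwards [hnear] with y hy
      exact hy.symm
    have h2 : HasDerivAt (fun y : ℝ => ((iteratedDeriv n fR y : ℝ) : ℂ))
        (((iteratedDeriv (n + 1) fC (x : ℂ)).re : ℝ) : ℂ) x := hre.ofReal_comp
    have h3 := h1.unique h2
    have h4 : iteratedDeriv (n + 1) fR x = (iteratedDeriv (n + 1) fC (x : ℂ)).re := by
      rw [iteratedDeriv_succ]
      exact hre.deriv
    rw [h4]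
    exact h3

/-- Smoothness of the real function. -/
lemma contDiffAt_of_link {fR : ℝ → ℝ} {fC : ℂ → ℂ} {U : Set ℝ} (hU : IsOpen U)
    (han : ∀ x ∈ U, AnalyticAt ℂ fC (x : ℂ)) (heq : ∀ x ∈ U, fC (x : ℂ) = (fR x : ℂ)) :
    ∀ x ∈ U, ContDiffAt ℝ ∞ fR x := by
  intro x hx
  have h1 : ContDiffAt ℝ ∞ fC (x : ℂ) := (han x hx).contDiffAt.restrict_scalars ℝ
  have h2 : ContDiffAt ℝ ∞ (fun y : ℝ => fC (y : ℂ)) x :=
    ContDiffAt.comp (x := x) (g := fC) (f := fun y : ℝ => (y : ℂ)) h1
      Complex.ofRealCLM.contDiff.contDiffAt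
  have h3 : ContDiffAt ℝ ∞ (fun y : ℝ => (fC (y : ℂ)).re) x :=
    ContDiffAt.comp (x := x) (g := Complex.re) (f := fun y : ℝ => fC (y : ℂ))
      Complex.reCLM.contDiff.contDiffAt h2
  refine h3.congr_of_eventuallyEq ?_
  filter_upwards [hU.mem_nhds hx] with y hy
  rw [heq y hy, Complex.ofReal_re]

/-- If a completely monotonic function on `(c, ∞)` has a holomorphic extension near `x0`, then the
extension agrees near `x0` with a function that is analytic on every disc `|z - x0| < r`,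
`r < x0 - c`. -/
theorem exists_analytic {c : ℝ} {fR : ℝ → ℝ} {fC : ℂ → ℂ}
    (han : ∀ x : ℝ, c < x → AnalyticAt ℂ fC (x : ℂ)) (heq : ∀ x : ℝ, c < x → fC (x : ℂ) = (fR x : ℂ))
    (h : ∀ n : ℕ, ∀ x, c < x → 0 ≤ (-1 : ℝ) ^ n * iteratedDeriv n fR x) {x0 : ℝ} {r : NNReal}
    (hr0 : 0 < r) (hr : (r : ℝ) < x0 - c) :
    ∃ T : ℂ → ℂ, AnalyticOnNhd ℂ T (Metric.ball (x0 : ℂ) r) ∧ fC =ᶠ[𝓝 (x0 : ℂ)] T := by
  have hx0 : c < x0 := by
    have : (0 : ℝ) < r := by exact_mod_cast hr0
    linarith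
  have hlink := link (U := Ioi c) isOpen_Ioi han heq
  have hcd := contDiffAt_of_link (U := Ioi c) isOpen_Ioi han heq
  set p : FormalMultilinearSeries ℂ ℂ ℂ :=
    FormalMultilinearSeries.ofScalars ℂ (fun n ↦ iteratedDeriv n fC (x0 : ℂ) / n.factorial) with hp
  have hfp : HasFPowerSeriesAt fC p (x0 : ℂ) := (han x0 hx0).hasFPowerSeriesAt
  have hrad : (r : ENNReal) ≤ p.radius := by
    apply FormalMultilinearSeries.le_radius_of_bound p (fR (x0 - r))
    intro n
    have hr' : (0 : ℝ) < r := by exact_mod_cast hr0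
    have h1 := cm_bound hcd h (x0 := x0) (y := x0 - r) (by linarith) (by linarith) n
    have e : x0 - (x0 - (r : ℝ)) = r := by ring
    rw [e] at h1
    refine le_trans ?_ h1
    have h2 : ‖p n‖ ≤ ‖iteratedDeriv n fC (x0 : ℂ) / (n.factorial : ℂ)‖ := by
      rw [hp, FormalMultilinearSeries.ofScalars_norm]
    rw [hlink n x0 hx0, norm_div, Complex.norm_real, Real.norm_eq_abs] at h2
    have h3 : ‖((n.factorial : ℕ) : ℂ)‖ = (n.factorial : ℝ) := by simp
    rw [h3] at h2
    calc ‖p n‖ * (r : ℝ) ^ n ≤ |iteratedDeriv n fR x0| / n.factorial * (r : ℝ) ^ n := by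
          gcongr
      _ = |iteratedDeriv n fR x0| * (r : ℝ) ^ n / n.factorial := by ring
  have hpos : 0 < p.radius := lt_of_lt_of_le (by exact_mod_cast hr0) hrad
  have hball := p.hasFPowerSeriesOnBall hpos
  refine ⟨fun z => p.sum (z - x0), ?_, ?_⟩
  · intro z hz
    have h1 : AnalyticAt ℂ p.sum (z - x0) := by
      apply hball.analyticAt_of_mem
      rw [Metric.mem_eball, edist_dist]
      rw [Metric.mem_ball, dist_eq_norm] at hz
      rw [dist_eq_norm, sub_zero]
      refine lt_of_lt_of_le ?_ hrad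
      rw [← ENNReal.ofReal_coe_nnreal]
      exact (ENNReal.ofReal_lt_ofReal_iff_of_nonneg (norm_nonneg _)).mpr hz
    have h2 : AnalyticAt ℂ (fun z : ℂ => z - x0) z := by fun_prop
    exact AnalyticAt.comp (g := p.sum) (f := fun z : ℂ => z - x0) h1 h2
  · have h1 : HasFPowerSeriesAt (fun z : ℂ => p.sum (z - x0)) p (x0 : ℂ) := by
      have := hball.comp_sub (x0 : ℂ)
      rw [zero_add] at this
      exact this.hasFPowerSeriesAt
    filter_upwards [hfp.eventually_hasSum_sub, h1.eventually_hasSum_sub] with y ha hb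
    exact ha.unique hb

end Pool.Agent.X122.CMCont
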