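import Mathlib

/-!
# Concentration of products of powers with four nodes
-/

namespace Pool.Agent.X122.FP

set_option autoImplicit false

open Filter Topology MeasureTheory

/-! ### Concentration of products of powers -/

/-- The four points. -/
def pts (b : ℝ) : Fin 4 → ℝ := ![-b, -1, 1, b]

/-- The weight with natural exponents. -/
noncomputable def W (b : ℝ) (m : Fin 4 → ℕ) (x : ℝ) : ℝ := ∏ i, |x - pts b i| ^ (m i)

/-- The weight with real exponents. -/
noncomputable def Psi (b : ℝ) (s : Fin 4 → ℝ) (x : ℝ) : ℝ := ∏ i, |x - pts b i| ^ (s i)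

/-- The integrals. -/
noncomputable def J (b : ℝ) (m : Fin 4 → ℕ) (p q : ℝ) : ℝ := ∫ x in p..q, W b m x

lemma W_cont (b : ℝ) (m : Fin 4 → ℕ) : Continuous (W b m) := by
  unfold W
  fun_prop

lemma W_nonneg (b : ℝ) (m : Fin 4 → ℕ) (x : ℝ) : 0 ≤ W b m x :=
  Finset.prod_nonneg fun _ _ => by positivity

lemma Psi_nonneg (b : ℝ) (s : Fin 4 → ℝ) (x : ℝ) : 0 ≤ Psi b s x :=
  Finset.prod_nonneg fun _ _ => by positivity

lemma Psi_contAt (b : ℝ) (s : Fin 4 → ℝ) (hs : ∀ i, 0 < s i) (x : ℝ) :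
    ContinuousAt (fun z : (Fin 4 → ℝ) × ℝ => Psi b z.1 z.2) (s, x) := by
  unfold Psi
  apply tendsto_finset_prod
  intro i _
  have h1 : ContinuousAt (fun z : (Fin 4 → ℝ) × ℝ => (|z.2 - pts b i|, z.1 i)) (s, x) := by
    apply Continuous.continuousAt
    fun_prop
  have h2 : ContinuousAt (fun p : ℝ × ℝ => p.1 ^ p.2) ((fun z : (Fin 4 → ℝ) × ℝ =>
      (|z.2 - pts b i|, z.1 i)) (s, x)) := Real.continuousAt_rpow _ (Or.inr (hs i))
  exact ContinuousAt.comp (f := fun z : (Fin 4 → ℝ) × ℝ => (|z.2 - pts b i|, z.1 i))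
    (g := fun p : ℝ × ℝ => p.1 ^ p.2) h2 h1

lemma W_eq (b : ℝ) (m : Fin 4 → ℕ) (N : ℕ) (hN : 0 < N) (x : ℝ) :
    W b m x = Psi b (fun i => (m i : ℝ) / N) x ^ N := by
  unfold W Psi
  rw [← Finset.prod_pow]
  apply Finset.prod_congr rfl
  intro i _
  have hN' : (N : ℝ) ≠ 0 := by positivity
  rw [← Real.rpow_natCast (|x - pts b i| ^ ((m i : ℝ) / N)) N, ← Real.rpow_mul (abs_nonneg _),
    div_mul_cancel₀ _ hN', Real.rpow_natCast]

lemma upper (b : ℝ) (γ : Fin 4 → ℝ) (hγ : ∀ i, 0 < γ i) (S : Set ℝ) (hS : IsCompact S) (c : ℝ)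
    (hc : ∀ x ∈ S, Psi b γ x < c) (m : ℕ → Fin 4 → ℕ) (N : ℕ → ℕ) (hN : Tendsto N atTop atTop)
    (hm : Tendsto (fun n i => (m n i : ℝ) / N n) atTop (𝓝 γ)) :
    ∀ᶠ n in atTop, ∀ x ∈ S, W b (m n) x ≤ c ^ N n := by
  have h1 : ∀ᶠ s in 𝓝 γ, ∀ x ∈ S, Psi b s x < c := by
    apply hS.eventually_forall_of_forall_eventually
    intro y hy
    have := (Psi_contAt b γ hγ y).eventually (gt_mem_nhds (hc y hy))
    exact this
  filter_upwards [hm.eventually h1, hN.eventually (eventually_gt_atTop 0)] with n h2 h3 x hx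
  rw [W_eq b (m n) (N n) h3]
  exact pow_le_pow_left₀ (Psi_nonneg _ _ _) (h2 x hx).le _

lemma lower (b : ℝ) (γ : Fin 4 → ℝ) (hγ : ∀ i, 0 < γ i) (p q x₀ : ℝ) (hpq : p < q)
    (hx : x₀ ∈ Set.Icc p q) (c : ℝ) (hc0 : 0 < c) (hc : c < Psi b γ x₀) (m : ℕ → Fin 4 → ℕ)
    (N : ℕ → ℕ) (hN : Tendsto N atTop atTop)
    (hm : Tendsto (fun n i => (m n i : ℝ) / N n) atTop (𝓝 γ)) :
    ∃ κ : ℝ, 0 < κ ∧ ∀ᶠ n in atTop, κ * c ^ N n ≤ J b (m n) p q := by
  have h1 : ∀ᶠ z : (Fin 4 → ℝ) × ℝ in 𝓝 (γ, x₀), c < Psi b z.1 z.2 :=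
    (Psi_contAt b γ hγ x₀).eventually (lt_mem_nhds hc)
  rw [nhds_prod_eq] at h1
  obtain ⟨P, hP, Q, hQ, hPQ⟩ := Filter.eventually_prod_iff.mp h1
  obtain ⟨η, hη, hball⟩ := Metric.eventually_nhds_iff.mp hQ
  set p' := max p (x₀ - η / 2) with hp'
  set q' := min q (x₀ + η / 2) with hq'
  have hp'1 : p' ≤ x₀ := max_le hx.1 (by linarith)
  have hq'1 : x₀ ≤ q' := le_min hx.2 (by linarith)
  have hpq' : p' < q' := by
    rcases eq_or_lt_of_le hp'1 with h | h
    · have h2 : x₀ ≤ p := by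
        by_contra h3
        push Not at h3
        have : p' < x₀ := max_lt h3 (by linarith)
        linarith
      have : x₀ < q' := lt_min (by linarith) (by linarith)
      linarith
    · linarith
  refine ⟨q' - p', by linarith, ?_⟩
  filter_upwards [hm.eventually hP, hN.eventually (eventually_gt_atTop 0)] with n h2 h3
  have h4 : ∀ x ∈ Set.Icc p' q', c ^ N n ≤ W b (m n) x := by
    intro x hx'
    rw [W_eq b (m n) (N n) h3]
    apply pow_le_pow_left₀ hc0.le
    apply (hPQ h2 (hball _)).le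
    rw [Real.dist_eq, abs_lt]
    have h5 : x₀ - η / 2 ≤ x := le_trans (le_max_right _ _) hx'.1
    have h6 : x ≤ x₀ + η / 2 := le_trans hx'.2 (min_le_right _ _)
    constructor <;> linarith
  unfold J
  calc (q' - p') * c ^ N n = ∫ _ in p'..q', c ^ N n := by
        rw [intervalIntegral.integral_const, smul_eq_mul]
    _ ≤ ∫ x in p'..q', W b (m n) x := by
        apply intervalIntegral.integral_mono_on hpq'.le
        · simp
        · exact (W_cont b (m n)).intervalIntegrable _ _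
        · exact h4
    _ ≤ ∫ x in p..q, W b (m n) x := by
        apply intervalIntegral.integral_mono_interval (le_max_left _ _) hpq'.le (min_le_left _ _)
        · exact Filter.Eventually.of_forall fun x => W_nonneg b (m n) x
        · exact (W_cont b (m n)).intervalIntegrable _ _

lemma J_nonneg (b : ℝ) (m : Fin 4 → ℕ) {p q : ℝ} (h : p ≤ q) : 0 ≤ J b m p q :=
  intervalIntegral.integral_nonneg h fun x _ => W_nonneg b m x

/-- Comparison of exponential growth rates. -/
lemma compare (b : ℝ) (γ : Fin 4 → ℝ) (hγ : ∀ i, 0 < γ i) (p q x₀ p₁ q₁ : ℝ) (hpq : p < q)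
    (hx : x₀ ∈ Set.Icc p q) (hpq₁ : p₁ ≤ q₁) (M : ℝ) (hM : 0 ≤ M)
    (hM1 : ∀ x ∈ Set.Icc p₁ q₁, Psi b γ x ≤ M)
    (hM2 : M < Psi b γ x₀) (m : ℕ → Fin 4 → ℕ)
    (N : ℕ → ℕ) (hN : Tendsto N atTop atTop)
    (hm : Tendsto (fun n i => (m n i : ℝ) / N n) atTop (𝓝 γ)) :
    ∀ᶠ n in atTop, J b (m n) p₁ q₁ < J b (m n) p q := by
  obtain ⟨c1, h1, h1'⟩ := exists_between hM2
  obtain ⟨c2, h2, h2'⟩ := exists_between h1'
  have hc1 : 0 < c1 := by linarith
  have hc2 : 0 < c2 := by linarith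
  obtain ⟨κ, hκ, hlow⟩ := lower b γ hγ p q x₀ hpq hx c2 hc2 h2' m N hN hm
  have hup := upper b γ hγ (Set.Icc p₁ q₁) isCompact_Icc c1 (fun x hx => lt_of_le_of_lt (hM1 x hx) h1)
    m N hN hm
  have hratio : Tendsto (fun n => (c1 / c2) ^ N n) atTop (𝓝 0) :=
    (tendsto_pow_atTop_nhds_zero_of_lt_one (by positivity) ((div_lt_one hc2).mpr h2)).comp hN
  have h3 := hratio.eventually (gt_mem_nhds (show (0 : ℝ) < κ / (q₁ - p₁ + 1) by
    apply div_pos hκ; linarith))
  filter_upwards [hlow, hup, h3] with n h4 h5 h6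
  have h7 : J b (m n) p₁ q₁ ≤ (q₁ - p₁) * c1 ^ N n := by
    unfold J
    calc ∫ x in p₁..q₁, W b (m n) x ≤ ∫ _ in p₁..q₁, c1 ^ N n := by
          apply intervalIntegral.integral_mono_on hpq₁
          · exact (W_cont b (m n)).intervalIntegrable _ _
          · simp
          · exact h5
      _ = (q₁ - p₁) * c1 ^ N n := by rw [intervalIntegral.integral_const, smul_eq_mul]
  have hc2N : 0 < c2 ^ N n := by positivity
  have hc1N : 0 < c1 ^ N n := by positivity
  rw [div_pow, div_lt_div_iff₀ hc2N (by linarith)] at h6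
  have h8 : (q₁ - p₁) * c1 ^ N n < κ * c2 ^ N n := by nlinarith
  linarith

/-- Concentration of the weights at the unique maximum. -/
lemma concentrate (b : ℝ) (γ : Fin 4 → ℝ) (hγ : ∀ i, 0 < γ i) (p q x₀ : ℝ) (hpq : p < q)
    (hx : x₀ ∈ Set.Icc p q) (hmax : ∀ x ∈ Set.Icc p q, x ≠ x₀ → Psi b γ x < Psi b γ x₀)
    (m : ℕ → Fin 4 → ℕ) (N : ℕ → ℕ) (hN : Tendsto N atTop atTop)
    (hm : Tendsto (fun n i => (m n i : ℝ) / N n) atTop (𝓝 γ)) (g : ℝ → ℝ) (hg : Continuous g) :
    Tendsto (fun n => (∫ x in p..q, W b (m n) x * g x) / J b (m n) p q) atTop (𝓝 (g x₀)) := by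
  have hM0 : 0 < Psi b γ x₀ := by
    rcases eq_or_ne p x₀ with h | h
    · exact lt_of_le_of_lt (Psi_nonneg b γ q) (hmax q ⟨hpq.le, le_rfl⟩ (by rw [← h]; exact hpq.ne'))
    · exact lt_of_le_of_lt (Psi_nonneg b γ p) (hmax p ⟨le_rfl, hpq.le⟩ h)
  rw [Metric.tendsto_atTop']
  intro ε hε
  set S : Set ℝ := Set.Icc p q ∩ {x | ε / 2 ≤ |g x - g x₀|} with hS
  have hScomp : IsCompact S := isCompact_Icc.inter_right
    (isClosed_le continuous_const (by fun_prop))
  -- c1
  obtain ⟨c1, hc1pos, hc1lt, hc1⟩ : ∃ c1 : ℝ, 0 < c1 ∧ c1 < Psi b γ x₀ ∧ ∀ x ∈ S, Psi b γ x < c1 := by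
    rcases S.eq_empty_or_nonempty with h | h
    · exact ⟨Psi b γ x₀ / 2, by linarith, by linarith, by rw [h]; simp⟩
    · have hcont : ContinuousOn (Psi b γ) S := by
        apply Continuous.continuousOn
        rw [continuous_iff_continuousAt]
        intro x
        exact ContinuousAt.comp (f := fun x : ℝ => (γ, x))
          (g := fun z : (Fin 4 → ℝ) × ℝ => Psi b z.1 z.2) (Psi_contAt b γ hγ x)
          (by apply Continuous.continuousAt; fun_prop)
      obtain ⟨y, hy, hymax⟩ := hScomp.exists_isMaxOn h hcont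
      have hylt : Psi b γ y < Psi b γ x₀ := by
        apply hmax y hy.1
        rintro rfl
        have := hy.2
        simp only [Set.mem_setOf_eq, sub_self, abs_zero] at this
        linarith
      refine ⟨(Psi b γ y + Psi b γ x₀) / 2, by have := Psi_nonneg b γ y; linarith, by linarith, ?_⟩
      intro x hx
      have : Psi b γ x ≤ Psi b γ y := hymax hx
      linarith
  obtain ⟨c2, hc2, hc2'⟩ := exists_between hc1lt
  have hc2pos : 0 < c2 := by linarith
  obtain ⟨κ, hκ, hlow⟩ := lower b γ hγ p q x₀ hpq hx c2 hc2pos hc2' m N hN hm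
  have hup := upper b γ hγ S hScomp c1 hc1 m N hN hm
  -- bound on g
  obtain ⟨D, hD⟩ : ∃ D : ℝ, ∀ x ∈ Set.Icc p q, |g x - g x₀| ≤ D := by
    have hcont : ContinuousOn (fun x => |g x - g x₀|) (Set.Icc p q) := by
      apply Continuous.continuousOn; fun_prop
    obtain ⟨y, hy, hymax⟩ := isCompact_Icc.exists_isMaxOn ⟨p, le_rfl, hpq.le⟩ hcont
    exact ⟨|g y - g x₀|, fun x hx => hymax hx⟩
  have hD0 : 0 ≤ D := le_trans (abs_nonneg _) (hD p ⟨le_rfl, hpq.le⟩)
  have hratio : Tendsto (fun n => (c1 / c2) ^ N n) atTop (𝓝 0) :=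
    (tendsto_pow_atTop_nhds_zero_of_lt_one (by positivity) ((div_lt_one hc2pos).mpr hc2)).comp hN
  have h3 := hratio.eventually (gt_mem_nhds (show (0 : ℝ) < κ * (ε / 2) / (D * (q - p) + 1) by
    apply div_pos (by positivity)
    have : 0 ≤ D * (q - p) := mul_nonneg hD0 (by linarith)
    linarith))
  have key : ∀ᶠ n in atTop, dist ((∫ x in p..q, W b (m n) x * g x) / J b (m n) p q) (g x₀) < ε := by
    filter_upwards [hlow, hup, h3] with n h4 h5 h6
    have hDpq : 0 ≤ D * (q - p) := mul_nonneg hD0 (by linarith)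
    have hc2N : 0 < c2 ^ N n := by positivity
    have hc1N : 0 < c1 ^ N n := by positivity
    have hJ : 0 < J b (m n) p q := lt_of_lt_of_le (by positivity) h4
    rw [Real.dist_eq, div_sub' hJ.ne', abs_div, abs_of_pos hJ, div_lt_iff₀ hJ]
    have h7 : (∫ x in p..q, W b (m n) x * g x) - J b (m n) p q * g x₀ =
        ∫ x in p..q, W b (m n) x * (g x - g x₀) := by
      unfold J
      rw [← intervalIntegral.integral_mul_const, ← intervalIntegral.integral_sub]
      · congr 1
        funext x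
        ring
      · exact (((W_cont b (m n)).mul hg).intervalIntegrable _ _)
      · exact (((W_cont b (m n)).mul continuous_const).intervalIntegrable _ _)
    rw [h7]
    have h8 : |∫ x in p..q, W b (m n) x * (g x - g x₀)| ≤
        ∫ x in p..q, (W b (m n) x * (ε / 2) + D * c1 ^ N n) := by
      calc |∫ x in p..q, W b (m n) x * (g x - g x₀)|
          ≤ ∫ x in p..q, |W b (m n) x * (g x - g x₀)| :=
            intervalIntegral.abs_integral_le_integral_abs hpq.le
        _ ≤ ∫ x in p..q, (W b (m n) x * (ε / 2) + D * c1 ^ N n) := by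
            apply intervalIntegral.integral_mono_on hpq.le
            · apply Continuous.intervalIntegrable
              exact ((W_cont b (m n)).mul (hg.sub continuous_const)).abs
            · apply Continuous.intervalIntegrable
              exact ((W_cont b (m n)).mul continuous_const).add continuous_const
            · intro x hx'
              rw [abs_mul, abs_of_nonneg (W_nonneg _ _ _)]
              have hW := W_nonneg b (m n) x
              by_cases hxS : ε / 2 ≤ |g x - g x₀|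
              · have h9 := h5 x ⟨hx', hxS⟩
                have h10 := hD x hx'
                calc W b (m n) x * |g x - g x₀| ≤ c1 ^ N n * D :=
                      mul_le_mul h9 h10 (abs_nonneg _) hc1N.le
                  _ ≤ W b (m n) x * (ε / 2) + D * c1 ^ N n := by
                      have : 0 ≤ W b (m n) x * (ε / 2) := by positivity
                      linarith
              · push Not at hxS
                have : 0 ≤ D * c1 ^ N n := by positivity
                have h11 : W b (m n) x * |g x - g x₀| ≤ W b (m n) x * (ε / 2) :=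
                  mul_le_mul_of_nonneg_left hxS.le hW
                linarith
    have h12 : ∫ x in p..q, (W b (m n) x * (ε / 2) + D * c1 ^ N n) =
        J b (m n) p q * (ε / 2) + (q - p) * (D * c1 ^ N n) := by
      rw [intervalIntegral.integral_add]
      · rw [intervalIntegral.integral_mul_const, intervalIntegral.integral_const, smul_eq_mul]
        rfl
      · exact ((W_cont b (m n)).mul continuous_const).intervalIntegrable _ _
      · simp
    rw [h12] at h8
    rw [div_pow, div_lt_div_iff₀ hc2N (by linarith)] at h6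
    have h13 : (q - p) * (D * c1 ^ N n) < κ * c2 ^ N n * (ε / 2) := by nlinarith
    have h14 : κ * c2 ^ N n * (ε / 2) ≤ J b (m n) p q * (ε / 2) :=
      mul_le_mul_of_nonneg_right h4 (by positivity)
    nlinarith
  obtain ⟨n₀, hn₀⟩ := eventually_atTop.mp key
  exact ⟨n₀, fun n hn => hn₀ n hn.le⟩

end Pool.Agent.X122.FP
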