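import Pool.Agent.X122.FP1

set_option autoImplicit false

/-!
# The maxima of the symmetric weights
-/

namespace Pool.Agent.X122.FP

open Filter Topology MeasureTheory Real

/-- The symmetric exponents. -/
noncomputable def gam (α : ℝ) : Fin 4 → ℝ := ![α, 1 - α, 1 - α, α]

lemma gam_pos {α : ℝ} (h0 : 0 < α) (h1 : α < 1) : ∀ i, 0 < gam α i := by
  intro i
  fin_cases i <;> simp [gam] <;> linarith

lemma Psi_gam (b α x : ℝ) :
    Psi b (gam α) x = |x ^ 2 - b ^ 2| ^ α * |x ^ 2 - 1| ^ (1 - α) := by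
  have e1 : |x ^ 2 - b ^ 2| = |x + b| * |x - b| := by rw [← abs_mul]; congr 1; ring
  have e2 : |x ^ 2 - 1| = |x + 1| * |x - 1| := by rw [← abs_mul]; congr 1; ring
  rw [e1, e2, Real.mul_rpow (abs_nonneg _) (abs_nonneg _), Real.mul_rpow (abs_nonneg _) (abs_nonneg _)]
  unfold Psi gam pts
  rw [Fin.prod_univ_four]
  simp only [Matrix.cons_val_zero, Matrix.cons_val_one, Matrix.cons_val]
  rw [show x - -b = x + b by ring, show x - -1 = x + 1 by ring]
  ring

lemma Psi_gam_neg (b α x : ℝ) : Psi b (gam α) (-x) = Psi b (gam α) x := by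
  rw [Psi_gam, Psi_gam]
  norm_num

lemma Psi_zero {b α : ℝ} (hb : 1 < b) : Psi b (gam α) 0 = (b ^ 2) ^ α := by
  rw [Psi_gam]
  norm_num

lemma inner_max {b α : ℝ} (hb : 1 < b) (h0 : 0 < α) (h1 : α < 1) :
    ∀ x ∈ Set.Icc (-1 : ℝ) 1, x ≠ 0 → Psi b (gam α) x < Psi b (gam α) 0 := by
  intro x hx hne
  have hx2 : 0 < x ^ 2 := by positivity
  have hx1 : x ^ 2 ≤ 1 := by
    have h1 := hx.1
    have h2 := hx.2
    nlinarith
  have hb2 : 1 < b ^ 2 := by nlinarith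
  rw [Psi_zero hb, Psi_gam, abs_of_nonpos (by linarith : x ^ 2 - b ^ 2 ≤ 0),
    abs_of_nonpos (by linarith : x ^ 2 - 1 ≤ 0)]
  have e1 : (-(x ^ 2 - b ^ 2)) ^ α < (b ^ 2) ^ α :=
    Real.rpow_lt_rpow (by linarith) (by linarith) h0
  have e2 : (-(x ^ 2 - 1)) ^ (1 - α) ≤ 1 :=
    Real.rpow_le_one (by linarith) (by linarith) (by linarith)
  have e3 : 0 ≤ (-(x ^ 2 - b ^ 2)) ^ α := Real.rpow_nonneg (by linarith) _
  calc (-(x ^ 2 - b ^ 2)) ^ α * (-(x ^ 2 - 1)) ^ (1 - α) ≤ (-(x ^ 2 - b ^ 2)) ^ α * 1 :=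
        mul_le_mul_of_nonneg_left e2 e3
    _ < (b ^ 2) ^ α := by rw [mul_one]; exact e1

/-- The location of the outer maximum. -/
noncomputable def xi (b α : ℝ) : ℝ := √(α + (1 - α) * b ^ 2)

lemma xi_sq {b α : ℝ} (h0 : 0 < α) (h1 : α < 1) : xi b α ^ 2 = α + (1 - α) * b ^ 2 := by
  unfold xi
  rw [Real.sq_sqrt]
  have : 0 ≤ (1 - α) * b ^ 2 := mul_nonneg (by linarith) (by positivity)
  linarith

lemma xi_gt {b α : ℝ} (hb : 1 < b) (h0 : 0 < α) (h1 : α < 1) : 1 < xi b α := by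
  have h := xi_sq (b := b) h0 h1
  have h2 : 0 ≤ xi b α := Real.sqrt_nonneg _
  have h3 : 1 < xi b α ^ 2 := by
    rw [h]
    have : 0 < (1 - α) * (b ^ 2 - 1) := mul_pos (by linarith) (by nlinarith)
    nlinarith
  nlinarith

lemma xi_lt {b α : ℝ} (hb : 1 < b) (h0 : 0 < α) (h1 : α < 1) : xi b α < b := by
  have h := xi_sq (b := b) h0 h1
  have h2 : 0 ≤ xi b α := Real.sqrt_nonneg _
  have h3 : xi b α ^ 2 < b ^ 2 := by
    rw [h]
    have : 0 < α * (b ^ 2 - 1) := mul_pos (by linarith) (by nlinarith)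
    nlinarith
  nlinarith

/-- The value at the outer maximum. -/
lemma Psi_xi {b α : ℝ} (hb : 1 < b) (h0 : 0 < α) (h1 : α < 1) :
    Psi b (gam α) (xi b α) = (α * (b ^ 2 - 1)) ^ α * ((1 - α) * (b ^ 2 - 1)) ^ (1 - α) := by
  have hB : 0 < b ^ 2 - 1 := by nlinarith
  rw [Psi_gam, xi_sq h0 h1]
  have e1 : |α + (1 - α) * b ^ 2 - b ^ 2| = α * (b ^ 2 - 1) := by
    rw [show α + (1 - α) * b ^ 2 - b ^ 2 = -(α * (b ^ 2 - 1)) by ring, abs_neg,
      abs_of_pos (by positivity)]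
  have e2 : |α + (1 - α) * b ^ 2 - 1| = (1 - α) * (b ^ 2 - 1) := by
    rw [show α + (1 - α) * b ^ 2 - 1 = (1 - α) * (b ^ 2 - 1) by ring,
      abs_of_pos (mul_pos (by linarith) hB)]
  rw [e1, e2]

lemma outer_max {b α : ℝ} (hb : 1 < b) (h0 : 0 < α) (h1 : α < 1) :
    ∀ x ∈ Set.Icc (1 : ℝ) b, x ≠ xi b α → Psi b (gam α) x < Psi b (gam α) (xi b α) := by
  intro x hx hne
  have hB : 0 < b ^ 2 - 1 := by nlinarith
  have h1α : 0 < 1 - α := by linarith
  have hx1 : 1 ≤ x := hx.1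
  have hxb : x ≤ b := hx.2
  have hPpos : 0 < Psi b (gam α) (xi b α) := by
    rw [Psi_xi hb h0 h1]
    have := mul_pos h0 hB
    have := mul_pos h1α hB
    positivity
  rcases eq_or_lt_of_le hx1 with h | hx1'
  · rw [Psi_gam b α x, ← h, show ((1 : ℝ) ^ 2 - 1) = 0 by norm_num, abs_zero,
      Real.zero_rpow h1α.ne', mul_zero]
    exact hPpos
  rcases eq_or_lt_of_le hxb with h | hxb'
  · rw [Psi_gam b α x, h, sub_self, abs_zero, Real.zero_rpow h0.ne', zero_mul]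
    exact hPpos
  have hy1 : 0 < x ^ 2 - 1 := by nlinarith
  have hy2 : 0 < b ^ 2 - x ^ 2 := by nlinarith
  have hxsq : x ^ 2 ≠ α + (1 - α) * b ^ 2 := by
    intro h
    apply hne
    unfold xi
    rw [← h, Real.sqrt_sq (by linarith)]
  have hstrict := strictConcaveOn_log_Ioi.2 (x := (b ^ 2 - x ^ 2) / α) (y := (x ^ 2 - 1) / (1 - α))
    (Set.mem_Ioi.mpr (by positivity)) (Set.mem_Ioi.mpr (by positivity)) (by
      intro h
      rw [div_eq_div_iff h0.ne' h1α.ne'] at h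
      apply hxsq
      linarith) h0 h1α (by ring)
  simp only [smul_eq_mul] at hstrict
  rw [mul_div_cancel₀ _ h0.ne', mul_div_cancel₀ _ h1α.ne',
    Real.log_div hy2.ne' h0.ne', Real.log_div hy1.ne' h1α.ne',
    show b ^ 2 - x ^ 2 + (x ^ 2 - 1) = b ^ 2 - 1 by ring] at hstrict
  rw [Psi_xi hb h0 h1, Psi_gam, abs_of_neg (by linarith : x ^ 2 - b ^ 2 < 0), abs_of_pos hy1,
    show -(x ^ 2 - b ^ 2) = b ^ 2 - x ^ 2 by ring]
  have hA := mul_pos h0 hB
  have hC := mul_pos h1α hB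
  rw [← Real.log_lt_log_iff (by positivity) (by positivity), Real.log_mul (by positivity) (by positivity),
    Real.log_mul (by positivity) (by positivity), Real.log_rpow hy2, Real.log_rpow hy1,
    Real.log_rpow hA, Real.log_rpow hC, Real.log_mul h0.ne' hB.ne', Real.log_mul h1α.ne' hB.ne']
  linarith

/-- The function whose sign decides which maximum is larger. -/
noncomputable def Gf (α B : ℝ) : ℝ := log (B - 1) - binEntropy α - α * log B

lemma Gf_eq {b α : ℝ} (hb : 1 < b) (h0 : 0 < α) (h1 : α < 1) :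
    Gf α (b ^ 2) = log (Psi b (gam α) (xi b α)) - log (Psi b (gam α) 0) := by
  have hB : 0 < b ^ 2 - 1 := by nlinarith
  have h1α : 0 < 1 - α := by linarith
  have hb2 : 0 < b ^ 2 := by positivity
  have hA := mul_pos h0 hB
  have hC := mul_pos h1α hB
  rw [Psi_xi hb h0 h1, Psi_zero hb, Real.log_mul (by positivity) (by positivity), Real.log_rpow hA,
    Real.log_rpow hC, Real.log_mul h0.ne' hB.ne', Real.log_mul h1α.ne' hB.ne', Real.log_rpow hb2]
  unfold Gf binEntropy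
  rw [Real.log_inv, Real.log_inv]
  ring

lemma outer_gt_of_Gf_pos {b α : ℝ} (hb : 1 < b) (h0 : 0 < α) (h1 : α < 1) (h : 0 < Gf α (b ^ 2)) :
    Psi b (gam α) 0 < Psi b (gam α) (xi b α) := by
  have hB : 0 < b ^ 2 - 1 := by nlinarith
  have h1α : 0 < 1 - α := by linarith
  have hA := mul_pos h0 hB
  have hC := mul_pos h1α hB
  have hb2 : 0 < b ^ 2 := by positivity
  rw [Gf_eq hb h0 h1] at h
  rw [← Real.log_lt_log_iff]
  · linarith
  · rw [Psi_zero hb]; positivity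
  · rw [Psi_xi hb h0 h1]; positivity

lemma inner_gt_of_Gf_neg {b α : ℝ} (hb : 1 < b) (h0 : 0 < α) (h1 : α < 1) (h : Gf α (b ^ 2) < 0) :
    Psi b (gam α) (xi b α) < Psi b (gam α) 0 := by
  have hB : 0 < b ^ 2 - 1 := by nlinarith
  have h1α : 0 < 1 - α := by linarith
  have hA := mul_pos h0 hB
  have hC := mul_pos h1α hB
  have hb2 : 0 < b ^ 2 := by positivity
  rw [Gf_eq hb h0 h1] at h
  rw [← Real.log_lt_log_iff]
  · linarith
  · rw [Psi_xi hb h0 h1]; positivity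
  · rw [Psi_zero hb]; positivity

end Pool.Agent.X122.FP
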