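import Pool.Agent.X122.FP2

set_option autoImplicit false

/-!
# The critical parameter
-/

namespace Pool.Agent.X122.FP

open Filter Topology MeasureTheory Real

lemma Gf_strictMono {α : ℝ} (h1 : α < 1) {B B' : ℝ} (hB : 1 < B) (h : B < B') :
    Gf α B < Gf α B' := by
  unfold Gf
  have e1 : log B' - log B < log (B' - 1) - log (B - 1) := by
    rw [← Real.log_div (by linarith) (by linarith), ← Real.log_div (by linarith) (by linarith)]
    apply Real.log_lt_log (div_pos (by linarith) (by linarith))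
    rw [div_lt_div_iff₀ (by linarith) (by linarith)]
    nlinarith
  have e2 : log B < log B' := Real.log_lt_log (by linarith) h
  nlinarith

lemma Gf_two_neg {α : ℝ} (h0 : 0 < α) (h1 : α < 1) : Gf α 2 < 0 := by
  unfold Gf
  have e1 := binEntropy_pos h0 h1
  have e2 : 0 < log 2 := Real.log_pos (by norm_num)
  rw [show (2 : ℝ) - 1 = 1 by norm_num, Real.log_one]
  have := mul_pos h0 e2
  linarith

lemma Gf_large {α : ℝ} (h0 : 0 < α) (h1 : α < 1) :
    2 ≤ exp (2 * log 2 / (1 - α)) ∧ 0 ≤ Gf α (exp (2 * log 2 / (1 - α))) := by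
  have e2 : 0 < log 2 := Real.log_pos (by norm_num)
  have h1α : 0 < 1 - α := by linarith
  set B := exp (2 * log 2 / (1 - α)) with hBdef
  have hlogB : log B = 2 * log 2 / (1 - α) := Real.log_exp _
  have hB : 2 ≤ B := by
    rw [← Real.log_le_log_iff (by norm_num) (Real.exp_pos _), hlogB, le_div_iff₀ h1α]
    nlinarith
  refine ⟨hB, ?_⟩
  have e3 : log B - log 2 ≤ log (B - 1) := by
    rw [← Real.log_div (by linarith) (by norm_num)]
    apply Real.log_le_log (by positivity)
    linarith
  have e4 : (1 - α) * log B = 2 * log 2 := by rw [hlogB]; field_simp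
  have e5 : binEntropy α ≤ log 2 := binEntropy_le_log_two
  unfold Gf
  nlinarith

lemma exists_Bf {α : ℝ} (h0 : 0 < α) (h1 : α < 1) : ∃ B : ℝ, 2 < B ∧ Gf α B = 0 := by
  obtain ⟨hB, hG⟩ := Gf_large h0 h1
  have hcont : ContinuousOn (Gf α) (Set.Icc 2 (exp (2 * log 2 / (1 - α)))) := by
    unfold Gf
    intro x hx
    have hx2 : 2 ≤ x := hx.1
    apply ContinuousAt.continuousWithinAt
    have h1 : ContinuousAt (fun B : ℝ => log (B - 1)) x :=
      ContinuousAt.log (by fun_prop) (by linarith)
    have h2 : ContinuousAt (fun B : ℝ => log B) x := ContinuousAt.log (by fun_prop) (by linarith)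
    exact (h1.sub continuousAt_const).sub (continuousAt_const.mul h2)
  obtain ⟨B, hB', hGB⟩ := intermediate_value_Icc hB hcont ⟨(Gf_two_neg h0 h1).le, hG⟩
  refine ⟨B, ?_, hGB⟩
  rcases eq_or_lt_of_le hB'.1 with h | h
  · exfalso
    have := Gf_two_neg h0 h1
    rw [h, hGB] at this
    exact lt_irrefl _ this
  · exact h

open Classical in
/-- The critical value of `b²`. -/
noncomputable def Bf (α : ℝ) : ℝ := if h : 0 < α ∧ α < 1 then (exists_Bf h.1 h.2).choose else 3

lemma Bf_spec {α : ℝ} (h0 : 0 < α) (h1 : α < 1) : 2 < Bf α ∧ Gf α (Bf α) = 0 := by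
  unfold Bf
  rw [dif_pos ⟨h0, h1⟩]
  exact (exists_Bf h0 h1).choose_spec

lemma Bf_cont {α : ℝ} (h0 : 0 < α) (h1 : α < 1) : ContinuousAt Bf α := by
  rw [Metric.continuousAt_iff']
  intro ε hε
  obtain ⟨hB, hG⟩ := Bf_spec h0 h1
  set ε' := min ε ((Bf α - 1) / 2) with hε'
  have hε'0 : 0 < ε' := lt_min hε (by linarith)
  have hε'1 : ε' ≤ (Bf α - 1) / 2 := min_le_right _ _
  have hε'2 : ε' ≤ ε := min_le_left _ _
  have hm : Gf α (Bf α - ε') < 0 := by
    rw [← hG]
    exact Gf_strictMono h1 (by linarith) (by linarith)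
  have hp : 0 < Gf α (Bf α + ε') := by
    rw [← hG]
    exact Gf_strictMono h1 (by linarith) (by linarith)
  have hcont : ∀ B : ℝ, ContinuousAt (fun a => Gf a B) α := by
    intro B
    unfold Gf
    have : ContinuousAt binEntropy α := binEntropy_continuous.continuousAt
    exact (continuousAt_const.sub this).sub (continuousAt_id.mul continuousAt_const)
  filter_upwards [(hcont _).eventually (gt_mem_nhds hm), (hcont _).eventually (lt_mem_nhds hp),
    lt_mem_nhds h0, gt_mem_nhds h1] with a e1 e2 e3 e4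
  obtain ⟨hBa, hGa⟩ := Bf_spec e3 e4
  rw [Real.dist_eq, abs_lt]
  have l1 : Bf α - ε' < Bf a := by
    by_contra hcon
    push Not at hcon
    rcases eq_or_lt_of_le hcon with h | h
    · rw [← h, hGa] at e1
      exact lt_irrefl _ e1
    · have := Gf_strictMono e4 (by linarith : 1 < Bf a) h
      linarith
  have l2 : Bf a < Bf α + ε' := by
    by_contra hcon
    push Not at hcon
    rcases eq_or_lt_of_le hcon with h | h
    · rw [h, hGa] at e2
      exact lt_irrefl _ e2
    · have := Gf_strictMono e4 (by linarith : 1 < Bf α + ε') h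
      linarith
  constructor <;> linarith

lemma Gf_conv {B a c : ℝ} (hB : 2 < B) (ha : 0 < a) (hac : a < c) (hc : c < 1) :
    (1 - a) * Gf c B < (1 - c) * Gf a B := by
  have h1a : 0 < 1 - a := by linarith
  have h1c : 0 < 1 - c := by linarith
  have hconc := strictConcave_binEntropy.2 (show a ∈ Set.Icc (0 : ℝ) 1 from ⟨ha.le, by linarith⟩)
    (show (1 : ℝ) ∈ Set.Icc (0 : ℝ) 1 from ⟨zero_le_one, le_rfl⟩)
    (by linarith : a < 1).ne (show 0 < (1 - c) / (1 - a) by positivity)
    (show 0 < (c - a) / (1 - a) from div_pos (by linarith) h1a) (by field_simp; ring)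
  simp only [smul_eq_mul, binEntropy_one, mul_zero, add_zero, mul_one] at hconc
  rw [show (1 - c) / (1 - a) * a + (c - a) / (1 - a) = c by field_simp; ring, div_mul_eq_mul_div,
    div_lt_iff₀ h1a] at hconc
  have hlog : log (B - 1) < log B := Real.log_lt_log (by linarith) (by linarith)
  unfold Gf
  have : (1 - c) * (log (B - 1) - binEntropy a - a * log B) -
      (1 - a) * (log (B - 1) - binEntropy c - c * log B) =
      ((1 - a) * binEntropy c - (1 - c) * binEntropy a) + (c - a) * (log B - log (B - 1)) := by ring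
  have h2 : 0 < (c - a) * (log B - log (B - 1)) := mul_pos (by linarith) (by linarith)
  linarith

lemma Gf_left {B a c : ℝ} (hB : 2 < B) (ha : 0 < a) (hac : a < c) (hc : c < 1) (h : Gf c B = 0) :
    0 < Gf a B := by
  have := Gf_conv hB ha hac hc
  rw [h, mul_zero] at this
  by_contra hcon
  push Not at hcon
  have : (1 - c) * Gf a B ≤ 0 := mul_nonpos_of_nonneg_of_nonpos (by linarith) hcon
  linarith

lemma Gf_right {B a c : ℝ} (hB : 2 < B) (ha : 0 < a) (hac : a < c) (hc : c < 1) (h : Gf a B = 0) :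
    Gf c B < 0 := by
  have := Gf_conv hB ha hac hc
  rw [h, mul_zero] at this
  by_contra hcon
  push Not at hcon
  have : 0 ≤ (1 - a) * Gf c B := mul_nonneg (by linarith) hcon
  linarith

/-- `b` as a function of `α`. -/
noncomputable def bq (α : ℝ) : ℝ := √(Bf α)

/-- `ξ` as a function of `α`. -/
noncomputable def xq (α : ℝ) : ℝ := xi (bq α) α

/-- `p` as a function of `α`. -/
noncomputable def pq (α : ℝ) : ℝ := log ((bq α + xq α) / (bq α - xq α))

/-- `q` as a function of `α`. -/
noncomputable def qq (α : ℝ) : ℝ := log ((xq α + 1) / (xq α - 1))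

section
variable {α : ℝ} (h0 : 0 < α) (h1 : α < 1)

include h0 h1

lemma bq_sq : bq α ^ 2 = Bf α := Real.sq_sqrt (by linarith [(Bf_spec h0 h1).1])

lemma bq_gt : 13 / 11 < bq α := by
  have h2 := bq_sq h0 h1
  have h3 := (Bf_spec h0 h1).1
  have h4 : 0 ≤ bq α := Real.sqrt_nonneg _
  nlinarith

lemma bq_gt_one : 1 < bq α := by linarith [bq_gt h0 h1]

lemma xq_gt : 1 < xq α := xi_gt (bq_gt_one h0 h1) h0 h1

lemma xq_lt : xq α < bq α := xi_lt (bq_gt_one h0 h1) h0 h1

lemma xq_sq : xq α ^ 2 = α + (1 - α) * bq α ^ 2 := xi_sq h0 h1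

lemma qq_pos : 0 < qq α := by
  have := xq_gt h0 h1
  apply Real.log_pos
  rw [one_lt_div (by linarith)]
  linarith

lemma pq_pos : 0 < pq α := by
  have := xq_gt h0 h1
  have := xq_lt h0 h1
  apply Real.log_pos
  rw [one_lt_div (by linarith)]
  linarith

lemma pq_ge : log (1 / α) ≤ pq α := by
  have e1 := xq_gt h0 h1
  have e2 := xq_lt h0 h1
  have e3 := xq_sq h0 h1
  apply Real.log_le_log (by positivity)
  rw [div_le_div_iff₀ h0 (by linarith)]
  have e4 : (bq α - xq α) * (bq α + xq α) ≤ (α * (bq α + xq α)) * (bq α + xq α) := by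
    have : (bq α - xq α) * (bq α + xq α) = α * (bq α ^ 2 - 1) := by nlinarith
    rw [this, mul_assoc]
    apply mul_le_mul_of_nonneg_left _ h0.le
    nlinarith
  have := le_of_mul_le_mul_right e4 (by linarith)
  linarith

lemma qq_le (h2 : α ≤ 1 / 2) : qq α ≤ log 24 := by
  have e1 := xq_gt h0 h1
  have e2 := xq_lt h0 h1
  have e3 := xq_sq h0 h1
  have e0 := bq_gt h0 h1
  apply Real.log_le_log (div_pos (by linarith) (by linarith))
  rw [div_le_iff₀ (by linarith)]
  have e4 : (xq α + 1) * (xq α + 1) ≤ (24 * (xq α - 1)) * (xq α + 1) := by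
    have k1 : (xq α + 1) * (xq α + 1) ≤ (bq α + 1) * (bq α + 1) := by nlinarith
    have k2 : (bq α + 1) * (bq α + 1) ≤ 12 * (bq α - 1) * (bq α + 1) :=
      mul_le_mul_of_nonneg_right (by linarith) (by linarith)
    have k3 : (24 * (xq α - 1)) * (xq α + 1) = 24 * (1 - α) * (bq α ^ 2 - 1) := by nlinarith
    have k4 : 0 ≤ (1 - 2 * α) * (bq α ^ 2 - 1) := mul_nonneg (by linarith) (by nlinarith)
    rw [k3]
    nlinarith
  exact le_of_mul_le_mul_right e4 (by linarith)

lemma bq_cont : ContinuousAt bq α := (Bf_cont h0 h1).sqrt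

lemma xq_cont : ContinuousAt xq α := by
  unfold xq xi
  apply ContinuousAt.sqrt
  exact continuousAt_id.add ((continuousAt_const.sub continuousAt_id).mul ((bq_cont h0 h1).pow 2))

lemma pq_cont : ContinuousAt pq α := by
  have e1 := xq_gt h0 h1
  have e2 := xq_lt h0 h1
  unfold pq
  apply ContinuousAt.log
  · exact ((bq_cont h0 h1).add (xq_cont h0 h1)).div ((bq_cont h0 h1).sub (xq_cont h0 h1)) (by linarith)
  · exact (div_pos (by linarith) (by linarith)).ne'

lemma qq_cont : ContinuousAt qq α := by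
  have e1 := xq_gt h0 h1
  unfold qq
  apply ContinuousAt.log
  · exact ((xq_cont h0 h1).add continuousAt_const).div ((xq_cont h0 h1).sub continuousAt_const)
      (by linarith)
  · exact (div_pos (by linarith) (by linarith)).ne'

end

/-- The good parameters. -/
def Good (α : ℝ) : Prop := 0 < α ∧ α < 1 ∧ Irrational α ∧ Irrational (pq α / qq α)

lemma bq_inj : Set.InjOn bq {α | Good α} := by
  have key : ∀ a c : ℝ, Good a → Good c → a < c → bq a ≠ bq c := by
    intro a c ha hc hac h
    have e1 := bq_sq ha.1 ha.2.1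
    have e2 := bq_sq hc.1 hc.2.1
    rw [h, e2] at e1
    have h1 := (Bf_spec ha.1 ha.2.1).2
    have h2 := Bf_spec hc.1 hc.2.1
    rw [← e1] at h1
    have := Gf_left h2.1 ha.1 hac hc.2.1 h2.2
    linarith
  intro a ha c hc h
  rcases lt_trichotomy a c with h1 | h1 | h1
  · exact absurd h (key a c ha hc h1)
  · exact h1
  · exact absurd h.symm (key c a hc ha h1)

/-- There are uncountably many good parameters. -/
lemma good_uncountable : ¬ {α : ℝ | Good α}.Countable := by
  intro hcount
  set f : ℝ → ℝ := fun α => pq α / qq α with hf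
  have hcountable : (f '' Set.Ioc (0 : ℝ) (1 / 2)).Countable := by
    have hsub : f '' Set.Ioc (0 : ℝ) (1 / 2) ⊆ (Set.range ((↑) : ℚ → ℝ) ∪
        f '' Set.range ((↑) : ℚ → ℝ)) ∪ f '' {α : ℝ | Good α} := by
      rintro y ⟨x, hx, rfl⟩
      by_cases hxi : Irrational x
      · by_cases hfx : Irrational (f x)
        · right
          exact ⟨x, ⟨hx.1, by linarith [hx.2], hxi, hfx⟩, rfl⟩
        · left
          left
          unfold Irrational at hfx
          push Not at hfx
          exact hfx
      · left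
        right
        unfold Irrational at hxi
        push Not at hxi
        exact ⟨x, hxi, rfl⟩
    exact Set.Countable.mono hsub (((Set.countable_range _).union
      ((Set.countable_range _).image f)).union (hcount.image f))
  -- a small parameter
  set L : ℝ := (|f (1 / 2)| + 1) * log 24 with hL
  have hlog24 : 0 < log 24 := Real.log_pos (by norm_num)
  have hL0 : log 24 ≤ L := by
    have := abs_nonneg (f (1 / 2))
    nlinarith
  have hexp : exp (-L) < 1 / 2 := by
    have h1 : exp (-L) ≤ exp (-log 24) := Real.exp_le_exp.mpr (by linarith)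
    have h2 : exp (-log 24) = 1 / 24 := by
      rw [Real.exp_neg, Real.exp_log (by norm_num)]; norm_num
    linarith
  have ha0 : 0 < exp (-L) := Real.exp_pos _
  have ha1 : exp (-L) < 1 := by linarith
  have hbig : f (1 / 2) < f (exp (-L)) := by
    have h1 := pq_ge ha0 ha1
    have h2 := qq_le ha0 ha1 hexp.le
    have h3 := qq_pos ha0 ha1
    rw [one_div, ← Real.exp_neg, Real.log_exp, neg_neg] at h1
    have h4 : f (1 / 2) ≤ |f (1 / 2)| := le_abs_self _
    have h5 : |f (1 / 2)| + 1 ≤ f (exp (-L)) := by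
      rw [hf]
      simp only
      rw [le_div_iff₀ h3]
      calc (|f (1 / 2)| + 1) * qq (exp (-L)) ≤ (|f (1 / 2)| + 1) * log 24 :=
            mul_le_mul_of_nonneg_left h2 (by positivity)
        _ ≤ pq (exp (-L)) := h1
    linarith
  have hcont : ContinuousOn f (Set.Icc (exp (-L)) (1 / 2)) := by
    intro x hx
    have hx0 : 0 < x := lt_of_lt_of_le ha0 hx.1
    have hx1 : x < 1 := lt_of_le_of_lt hx.2 (by norm_num)
    exact ((pq_cont hx0 hx1).div (qq_cont hx0 hx1) (qq_pos hx0 hx1).ne').continuousWithinAt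
  have hsub := intermediate_value_Icc' hexp.le hcont
  have hsub2 : Set.Icc (f (1 / 2)) (f (exp (-L))) ⊆ f '' Set.Ioc (0 : ℝ) (1 / 2) := by
    refine hsub.trans (Set.image_mono ?_)
    intro x hx
    exact ⟨lt_of_lt_of_le ha0 hx.1, hx.2⟩
  have hz := (hcountable.mono hsub2).measure_zero volume
  rw [Real.volume_Icc, ENNReal.ofReal_eq_zero] at hz
  linarith

end Pool.Agent.X122.FP
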