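import Pool.Agent.X122.FP3

set_option autoImplicit false

/-!
# Selection of the base exponents
-/

namespace Pool.Agent.X122.FP

open Filter Topology MeasureTheory Real

/-- The symmetric even exponents. -/
def mm (k l : ℕ) : Fin 4 → ℕ := ![2 * k, 2 * l, 2 * l, 2 * k]

lemma W_mm (b : ℝ) (k l : ℕ) (x : ℝ) :
    W b (mm k l) x = ((x ^ 2 - b ^ 2) ^ 2) ^ k * ((x ^ 2 - 1) ^ 2) ^ l := by
  have e1 : (x ^ 2 - b ^ 2) ^ 2 = |x + b| ^ 2 * |x - b| ^ 2 := by
    rw [sq_abs, sq_abs]; ring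
  have e2 : (x ^ 2 - 1) ^ 2 = |x + 1| ^ 2 * |x - 1| ^ 2 := by
    rw [sq_abs, sq_abs]; ring
  rw [e1, e2]
  unfold W mm pts
  rw [Fin.prod_univ_four]
  simp only [Matrix.cons_val_zero, Matrix.cons_val_one, Matrix.cons_val]
  rw [show x - -b = x + b by ring, show x - -1 = x + 1 by ring, mul_pow, mul_pow, ← pow_mul,
    ← pow_mul, ← pow_mul, ← pow_mul]
  ring

lemma W_mm_neg (b : ℝ) (k l : ℕ) (x : ℝ) : W b (mm k l) (-x) = W b (mm k l) x := by
  rw [W_mm, W_mm]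
  norm_num

lemma J_symm (b : ℝ) (k l : ℕ) : J b (mm k l) (-b) (-1) = J b (mm k l) 1 b := by
  unfold J
  rw [← intervalIntegral.integral_comp_neg]
  apply intervalIntegral.integral_congr
  intro x _
  exact W_mm_neg b k l x

lemma W_pos (b : ℝ) (m : Fin 4 → ℕ) (x : ℝ) (h : ∀ i, x ≠ pts b i) : 0 < W b m x := by
  unfold W
  apply Finset.prod_pos
  intro i _
  have : 0 < |x - pts b i| := abs_pos.mpr (sub_ne_zero.mpr (h i))
  positivity

lemma J_pos (b : ℝ) (m : Fin 4 → ℕ) {p q : ℝ} (hpq : p < q)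
    (h : ∀ x ∈ Set.Ioo p q, ∀ i, x ≠ pts b i) : 0 < J b m p q := by
  unfold J
  apply intervalIntegral.intervalIntegral_pos_of_pos_on
  · exact (W_cont b m).intervalIntegrable _ _
  · intro x hx
    exact W_pos b m x (h x hx)
  · exact hpq

section
variable {b : ℝ} (hb : 1 < b)
include hb

lemma J1_pos (m : Fin 4 → ℕ) : 0 < J b m (-b) (-1) := by
  apply J_pos b m (by linarith)
  intro x hx i
  have h1 := hx.1
  have h2 := hx.2
  fin_cases i <;> simp [pts] <;> intro h <;> linarith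

lemma J2_pos (m : Fin 4 → ℕ) : 0 < J b m (-1) 1 := by
  apply J_pos b m (by linarith)
  intro x hx i
  have h1 := hx.1
  have h2 := hx.2
  fin_cases i <;> simp [pts] <;> intro h <;> linarith

lemma J3_pos (m : Fin 4 → ℕ) : 0 < J b m 1 b := by
  apply J_pos b m (by linarith)
  intro x hx i
  have h1 := hx.1
  have h2 := hx.2
  fin_cases i <;> simp [pts] <;> intro h <;> linarith

lemma J_mono_step (k l : ℕ) : J b (mm k l) (-1) 1 * J b (mm (k + 1) l) 1 b ≤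
    J b (mm (k + 1) l) (-1) 1 * J b (mm k l) 1 b := by
  have hstep : ∀ x, W b (mm (k + 1) l) x = (x ^ 2 - b ^ 2) ^ 2 * W b (mm k l) x := by
    intro x
    rw [W_mm, W_mm, pow_succ]
    ring
  have h2 : (b ^ 2 - 1) ^ 2 * J b (mm k l) (-1) 1 ≤ J b (mm (k + 1) l) (-1) 1 := by
    unfold J
    rw [← intervalIntegral.integral_const_mul]
    apply intervalIntegral.integral_mono_on (by norm_num)
    · exact ((continuous_const.mul (W_cont b _)).intervalIntegrable _ _)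
    · exact (W_cont b _).intervalIntegrable _ _
    · intro x hx
      rw [hstep]
      apply mul_le_mul_of_nonneg_right _ (W_nonneg _ _ _)
      have hx1 := hx.1
      have hx2 := hx.2
      have : x ^ 2 ≤ 1 := by nlinarith
      have h3 : 0 ≤ b ^ 2 - 1 := by nlinarith
      nlinarith
  have h3 : J b (mm (k + 1) l) 1 b ≤ (b ^ 2 - 1) ^ 2 * J b (mm k l) 1 b := by
    unfold J
    rw [← intervalIntegral.integral_const_mul]
    apply intervalIntegral.integral_mono_on hb.le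
    · exact (W_cont b _).intervalIntegrable _ _
    · exact ((continuous_const.mul (W_cont b _)).intervalIntegrable _ _)
    · intro x hx
      rw [hstep]
      apply mul_le_mul_of_nonneg_right _ (W_nonneg _ _ _)
      have hx1 := hx.1
      have hx2 := hx.2
      have h1 : 1 ≤ x ^ 2 := by nlinarith
      have h3 : x ^ 2 ≤ b ^ 2 := by nlinarith
      nlinarith
  have p2 := J2_pos hb (mm k l)
  have p3 := J3_pos hb (mm k l)
  calc J b (mm k l) (-1) 1 * J b (mm (k + 1) l) 1 b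
      ≤ J b (mm k l) (-1) 1 * ((b ^ 2 - 1) ^ 2 * J b (mm k l) 1 b) :=
        mul_le_mul_of_nonneg_left h3 p2.le
    _ = ((b ^ 2 - 1) ^ 2 * J b (mm k l) (-1) 1) * J b (mm k l) 1 b := by ring
    _ ≤ J b (mm (k + 1) l) (-1) 1 * J b (mm k l) 1 b := mul_le_mul_of_nonneg_right h2 p3.le

/-- The ratio of the inner and the outer integral. -/
noncomputable def Rt (b : ℝ) (m : Fin 4 → ℕ) : ℝ := J b m (-1) 1 / J b m 1 b

lemma Rt_pos (m : Fin 4 → ℕ) : 0 < Rt b m := div_pos (J2_pos hb m) (J3_pos hb m)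

lemma Rt_mono (l : ℕ) : Monotone (fun k => Rt b (mm k l)) := by
  apply monotone_nat_of_le_succ
  intro k
  unfold Rt
  rw [div_le_div_iff₀ (J3_pos hb _) (J3_pos hb _)]
  exact J_mono_step hb k l

end

lemma tend_gam (k l : ℕ → ℕ) (ρ : ℝ) (hρ : 0 < ρ) (hl : Tendsto l atTop atTop)
    (hk : Tendsto (fun n => (k n : ℝ) / l n) atTop (𝓝 ρ)) :
    Tendsto (fun n i => (mm (k n) (l n) i : ℝ) / ((2 * (k n + l n) : ℕ) : ℝ)) atTop
      (𝓝 (gam (ρ / (1 + ρ)))) := by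
  have e1 : Tendsto (fun n => ((k n : ℝ) / l n) / (1 + (k n : ℝ) / l n)) atTop
      (𝓝 (ρ / (1 + ρ))) := hk.div (tendsto_const_nhds.add hk) (by linarith)
  have e2 : Tendsto (fun n => 1 / (1 + (k n : ℝ) / l n)) atTop
      (𝓝 (1 / (1 + ρ))) := tendsto_const_nhds.div (tendsto_const_nhds.add hk) (by linarith)
  have hl0 : ∀ᶠ n in atTop, 0 < l n := hl.eventually (eventually_gt_atTop 0)
  have f1 : Tendsto (fun n => ((2 * k n : ℕ) : ℝ) / ((2 * (k n + l n) : ℕ) : ℝ)) atTop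
      (𝓝 (ρ / (1 + ρ))) := by
    apply e1.congr'
    filter_upwards [hl0] with n hn
    have : (0 : ℝ) < l n := by exact_mod_cast hn
    have h2 : (0 : ℝ) ≤ k n := by positivity
    push_cast
    field_simp
    ring
  have f2 : Tendsto (fun n => ((2 * l n : ℕ) : ℝ) / ((2 * (k n + l n) : ℕ) : ℝ)) atTop
      (𝓝 (1 - ρ / (1 + ρ))) := by
    rw [show 1 - ρ / (1 + ρ) = 1 / (1 + ρ) by field_simp; ring]
    apply e2.congr'
    filter_upwards [hl0] with n hn
    have : (0 : ℝ) < l n := by exact_mod_cast hn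
    have h2 : (0 : ℝ) ≤ k n := by positivity
    push_cast
    field_simp
    ring
  rw [tendsto_pi_nhds]
  intro i
  fin_cases i
  · exact f1
  · exact f2
  · exact f2
  · exact f1

lemma floor_tend (ρ : ℝ) (hρ : 0 ≤ ρ) :
    Tendsto (fun n : ℕ => (⌊ρ * n⌋₊ : ℝ) / n) atTop (𝓝 ρ) :=
  (tendsto_nat_floor_mul_div_atTop hρ).comp tendsto_natCast_atTop_atTop

section
variable {α : ℝ} (h0 : 0 < α) (h1 : α < 1)
include h0 h1

lemma Gf_crit : Gf α (bq α ^ 2) = 0 := by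
  rw [bq_sq h0 h1]
  exact (Bf_spec h0 h1).2

lemma crit_right {ρ : ℝ} (hρ : α / (1 - α) < ρ) :
    ∀ᶠ l : ℕ in atTop, 1 < Rt (bq α) (mm ⌊ρ * l⌋₊ l) := by
  have h1α : 0 < 1 - α := by linarith
  have hρ0 : 0 < ρ := lt_trans (by positivity) hρ
  have hb := bq_gt_one h0 h1
  have hb2 : 2 < bq α ^ 2 := by rw [bq_sq h0 h1]; exact (Bf_spec h0 h1).1
  have hα' : α < ρ / (1 + ρ) := by
    rw [div_lt_iff₀ h1α] at hρ
    rw [lt_div_iff₀ (by linarith)]
    linarith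
  have hα'1 : ρ / (1 + ρ) < 1 := by
    rw [div_lt_one (by linarith)]; linarith
  have hG := Gf_right hb2 h0 hα' hα'1 (Gf_crit h0 h1)
  have hlt := inner_gt_of_Gf_neg hb (by positivity) hα'1 hG
  have hα'0 : 0 < ρ / (1 + ρ) := by positivity
  have hcmp := compare (bq α) (gam (ρ / (1 + ρ))) (gam_pos hα'0 hα'1) (-1) 1 0 1 (bq α)
    (by norm_num) (by norm_num) hb.le (Psi (bq α) (gam (ρ / (1 + ρ))) (xi (bq α) (ρ / (1 + ρ))))
    (Psi_nonneg _ _ _) (by
      intro x hx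
      by_cases h : x = xi (bq α) (ρ / (1 + ρ))
      · rw [h]
      · exact (outer_max hb hα'0 hα'1 x hx h).le) hlt
    (fun l => mm ⌊ρ * l⌋₊ l) (fun l => 2 * (⌊ρ * (l : ℝ)⌋₊ + l))
    (by
      apply tendsto_atTop_mono _ tendsto_id
      intro l
      simp only [id]
      omega)
    (tend_gam (fun l => ⌊ρ * (l : ℝ)⌋₊) id ρ hρ0 tendsto_id (floor_tend ρ hρ0.le))
  filter_upwards [hcmp] with l hl
  unfold Rt
  rw [one_lt_div (J3_pos hb _)]
  exact hl

lemma crit_left {ρ : ℝ} (hρ0 : 0 < ρ) (hρ : ρ < α / (1 - α)) :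
    ∀ᶠ l : ℕ in atTop, Rt (bq α) (mm ⌊ρ * l⌋₊ l) < 1 := by
  have h1α : 0 < 1 - α := by linarith
  have hb := bq_gt_one h0 h1
  have hb2 : 2 < bq α ^ 2 := by rw [bq_sq h0 h1]; exact (Bf_spec h0 h1).1
  have hα' : ρ / (1 + ρ) < α := by
    rw [lt_div_iff₀ h1α] at hρ
    rw [div_lt_iff₀ (by linarith)]
    linarith
  have hα'0 : 0 < ρ / (1 + ρ) := by positivity
  have hα'1 : ρ / (1 + ρ) < 1 := by linarith
  have hG := Gf_left hb2 hα'0 hα' h1 (Gf_crit h0 h1)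
  have hlt := outer_gt_of_Gf_pos hb hα'0 hα'1 hG
  have hcmp := compare (bq α) (gam (ρ / (1 + ρ))) (gam_pos hα'0 hα'1) 1 (bq α)
    (xi (bq α) (ρ / (1 + ρ))) (-1) 1
    hb ⟨(xi_gt hb hα'0 hα'1).le, (xi_lt hb hα'0 hα'1).le⟩ (by norm_num)
    (Psi (bq α) (gam (ρ / (1 + ρ))) 0)
    (Psi_nonneg _ _ _) (by
      intro x hx
      by_cases h : x = 0
      · rw [h]
      · exact (inner_max hb hα'0 hα'1 x hx h).le) hlt
    (fun l => mm ⌊ρ * l⌋₊ l) (fun l => 2 * (⌊ρ * (l : ℝ)⌋₊ + l))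
    (by
      apply tendsto_atTop_mono _ tendsto_id
      intro l
      simp only [id]
      omega)
    (tend_gam (fun l => ⌊ρ * (l : ℝ)⌋₊) id ρ hρ0 tendsto_id (floor_tend ρ hρ0.le))
  filter_upwards [hcmp] with l hl
  unfold Rt
  rw [div_lt_one (J3_pos hb _)]
  exact hl

/-- The chosen exponent. -/
noncomputable def kk (α : ℝ) (l : ℕ) : ℕ := sInf {k : ℕ | 1 ≤ Rt (bq α) (mm k l)}

lemma kk_mem : ∀ᶠ l : ℕ in atTop, 1 ≤ Rt (bq α) (mm (kk α l) l) := by
  filter_upwards [crit_right h0 h1 (lt_add_one (α / (1 - α)))] with l hl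
  have hne : {k : ℕ | 1 ≤ Rt (bq α) (mm k l)}.Nonempty := ⟨_, hl.le⟩
  exact Nat.sInf_mem hne

lemma kk_le {ρ : ℝ} (hρ : α / (1 - α) < ρ) : ∀ᶠ l : ℕ in atTop, (kk α l : ℝ) ≤ ρ * l := by
  have h1α : 0 < 1 - α := by linarith
  have hρ0 : 0 < ρ := lt_trans (by positivity) hρ
  filter_upwards [crit_right h0 h1 hρ] with l hl
  have h2 : kk α l ≤ ⌊ρ * (l : ℝ)⌋₊ := Nat.sInf_le hl.le
  have h3 : (kk α l : ℝ) ≤ (⌊ρ * (l : ℝ)⌋₊ : ℝ) := by exact_mod_cast h2
  exact h3.trans (Nat.floor_le (by positivity))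

lemma kk_gt {ρ : ℝ} (hρ0 : 0 < ρ) (hρ : ρ < α / (1 - α)) :
    ∀ᶠ l : ℕ in atTop, ρ * l < (kk α l : ℝ) := by
  filter_upwards [crit_left h0 h1 hρ0 hρ, kk_mem h0 h1] with l hl hmem
  have h2 : ⌊ρ * (l : ℝ)⌋₊ < kk α l := by
    by_contra hcon
    push Not at hcon
    have := Rt_mono (bq_gt_one h0 h1) l hcon
    simp only at this
    linarith
  exact Nat.lt_of_floor_lt h2

lemma kk_tend : Tendsto (fun l : ℕ => (kk α l : ℝ) / l) atTop (𝓝 (α / (1 - α))) := by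
  have h1α : 0 < 1 - α := by linarith
  have hρ0 : 0 < α / (1 - α) := by positivity
  rw [Metric.tendsto_atTop']
  intro ε hε
  have e1 := kk_le h0 h1 (show α / (1 - α) < α / (1 - α) + ε / 2 by linarith)
  have e2 := kk_gt h0 h1 (ρ := max (α / (1 - α) / 2) (α / (1 - α) - ε / 2))
    (lt_of_lt_of_le (by linarith) (le_max_left _ _)) (max_lt (by linarith) (by linarith))
  have key : ∀ᶠ l : ℕ in atTop, dist ((kk α l : ℝ) / l) (α / (1 - α)) < ε := by
    filter_upwards [e1, e2, eventually_gt_atTop 0] with l h2 h3 h4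
    have hl : (0 : ℝ) < l := by exact_mod_cast h4
    have h5 : (kk α l : ℝ) / l ≤ α / (1 - α) + ε / 2 := by rw [div_le_iff₀ hl]; exact h2
    have h6 : max (α / (1 - α) / 2) (α / (1 - α) - ε / 2) < (kk α l : ℝ) / l := by
      rw [lt_div_iff₀ hl]; exact h3
    have h7 : α / (1 - α) - ε / 2 < (kk α l : ℝ) / l := lt_of_le_of_lt (le_max_right _ _) h6
    rw [Real.dist_eq, abs_lt]
    constructor <;> linarith
  obtain ⟨n₀, hn₀⟩ := eventually_atTop.mp key
  exact ⟨n₀, fun n hn => hn₀ n hn.le⟩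

end

end Pool.Agent.X122.FP
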