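import Pool.Agent.X122.FP4

set_option autoImplicit false

/-!
# Shifts of the exponents
-/

namespace Pool.Agent.X122.FP

open Filter Topology MeasureTheory Real

lemma W_add (b : ℝ) (m E : Fin 4 → ℕ) (x : ℝ) :
    W b (fun i => m i + E i) x = W b m x * W b E x := by
  unfold W
  rw [← Finset.prod_mul_distrib]
  apply Finset.prod_congr rfl
  intro i _
  rw [pow_add]

/-- Shifting the exponents multiplies the integrals by the values at the maximum. -/
lemma shift_tend (b : ℝ) (γ : Fin 4 → ℝ) (hγ : ∀ i, 0 < γ i) (p q x₀ : ℝ) (hpq : p < q)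
    (hx : x₀ ∈ Set.Icc p q) (hmax : ∀ x ∈ Set.Icc p q, x ≠ x₀ → Psi b γ x < Psi b γ x₀)
    (hpos : ∀ m : Fin 4 → ℕ, 0 < J b m p q)
    (m : ℕ → Fin 4 → ℕ) (N : ℕ → ℕ) (hN : Tendsto N atTop atTop)
    (hm : Tendsto (fun n i => (m n i : ℝ) / N n) atTop (𝓝 γ)) (E D : Fin 4 → ℕ)
    (hD : ∀ n i, D i ≤ m n i)
    (hW : W b D x₀ ≠ 0) :
    Tendsto (fun n => J b (fun i => m n i - D i + E i) p q / J b (m n) p q) atTop
      (𝓝 (W b E x₀ / W b D x₀)) := by
  have hN' : Tendsto (fun n => (N n : ℝ)) atTop atTop := tendsto_natCast_atTop_atTop.comp hN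
  have hM : Tendsto (fun n i => ((m n i - D i : ℕ) : ℝ) / N n) atTop (𝓝 γ) := by
    rw [tendsto_pi_nhds] at hm ⊢
    intro i
    have e1 : Tendsto (fun n => (D i : ℝ) / N n) atTop (𝓝 0) := hN'.const_div_atTop _
    have e2 := (hm i).sub e1
    rw [sub_zero] at e2
    apply e2.congr
    intro n
    rw [Nat.cast_sub (hD n i), sub_div]
  have key : ∀ F : Fin 4 → ℕ, Tendsto (fun n => J b (fun i => m n i - D i + F i) p q /
      J b (fun i => m n i - D i) p q) atTop (𝓝 (W b F x₀)) := by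
    intro F
    have := concentrate b γ hγ p q x₀ hpq hx hmax (fun n i => m n i - D i) N hN hM (W b F)
      (W_cont b F)
    apply this.congr
    intro n
    congr 1
    unfold J
    apply intervalIntegral.integral_congr
    intro x _
    simp only
    rw [W_add]
  have h1 := (key E).div (key D) hW
  apply h1.congr
  intro n
  have hD' : (fun i => m n i - D i + D i) = m n := by
    funext i
    exact Nat.sub_add_cancel (hD n i)
  simp only [Pi.div_apply]
  rw [hD']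
  have p1 := hpos (fun i => m n i - D i)
  have p2 := hpos (m n)
  field_simp

section
variable {α : ℝ} (h0 : 0 < α) (h1 : α < 1)
include h0 h1

lemma outer_max' : ∀ x ∈ Set.Icc (-bq α) (-1), x ≠ -xq α →
    Psi (bq α) (gam α) x < Psi (bq α) (gam α) (-xq α) := by
  intro x hx hne
  rw [Psi_gam_neg, ← Psi_gam_neg _ _ x]
  apply outer_max (bq_gt_one h0 h1) h0 h1
  · constructor <;> linarith [hx.1, hx.2]
  · intro h
    apply hne
    have : -x = xq α := h
    linarith

lemma pts_ne_xi : ∀ i, xq α ≠ pts (bq α) i := by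
  have e1 := xq_gt h0 h1
  have e2 := xq_lt h0 h1
  intro i
  fin_cases i <;> simp [pts] <;> intro h <;> linarith

lemma pts_ne_neg_xi : ∀ i, -xq α ≠ pts (bq α) i := by
  have e1 := xq_gt h0 h1
  have e2 := xq_lt h0 h1
  intro i
  fin_cases i <;> simp [pts] <;> intro h <;> linarith

lemma pts_ne_zero : ∀ i, (0 : ℝ) ≠ pts (bq α) i := by
  have e1 := xq_gt h0 h1
  have e2 := xq_lt h0 h1
  intro i
  fin_cases i <;> simp [pts] <;> intro h <;> linarith

variable (k l : ℕ → ℕ) (hl : Tendsto l atTop atTop)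
  (hk : Tendsto (fun n => (k n : ℝ) / l n) atTop (𝓝 (α / (1 - α)))) (E D : Fin 4 → ℕ)
  (hD : ∀ n i, D i ≤ mm (k n) (l n) i)
include hl hk hD

lemma tend_data : Tendsto (fun n => 2 * (k n + l n)) atTop atTop ∧
    Tendsto (fun n i => (mm (k n) (l n) i : ℝ) / ((2 * (k n + l n) : ℕ) : ℝ)) atTop
      (𝓝 (gam α)) := by
  have h1α : 0 < 1 - α := by linarith
  constructor
  · apply tendsto_atTop_mono _ hl
    intro n
    omega
  · have := tend_gam k l (α / (1 - α)) (by positivity) hl hk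
    rw [show α / (1 - α) / (1 + α / (1 - α)) = α by field_simp; ring] at this
    exact this

lemma shift1 : Tendsto (fun n => J (bq α) (fun i => mm (k n) (l n) i - D i + E i) (-bq α) (-1) /
    J (bq α) (mm (k n) (l n)) (-bq α) (-1)) atTop
      (𝓝 (W (bq α) E (-xq α) / W (bq α) D (-xq α))) := by
  obtain ⟨e1, e2⟩ := tend_data h0 h1 k l hl hk D hD
  have hb := bq_gt_one h0 h1
  have f1 := xq_gt h0 h1
  have f2 := xq_lt h0 h1
  exact shift_tend (bq α) (gam α) (gam_pos h0 h1) (-bq α) (-1) (-xq α) (by linarith)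
    ⟨by linarith, by linarith⟩ (outer_max' h0 h1) (J1_pos hb) _ _ e1 e2 E D hD
    (W_pos _ _ _ (pts_ne_neg_xi h0 h1)).ne'

lemma shift2 : Tendsto (fun n => J (bq α) (fun i => mm (k n) (l n) i - D i + E i) (-1) 1 /
    J (bq α) (mm (k n) (l n)) (-1) 1) atTop
      (𝓝 (W (bq α) E 0 / W (bq α) D 0)) := by
  obtain ⟨e1, e2⟩ := tend_data h0 h1 k l hl hk D hD
  have hb := bq_gt_one h0 h1
  exact shift_tend (bq α) (gam α) (gam_pos h0 h1) (-1) 1 0 (by norm_num)
    ⟨by norm_num, by norm_num⟩ (inner_max hb h0 h1) (J2_pos hb) _ _ e1 e2 E D hD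
    (W_pos _ _ _ (pts_ne_zero h0 h1)).ne'

lemma shift3 : Tendsto (fun n => J (bq α) (fun i => mm (k n) (l n) i - D i + E i) 1 (bq α) /
    J (bq α) (mm (k n) (l n)) 1 (bq α)) atTop
      (𝓝 (W (bq α) E (xq α) / W (bq α) D (xq α))) := by
  obtain ⟨e1, e2⟩ := tend_data h0 h1 k l hl hk D hD
  have hb := bq_gt_one h0 h1
  have f1 := xq_gt h0 h1
  have f2 := xq_lt h0 h1
  exact shift_tend (bq α) (gam α) (gam_pos h0 h1) 1 (bq α) (xq α) hb
    ⟨by linarith, by linarith⟩ (outer_max hb h0 h1) (J3_pos hb) _ _ e1 e2 E D hD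
    (W_pos _ _ _ (pts_ne_xi h0 h1)).ne'

/-- The limit of the quotient of the outer integrals. -/
lemma ratio13 : Tendsto (fun n => J (bq α) (fun i => mm (k n) (l n) i - D i + E i) (-bq α) (-1) /
    J (bq α) (fun i => mm (k n) (l n) i - D i + E i) 1 (bq α)) atTop
      (𝓝 ((W (bq α) E (-xq α) / W (bq α) D (-xq α)) / (W (bq α) E (xq α) / W (bq α) D (xq α)))) := by
  have hb := bq_gt_one h0 h1
  have e1 := shift1 h0 h1 k l hl hk E D hD
  have e3 := shift3 h0 h1 k l hl hk E D hD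
  have hne : W (bq α) E (xq α) / W (bq α) D (xq α) ≠ 0 :=
    (div_pos (W_pos _ _ _ (pts_ne_xi h0 h1)) (W_pos _ _ _ (pts_ne_xi h0 h1))).ne'
  apply (e1.div e3 hne).congr
  intro n
  simp only [Pi.div_apply]
  rw [J_symm]
  have p1 := J3_pos hb (mm (k n) (l n))
  have p2 := J3_pos hb (fun i => mm (k n) (l n) i - D i + E i)
  field_simp

/-- The limit of the quotient of the inner and the outer integral. -/
lemma ratio23 : Tendsto (fun n => Rt (bq α) (fun i => mm (k n) (l n) i - D i + E i) /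
    Rt (bq α) (mm (k n) (l n))) atTop
      (𝓝 ((W (bq α) E 0 / W (bq α) D 0) / (W (bq α) E (xq α) / W (bq α) D (xq α)))) := by
  have hb := bq_gt_one h0 h1
  have e2 := shift2 h0 h1 k l hl hk E D hD
  have e3 := shift3 h0 h1 k l hl hk E D hD
  have hne : W (bq α) E (xq α) / W (bq α) D (xq α) ≠ 0 :=
    (div_pos (W_pos _ _ _ (pts_ne_xi h0 h1)) (W_pos _ _ _ (pts_ne_xi h0 h1))).ne'
  apply (e2.div e3 hne).congr
  intro n
  simp only [Pi.div_apply]
  unfold Rt
  have p1 := J3_pos hb (mm (k n) (l n))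
  have p2 := J3_pos hb (fun i => mm (k n) (l n) i - D i + E i)
  have p3 := J2_pos hb (mm (k n) (l n))
  field_simp

end

section
variable {α : ℝ} (h0 : 0 < α) (h1 : α < 1)
include h0 h1

lemma kk_atTop : Tendsto (kk α) atTop atTop := by
  have h1α : 0 < 1 - α := by linarith
  have hρ0 : 0 < α / (1 - α) := by positivity
  have e := kk_gt h0 h1 (ρ := α / (1 - α) / 2) (by linarith) (by linarith)
  have e2 : Tendsto (fun l : ℕ => (kk α l : ℝ)) atTop atTop := by
    apply tendsto_atTop_mono' atTop (f₁ := fun l : ℕ => α / (1 - α) / 2 * (l : ℝ))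
    · filter_upwards [e] with l hl using hl.le
    · exact tendsto_natCast_atTop_atTop.const_mul_atTop (by linarith)
  exact tendsto_natCast_atTop_iff.mp e2

/-- The ratios of the chosen exponents are bounded. -/
lemma Rt_bdd : ∃ C : ℝ, ∀ᶠ l in atTop, Rt (bq α) (mm (kk α l) l) ∈ Set.Icc 1 C := by
  have hb := bq_gt_one h0 h1
  set D : Fin 4 → ℕ := ![2, 0, 0, 2] with hDdef
  -- shift the sequences to have `1 ≤ k`
  obtain ⟨l₀, hl₀⟩ := eventually_atTop.mp ((kk_atTop h0 h1).eventually (eventually_ge_atTop 1))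
  have hl : Tendsto (fun n => n + l₀) atTop atTop := tendsto_add_atTop_nat l₀
  have hk : Tendsto (fun n => ((kk α (n + l₀) : ℕ) : ℝ) / ((n + l₀ : ℕ) : ℝ)) atTop
      (𝓝 (α / (1 - α))) := (kk_tend h0 h1).comp hl
  have hD : ∀ n i, D i ≤ mm (kk α (n + l₀)) (n + l₀) i := by
    intro n i
    have := hl₀ (n + l₀) (by omega)
    fin_cases i <;> simp [mm, hDdef] <;> omega
  have hr := ratio23 h0 h1 (fun n => kk α (n + l₀)) (fun n => n + l₀) hl hk 0 D hD
  set c := (W (bq α) 0 0 / W (bq α) D 0) / (W (bq α) 0 (xq α) / W (bq α) D (xq α)) with hc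
  have hcpos : 0 < c := div_pos (div_pos (W_pos _ _ _ (pts_ne_zero h0 h1))
    (W_pos _ _ _ (pts_ne_zero h0 h1))) (div_pos (W_pos _ _ _ (pts_ne_xi h0 h1))
    (W_pos _ _ _ (pts_ne_xi h0 h1)))
  have hr2 := hr.eventually (lt_mem_nhds (show c / 2 < c by linarith))
  obtain ⟨n₁, hn₁⟩ := eventually_atTop.mp hr2
  refine ⟨2 / c, ?_⟩
  filter_upwards [kk_mem h0 h1, eventually_ge_atTop (n₁ + l₀)] with l hl1 hl2
  refine ⟨hl1, ?_⟩
  have h3 := hn₁ (l - l₀) (by omega)
  have h4 : l - l₀ + l₀ = l := by omega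
  rw [h4] at h3
  have h5 : (fun i => mm (kk α l) l i - D i + (0 : Fin 4 → ℕ) i) = mm (kk α l - 1) l := by
    funext i
    fin_cases i <;> simp [mm, hDdef] <;> omega
  rw [h5] at h3
  have h6 : Rt (bq α) (mm (kk α l - 1) l) < 1 := by
    by_contra hcon
    push Not at hcon
    have h7 : kk α l ≤ kk α l - 1 := Nat.sInf_le hcon
    have := hl₀ l (by omega)
    omega
  have h7 := Rt_pos hb (mm (kk α l) l)
  rw [lt_div_iff₀ h7] at h3
  rw [le_div_iff₀ hcpos]
  linarith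

/-- Good base sequences. -/
lemma base_exists : ∃ (φ : ℕ → ℕ) (R₀ : ℝ), Tendsto φ atTop atTop ∧ 0 < R₀ ∧
    Tendsto (fun n => Rt (bq α) (mm (kk α (φ n)) (φ n))) atTop (𝓝 R₀) := by
  obtain ⟨C, hC⟩ := Rt_bdd h0 h1
  obtain ⟨R₀, hR, φ, hφ, hlim⟩ := isCompact_Icc.tendsto_subseq' (s := Set.Icc 1 C)
    (x := fun l => Rt (bq α) (mm (kk α l) l)) hC.frequently
  exact ⟨φ, R₀, hφ.tendsto_atTop, lt_of_lt_of_le one_pos hR.1, hlim⟩

/-- The limits of all shifted sequences, with the parities of the exponents. -/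
lemma shifted : ∃ R₀ : ℝ, 0 < R₀ ∧ ∀ E D : Fin 4 → ℕ, ∃ m : ℕ → Fin 4 → ℕ,
    (∀ n i, m n i % 2 = (D i + E i) % 2) ∧
    Tendsto (fun n => J (bq α) (m n) (-bq α) (-1) / J (bq α) (m n) 1 (bq α)) atTop
      (𝓝 ((W (bq α) E (-xq α) / W (bq α) D (-xq α)) / (W (bq α) E (xq α) / W (bq α) D (xq α)))) ∧
    Tendsto (fun n => J (bq α) (m n) (-1) 1 / J (bq α) (m n) 1 (bq α)) atTop
      (𝓝 (R₀ * ((W (bq α) E 0 / W (bq α) D 0) / (W (bq α) E (xq α) / W (bq α) D (xq α))))) := by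
  have hb := bq_gt_one h0 h1
  obtain ⟨φ, R₀, hφ, hR₀, hlim⟩ := base_exists h0 h1
  refine ⟨R₀, hR₀, ?_⟩
  intro E D
  have hkk := (kk_atTop h0 h1).comp hφ
  set T := ∑ i, D i with hT
  have hDT : ∀ i, D i ≤ T := fun i => Finset.single_le_sum (fun _ _ => Nat.zero_le _)
    (Finset.mem_univ i)
  obtain ⟨n₀, hn₀⟩ := eventually_atTop.mp ((hkk.eventually (eventually_ge_atTop T)).and
    (hφ.eventually (eventually_ge_atTop T)))
  have hshift : Tendsto (fun n => n + n₀) atTop atTop := tendsto_add_atTop_nat n₀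
  have hl : Tendsto (fun n => φ (n + n₀)) atTop atTop := hφ.comp hshift
  have hk : Tendsto (fun n => ((kk α (φ (n + n₀)) : ℕ) : ℝ) / ((φ (n + n₀) : ℕ) : ℝ)) atTop
      (𝓝 (α / (1 - α))) := (kk_tend h0 h1).comp hl
  have hD : ∀ n i, D i ≤ mm (kk α (φ (n + n₀))) (φ (n + n₀)) i := by
    intro n i
    obtain ⟨a1, a2⟩ := hn₀ (n + n₀) (by omega)
    simp only [Function.comp] at a1
    have a3 := hDT i
    have : T ≤ mm (kk α (φ (n + n₀))) (φ (n + n₀)) i := by
      fin_cases i <;> simp [mm] <;> omega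
    omega
  refine ⟨fun n i => mm (kk α (φ (n + n₀))) (φ (n + n₀)) i - D i + E i, ?_, ?_, ?_⟩
  · intro n i
    have a1 := hD n i
    have a2 : mm (kk α (φ (n + n₀))) (φ (n + n₀)) i % 2 = 0 := by
      fin_cases i <;> simp [mm]
    simp only
    omega
  · exact ratio13 h0 h1 _ _ hl hk E D hD
  · have e1 := ratio23 h0 h1 _ _ hl hk E D hD
    have e2 : Tendsto (fun n => Rt (bq α) (mm (kk α (φ (n + n₀))) (φ (n + n₀)))) atTop (𝓝 R₀) :=
      hlim.comp hshift
    apply (e2.mul e1).congr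
    intro n
    have := Rt_pos hb (mm (kk α (φ (n + n₀))) (φ (n + n₀)))
    rw [mul_div_cancel₀ _ this.ne']
    rfl

end

end Pool.Agent.X122.FP
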