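import Pool.Agent.X122.FP5

set_option autoImplicit false

/-!
# Density of the shifts
-/

namespace Pool.Agent.X122.FP

open Filter Topology MeasureTheory Real

lemma dense_pair {x y : ℝ} (h : Irrational (x / y)) (r ε : ℝ) (hε : 0 < ε) :
    ∃ m n : ℤ, |m * x + n * y - r| < ε := by
  have hd := dense_addSubgroupClosure_pair_iff.mpr h
  obtain ⟨z, hz, hzr⟩ := hd.exists_dist_lt r hε
  rw [SetLike.mem_coe, AddSubgroup.mem_closure_pair] at hz
  obtain ⟨m, n, hmn⟩ := hz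
  refine ⟨m, n, ?_⟩
  rw [← hmn, Real.dist_eq] at hzr
  simp only [zsmul_eq_mul] at hzr
  rw [abs_sub_comm]
  exact hzr

/-- The logarithm of a shift. -/
noncomputable def Lx (b x : ℝ) (e : Fin 4 → ℤ) : ℝ := ∑ i, (e i : ℝ) * log |x - pts b i|

lemma W_quot (b x : ℝ) (h : ∀ i, x ≠ pts b i) (e : Fin 4 → ℤ) :
    W b (fun i => (e i).toNat) x / W b (fun i => (-e i).toNat) x = exp (Lx b x e) := by
  unfold W Lx
  rw [Real.exp_sum, ← Finset.prod_div_distrib]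
  apply Finset.prod_congr rfl
  intro i _
  have hpos : 0 < |x - pts b i| := abs_pos.mpr (sub_ne_zero.mpr (h i))
  rw [mul_comm, Real.exp_mul, Real.exp_log hpos]
  have h2 : ((e i : ℤ) : ℝ) = ((e i).toNat : ℝ) - ((-e i).toNat : ℝ) := by
    have := Int.toNat_sub_toNat_neg (e i)
    have h3 : (((e i).toNat - (-e i).toNat : ℤ) : ℝ) = (e i : ℝ) := by rw [this]
    push_cast at h3
    linarith
  rw [h2, Real.rpow_sub hpos, Real.rpow_natCast, Real.rpow_natCast]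

section
variable {α : ℝ} (h0 : 0 < α) (h1 : α < 1)
include h0 h1

lemma Lx_xi (e : Fin 4 → ℤ) : Lx (bq α) (xq α) e = e 0 * log (bq α + xq α) + e 1 * log (xq α + 1) +
    e 2 * log (xq α - 1) + e 3 * log (bq α - xq α) := by
  have e1 := xq_gt h0 h1
  have e2 := xq_lt h0 h1
  unfold Lx pts
  rw [Fin.sum_univ_four]
  simp only [Matrix.cons_val_zero, Matrix.cons_val_one, Matrix.cons_val]
  rw [abs_of_pos (by linarith : (0 : ℝ) < xq α - -bq α), abs_of_pos (by linarith : 0 < xq α - -1),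
    abs_of_pos (by linarith : 0 < xq α - 1), abs_of_neg (by linarith : xq α - bq α < 0)]
  rw [show xq α - -bq α = bq α + xq α by ring, show xq α - -1 = xq α + 1 by ring,
    show -(xq α - bq α) = bq α - xq α by ring]

lemma Lx_neg_xi (e : Fin 4 → ℤ) : Lx (bq α) (-xq α) e =
    e 0 * log (bq α - xq α) + e 1 * log (xq α - 1) +
    e 2 * log (xq α + 1) + e 3 * log (bq α + xq α) := by
  have e1 := xq_gt h0 h1
  have e2 := xq_lt h0 h1
  unfold Lx pts
  rw [Fin.sum_univ_four]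
  simp only [Matrix.cons_val_zero, Matrix.cons_val_one, Matrix.cons_val]
  rw [abs_of_pos (by linarith : (0 : ℝ) < -xq α - -bq α), abs_of_neg (by linarith : -xq α - -1 < 0),
    abs_of_neg (by linarith : -xq α - 1 < 0), abs_of_neg (by linarith : -xq α - bq α < 0)]
  rw [show -xq α - -bq α = bq α - xq α by ring, show -(-xq α - -1) = xq α - 1 by ring,
    show -(-xq α - 1) = xq α + 1 by ring, show -(-xq α - bq α) = bq α + xq α by ring]

lemma Lx_zero (e : Fin 4 → ℤ) : Lx (bq α) 0 e = (e 0 + e 3) * log (bq α) := by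
  have e1 := xq_gt h0 h1
  have e2 := xq_lt h0 h1
  unfold Lx pts
  rw [Fin.sum_univ_four]
  simp only [Matrix.cons_val_zero, Matrix.cons_val_one, Matrix.cons_val]
  rw [abs_of_pos (by linarith : (0 : ℝ) < 0 - -bq α), abs_of_neg (by linarith : (0 : ℝ) - bq α < 0)]
  norm_num
  ring

/-- `u`. -/
noncomputable def uq (α : ℝ) : ℝ := log (bq α) - (log (bq α + xq α) + log (bq α - xq α)) / 2

/-- `v`. -/
noncomputable def vq (α : ℝ) : ℝ := (log (xq α + 1) + log (xq α - 1)) / 2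

omit h0 h1 in
lemma uv_defs : True := trivial

lemma crit_eq : (1 - α) * vq α = α * uq α := by
  have e1 := xq_gt h0 h1
  have e2 := xq_lt h0 h1
  have hb := bq_gt_one h0 h1
  have h1α : 0 < 1 - α := by linarith
  have hB : 0 < bq α ^ 2 - 1 := by nlinarith
  have hG := Gf_crit h0 h1
  rw [Gf_eq hb h0 h1, Psi_gam, Psi_zero hb] at hG
  have hx : xi (bq α) α = xq α := rfl
  rw [hx] at hG
  have a1 : |xq α ^ 2 - bq α ^ 2| = (bq α + xq α) * (bq α - xq α) := by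
    rw [abs_of_neg (by nlinarith)]; ring
  have a2 : |xq α ^ 2 - 1| = (xq α + 1) * (xq α - 1) := by
    rw [abs_of_pos (by nlinarith)]; ring
  have b1 : 0 < bq α + xq α := by linarith
  have b2 : 0 < bq α - xq α := by linarith
  have b3 : 0 < xq α + 1 := by linarith
  have b4 : 0 < xq α - 1 := by linarith
  have b5 : 0 < bq α := by linarith
  rw [a1, a2, Real.log_mul (by positivity) (by positivity), Real.log_rpow (by positivity),
    Real.log_rpow (by positivity), Real.log_rpow (by positivity), Real.log_mul b1.ne' b2.ne',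
    Real.log_mul b3.ne' b4.ne', Real.log_pow] at hG
  unfold uq vq
  push_cast at hG
  linarith

lemma pq_eq : pq α = log (bq α + xq α) - log (bq α - xq α) := by
  have e1 := xq_gt h0 h1
  have e2 := xq_lt h0 h1
  unfold pq
  rw [Real.log_div (by linarith) (by linarith)]

lemma qq_eq : qq α = log (xq α + 1) - log (xq α - 1) := by
  have e1 := xq_gt h0 h1
  unfold qq
  rw [Real.log_div (by linarith) (by linarith)]

lemma uq_pos : 0 < uq α := by
  have e1 := xq_gt h0 h1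
  have e2 := xq_lt h0 h1
  have hb := bq_gt_one h0 h1
  unfold uq
  have h2 : log (bq α + xq α) + log (bq α - xq α) < 2 * log (bq α) := by
    rw [← Real.log_mul (by linarith) (by linarith), show 2 * log (bq α) = log (bq α ^ 2) by
      rw [Real.log_pow]; norm_num]
    apply Real.log_lt_log (mul_pos (by linarith) (by linarith))
    nlinarith
  linarith

lemma uv_irr (hirr : Irrational α) : Irrational (uq α / vq α) := by
  have hu := uq_pos h0 h1
  have h1α : 0 < 1 - α := by linarith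
  have hc := crit_eq h0 h1
  have hv : 0 < vq α := by
    have : 0 < (1 - α) * vq α := by rw [hc]; positivity
    exact (mul_pos_iff_of_pos_left h1α).mp this
  have h2 : uq α / vq α = α⁻¹ - (1 : ℕ) := by
    push_cast
    field_simp
    linarith
  rw [h2]
  exact hirr.inv.sub_natCast 1

/-- Density of the shifts with given parities. -/
lemma shift_dense (hirr : Irrational α) (hirr2 : Irrational (pq α / qq α)) (π₁ π₂ : ℤ) (r₁ r₂ δ : ℝ)
    (hδ : 0 < δ) : ∃ e : Fin 4 → ℤ, e 3 % 2 = 0 ∧ e 1 % 2 = π₁ % 2 ∧ e 2 % 2 = π₂ % 2 ∧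
      |(Lx (bq α) (-xq α) e - Lx (bq α) (xq α) e) - r₁| < δ ∧
      |(Lx (bq α) 0 e - Lx (bq α) (xq α) e) - r₂| < δ := by
  set e₀ : Fin 4 → ℤ := ![0, π₁, π₂, 0] with he₀
  set s₁ := (r₁ - (Lx (bq α) (-xq α) e₀ - Lx (bq α) (xq α) e₀)) / 4 with hs₁
  obtain ⟨a, a', ha⟩ := dense_pair hirr2 s₁ (δ / 4) (by linarith)
  set s₂ := (r₂ - (Lx (bq α) 0 e₀ - Lx (bq α) (xq α) e₀) - 2 * (a * pq α + a' * qq α)) / 4 with hs₂
  obtain ⟨c, c', hc⟩ := dense_pair (uv_irr h0 h1 hirr) s₂ (δ / 4) (by linarith)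
  refine ⟨![2 * (c - a), π₁ + 2 * (-c' - a'), π₂ + 2 * (-c' + a'), 2 * (c + a)], ?_, ?_, ?_, ?_, ?_⟩
  · simp
  · simp
  · simp
  · rw [show (Lx (bq α) (-xq α) ![2 * (c - a), π₁ + 2 * (-c' - a'), π₂ + 2 * (-c' + a'), 2 * (c + a)] -
        Lx (bq α) (xq α) ![2 * (c - a), π₁ + 2 * (-c' - a'), π₂ + 2 * (-c' + a'), 2 * (c + a)]) - r₁ =
        4 * (a * pq α + a' * qq α - s₁) by
      rw [hs₁, he₀, Lx_xi h0 h1, Lx_neg_xi h0 h1, Lx_xi h0 h1, Lx_neg_xi h0 h1, pq_eq h0 h1,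
        qq_eq h0 h1]
      simp only [Matrix.cons_val_zero, Matrix.cons_val_one, Matrix.cons_val]
      push_cast
      ring, abs_mul, abs_of_pos (by norm_num : (0 : ℝ) < 4)]
    linarith
  · rw [show (Lx (bq α) 0 ![2 * (c - a), π₁ + 2 * (-c' - a'), π₂ + 2 * (-c' + a'), 2 * (c + a)] -
        Lx (bq α) (xq α) ![2 * (c - a), π₁ + 2 * (-c' - a'), π₂ + 2 * (-c' + a'), 2 * (c + a)]) - r₂ =
        4 * (c * uq α + c' * vq α - s₂) by
      rw [hs₂, he₀, Lx_xi h0 h1, Lx_zero h0 h1, Lx_xi h0 h1, Lx_zero h0 h1, pq_eq h0 h1,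
        qq_eq h0 h1]
      unfold uq vq
      simp only [Matrix.cons_val_zero, Matrix.cons_val_one, Matrix.cons_val]
      push_cast
      ring, abs_mul, abs_of_pos (by norm_num : (0 : ℝ) < 4)]
    linarith

end

lemma sign_choice (T₁ T₂ : ℝ) : ∃ π₁ π₂ : ℕ,
    (-1 : ℝ) ^ π₂ * |T₂| = T₂ ∧ (-1 : ℝ) ^ (π₁ + π₂) * |T₁| = T₁ := by
  have key : ∀ T : ℝ, ∃ s : ℕ, s ≤ 1 ∧ (-1 : ℝ) ^ s * |T| = T := by
    intro T
    rcases le_total 0 T with h | h
    · exact ⟨0, by norm_num, by rw [abs_of_nonneg h]; norm_num⟩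
    · exact ⟨1, le_rfl, by rw [abs_of_nonpos h]; norm_num⟩
  obtain ⟨s₂, hs₂, h2⟩ := key T₂
  obtain ⟨s₁, hs₁, h1⟩ := key T₁
  refine ⟨s₁ + s₂, s₂, h2, ?_⟩
  rw [show s₁ + s₂ + s₂ = s₁ + 2 * s₂ by ring, pow_add, pow_mul]
  norm_num
  exact h1

/-- All pairs of quotients are approximated. -/
lemma approx_quot (α : ℝ) (hgood : Good α) (T₁ T₂ ε : ℝ) (hT₁ : T₁ ≠ 0) (hT₂ : T₂ ≠ 0)
    (hε : 0 < ε) : ∃ m : Fin 4 → ℕ, Even (m 3) ∧
      |(-1 : ℝ) ^ (m 1 + m 2) * (J (bq α) m (-bq α) (-1) / J (bq α) m 1 (bq α)) - T₁| < ε ∧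
      |(-1 : ℝ) ^ (m 2) * (J (bq α) m (-1) 1 / J (bq α) m 1 (bq α)) - T₂| < ε := by
  obtain ⟨h0, h1, hirr, hirr2⟩ := hgood
  obtain ⟨R₀, hR₀, hsh⟩ := shifted h0 h1
  obtain ⟨π₁, π₂, hπ₂, hπ₁⟩ := sign_choice T₁ T₂
  have hA₁ : 0 < |T₁| := abs_pos.mpr hT₁
  have hA₂ : 0 < |T₂| := abs_pos.mpr hT₂
  -- continuity of the exponential
  have c1 : ∀ᶠ x in 𝓝 (log |T₁|), abs (exp x - |T₁|) < ε / 2 := by
    have : Tendsto (fun x => abs (exp x - |T₁|)) (𝓝 (log |T₁|)) (𝓝 (abs (exp (log |T₁|) - |T₁|))) := by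
      apply Continuous.tendsto; fun_prop
    rw [Real.exp_log hA₁, sub_self, abs_zero] at this
    exact this.eventually (gt_mem_nhds (by linarith))
  have c2 : ∀ᶠ x in 𝓝 (log (|T₂| / R₀)), abs (R₀ * exp x - |T₂|) < ε / 2 := by
    have : Tendsto (fun x => abs (R₀ * exp x - |T₂|)) (𝓝 (log (|T₂| / R₀)))
        (𝓝 (abs (R₀ * exp (log (|T₂| / R₀)) - |T₂|))) := by
      apply Continuous.tendsto; fun_prop
    rw [Real.exp_log (by positivity), mul_div_cancel₀ _ hR₀.ne', sub_self, abs_zero] at this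
    exact this.eventually (gt_mem_nhds (by linarith))
  obtain ⟨δ₁, hδ₁, d1⟩ := Metric.eventually_nhds_iff.mp c1
  obtain ⟨δ₂, hδ₂, d2⟩ := Metric.eventually_nhds_iff.mp c2
  obtain ⟨e, he3, he1, he2, hL1, hL2⟩ := shift_dense h0 h1 hirr hirr2 π₁ π₂ (log |T₁|)
    (log (|T₂| / R₀)) (min δ₁ δ₂) (lt_min hδ₁ hδ₂)
  have g1 := d1 (y := Lx (bq α) (-xq α) e - Lx (bq α) (xq α) e)
    (by rw [Real.dist_eq]; exact lt_of_lt_of_le hL1 (min_le_left _ _))
  have g2 := d2 (y := Lx (bq α) 0 e - Lx (bq α) (xq α) e)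
    (by rw [Real.dist_eq]; exact lt_of_lt_of_le hL2 (min_le_right _ _))
  obtain ⟨m, hpar, hlim1, hlim2⟩ := hsh (fun i => (e i).toNat) (fun i => (-e i).toNat)
  rw [W_quot _ _ (pts_ne_neg_xi h0 h1), W_quot _ _ (pts_ne_xi h0 h1), ← Real.exp_sub] at hlim1
  rw [W_quot _ _ (pts_ne_zero h0 h1), W_quot _ _ (pts_ne_xi h0 h1), ← Real.exp_sub] at hlim2
  obtain ⟨n₁, k1⟩ := Metric.tendsto_atTop'.mp hlim1 (ε / 2) (by linarith)
  obtain ⟨n₂, k2⟩ := Metric.tendsto_atTop'.mp hlim2 (ε / 2) (by linarith)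
  set n := max n₁ n₂ + 1 with hn
  have hn1 := k1 n (by omega)
  have hn2 := k2 n (by omega)
  rw [Real.dist_eq] at hn1 hn2
  have hp : ∀ i, ((m n i : ℕ) : ℤ) % 2 = e i % 2 := by
    intro i
    have := hpar n i
    have h3 := Int.toNat_sub_toNat_neg (e i)
    omega
  have hm3 : Even (m n 3) := by
    rw [Nat.even_iff]
    have := hp 3
    omega
  have hs2 : (-1 : ℝ) ^ (m n 2) = (-1 : ℝ) ^ π₂ := by
    apply neg_one_pow_congr
    rw [Nat.even_iff, Nat.even_iff]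
    have := hp 2
    omega
  have hs1 : (-1 : ℝ) ^ (m n 1 + m n 2) = (-1 : ℝ) ^ (π₁ + π₂) := by
    apply neg_one_pow_congr
    rw [Nat.even_iff, Nat.even_iff]
    have := hp 2
    have := hp 1
    omega
  refine ⟨m n, hm3, ?_, ?_⟩
  · have hh : ∀ X : ℝ, (-1 : ℝ) ^ (π₁ + π₂) * X - T₁ = (-1 : ℝ) ^ (π₁ + π₂) * (X - |T₁|) := by
      intro X
      rw [mul_sub, hπ₁]
    rw [hs1, hh, abs_mul, abs_pow, abs_neg, abs_one, one_pow, one_mul]
    have := abs_sub_le (J (bq α) (m n) (-bq α) (-1) / J (bq α) (m n) 1 (bq α))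
      (exp (Lx (bq α) (-xq α) e - Lx (bq α) (xq α) e)) |T₁|
    linarith
  · have hh : ∀ X : ℝ, (-1 : ℝ) ^ π₂ * X - T₂ = (-1 : ℝ) ^ π₂ * (X - |T₂|) := by
      intro X
      rw [mul_sub, hπ₂]
    rw [hs2, hh, abs_mul, abs_pow, abs_neg, abs_one, one_pow, one_mul]
    have := abs_sub_le (J (bq α) (m n) (-1) 1 / J (bq α) (m n) 1 (bq α))
      (R₀ * exp (Lx (bq α) 0 e - Lx (bq α) (xq α) e)) |T₂|
    linarith

end Pool.Agent.X122.FP
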