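import Mathlib

set_option autoImplicit false

/-! # The greedy sign-choice walk in the plane: definitions and the folded map -/

namespace Pool.Agent.X122.GS

open Complex

/-- The unit vector `e^{2 π i α n}`. -/
noncomputable def e (α : ℝ) (n : ℕ) : ℂ := Complex.exp ((2 * Real.pi * α * n : ℝ) * Complex.I)

/-- The sign that makes `|w ± e^{2 π i α n}|` smaller (it is `-1` in case of a tie). -/
noncomputable def gsgn (α : ℝ) (w : ℂ) (n : ℕ) : ℤ :=
  if ‖w + e α n‖ < ‖w - e α n‖ then 1 else -1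

/-- `zs α z₀ n` is the point `z_{n-1}` of the sequence that starts at `z_{-1} = z₀`. -/
noncomputable def zs (α : ℝ) (z₀ : ℂ) : ℕ → ℂ
  | 0 => z₀
  | n + 1 => zs α z₀ n + (gsgn α (zs α z₀ n) n : ℂ) * e α n

/-- `eps α z₀ n` is the sign `ε_n`. -/
noncomputable def eps (α : ℝ) (z₀ : ℂ) (n : ℕ) : ℤ := gsgn α (zs α z₀ n) n

/-- No tie ever occurs. -/
def Admissible (α : ℝ) (z₀ : ℂ) : Prop :=
  ∀ n : ℕ, ‖zs α z₀ n + e α n‖ ≠ ‖zs α z₀ n - e α n‖

/-- The sign sequence is eventually periodic. -/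
def EventuallyPeriodic (α : ℝ) (z₀ : ℂ) : Prop :=
  ∃ N p : ℕ, 1 ≤ p ∧ ∀ n, N ≤ n → eps α z₀ (n + p) = eps α z₀ n

/-- The least period of an eventually periodic sign sequence. -/
noncomputable def period (α : ℝ) (z₀ : ℂ) : ℕ :=
  sInf {p : ℕ | 1 ≤ p ∧ ∃ N : ℕ, ∀ n, N ≤ n → eps α z₀ (n + p) = eps α z₀ n}

/-- The folded map. -/
noncomputable def F (a W : ℂ) : ℂ := a * (1 + (if W.re < 0 then W else -W))

noncomputable def sl (W : ℂ) : ℤ := if W.re < 0 then 1 else -1

noncomputable def sg (a z₀ : ℂ) : ℕ → ℤ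
  | 0 => 1
  | n + 1 => sg a z₀ n * sl ((F a)^[n] z₀)

lemma sl_sq (W : ℂ) : sl W * sl W = 1 := by
  unfold sl; split_ifs <;> norm_num

lemma sl_cases (W : ℂ) : sl W = 1 ∨ sl W = -1 := by
  unfold sl; split_ifs <;> simp

lemma sg_cases (a z₀ : ℂ) (n : ℕ) : sg a z₀ n = 1 ∨ sg a z₀ n = -1 := by
  induction n with
  | zero => simp [sg]
  | succ n ih =>
    rcases ih with h | h <;> rcases sl_cases ((F a)^[n] z₀) with h' | h' <;> simp [sg, h, h']

lemma sg_sq (a z₀ : ℂ) (n : ℕ) : sg a z₀ n * sg a z₀ n = 1 := by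
  rcases sg_cases a z₀ n with h | h <;> simp [h]

lemma norm_add_one_lt (Y : ℂ) : ‖Y + 1‖ < ‖Y - 1‖ ↔ Y.re < 0 := by
  rw [← sq_lt_sq₀ (norm_nonneg _) (norm_nonneg _), ← Complex.normSq_eq_norm_sq,
    ← Complex.normSq_eq_norm_sq, Complex.normSq_apply, Complex.normSq_apply]
  simp only [add_re, sub_re, one_re, add_im, sub_im, one_im]
  constructor <;> intro h <;> nlinarith

lemma norm_add_one_eq (Y : ℂ) : ‖Y + 1‖ = ‖Y - 1‖ ↔ Y.re = 0 := by
  rw [← sq_eq_sq₀ (norm_nonneg _) (norm_nonneg _), ← Complex.normSq_eq_norm_sq,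
    ← Complex.normSq_eq_norm_sq, Complex.normSq_apply, Complex.normSq_apply]
  simp only [add_re, sub_re, one_re, add_im, sub_im, one_im]
  constructor <;> intro h <;> nlinarith

lemma norm_e (α : ℝ) (n : ℕ) : ‖e α n‖ = 1 := by
  unfold e; exact Complex.norm_exp_ofReal_mul_I _

lemma e_succ (α : ℝ) (n : ℕ) :
    Complex.exp ((-(2 * Real.pi * α) : ℝ) * Complex.I) * e α (n + 1) = e α n := by
  unfold e
  rw [← Complex.exp_add]
  congr 1
  push_cast
  ring

lemma norm_lt_iff (α : ℝ) (n : ℕ) (t : ℤ) (X : ℂ) :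
    ‖(t : ℂ) * X * e α n + e α n‖ < ‖(t : ℂ) * X * e α n - e α n‖ ↔ (t : ℝ) * X.re < 0 := by
  have h1 : (t : ℂ) * X * e α n + e α n = ((t : ℂ) * X + 1) * e α n := by ring
  have h2 : (t : ℂ) * X * e α n - e α n = ((t : ℂ) * X - 1) * e α n := by ring
  rw [h1, h2, norm_mul, norm_mul, norm_e, mul_one, mul_one, norm_add_one_lt]
  simp [Complex.mul_re]

lemma norm_eq_iff (α : ℝ) (n : ℕ) (t : ℤ) (X : ℂ) :
    ‖(t : ℂ) * X * e α n + e α n‖ = ‖(t : ℂ) * X * e α n - e α n‖ ↔ (t : ℝ) * X.re = 0 := by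
  have h1 : (t : ℂ) * X * e α n + e α n = ((t : ℂ) * X + 1) * e α n := by ring
  have h2 : (t : ℂ) * X * e α n - e α n = ((t : ℂ) * X - 1) * e α n := by ring
  rw [h1, h2, norm_mul, norm_mul, norm_e, mul_one, mul_one, norm_add_one_eq]
  simp [Complex.mul_re]

/-- The sequence is the orbit of the folded map, up to the signs `sg`. -/
theorem rel (α : ℝ) (z₀ a : ℂ) (ha : a = Complex.exp ((-(2 * Real.pi * α) : ℝ) * Complex.I))
    (hne : ∀ n, ((F a)^[n] z₀).re ≠ 0) (n : ℕ) :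
    zs α z₀ n = (sg a z₀ n : ℂ) * (F a)^[n] z₀ * e α n ∧ eps α z₀ n = sg a z₀ (n + 1) := by
  -- the sign from the point
  have key : ∀ n, zs α z₀ n = (sg a z₀ n : ℂ) * (F a)^[n] z₀ * e α n →
      eps α z₀ n = sg a z₀ (n + 1) := by
    intro n h
    have h1 := hne n
    unfold eps gsgn
    rw [h]
    simp only [norm_lt_iff]
    rcases sg_cases a z₀ n with hs | hs
    · rcases lt_or_gt_of_ne h1 with h2 | h2
      · simp [sg, sl, hs, h2]
      · simp [sg, sl, hs, not_lt.2 h2.le]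
    · rcases lt_or_gt_of_ne h1 with h2 | h2
      · have : ¬ ((-1 : ℤ) : ℝ) * ((F a)^[n] z₀).re < 0 := by push_cast; linarith
        simp only [sg, sl, hs, h2, this, if_false, if_true, mul_one]
      · have : ((-1 : ℤ) : ℝ) * ((F a)^[n] z₀).re < 0 := by push_cast; linarith
        simp only [sg, sl, hs, this, if_true, not_lt.2 h2.le, if_false]
        norm_num
  have main : ∀ n, zs α z₀ n = (sg a z₀ n : ℂ) * (F a)^[n] z₀ * e α n := by
    intro n
    induction n with
    | zero => simp [zs, sg, e]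
    | succ n ih =>
      have h1 := key n ih
      have h2 : zs α z₀ (n + 1) = zs α z₀ n + (eps α z₀ n : ℂ) * e α n := rfl
      rw [h2, h1, ih, Function.iterate_succ_apply']
      have h3 : e α n = a * e α (n + 1) := by rw [ha, e_succ]
      rw [h3]
      have h4 : (sg a z₀ (n + 1) : ℂ) = (sg a z₀ n : ℂ) * (sl ((F a)^[n] z₀) : ℂ) := by
        simp only [sg]; push_cast; rfl
      rw [h4]
      generalize (F a)^[n] z₀ = X
      have hF : F a X = a * (1 + (if X.re < 0 then X else -X)) := rfl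
      have hs : sl X = if X.re < 0 then 1 else -1 := rfl
      rw [hF, hs]
      split_ifs with h5
      · push_cast; ring
      · push_cast; ring
  exact ⟨main n, key n (main n)⟩

/-- Periodicity and a lower bound for the period from the orbit of the folded map. -/
theorem dyn (α : ℝ) (z₀ a : ℂ) (ha : a = Complex.exp ((-(2 * Real.pi * α) : ℝ) * Complex.I))
    (N : ℕ) (hN : 2 ≤ N) (hper : (F a)^[N + 2] z₀ = z₀)
    (hne : ∀ n, n < N + 2 → ((F a)^[n] z₀).re ≠ 0)
    (h3 : ((F a)^[3] z₀).re < 0)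
    (h4 : ∀ k, 1 ≤ k → k < N - 1 → 0 < ((F a)^[3 + k] z₀).re) :
    Admissible α z₀ ∧ EventuallyPeriodic α z₀ ∧ N - 1 ≤ period α z₀ := by
  set P := N + 2 with hP
  have hmod : ∀ n, (F a)^[n] z₀ = (F a)^[n % P] z₀ := by
    intro n
    exact (Function.IsPeriodicPt.iterate_mod_apply (f := F a) (n := P) hper n).symm
  have hne' : ∀ n, ((F a)^[n] z₀).re ≠ 0 := by
    intro n
    rw [hmod n]
    exact hne _ (Nat.mod_lt _ (by omega))
  have hX : ∀ n, (F a)^[n + P] z₀ = (F a)^[n] z₀ := by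
    intro n
    rw [Function.iterate_add_apply, hper]
  have hrel := rel α z₀ a ha hne'
  have hc : ∀ n, sg a z₀ (n + P) * sg a z₀ n = sg a z₀ P := by
    intro n
    induction n with
    | zero => simp [sg]
    | succ n ih =>
      have e1 : sg a z₀ (n + 1 + P) = sg a z₀ (n + P) * sl ((F a)^[n] z₀) := by
        rw [show n + 1 + P = (n + P) + 1 by ring, sg, hX]
      have e2 : sg a z₀ (n + 1) = sg a z₀ n * sl ((F a)^[n] z₀) := rfl
      rw [e1, e2]
      calc sg a z₀ (n + P) * sl ((F a)^[n] z₀) * (sg a z₀ n * sl ((F a)^[n] z₀))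
          = (sg a z₀ (n + P) * sg a z₀ n) * (sl ((F a)^[n] z₀) * sl ((F a)^[n] z₀)) := by ring
        _ = sg a z₀ P := by rw [sl_sq, ih, mul_one]
  have hc2 : ∀ n, sg a z₀ (n + 2 * P) = sg a z₀ n := by
    intro n
    have h1 := hc (n + P)
    have h2 := hc n
    have h5 := sg_sq a z₀ (n + P)
    rw [show n + P + P = n + 2 * P by ring] at h1
    have h6 : sg a z₀ (n + 2 * P) = sg a z₀ P * sg a z₀ (n + P) := by
      rw [← h1, mul_assoc, h5, mul_one]
    rw [h6, ← h2]
    calc sg a z₀ (n + P) * sg a z₀ n * sg a z₀ (n + P)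
        = sg a z₀ n * (sg a z₀ (n + P) * sg a z₀ (n + P)) := by ring
      _ = sg a z₀ n := by rw [h5, mul_one]
  have hep : EventuallyPeriodic α z₀ := by
    refine ⟨0, 2 * P, by omega, ?_⟩
    intro n _
    rw [(hrel _).2, (hrel n).2, show n + 2 * P + 1 = (n + 1) + 2 * P by ring, hc2]
  refine ⟨?_, hep, ?_⟩
  · intro n hn
    rw [(hrel n).1, norm_eq_iff] at hn
    rcases sg_cases a z₀ n with hs | hs
    · rw [hs] at hn; simp at hn; exact hne' n hn
    · rw [hs] at hn; simp at hn; exact hne' n hn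
  · -- the lower bound
    have hmem : period α z₀ ∈ {p : ℕ | 1 ≤ p ∧ ∃ N : ℕ, ∀ n, N ≤ n →
        eps α z₀ (n + p) = eps α z₀ n} := by
      apply Nat.sInf_mem
      obtain ⟨N₁, p, hp, h⟩ := hep
      exact ⟨p, hp, N₁, h⟩
    obtain ⟨hp1, N₁, hN₁⟩ := hmem
    set p := period α z₀
    by_contra hcon
    push Not at hcon
    -- slip at time `n = 3 + P * (N₁ + 1)`
    set n := 3 + P * (N₁ + 1) with hn
    have hPpos : 5 ≤ P + 1 := by omega
    have hnN : N₁ + 1 ≤ n := by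
      have : N₁ + 1 ≤ P * (N₁ + 1) := Nat.le_mul_of_pos_left _ (by omega)
      omega
    have hslip : ((F a)^[n] z₀).re < 0 := by
      rw [hmod n, hn, Nat.add_mul_mod_self_left, ← hmod 3]
      exact h3
    have hno : 0 < ((F a)^[n + p] z₀).re := by
      have : n + p = (3 + p) + P * (N₁ + 1) := by omega
      rw [hmod (n + p), this, Nat.add_mul_mod_self_left, ← hmod (3 + p)]
      exact h4 p hp1 hcon
    have e1 : eps α z₀ n = eps α z₀ (n - 1) := by
      rw [(hrel n).2, (hrel (n - 1)).2, show n - 1 + 1 = n by omega]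
      show sg a z₀ n * sl ((F a)^[n] z₀) = sg a z₀ n
      unfold sl
      rw [if_pos hslip, mul_one]
    have e2 : eps α z₀ (n + p) = - eps α z₀ (n + p - 1) := by
      rw [(hrel (n + p)).2, (hrel (n + p - 1)).2, show n + p - 1 + 1 = n + p by omega]
      show sg a z₀ (n + p) * sl ((F a)^[n + p] z₀) = -sg a z₀ (n + p)
      unfold sl
      rw [if_neg (not_lt.2 hno.le)]
      ring
    have e3 := hN₁ n (by omega)
    have e4 := hN₁ (n - 1) (by omega)
    rw [show n - 1 + p = n + p - 1 by omega] at e4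
    have e5 : eps α z₀ n = 1 ∨ eps α z₀ n = -1 := by
      rw [(hrel n).2]; exact sg_cases _ _ _
    rw [e3, e4, ← e1] at e2
    rcases e5 with h | h <;> rw [h] at e2 <;> norm_num at e2

end Pool.Agent.X122.GS
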