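import Pool.Agent.X122.GS1

set_option autoImplicit false

/-! # The explicit periodic orbit with slips at distance `3` and `N - 1` -/

namespace Pool.Agent.X122.GS

open Complex

lemma F_neg {a W : ℂ} (h : W.re < 0) : F a W = a * (1 + W) := by
  unfold F; rw [if_pos h]

lemma F_pos {a W : ℂ} (h : 0 < W.re) : F a W = a * (1 - W) := by
  unfold F; rw [if_neg (not_lt.2 h.le)]; ring

theorem orbit (θ z r : ℝ) (N : ℕ) (p : ℤ) (hodd : Odd p) (hN : 3 ≤ N)
    (hrel : (N : ℝ) * (Real.pi - θ) + 2 * z = Real.pi * p) (hcos : 0 < 1 + Real.cos θ)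
    (hr : r * Real.cos (θ + z) = 2 * Real.cos θ - 1)
    (h0 : 1 / 2 < r * Real.cos z) (h1 : r * Real.cos z < 3 / 2)
    (h2 : r * Real.cos (θ - z) < 1 / 2)
    (h3 : ∀ j : ℕ, 1 ≤ j → j < N → -(1 / 2) < r * Real.cos (j * (Real.pi - θ) + z)) :
    ∃ z₀ : ℂ, (F (Complex.exp ((-θ : ℝ) * I)))^[N + 2] z₀ = z₀ ∧
      (∀ n, n < N + 2 → ((F (Complex.exp ((-θ : ℝ) * I)))^[n] z₀).re ≠ 0) ∧
      ((F (Complex.exp ((-θ : ℝ) * I)))^[3] z₀).re < 0 ∧
      (∀ k, 1 ≤ k → k < N - 1 → 0 < ((F (Complex.exp ((-θ : ℝ) * I)))^[3 + k] z₀).re) := by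
  set a : ℂ := Complex.exp ((-θ : ℝ) * I) with ha
  set ai : ℂ := Complex.exp ((θ : ℝ) * I) with hai
  set w : ℂ := Complex.exp ((z : ℝ) * I) with hw
  set wi : ℂ := Complex.exp ((-z : ℝ) * I) with hwi
  set b : ℂ := 1 - ((Real.sin θ / (1 + Real.cos θ) : ℝ) : ℂ) * I with hb_def
  have haai : a * ai = 1 := by
    rw [ha, hai, ← Complex.exp_add]; push_cast
    rw [show -(θ : ℂ) * I + θ * I = 0 by ring, Complex.exp_zero]
  have hwwi : w * wi = 1 := by
    rw [hw, hwi, ← Complex.exp_add]; push_cast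
    rw [show (z : ℂ) * I + -z * I = 0 by ring, Complex.exp_zero]
  have hai_re : ai.re = Real.cos θ := Complex.exp_ofReal_mul_I_re θ
  have hai_im : ai.im = Real.sin θ := Complex.exp_ofReal_mul_I_im θ
  have hb_re : b.re = 1 := by
    simp only [hb_def, sub_re, one_re, mul_re, ofReal_re, ofReal_im, I_re, I_im]
    ring
  have hb_im : b.im = -(Real.sin θ / (1 + Real.cos θ)) := by
    simp only [hb_def, sub_im, one_im, mul_im, ofReal_re, ofReal_im, I_re, I_im]
    ring
  have hb' : b * (1 + ai) = 2 := by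
    have hsc := Real.sin_sq_add_cos_sq θ
    apply Complex.ext
    · simp only [mul_re, add_re, one_re, add_im, one_im, hb_re, hb_im, hai_re, hai_im]
      norm_num
      field_simp
      nlinarith
    · simp only [mul_im, add_re, one_re, add_im, one_im, hb_re, hb_im, hai_re, hai_im]
      norm_num
      field_simp
      ring
  have hb : b * (1 + a) = 2 * a := by
    linear_combination a * hb' - b * haai
  have hrc : (r : ℂ) * (ai * w + a * wi) = 2 * (a + ai - 1) := by
    have e1 : ai * w + a * wi = 2 * (Real.cos (θ + z) : ℂ) := by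
      rw [Complex.ofReal_cos, Complex.two_cos, hai, hw, ha, hwi, ← Complex.exp_add,
        ← Complex.exp_add]
      congr 2 <;> push_cast <;> ring
    have e2 : a + ai = 2 * (Real.cos θ : ℂ) := by
      rw [Complex.ofReal_cos, Complex.two_cos, hai, ha]
      push_cast
      ring
    rw [e1, e2]
    have e3 : (r : ℂ) * (Real.cos (θ + z) : ℂ) = 2 * (Real.cos θ : ℂ) - 1 := by
      exact_mod_cast hr
    linear_combination 2 * e3
  have hI : b + a ^ 3 * (b - r * wi) = r * a * w := by
    linear_combination (1 - a + a ^ 2) * hb - a ^ 2 * hrc + (r * a * w - 2 * a) * haai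
  set z₀ : ℂ := b / 2 - r * wi with hz₀
  have hwi_re : wi.re = Real.cos z := by
    rw [hwi, Complex.exp_ofReal_mul_I_re, Real.cos_neg]
  have hw_re : w.re = Real.cos z := Complex.exp_ofReal_mul_I_re z
  have hb2 : (b / 2).re = 1 / 2 := by
    rw [show b / 2 = ((1 / 2 : ℝ) : ℂ) * b by push_cast; ring, Complex.re_ofReal_mul, hb_re]
    ring
  have X0re : z₀.re < 0 := by
    rw [hz₀, sub_re, hb2, Complex.re_ofReal_mul, hwi_re]
    linarith
  -- X1
  have X1 : F a z₀ = 2 * a - b / 2 - r * (a * wi) := by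
    rw [F_neg X0re, hz₀]
    linear_combination (1 / 2) * hb
  have hawi : (a * wi).re = Real.cos (θ + z) := by
    rw [ha, hwi, ← Complex.exp_add, ← add_mul, ← Complex.ofReal_add,
      Complex.exp_ofReal_mul_I_re, show -θ + -z = -(θ + z) by ring, Real.cos_neg]
  have ha_re : a.re = Real.cos θ := by
    rw [ha, Complex.exp_ofReal_mul_I_re, Real.cos_neg]
  have X1re : (F a z₀).re = 1 / 2 := by
    rw [X1, sub_re, sub_re, hb2, Complex.re_ofReal_mul, hawi,
      show (2 : ℂ) * a = ((2 : ℝ) : ℂ) * a by push_cast; ring, Complex.re_ofReal_mul, ha_re]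
    linarith
  -- X2
  have X2 : F a (F a z₀) = 2 - b / 2 - r * w := by
    rw [F_pos (by rw [X1re]; norm_num), X1]
    linear_combination -ai * hI - (-a ^ 2 * (b - r * wi) + r * w) * haai + a * hb
      - (1 / 2) * hb + hb'
  have X2re : (F a (F a z₀)).re = 3 / 2 - r * Real.cos z := by
    rw [X2, sub_re, sub_re, hb2, Complex.re_ofReal_mul, hw_re]
    norm_num
  -- X3
  have X3 : F a (F a (F a z₀)) = r * (a * w) - b / 2 := by
    rw [F_pos (by rw [X2re]; linarith), X2]
    linear_combination (1 / 2) * hb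
  have haw : (a * w).re = Real.cos (θ - z) := by
    rw [ha, hw, ← Complex.exp_add, ← add_mul, ← Complex.ofReal_add,
      Complex.exp_ofReal_mul_I_re, show -θ + z = -(θ - z) by ring, Real.cos_neg]
  have X3re : (F a (F a (F a z₀))).re < 0 := by
    rw [X3, sub_re, hb2, Complex.re_ofReal_mul, haw]
    linarith
  have hna : -a = Complex.exp ((Real.pi - θ : ℝ) * I) := by
    rw [ha]; push_cast
    rw [sub_mul, Complex.exp_sub, Complex.exp_pi_mul_I, neg_mul, Complex.exp_neg]
    ring
  have hpow : ∀ j : ℕ, (-a) ^ j * w = Complex.exp ((j * (Real.pi - θ) + z : ℝ) * I) := by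
    intro j
    rw [hna, ← Complex.exp_nat_mul, hw, ← Complex.exp_add]
    congr 1; push_cast; ring
  have hpowre : ∀ j : ℕ, (b / 2 + r * ((-a) ^ j * w)).re =
      1 / 2 + r * Real.cos (j * (Real.pi - θ) + z) := by
    intro j
    rw [add_re, hb2, Complex.re_ofReal_mul, hpow, Complex.exp_ofReal_mul_I_re]
  have XK : ∀ k : ℕ, 1 ≤ k → k ≤ N - 1 →
      (F a)^[3 + k] z₀ = b / 2 + r * ((-a) ^ (k + 1) * w) := by
    intro k hk
    induction k, hk using Nat.le_induction with
    | base =>
      intro _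
      show F a (F a (F a (F a z₀))) = _
      rw [F_neg X3re, X3]
      linear_combination (-1 / 2) * hb
    | succ k hk ih =>
      intro hk2
      have h5 := ih (by omega)
      rw [show 3 + (k + 1) = (3 + k) + 1 by ring, Function.iterate_succ_apply', h5]
      have h6 : 0 < (b / 2 + r * ((-a) ^ (k + 1) * w)).re := by
        rw [hpowre]
        have := h3 (k + 1) (by omega) (by omega)
        linarith
      rw [F_pos h6, pow_succ (-a) (k + 1)]
      linear_combination (-1 / 2) * hb
  have hlast : (-a) ^ N * w = -wi := by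
    have e1 : (-a) ^ N * w * w = -1 := by
      rw [hpow, hw, ← Complex.exp_add]
      have : ((N * (Real.pi - θ) + z : ℝ) : ℂ) * I + (z : ℝ) * I =
          ((p : ℂ) * (Real.pi * I)) := by
        have h7 : ((N : ℂ) * (Real.pi - θ) + 2 * z) = Real.pi * p := by exact_mod_cast hrel
        push_cast
        linear_combination I * h7
      rw [this, Complex.exp_int_mul, Complex.exp_pi_mul_I, Odd.neg_one_zpow hodd]
    linear_combination wi * e1 - (-a) ^ N * w * hwwi
  have XP : (F a)^[N + 2] z₀ = z₀ := by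
    have h8 := XK (N - 1) (by omega) le_rfl
    rw [show 3 + (N - 1) = N + 2 by omega, show N - 1 + 1 = N by omega, hlast] at h8
    rw [h8, hz₀]; ring
  have hpos : ∀ k, 1 ≤ k → k < N - 1 → 0 < ((F a)^[3 + k] z₀).re := by
    intro k hk hk2
    rw [XK k hk (by omega), hpowre]
    have := h3 (k + 1) (by omega) (by omega)
    linarith
  refine ⟨z₀, XP, ?_, X3re, hpos⟩
  intro n hn
  rcases Nat.lt_or_ge n 4 with h9 | h9
  · interval_cases n
    · exact X0re.ne
    · show (F a z₀).re ≠ 0
      rw [X1re]; norm_num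
    · show (F a (F a z₀)).re ≠ 0
      rw [X2re]; intro h; linarith
    · exact X3re.ne
  · have h10 := hpos (n - 3) (by omega) (by omega)
    rw [show 3 + (n - 3) = n by omega] at h10
    exact h10.ne'

end Pool.Agent.X122.GS
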