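import Mathlib

set_option autoImplicit false

/-! # Parameters: Diophantine part and the choice of the angle -/

namespace Pool.Agent.X122.GS

open Real

lemma exists_eta (ξ : ℝ) (hξ : Irrational ξ) (K : ℕ) :
    ∃ η : ℝ, 0 < η ∧ ∀ k : ℕ, 1 ≤ k → k < K → ∀ j : ℤ, η ≤ |(k : ℝ) * ξ - j| := by
  induction K with
  | zero => exact ⟨1, one_pos, fun k _ h => absurd h (by omega)⟩
  | succ K ih =>
    obtain ⟨η, hη, h⟩ := ih
    rcases Nat.eq_zero_or_pos K with hK | hK
    · subst hK
      exact ⟨1, one_pos, fun k h1 h2 => absurd h2 (by omega)⟩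
    · refine ⟨min η |(K : ℝ) * ξ - round ((K : ℝ) * ξ)|, lt_min hη ?_, ?_⟩
      · rw [abs_pos, sub_ne_zero]
        have : Irrational ((K : ℝ) * ξ) := hξ.natCast_mul hK.ne'
        exact this.ne_int _
      · intro k h1 h2 j
        rcases Nat.lt_or_ge k K with h3 | h3
        · exact (min_le_left _ _).trans (h k h1 h3 j)
        · have : k = K := by omega
          subst this
          exact (min_le_right _ _).trans (round_le _ _)

lemma dioph (ξ : ℝ) (hξ : Irrational ξ) (K : ℕ) (hK : 1 ≤ K) :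
    ∃ (N : ℕ) (p : ℤ), K ≤ N ∧ Odd p ∧ IsCoprime (N : ℤ) p ∧ |(N : ℝ) * ξ - p| ≤ 3 / K := by
  obtain ⟨η, hη, hη2⟩ := exists_eta ξ hξ K
  obtain ⟨n₀, hn₀⟩ := exists_nat_one_div_lt hη
  set n := max n₀ K with hn
  have hnK : K ≤ n := le_max_right _ _
  obtain ⟨q, hq1, hq2⟩ := Real.exists_rat_abs_sub_le_and_den_le ξ (n := n) (by omega)
  have hden : (0 : ℝ) < q.den := by exact_mod_cast q.den_pos
  have hq3 : |(q.den : ℝ) * ξ - q.num| ≤ 1 / (n + 1) := by
    have e1 : (q.den : ℝ) * ξ - q.num = q.den * (ξ - q) := by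
      have : (q : ℝ) = q.num / q.den := by exact_mod_cast (Rat.num_div_den q).symm
      rw [this]; field_simp
    rw [e1, abs_mul, abs_of_pos hden]
    calc (q.den : ℝ) * |ξ - q| ≤ q.den * (1 / ((n + 1) * q.den)) := by gcongr
      _ = 1 / (n + 1) := by field_simp
  have hn1 : (1 : ℝ) / (n + 1) < η := by
    refine lt_of_le_of_lt ?_ hn₀
    have : (n₀ : ℝ) ≤ n := by exact_mod_cast le_max_left n₀ K
    apply one_div_le_one_div_of_le <;> [positivity; linarith]
  have hKR : (1 : ℝ) ≤ K := by exact_mod_cast hK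
  have hn2 : (1 : ℝ) / (n + 1) ≤ 1 / K := by
    have : (K : ℝ) ≤ n := by exact_mod_cast hnK
    apply one_div_le_one_div_of_le <;> linarith
  have hQ : K ≤ q.den := by
    by_contra hcon
    push Not at hcon
    have := hη2 q.den q.den_pos hcon q.num
    linarith
  have hcop : IsCoprime (q.num) (q.den : ℤ) := by
    rw [Int.isCoprime_iff_gcd_eq_one]
    exact q.reduced
  rcases Int.even_or_odd q.num with hev | hodd
  · -- numerator even
    obtain ⟨a, c, hac⟩ := hcop
    set Q : ℤ := (q.den : ℤ) with hQdef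
    set P : ℤ := q.num with hPdef
    have hQpos : 0 < Q := by rw [hQdef]; exact_mod_cast q.den_pos
    -- `P * (a % Q) - Q * p₁ = 1`
    have hr0 : 0 ≤ a % Q := Int.emod_nonneg _ hQpos.ne'
    have hr1 : a % Q < Q := Int.emod_lt_of_pos _ hQpos
    have hdiv : a = Q * (a / Q) + a % Q := by rw [Int.mul_ediv_add_emod]
    set q₁ := a % Q with hq1def
    set p₁ : ℤ := -(c + P * (a / Q)) with hp1def
    have hdet : P * q₁ - Q * p₁ = 1 := by
      rw [hp1def]
      calc P * q₁ - Q * -(c + P * (a / Q)) = P * (Q * (a / Q) + q₁) + c * Q := by ring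
        _ = 1 := by rw [← hdiv, ← hac]; ring
    have hoddp : Odd p₁ := by
      by_contra hne
      rw [Int.not_odd_iff_even] at hne
      obtain ⟨x, hx⟩ := hev
      obtain ⟨y, hy⟩ := hne
      rw [hx, hy] at hdet
      have : 2 * (x * q₁ - Q * y) = 1 := by linarith
      omega
    obtain ⟨m, hm⟩ := Int.eq_ofNat_of_zero_le hr0
    refine ⟨q.den + m, P + p₁, by omega, Even.add_odd hev hoddp, ?_, ?_⟩
    · refine ⟨P, -Q, ?_⟩
      push_cast
      have : (m : ℤ) = q₁ := by rw [hm]
      rw [this]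
      linarith
    · have hmR : (m : ℝ) = (q₁ : ℝ) := by rw [hm]; simp
      have hQR : (q.den : ℝ) = (Q : ℝ) := by rw [hQdef]; simp
      have hQposR : (0 : ℝ) < (Q : ℝ) := by exact_mod_cast hQpos
      have hdetR : (P : ℝ) * q₁ - Q * p₁ = 1 := by exact_mod_cast hdet
      push_cast
      rw [hmR, hQR]
      rw [hQR] at hq3
      have hKQ : (K : ℝ) ≤ Q := by rw [← hQR]; exact_mod_cast hQ
      have hr0R : (0 : ℝ) ≤ q₁ := by exact_mod_cast hr0
      have hr1R : (q₁ : ℝ) ≤ Q := by exact_mod_cast hr1.le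
      set E := (Q : ℝ) * ξ - P with hE
      have hEb : |E| ≤ 1 / K := hq3.trans hn2
      have e2 : (q₁ : ℝ) * ξ - p₁ = (q₁ * E + 1) / Q := by
        rw [eq_div_iff hQposR.ne', hE]
        linear_combination hdetR
      have e3 : |(q₁ : ℝ) * ξ - p₁| ≤ 2 / K := by
        rw [e2, abs_div, abs_of_pos hQposR, div_le_div_iff₀ hQposR (by linarith)]
        have h5 : |q₁ * E + 1| ≤ q₁ * |E| + 1 := by
          calc |q₁ * E + 1| ≤ |q₁ * E| + |(1 : ℝ)| := abs_add_le _ _
            _ = q₁ * |E| + 1 := by rw [abs_mul, abs_of_nonneg hr0R, abs_one]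
        have h6 : |E| * K ≤ 1 := by rwa [le_div_iff₀ (by linarith)] at hEb
        have h7 : q₁ * (|E| * K) ≤ Q * 1 := mul_le_mul hr1R h6 (by positivity) hQposR.le
        calc |q₁ * E + 1| * K ≤ (q₁ * |E| + 1) * K := by gcongr
          _ = q₁ * (|E| * K) + K := by ring
          _ ≤ 2 * Q := by linarith
      calc |((Q : ℝ) + q₁) * ξ - (P + p₁)| = |E + (q₁ * ξ - p₁)| := by rw [hE]; ring_nf
        _ ≤ |E| + |(q₁ : ℝ) * ξ - p₁| := abs_add_le _ _
        _ ≤ 1 / K + 2 / K := add_le_add hEb e3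
        _ = 3 / K := by ring
  · refine ⟨q.den, q.num, hQ, hodd, hcop.symm, ?_⟩
    calc |(q.den : ℝ) * ξ - q.num| ≤ 1 / K := hq3.trans hn2
      _ ≤ 3 / K := by gcongr; norm_num

lemma irrational_xi : Irrational (1 - arccos (2 / 3) / π) := by
  have h1 : Irrational (arccos (2 / 3) / π) := by
    rw [Irrational]
    rintro ⟨r, hr⟩
    have hcos : cos (arccos (2 / 3)) = 2 / 3 := Real.cos_arccos (by norm_num) (by norm_num)
    have h2 := niven (θ := arccos (2 / 3)) ⟨r, by rw [hr]; field_simp⟩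
      ⟨2 / 3, by rw [hcos]; push_cast; ring⟩
    rw [hcos] at h2
    simp only [Set.mem_insert_iff, Set.mem_singleton_iff] at h2
    rcases h2 with h | h | h | h | h <;> norm_num at h
  simpa using h1.ratCast_sub 1

lemma cos_far (x z : ℝ) (h : ∀ l : ℤ, |z| < |x - π * (2 * l + 1)|) : -cos z < cos x := by
  set l : ℤ := round ((x / π - 1) / 2) with hl
  set y := x - π * (2 * l + 1) with hy
  have h1 : |y| ≤ π := by
    have h2 := abs_sub_round ((x / π - 1) / 2)
    rw [← hl] at h2
    have h3 : y = 2 * π * ((x / π - 1) / 2 - l) := by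
      rw [hy]; field_simp; ring
    rw [h3, abs_mul, abs_of_pos (by positivity)]
    have := pi_pos
    nlinarith
  have h2 : cos y = -cos x := by
    rw [hy, show x - π * (2 * l + 1) = (x - π) - l * (2 * π) by ring, Real.cos_sub_int_mul_two_pi,
      Real.cos_sub_pi]
  have h3 : cos |y| < cos |z| := Real.cos_lt_cos_of_nonneg_of_le_pi (abs_nonneg _) h1 (h l)
  rw [cos_abs, cos_abs, h2] at h3
  linarith

/-- The last zero before a point of positivity. -/
lemma last_zero (f : ℝ → ℝ) (hf : Continuous f) (a b : ℝ) (hab : a ≤ b) (ha : f a ≤ 0)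
    (hb : 0 < f b) : ∃ c, a ≤ c ∧ c < b ∧ f c = 0 ∧ ∀ x, c < x → x ≤ b → 0 < f x := by
  set S := Set.Icc a b ∩ {x | f x ≤ 0} with hS
  have hScomp : IsCompact S := isCompact_Icc.inter_right (isClosed_le hf continuous_const)
  have hSne : S.Nonempty := ⟨a, ⟨le_rfl, hab⟩, ha⟩
  have hmem := hScomp.sSup_mem hSne
  set c := sSup S with hc
  have hcb : c < b := by
    rcases lt_or_eq_of_le hmem.1.2 with h | h
    · exact h
    · exfalso
      have := hmem.2
      simp only [Set.mem_ofPred_eq] at this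
      rw [h] at this
      linarith
  have hpos : ∀ x, c < x → x ≤ b → 0 < f x := by
    intro x hx hxb
    by_contra hcon
    push Not at hcon
    have : x ≤ c := le_csSup hScomp.bddAbove ⟨⟨hmem.1.1.trans hx.le, hxb⟩, hcon⟩
    linarith
  refine ⟨c, hmem.1.1, hcb, le_antisymm hmem.2 ?_, hpos⟩
  have ht : Filter.Tendsto f (nhdsWithin c (Set.Ioi c)) (nhds (f c)) :=
    hf.continuousAt.continuousWithinAt
  refine ge_of_tendsto ht ?_
  filter_upwards [Ioo_mem_nhdsGT hcb] with x hx
  exact (hpos x hx.1 hx.2.le).le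

end Pool.Agent.X122.GS
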