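import Pool.Agent.X122.GS3

set_option autoImplicit false

/-! # The choice of the angle -/

namespace Pool.Agent.X122.GS

open Real Filter Topology

theorem params (K : ℕ) (δ : ℝ) (hδ : 0 < δ) :
    ∃ (θ z r : ℝ) (N : ℕ) (p : ℤ), K ≤ N ∧ 3 ≤ N ∧ Odd p ∧
      (N : ℝ) * (π - θ) + 2 * z = π * p ∧ |θ - arccos (2 / 3)| < δ ∧
      Irrational (θ / (2 * π)) ∧ 0 < 1 + cos θ ∧ r * cos (θ + z) = 2 * cos θ - 1 ∧
      1 / 2 < r * cos z ∧ r * cos z < 3 / 2 ∧ r * cos (θ - z) < 1 / 2 ∧
      ∀ j : ℕ, 1 ≤ j → j < N → -(1 / 2) < r * cos (j * (π - θ) + z) := by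
  set θs := arccos (2 / 3) with hθs
  have hcs : cos θs = 2 / 3 := Real.cos_arccos (by norm_num) (by norm_num)
  have hss : 7 / 10 < sin θs := by
    rw [hθs, Real.sin_arccos]
    apply Real.lt_sqrt_of_sq_lt
    norm_num
  have hπ := pi_pos
  have hπ3 := pi_gt_three
  have hπ4 := pi_lt_four
  have hπ315 : π < 3.15 := pi_lt_d2
  have hθs0 : 0 ≤ θs := arccos_nonneg _
  have hθs1 : θs ≤ π / 2 := by rw [hθs, Real.arccos_le_pi_div_two]; norm_num
  have hθs2 : 1 / 2 ≤ θs := by
    have := Real.sin_le hθs0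
    linarith
  -- the Diophantine choice
  obtain ⟨K₀, hK₀⟩ := exists_nat_gt (1 / δ)
  obtain ⟨N, p, hNK, hodd, hcop, hNp⟩ := dioph (1 - θs / π) irrational_xi (K + K₀ + 1000) (by omega)
  have hN1000 : (1000 : ℝ) ≤ N := by exact_mod_cast (by omega : 1000 ≤ N)
  have hNpos : (0 : ℝ) < N := by linarith
  have hNδ : 1 / N < δ := by
    have h1 : (K₀ : ℝ) ≤ N := by exact_mod_cast (by omega : K₀ ≤ N)
    rw [div_lt_iff₀ hNpos]
    rw [div_lt_iff₀ hδ] at hK₀
    nlinarith
  have hNp' : |(N : ℝ) * (1 - θs / π) - p| ≤ 3 / 1000 := by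
    refine hNp.trans ?_
    push_cast
    gcongr
    have : (0 : ℝ) ≤ (K : ℝ) := Nat.cast_nonneg _
    have : (0 : ℝ) ≤ (K₀ : ℝ) := Nat.cast_nonneg _
    linarith
  set θp := π * (1 - p / N) with hθp
  have hθps : |θp - θs| ≤ 1 / 100 / N := by
    have e1 : θp - θs = π * ((N : ℝ) * (1 - θs / π) - p) / N := by
      rw [hθp]; field_simp; ring
    rw [e1, abs_div, abs_mul, abs_of_pos hπ, abs_of_pos hNpos]
    gcongr
    calc π * |(N : ℝ) * (1 - θs / π) - p| ≤ 3.15 * (3 / 1000) := by
          gcongr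
      _ ≤ 1 / 100 := by norm_num
  set Z : ℝ → ℝ := fun θ => N * (θ - θp) / 2 with hZ
  set A : ℝ → ℝ := fun θ => (3 * cos θ - 2) * cos (Z θ) + sin θ * sin (Z θ) with hA
  have hAc : Continuous A := by rw [hA, hZ]; fun_prop
  set w := π / (2 * N ^ 2) with hw
  have hwpos : 0 < w := by positivity
  have hwN : w ≤ 2 / 1000 / N := by
    rw [hw, div_div, div_le_div_iff₀ (by positivity) (by positivity)]
    nlinarith
  have hZp : Z (θp + w) = π / (4 * N) := by
    rw [hZ, hw]; field_simp; ring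
  have hZm : Z (θp - w) = -(π / (4 * N)) := by
    rw [hZ, hw]; field_simp; ring
  have hnear : ∀ θ, θp - w ≤ θ → θ ≤ θp + w → |θ - θs| ≤ 12 / 1000 / N := by
    intro θ h1 h2
    have h3 : |θ - θp| ≤ w := abs_le.2 ⟨by linarith, by linarith⟩
    calc |θ - θs| = |(θ - θp) + (θp - θs)| := by ring_nf
      _ ≤ |θ - θp| + |θp - θs| := abs_add_le _ _
      _ ≤ 2 / 1000 / N + 1 / 100 / N := add_le_add (h3.trans hwN) hθps
      _ = 12 / 1000 / N := by ring
  have hcosd : ∀ θ, |3 * cos θ - 2| ≤ 3 * |θ - θs| := by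
    intro θ
    have h1 : |cos θ - cos θs| ≤ |θ - θs| := by
      have := Real.abs_cos_sub_cos_le θ θs
      exact this
    calc |3 * cos θ - 2| = 3 * |cos θ - cos θs| := by
          rw [hcs, ← abs_of_pos (by norm_num : (0 : ℝ) < 3), ← abs_mul,
            abs_of_pos (by norm_num : (0 : ℝ) < 3)]
          ring_nf
      _ ≤ 3 * |θ - θs| := by gcongr
  have hsind : ∀ θ, |sin θ - sin θs| ≤ |θ - θs| := fun θ => Real.abs_sin_sub_sin_le θ θs
  have hN' : 12 / 1000 / (N : ℝ) ≤ 1 / 1000 := by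
    rw [div_le_iff₀ hNpos]; linarith
  have hsin0 : 1 / (2 * N) ≤ sin (π / (4 * N)) := by
    have h1 := Real.mul_le_sin (x := π / (4 * N)) (by positivity)
      (by rw [div_le_div_iff₀ (by positivity) (by norm_num)]; nlinarith)
    refine le_trans (le_of_eq ?_) h1
    field_simp
    norm_num
  have hmain : 36 / 1000 / (N : ℝ) < 65 / 100 * (1 / (2 * N)) := by
    have : 65 / 100 * (1 / (2 * (N : ℝ))) = 325 / 1000 / N := by field_simp; norm_num
    rw [this]
    gcongr
    norm_num
  have hApos : 0 < A (θp + w) := by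
    have h1 := hnear (θp + w) (by linarith) le_rfl
    have h2 := hcosd (θp + w)
    have h3 := (abs_le.1 (hsind (θp + w))).1
    simp only [hA]
    rw [hZp]
    have h4 : |(3 * cos (θp + w) - 2) * cos (π / (4 * N))| ≤ 36 / 1000 / N := by
      rw [abs_mul]
      calc |3 * cos (θp + w) - 2| * |cos (π / (4 * N))| ≤ |3 * cos (θp + w) - 2| * 1 := by
            gcongr; exact abs_cos_le_one _
        _ ≤ 3 * (12 / 1000 / N) := by rw [mul_one]; exact h2.trans (by gcongr)
        _ = 36 / 1000 / N := by ring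
    have h5 : 65 / 100 ≤ sin (θp + w) := by linarith
    have h6 : 65 / 100 * (1 / (2 * N)) ≤ sin (θp + w) * sin (π / (4 * N)) := by
      apply mul_le_mul h5 hsin0 (by positivity) (by linarith)
    have h7 := (abs_le.1 h4).1
    linarith
  have hAneg : A (θp - w) ≤ 0 := by
    have h1 := hnear (θp - w) le_rfl (by linarith)
    have h2 := hcosd (θp - w)
    have h3 := (abs_le.1 (hsind (θp - w))).1
    simp only [hA]
    rw [hZm, cos_neg, sin_neg]
    have h4 : |(3 * cos (θp - w) - 2) * cos (π / (4 * N))| ≤ 36 / 1000 / N := by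
      rw [abs_mul]
      calc |3 * cos (θp - w) - 2| * |cos (π / (4 * N))| ≤ |3 * cos (θp - w) - 2| * 1 := by
            gcongr; exact abs_cos_le_one _
        _ ≤ 3 * (12 / 1000 / N) := by rw [mul_one]; exact h2.trans (by gcongr)
        _ = 36 / 1000 / N := by ring
    have h5 : 65 / 100 ≤ sin (θp - w) := by linarith
    have h6 : 65 / 100 * (1 / (2 * N)) ≤ sin (θp - w) * sin (π / (4 * N)) := by
      apply mul_le_mul h5 hsin0 (by positivity) (by linarith)
    have h7 := (abs_le.1 h4).2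
    linarith
  obtain ⟨c, hc1, hc2, hc0, hcpos⟩ := last_zero A hAc (θp - w) (θp + w) (by linarith) hAneg hApos
  have hcs' := hnear c hc1 hc2.le
  have hZc : |Z c| ≤ π / (4 * N) := by
    have h1 : |c - θp| ≤ w := abs_le.2 ⟨by linarith, by linarith⟩
    have h2 : Z c = N / 2 * (c - θp) := by simp only [hZ]; ring
    rw [h2, abs_mul, abs_of_pos (by positivity : (0 : ℝ) < N / 2)]
    calc (N : ℝ) / 2 * |c - θp| ≤ N / 2 * w := by gcongr
      _ = π / (4 * N) := by rw [hw]; field_simp; norm_num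
  have hZc2 : |Z c| ≤ 1 / 1000 := by
    refine hZc.trans ?_
    rw [div_le_div_iff₀ (by positivity) (by norm_num)]
    linarith
  have hZc3 := abs_le.1 hZc2
  have hcs2 := abs_le.1 (hcs'.trans hN')
  have hθs3 : θs < 1 := by
    by_contra hcon
    push Not at hcon
    have h1 := Real.cos_le_cos_of_nonneg_of_le_pi (by norm_num : (0 : ℝ) ≤ 1)
      (by linarith : θs ≤ π) hcon
    have h2 := Real.cos_one_le
    linarith
  have hcosZ : 0 < cos (Z c) := Real.cos_pos_of_mem_Ioo ⟨by linarith, by linarith⟩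
  have hcosP : 0 < cos (c + Z c) := Real.cos_pos_of_mem_Ioo ⟨by linarith, by linarith⟩
  set r : ℝ → ℝ := fun θ => (2 * cos θ - 1) / cos (θ + Z θ) with hr
  have hrc : r c * cos (Z c) = 1 / 2 := by
    simp only [hr]
    rw [div_mul_eq_mul_div, div_eq_iff hcosP.ne', cos_add]
    simp only [hA] at hc0
    linarith
  have hrpos : 0 < r c := by
    by_contra hcon
    push Not at hcon
    nlinarith
  have hZcont : Continuous Z := by rw [hZ]; fun_prop
  have hrcont : ContinuousAt r c := by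
    apply ContinuousAt.div
    · fun_prop
    · fun_prop
    · exact hcosP.ne'
  have hZrel : ∀ θ, (N : ℝ) * (π - θ) + 2 * Z θ = π * p := by
    intro θ
    simp only [hZ, hθp]
    field_simp
    ring
  have ev1 : ∀ᶠ θ in 𝓝[>] c, 0 < cos (θ + Z θ) := by
    have h1 : ContinuousAt (fun θ => cos (θ + Z θ)) c := by fun_prop
    exact (h1.eventually_const_lt hcosP).filter_mono nhdsWithin_le_nhds
  have ev2 : ∀ᶠ θ in 𝓝[>] c, r θ * cos (Z θ) < 3 / 2 := by
    have h1 : ContinuousAt (fun θ => r θ * cos (Z θ)) c := by fun_prop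
    exact (h1.eventually_lt_const (by show r c * cos (Z c) < 3 / 2; rw [hrc]; norm_num)).filter_mono
      nhdsWithin_le_nhds
  have ev3 : ∀ᶠ θ in 𝓝[>] c, r θ * cos (θ - Z θ) < 1 / 2 := by
    have h1 : ContinuousAt (fun θ => r θ * cos (θ - Z θ)) c := by fun_prop
    refine (h1.eventually_lt_const ?_).filter_mono nhdsWithin_le_nhds
    show r c * cos (c - Z c) < 1 / 2
    rw [← hrc]
    apply mul_lt_mul_of_pos_left _ hrpos
    rw [← cos_abs (Z c)]
    apply Real.cos_lt_cos_of_nonneg_of_le_pi (abs_nonneg _) (by linarith)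
    linarith
  have ev4 : ∀ᶠ θ in 𝓝[>] c, ∀ j ∈ Finset.range N, 1 ≤ j →
      -(1 / 2) < r θ * cos (j * (π - θ) + Z θ) := by
    rw [Filter.eventually_all_finset]
    intro j hj
    rcases Nat.eq_zero_or_pos j with hj0 | hj0
    · filter_upwards with θ hj1
      omega
    have h1 : ContinuousAt (fun θ => r θ * cos (j * (π - θ) + Z θ)) c := by fun_prop
    have h2 : -(1 / 2) < r c * cos (j * (π - c) + Z c) := by
      have h3 : -cos (Z c) < cos (j * (π - c) + Z c) := by
        apply cos_far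
        intro l
        have hjN : j < N := Finset.mem_range.1 hj
        set n : ℤ := j * p - N * (2 * l + 1) with hn
        have hn0 : n ≠ 0 := by
          intro h0
          have h4 : (N : ℤ) ∣ (j : ℤ) * p := ⟨2 * l + 1, by linarith⟩
          have h5 : (N : ℤ) ∣ (j : ℤ) := hcop.dvd_of_dvd_mul_right h4
          have h6 := Int.natCast_dvd_natCast.1 h5
          exact absurd (Nat.le_of_dvd hj0 h6) (by omega)
        have hn1 : (1 : ℝ) ≤ |(n : ℝ)| := by
          exact_mod_cast Int.one_le_abs hn0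
        have h7 : j * (π - c) + Z c - π * (2 * l + 1) = π * n / N + Z c * (1 - 2 * j / N) := by
          have h8 := hZrel c
          have h9 : π - c = (π * p - 2 * Z c) / N := by
            rw [eq_div_iff hNpos.ne']; linarith
          rw [h9, hn]
          push_cast
          field_simp
          ring
        have h10 : π / N ≤ |π * n / N| := by
          rw [abs_div, abs_mul, abs_of_pos hπ, abs_of_pos hNpos]
          gcongr
          nlinarith
        have h11 : |Z c * (1 - 2 * j / N)| ≤ |Z c| := by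
          rw [abs_mul]
          have : |1 - 2 * (j : ℝ) / N| ≤ 1 := by
            have hjR : (j : ℝ) ≤ N := by exact_mod_cast hjN.le
            have hj1 : (j : ℝ) / N ≤ 1 := by rw [div_le_one hNpos]; exact hjR
            have hj2 : 0 ≤ (j : ℝ) / N := by positivity
            rw [mul_div_assoc, abs_le]
            constructor <;> linarith
          calc |Z c| * |1 - 2 * (j : ℝ) / N| ≤ |Z c| * 1 := by gcongr
            _ = |Z c| := mul_one _
        rw [h7]
        have h12 : |π * n / N| - |Z c * (1 - 2 * j / N)| ≤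
            |π * n / N + Z c * (1 - 2 * j / N)| := by
          have := abs_sub_abs_le_abs_sub (π * n / N) (-(Z c * (1 - 2 * j / N)))
          rw [abs_neg, sub_neg_eq_add] at this
          exact this
        have h13 : π / (4 * N) = π / N / 4 := by field_simp
        have h14 : 0 < π / N := by positivity
        rw [h13] at hZc
        linarith
      calc -(1 / 2) = r c * (-cos (Z c)) := by rw [mul_neg, hrc]
        _ < r c * cos (j * (π - c) + Z c) := mul_lt_mul_of_pos_left h3 hrpos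
    filter_upwards [(h1.eventually_const_lt h2).filter_mono nhdsWithin_le_nhds] with θ hθ _
    exact hθ
  have ev5 : ∀ᶠ θ in 𝓝[>] c, |θ - θs| < δ := by
    have h1 : ContinuousAt (fun θ => |θ - θs|) c := by fun_prop
    refine (h1.eventually_lt_const ?_).filter_mono nhdsWithin_le_nhds
    calc |c - θs| ≤ 12 / 1000 / N := hcs'
      _ ≤ 1 / N := by gcongr; norm_num
      _ < δ := hNδ
  have ev6 : ∀ᶠ θ in 𝓝[>] c, 0 < 1 + cos θ := by
    have h1 : ContinuousAt (fun θ => 1 + cos θ) c := by fun_prop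
    refine (h1.eventually_const_lt ?_).filter_mono nhdsWithin_le_nhds
    have : 0 < cos c := Real.cos_pos_of_mem_Ioo ⟨by linarith, by linarith⟩
    linarith
  have ev7 : ∀ᶠ θ in 𝓝[>] c, θ < θp + w ∧ c < θ := by
    filter_upwards [Ioo_mem_nhdsGT hc2] with θ hθ
    exact ⟨hθ.2, hθ.1⟩
  have evall := ((((((ev1.and ev2).and ev3).and ev4).and ev5).and ev6).and ev7)
  obtain ⟨u, hu, hsub⟩ := mem_nhdsGT_iff_exists_Ioo_subset.1 evall
  obtain ⟨ρ, hρ, hρ1, hρ2⟩ := exists_irrational_btwn
    (div_lt_div_of_pos_right hu (by positivity : (0 : ℝ) < 2 * π))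
  set θ := ρ * (2 * π) with hθ
  have hθ1 : c < θ := by rwa [div_lt_iff₀ (by positivity)] at hρ1
  have hθ2 : θ < u := by rwa [lt_div_iff₀ (by positivity)] at hρ2
  obtain ⟨⟨⟨⟨⟨⟨g1, g2⟩, g3⟩, g4⟩, g5⟩, g6⟩, g7, g8⟩ := hsub ⟨hθ1, hθ2⟩
  refine ⟨θ, Z θ, r θ, N, p, by omega, by omega, hodd, hZrel θ, g5, ?_, g6, ?_, ?_, g2, g3, ?_⟩
  · rw [hθ, mul_div_cancel_right₀ _ (by positivity)]
    exact hρ
  · simp only [hr]
    rw [div_mul_cancel₀ _ g1.ne']
  · have h1 := hcpos θ g8 g7.le
    simp only [hA] at h1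
    simp only [hr]
    rw [div_mul_eq_mul_div, lt_div_iff₀ g1, cos_add]
    linarith
  · intro j hj1 hj2
    exact g4 j (Finset.mem_range.2 hj2) hj1

end Pool.Agent.X122.GS
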