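import Pool.Agent.X122.GS2
import Pool.Agent.X122.GS4

set_option autoImplicit false

/-! # Long periods of the greedy sign-choice walk -/

namespace Pool.Agent.X122.GS

open Real

lemma theta_half : 1 / 2 ≤ arccos (2 / 3) := by
  have h1 : 7 / 10 < sin (arccos (2 / 3)) := by
    rw [Real.sin_arccos]
    apply Real.lt_sqrt_of_sq_lt
    norm_num
  have := Real.sin_le (arccos_nonneg (2 / 3))
  linarith

lemma theta_one : arccos (2 / 3) < 1 := by
  have hcs : cos (arccos (2 / 3)) = 2 / 3 := Real.cos_arccos (by norm_num) (by norm_num)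
  by_contra hcon
  push Not at hcon
  have h1 := Real.cos_le_cos_of_nonneg_of_le_pi (by norm_num : (0 : ℝ) ≤ 1)
    (Real.arccos_le_pi _) hcon
  have h2 := Real.cos_one_le
  linarith

theorem long (K : ℕ) (δ : ℝ) (hδ : 0 < δ) :
    ∃ α : ℝ, 0 < α ∧ Irrational α ∧ |α - arccos (2 / 3) / (2 * π)| < δ ∧
      ∃ z₀ : ℂ, Admissible α z₀ ∧ EventuallyPeriodic α z₀ ∧ K < period α z₀ := by
  obtain ⟨θ, z, r, N, p, hNK, hN3, hodd, hrel, hθ, hirr, hc, hr, h1, h2, h3, h4⟩ :=
    params (K + 2) (min δ (1 / 4)) (lt_min hδ (by norm_num))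
  have hθ1 := (abs_lt.1 (hθ.trans_le (min_le_right _ _))).1
  have hth := theta_half
  obtain ⟨z₀, hper, hne, h5, h6⟩ := orbit θ z r N p hodd hN3 hrel hc hr h1 h2 h3 h4
  have hπ := pi_gt_three
  have ha : Complex.exp ((-θ : ℝ) * Complex.I) =
      Complex.exp ((-(2 * Real.pi * (θ / (2 * π))) : ℝ) * Complex.I) := by
    rw [mul_div_cancel₀ _ (by positivity)]
  obtain ⟨d1, d2, d3⟩ := dyn (θ / (2 * π)) z₀ _ ha N (by omega) hper hne h5 h6
  refine ⟨θ / (2 * π), ?_, hirr, ?_, z₀, d1, d2, by omega⟩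
  · apply div_pos _ (by positivity)
    linarith
  · rw [← sub_div, abs_div, abs_of_pos (by positivity : (0 : ℝ) < 2 * π), div_lt_iff₀ (by positivity)]
    have h7 := hθ.trans_le (min_le_left δ (1 / 4))
    nlinarith

theorem not_bounded : ¬ ∃ c : ℝ, 0 < c ∧ ∀ α : ℝ, 0 < α → Irrational α → ∀ z₀ : ℂ,
    Admissible α z₀ → EventuallyPeriodic α z₀ →
      (period α z₀ : ℝ) ≤ c / |2 * α - round (2 * α)| := by
  rintro ⟨c, hc, h⟩
  obtain ⟨K, hK⟩ := exists_nat_gt (10 * c)
  obtain ⟨α, hα, hirr, hnear, z₀, h1, h2, h3⟩ := long K (1 / 100) (by norm_num)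
  have h4 := h α hα hirr z₀ h1 h2
  have hπ := pi_gt_three
  have hπ2 : π < 3.15 := pi_lt_d2
  have ht1 := theta_half
  have ht2 := theta_one
  have hn := abs_lt.1 hnear
  have e1 : 7 / 100 < arccos (2 / 3) / (2 * π) := by
    rw [lt_div_iff₀ (by positivity)]
    linarith
  have e2 : arccos (2 / 3) / (2 * π) < 17 / 100 := by
    rw [div_lt_iff₀ (by positivity)]
    linarith
  have hlow : 1 / 10 ≤ |2 * α - round (2 * α)| := by
    set m := round (2 * α)
    rcases le_or_gt m 0 with hm | hm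
    · have : (m : ℝ) ≤ 0 := by exact_mod_cast hm
      rw [abs_of_nonneg (by linarith)]
      linarith
    · have : (1 : ℝ) ≤ m := by exact_mod_cast hm
      rw [abs_of_nonpos (by linarith)]
      linarith
  have h5 : c / |2 * α - round (2 * α)| ≤ 10 * c := by
    rw [div_le_iff₀ (by linarith)]
    nlinarith
  have h6 : (K : ℝ) < period α z₀ := by exact_mod_cast h3
  linarith

end Pool.Agent.X122.GS
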