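import Mathlib

/-! One-variable profile `a` (a cubic spline) for MP_ec5c38_an. -/

namespace X122HR
noncomputable section

open Filter Topology Asymptotics

/-- positive part -/
def pp (z : ℝ) : ℝ := max z 0

lemma pp_nonneg (z : ℝ) : 0 ≤ pp z := le_max_right _ _
lemma pp_pos {z : ℝ} (h : 0 ≤ z) : pp z = z := max_eq_left h
lemma pp_neg {z : ℝ} (h : z ≤ 0) : pp z = 0 := max_eq_right h
lemma pp_cont : Continuous pp := continuous_id.max continuous_const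

lemma hasDerivAt_pp (n : ℕ) (z : ℝ) :
    HasDerivAt (fun t => pp t ^ (n + 2)) (((n : ℝ) + 2) * pp z ^ (n + 1)) z := by
  rcases lt_trichotomy z 0 with h | h | h
  · have h1 : (fun t => pp t ^ (n + 2)) =ᶠ[𝓝 z] fun _ => (0:ℝ) := by
      filter_upwards [Iio_mem_nhds h] with t ht
      rw [pp_neg (le_of_lt ht)]; simp
    rw [pp_neg h.le]
    simpa using (hasDerivAt_const z (0:ℝ)).congr_of_eventuallyEq h1
  · subst h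
    have h0 : pp 0 = 0 := pp_neg le_rfl
    rw [h0, hasDerivAt_iff_isLittleO_nhds_zero]
    have h2 : (fun h : ℝ => pp h ^ (n + 2)) =O[𝓝 0] fun h : ℝ => h ^ (n + 2) := by
      refine IsBigO.of_bound 1 (Eventually.of_forall fun h => ?_)
      rw [one_mul, norm_pow, norm_pow, Real.norm_eq_abs, Real.norm_eq_abs]
      apply pow_le_pow_left₀ (abs_nonneg _)
      rw [abs_of_nonneg (pp_nonneg h)]
      exact max_le (le_abs_self h) (abs_nonneg h)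
    have h3 : (fun h : ℝ => h ^ (n + 2)) =o[𝓝 0] fun h : ℝ => h :=
      isLittleO_pow_id (by omega)
    have h4 := h2.trans_isLittleO h3
    refine h4.congr (fun h => ?_) (fun h => rfl)
    simp [h0]
  · have h1 : (fun t => pp t ^ (n + 2)) =ᶠ[𝓝 z] fun t => t ^ (n + 2) := by
      filter_upwards [Ioi_mem_nhds h] with t ht
      rw [pp_pos (le_of_lt ht)]
    rw [pp_pos h.le]
    have h5 := (hasDerivAt_pow (n + 2) z).congr_of_eventuallyEq h1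
    have h6 : ((n + 2 : ℕ) : ℝ) * z ^ (n + 2 - 1) = ((n : ℝ) + 2) * z ^ (n + 1) := by
      have : n + 2 - 1 = n + 1 := by omega
      rw [this]; push_cast; ring
    rw [h6] at h5
    exact h5

lemma hd3 (c y : ℝ) : HasDerivAt (fun y => pp (y - c) ^ 3) (3 * pp (y - c) ^ 2) y := by
  have h := HasDerivAt.comp_sub_const y c (hasDerivAt_pp 1 (y - c))
  refine h.congr_deriv ?_
  norm_num

lemma hd2 (c y : ℝ) : HasDerivAt (fun y => pp (y - c) ^ 2) (2 * pp (y - c) ^ 1) y := by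
  have h := HasDerivAt.comp_sub_const y c (hasDerivAt_pp 0 (y - c))
  refine h.congr_deriv ?_
  norm_num

/-- the spline -/
def aa (y : ℝ) : ℝ :=
  ((256:ℝ) * pp (y - (0:ℝ)) ^ 3 + (-256:ℝ) * pp (y - (1/256:ℝ)) ^ 3 + (1/4:ℝ) * pp (y - (1/8:ℝ)) ^ 3 + (-103/4:ℝ) * pp (y - (1/2:ℝ)) ^ 3 + (51/2:ℝ) * pp (y - (9/16:ℝ)) ^ 3 + (51/2:ℝ) * pp (y - (691/256:ℝ)) ^ 3 + (-103/4:ℝ) * pp (y - (707/256:ℝ)) ^ 3 + (1/4:ℝ) * pp (y - (803/256:ℝ)) ^ 3 + (-256:ℝ) * pp (y - (417/128:ℝ)) ^ 3 + (256:ℝ) * pp (y - (835/256:ℝ)) ^ 3) / 6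

/-- its first derivative -/
def a1 (y : ℝ) : ℝ :=
  ((256:ℝ) * pp (y - (0:ℝ)) ^ 2 + (-256:ℝ) * pp (y - (1/256:ℝ)) ^ 2 + (1/4:ℝ) * pp (y - (1/8:ℝ)) ^ 2 + (-103/4:ℝ) * pp (y - (1/2:ℝ)) ^ 2 + (51/2:ℝ) * pp (y - (9/16:ℝ)) ^ 2 + (51/2:ℝ) * pp (y - (691/256:ℝ)) ^ 2 + (-103/4:ℝ) * pp (y - (707/256:ℝ)) ^ 2 + (1/4:ℝ) * pp (y - (803/256:ℝ)) ^ 2 + (-256:ℝ) * pp (y - (417/128:ℝ)) ^ 2 + (256:ℝ) * pp (y - (835/256:ℝ)) ^ 2) / 2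

/-- its second derivative -/
def a2 (y : ℝ) : ℝ :=
  (256:ℝ) * pp (y - (0:ℝ)) ^ 1 + (-256:ℝ) * pp (y - (1/256:ℝ)) ^ 1 + (1/4:ℝ) * pp (y - (1/8:ℝ)) ^ 1 + (-103/4:ℝ) * pp (y - (1/2:ℝ)) ^ 1 + (51/2:ℝ) * pp (y - (9/16:ℝ)) ^ 1 + (51/2:ℝ) * pp (y - (691/256:ℝ)) ^ 1 + (-103/4:ℝ) * pp (y - (707/256:ℝ)) ^ 1 + (1/4:ℝ) * pp (y - (803/256:ℝ)) ^ 1 + (-256:ℝ) * pp (y - (417/128:ℝ)) ^ 1 + (256:ℝ) * pp (y - (835/256:ℝ)) ^ 1

lemma hasDerivAt_aa (y : ℝ) : HasDerivAt aa (a1 y) y := by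
  have h := ((((((((((((hd3 (0:ℝ) y).const_mul (256:ℝ)).add ((hd3 (1/256:ℝ) y).const_mul (-256:ℝ))).add ((hd3 (1/8:ℝ) y).const_mul (1/4:ℝ))).add ((hd3 (1/2:ℝ) y).const_mul (-103/4:ℝ))).add ((hd3 (9/16:ℝ) y).const_mul (51/2:ℝ))).add ((hd3 (691/256:ℝ) y).const_mul (51/2:ℝ))).add ((hd3 (707/256:ℝ) y).const_mul (-103/4:ℝ))).add ((hd3 (803/256:ℝ) y).const_mul (1/4:ℝ))).add ((hd3 (417/128:ℝ) y).const_mul (-256:ℝ))).add ((hd3 (835/256:ℝ) y).const_mul (256:ℝ)))).div_const 6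
  refine (h.congr_deriv ?_)
  unfold a1; ring

lemma hasDerivAt_a1 (y : ℝ) : HasDerivAt a1 (a2 y) y := by
  have h := ((((((((((((hd2 (0:ℝ) y).const_mul (256:ℝ)).add ((hd2 (1/256:ℝ) y).const_mul (-256:ℝ))).add ((hd2 (1/8:ℝ) y).const_mul (1/4:ℝ))).add ((hd2 (1/2:ℝ) y).const_mul (-103/4:ℝ))).add ((hd2 (9/16:ℝ) y).const_mul (51/2:ℝ))).add ((hd2 (691/256:ℝ) y).const_mul (51/2:ℝ))).add ((hd2 (707/256:ℝ) y).const_mul (-103/4:ℝ))).add ((hd2 (803/256:ℝ) y).const_mul (1/4:ℝ))).add ((hd2 (417/128:ℝ) y).const_mul (-256:ℝ))).add ((hd2 (835/256:ℝ) y).const_mul (256:ℝ)))).div_const 2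
  refine (h.congr_deriv ?_)
  unfold a2; ring

lemma a2_cont : Continuous a2 := by
  unfold a2
  have := pp_cont
  fun_prop

lemma piece1 (y : ℝ) (h1 : (0:ℝ) ≤ y) (h2 : y ≤ (1/256:ℝ)) :
    aa y = (0:ℝ) * y ^ 0 + (0:ℝ) * y ^ 1 + (0:ℝ) * y ^ 2 + (128/3:ℝ) * y ^ 3 ∧ a1 y = (0:ℝ) * y ^ 0 + (0:ℝ) * y ^ 1 + (128:ℝ) * y ^ 2 ∧ a2 y = (0:ℝ) * y ^ 0 + (256:ℝ) * y ^ 1 := by
    have e0 : pp (y - (0:ℝ)) = y - (0:ℝ) := pp_pos (by linarith)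
    have e1 : pp (y - (1/256:ℝ)) = 0 := pp_neg (by linarith)
    have e2 : pp (y - (1/8:ℝ)) = 0 := pp_neg (by linarith)
    have e3 : pp (y - (1/2:ℝ)) = 0 := pp_neg (by linarith)
    have e4 : pp (y - (9/16:ℝ)) = 0 := pp_neg (by linarith)
    have e5 : pp (y - (691/256:ℝ)) = 0 := pp_neg (by linarith)
    have e6 : pp (y - (707/256:ℝ)) = 0 := pp_neg (by linarith)
    have e7 : pp (y - (803/256:ℝ)) = 0 := pp_neg (by linarith)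
    have e8 : pp (y - (417/128:ℝ)) = 0 := pp_neg (by linarith)
    have e9 : pp (y - (835/256:ℝ)) = 0 := pp_neg (by linarith)
    refine ⟨?_, ?_, ?_⟩
    · unfold aa; rw [e0, e1, e2, e3, e4, e5, e6, e7, e8, e9]; ring
    · unfold a1; rw [e0, e1, e2, e3, e4, e5, e6, e7, e8, e9]; ring
    · unfold a2; rw [e0, e1, e2, e3, e4, e5, e6, e7, e8, e9]; ring

lemma bd1 (y : ℝ) (h1 : (0:ℝ) ≤ y) (h2 : y ≤ (1/256:ℝ)) :
    0 ≤ aa y ∧ aa y ≤ 1/2 ∧ a2 y - aa y ≤ 1001/1000 ∧ -(1001/1000) ≤ a2 y - aa y ∧ a1 y ≤ 1 ∧ -1 ≤ a1 y := by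
  obtain ⟨ea, ed, eh⟩ := piece1 y h1 h2
  rw [ea, ed, eh]
  have p1 : 0 ≤ y - (0:ℝ) := by linarith
  have p2 : 0 ≤ (1/256:ℝ) - y := by linarith
  have b0 := mul_nonneg (mul_nonneg p1 p1) p1
  have b1 := mul_nonneg (mul_nonneg p1 p1) p2
  have b2 := mul_nonneg (mul_nonneg p1 p2) p2
  have b3 := mul_nonneg (mul_nonneg p2 p2) p2
  have s1 := sq_nonneg (y - (1/512:ℝ))
  have s2 := sq_nonneg (y - (1/1024:ℝ))
  refine ⟨?_, ?_, ?_, ?_, ?_, ?_⟩ <;> nlinarith [b0, b1, b2, b3, s1, s2, mul_nonneg p1 s1, mul_nonneg p2 s1, mul_nonneg p1 s2, mul_nonneg p2 s2, mul_nonneg p1 p2, mul_nonneg p1 p1, mul_nonneg p2 p2]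

lemma piece2 (y : ℝ) (h1 : (1/256:ℝ) ≤ y) (h2 : y ≤ (1/8:ℝ)) :
    aa y = (1/393216:ℝ) * y ^ 0 + (-1/512:ℝ) * y ^ 1 + (1/2:ℝ) * y ^ 2 + (0:ℝ) * y ^ 3 ∧ a1 y = (-1/512:ℝ) * y ^ 0 + (1:ℝ) * y ^ 1 + (0:ℝ) * y ^ 2 ∧ a2 y = (1:ℝ) * y ^ 0 + (0:ℝ) * y ^ 1 := by
    have e0 : pp (y - (0:ℝ)) = y - (0:ℝ) := pp_pos (by linarith)
    have e1 : pp (y - (1/256:ℝ)) = y - (1/256:ℝ) := pp_pos (by linarith)
    have e2 : pp (y - (1/8:ℝ)) = 0 := pp_neg (by linarith)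
    have e3 : pp (y - (1/2:ℝ)) = 0 := pp_neg (by linarith)
    have e4 : pp (y - (9/16:ℝ)) = 0 := pp_neg (by linarith)
    have e5 : pp (y - (691/256:ℝ)) = 0 := pp_neg (by linarith)
    have e6 : pp (y - (707/256:ℝ)) = 0 := pp_neg (by linarith)
    have e7 : pp (y - (803/256:ℝ)) = 0 := pp_neg (by linarith)
    have e8 : pp (y - (417/128:ℝ)) = 0 := pp_neg (by linarith)
    have e9 : pp (y - (835/256:ℝ)) = 0 := pp_neg (by linarith)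
    refine ⟨?_, ?_, ?_⟩
    · unfold aa; rw [e0, e1, e2, e3, e4, e5, e6, e7, e8, e9]; ring
    · unfold a1; rw [e0, e1, e2, e3, e4, e5, e6, e7, e8, e9]; ring
    · unfold a2; rw [e0, e1, e2, e3, e4, e5, e6, e7, e8, e9]; ring

lemma bd2 (y : ℝ) (h1 : (1/256:ℝ) ≤ y) (h2 : y ≤ (1/8:ℝ)) :
    0 ≤ aa y ∧ aa y ≤ 1/2 ∧ a2 y - aa y ≤ 1001/1000 ∧ -(1001/1000) ≤ a2 y - aa y ∧ a1 y ≤ 1 ∧ -1 ≤ a1 y := by
  obtain ⟨ea, ed, eh⟩ := piece2 y h1 h2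
  rw [ea, ed, eh]
  have p1 : 0 ≤ y - (1/256:ℝ) := by linarith
  have p2 : 0 ≤ (1/8:ℝ) - y := by linarith
  have b0 := mul_nonneg (mul_nonneg p1 p1) p1
  have b1 := mul_nonneg (mul_nonneg p1 p1) p2
  have b2 := mul_nonneg (mul_nonneg p1 p2) p2
  have b3 := mul_nonneg (mul_nonneg p2 p2) p2
  have s1 := sq_nonneg (y - (33/512:ℝ))
  have s2 := sq_nonneg (y - (35/1024:ℝ))
  refine ⟨?_, ?_, ?_, ?_, ?_, ?_⟩ <;> nlinarith [b0, b1, b2, b3, s1, s2, mul_nonneg p1 s1, mul_nonneg p2 s1, mul_nonneg p1 s2, mul_nonneg p2 s2, mul_nonneg p1 p2, mul_nonneg p1 p1, mul_nonneg p2 p2]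

lemma piece3 (y : ℝ) (h1 : (1/8:ℝ) ≤ y) (h2 : y ≤ (1/2:ℝ)) :
    aa y = (-31/393216:ℝ) * y ^ 0 + (0:ℝ) * y ^ 1 + (31/64:ℝ) * y ^ 2 + (1/24:ℝ) * y ^ 3 ∧ a1 y = (0:ℝ) * y ^ 0 + (31/32:ℝ) * y ^ 1 + (1/8:ℝ) * y ^ 2 ∧ a2 y = (31/32:ℝ) * y ^ 0 + (1/4:ℝ) * y ^ 1 := by
    have e0 : pp (y - (0:ℝ)) = y - (0:ℝ) := pp_pos (by linarith)
    have e1 : pp (y - (1/256:ℝ)) = y - (1/256:ℝ) := pp_pos (by linarith)
    have e2 : pp (y - (1/8:ℝ)) = y - (1/8:ℝ) := pp_pos (by linarith)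
    have e3 : pp (y - (1/2:ℝ)) = 0 := pp_neg (by linarith)
    have e4 : pp (y - (9/16:ℝ)) = 0 := pp_neg (by linarith)
    have e5 : pp (y - (691/256:ℝ)) = 0 := pp_neg (by linarith)
    have e6 : pp (y - (707/256:ℝ)) = 0 := pp_neg (by linarith)
    have e7 : pp (y - (803/256:ℝ)) = 0 := pp_neg (by linarith)
    have e8 : pp (y - (417/128:ℝ)) = 0 := pp_neg (by linarith)
    have e9 : pp (y - (835/256:ℝ)) = 0 := pp_neg (by linarith)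
    refine ⟨?_, ?_, ?_⟩
    · unfold aa; rw [e0, e1, e2, e3, e4, e5, e6, e7, e8, e9]; ring
    · unfold a1; rw [e0, e1, e2, e3, e4, e5, e6, e7, e8, e9]; ring
    · unfold a2; rw [e0, e1, e2, e3, e4, e5, e6, e7, e8, e9]; ring

lemma bd3 (y : ℝ) (h1 : (1/8:ℝ) ≤ y) (h2 : y ≤ (1/2:ℝ)) :
    0 ≤ aa y ∧ aa y ≤ 1/2 ∧ a2 y - aa y ≤ 1001/1000 ∧ -(1001/1000) ≤ a2 y - aa y ∧ a1 y ≤ 1 ∧ -1 ≤ a1 y := by
  obtain ⟨ea, ed, eh⟩ := piece3 y h1 h2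
  rw [ea, ed, eh]
  have p1 : 0 ≤ y - (1/8:ℝ) := by linarith
  have p2 : 0 ≤ (1/2:ℝ) - y := by linarith
  have b0 := mul_nonneg (mul_nonneg p1 p1) p1
  have b1 := mul_nonneg (mul_nonneg p1 p1) p2
  have b2 := mul_nonneg (mul_nonneg p1 p2) p2
  have b3 := mul_nonneg (mul_nonneg p2 p2) p2
  have s1 := sq_nonneg (y - (5/16:ℝ))
  have s2 := sq_nonneg (y - (1/4:ℝ))
  refine ⟨?_, ?_, ?_, ?_, ?_, ?_⟩ <;> nlinarith [b0, b1, b2, b3, s1, s2, mul_nonneg p1 s1, mul_nonneg p2 s1, mul_nonneg p1 s2, mul_nonneg p2 s2, mul_nonneg p1 p2, mul_nonneg p1 p1, mul_nonneg p2 p2]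

lemma piece4 (y : ℝ) (h1 : (1/2:ℝ) ≤ y) (h2 : y ≤ (9/16:ℝ)) :
    aa y = (210913/393216:ℝ) * y ^ 0 + (-103/32:ℝ) * y ^ 1 + (443/64:ℝ) * y ^ 2 + (-17/4:ℝ) * y ^ 3 ∧ a1 y = (-103/32:ℝ) * y ^ 0 + (443/32:ℝ) * y ^ 1 + (-51/4:ℝ) * y ^ 2 ∧ a2 y = (443/32:ℝ) * y ^ 0 + (-51/2:ℝ) * y ^ 1 := by
    have e0 : pp (y - (0:ℝ)) = y - (0:ℝ) := pp_pos (by linarith)
    have e1 : pp (y - (1/256:ℝ)) = y - (1/256:ℝ) := pp_pos (by linarith)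
    have e2 : pp (y - (1/8:ℝ)) = y - (1/8:ℝ) := pp_pos (by linarith)
    have e3 : pp (y - (1/2:ℝ)) = y - (1/2:ℝ) := pp_pos (by linarith)
    have e4 : pp (y - (9/16:ℝ)) = 0 := pp_neg (by linarith)
    have e5 : pp (y - (691/256:ℝ)) = 0 := pp_neg (by linarith)
    have e6 : pp (y - (707/256:ℝ)) = 0 := pp_neg (by linarith)
    have e7 : pp (y - (803/256:ℝ)) = 0 := pp_neg (by linarith)
    have e8 : pp (y - (417/128:ℝ)) = 0 := pp_neg (by linarith)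
    have e9 : pp (y - (835/256:ℝ)) = 0 := pp_neg (by linarith)
    refine ⟨?_, ?_, ?_⟩
    · unfold aa; rw [e0, e1, e2, e3, e4, e5, e6, e7, e8, e9]; ring
    · unfold a1; rw [e0, e1, e2, e3, e4, e5, e6, e7, e8, e9]; ring
    · unfold a2; rw [e0, e1, e2, e3, e4, e5, e6, e7, e8, e9]; ring

lemma bd4 (y : ℝ) (h1 : (1/2:ℝ) ≤ y) (h2 : y ≤ (9/16:ℝ)) :
    0 ≤ aa y ∧ aa y ≤ 1/2 ∧ a2 y - aa y ≤ 1001/1000 ∧ -(1001/1000) ≤ a2 y - aa y ∧ a1 y ≤ 1 ∧ -1 ≤ a1 y := by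
  obtain ⟨ea, ed, eh⟩ := piece4 y h1 h2
  rw [ea, ed, eh]
  have p1 : 0 ≤ y - (1/2:ℝ) := by linarith
  have p2 : 0 ≤ (9/16:ℝ) - y := by linarith
  have b0 := mul_nonneg (mul_nonneg p1 p1) p1
  have b1 := mul_nonneg (mul_nonneg p1 p1) p2
  have b2 := mul_nonneg (mul_nonneg p1 p2) p2
  have b3 := mul_nonneg (mul_nonneg p2 p2) p2
  have s1 := sq_nonneg (y - (17/32:ℝ))
  have s2 := sq_nonneg (y - (33/64:ℝ))
  refine ⟨?_, ?_, ?_, ?_, ?_, ?_⟩ <;> nlinarith [b0, b1, b2, b3, s1, s2, mul_nonneg p1 s1, mul_nonneg p2 s1, mul_nonneg p1 s2, mul_nonneg p2 s2, mul_nonneg p1 p2, mul_nonneg p1 p1, mul_nonneg p2 p2]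

lemma piece5 (y : ℝ) (h1 : (9/16:ℝ) ≤ y) (h2 : y ≤ (691/256:ℝ)) :
    aa y = (-86519/393216:ℝ) * y ^ 0 + (835/1024:ℝ) * y ^ 1 + (-1/4:ℝ) * y ^ 2 + (0:ℝ) * y ^ 3 ∧ a1 y = (835/1024:ℝ) * y ^ 0 + (-1/2:ℝ) * y ^ 1 + (0:ℝ) * y ^ 2 ∧ a2 y = (-1/2:ℝ) * y ^ 0 + (0:ℝ) * y ^ 1 := by
    have e0 : pp (y - (0:ℝ)) = y - (0:ℝ) := pp_pos (by linarith)
    have e1 : pp (y - (1/256:ℝ)) = y - (1/256:ℝ) := pp_pos (by linarith)
    have e2 : pp (y - (1/8:ℝ)) = y - (1/8:ℝ) := pp_pos (by linarith)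
    have e3 : pp (y - (1/2:ℝ)) = y - (1/2:ℝ) := pp_pos (by linarith)
    have e4 : pp (y - (9/16:ℝ)) = y - (9/16:ℝ) := pp_pos (by linarith)
    have e5 : pp (y - (691/256:ℝ)) = 0 := pp_neg (by linarith)
    have e6 : pp (y - (707/256:ℝ)) = 0 := pp_neg (by linarith)
    have e7 : pp (y - (803/256:ℝ)) = 0 := pp_neg (by linarith)
    have e8 : pp (y - (417/128:ℝ)) = 0 := pp_neg (by linarith)
    have e9 : pp (y - (835/256:ℝ)) = 0 := pp_neg (by linarith)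
    refine ⟨?_, ?_, ?_⟩
    · unfold aa; rw [e0, e1, e2, e3, e4, e5, e6, e7, e8, e9]; ring
    · unfold a1; rw [e0, e1, e2, e3, e4, e5, e6, e7, e8, e9]; ring
    · unfold a2; rw [e0, e1, e2, e3, e4, e5, e6, e7, e8, e9]; ring

lemma bd5 (y : ℝ) (h1 : (9/16:ℝ) ≤ y) (h2 : y ≤ (691/256:ℝ)) :
    0 ≤ aa y ∧ aa y ≤ 1/2 ∧ a2 y - aa y ≤ 1001/1000 ∧ -(1001/1000) ≤ a2 y - aa y ∧ a1 y ≤ 1 ∧ -1 ≤ a1 y := by
  obtain ⟨ea, ed, eh⟩ := piece5 y h1 h2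
  rw [ea, ed, eh]
  have p1 : 0 ≤ y - (9/16:ℝ) := by linarith
  have p2 : 0 ≤ (691/256:ℝ) - y := by linarith
  have b0 := mul_nonneg (mul_nonneg p1 p1) p1
  have b1 := mul_nonneg (mul_nonneg p1 p1) p2
  have b2 := mul_nonneg (mul_nonneg p1 p2) p2
  have b3 := mul_nonneg (mul_nonneg p2 p2) p2
  have s1 := sq_nonneg (y - (835/512:ℝ))
  have s2 := sq_nonneg (y - (1123/1024:ℝ))
  refine ⟨?_, ?_, ?_, ?_, ?_, ?_⟩ <;> nlinarith [b0, b1, b2, b3, s1, s2, mul_nonneg p1 s1, mul_nonneg p2 s1, mul_nonneg p1 s2, mul_nonneg p2 s2, mul_nonneg p1 p2, mul_nonneg p1 p1, mul_nonneg p2 p2]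

lemma piece6 (y : ℝ) (h1 : (691/256:ℝ) ≤ y) (h2 : y ≤ (707/256:ℝ)) :
    aa y = (-16871205649/201326592:ℝ) * y ^ 0 + (24565291/262144:ℝ) * y ^ 1 + (-35497/1024:ℝ) * y ^ 2 + (17/4:ℝ) * y ^ 3 ∧ a1 y = (24565291/262144:ℝ) * y ^ 0 + (-35497/512:ℝ) * y ^ 1 + (51/4:ℝ) * y ^ 2 ∧ a2 y = (-35497/512:ℝ) * y ^ 0 + (51/2:ℝ) * y ^ 1 := by
    have e0 : pp (y - (0:ℝ)) = y - (0:ℝ) := pp_pos (by linarith)
    have e1 : pp (y - (1/256:ℝ)) = y - (1/256:ℝ) := pp_pos (by linarith)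
    have e2 : pp (y - (1/8:ℝ)) = y - (1/8:ℝ) := pp_pos (by linarith)
    have e3 : pp (y - (1/2:ℝ)) = y - (1/2:ℝ) := pp_pos (by linarith)
    have e4 : pp (y - (9/16:ℝ)) = y - (9/16:ℝ) := pp_pos (by linarith)
    have e5 : pp (y - (691/256:ℝ)) = y - (691/256:ℝ) := pp_pos (by linarith)
    have e6 : pp (y - (707/256:ℝ)) = 0 := pp_neg (by linarith)
    have e7 : pp (y - (803/256:ℝ)) = 0 := pp_neg (by linarith)
    have e8 : pp (y - (417/128:ℝ)) = 0 := pp_neg (by linarith)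
    have e9 : pp (y - (835/256:ℝ)) = 0 := pp_neg (by linarith)
    refine ⟨?_, ?_, ?_⟩
    · unfold aa; rw [e0, e1, e2, e3, e4, e5, e6, e7, e8, e9]; ring
    · unfold a1; rw [e0, e1, e2, e3, e4, e5, e6, e7, e8, e9]; ring
    · unfold a2; rw [e0, e1, e2, e3, e4, e5, e6, e7, e8, e9]; ring

lemma bd6 (y : ℝ) (h1 : (691/256:ℝ) ≤ y) (h2 : y ≤ (707/256:ℝ)) :
    0 ≤ aa y ∧ aa y ≤ 1/2 ∧ a2 y - aa y ≤ 1001/1000 ∧ -(1001/1000) ≤ a2 y - aa y ∧ a1 y ≤ 1 ∧ -1 ≤ a1 y := by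
  obtain ⟨ea, ed, eh⟩ := piece6 y h1 h2
  rw [ea, ed, eh]
  have p1 : 0 ≤ y - (691/256:ℝ) := by linarith
  have p2 : 0 ≤ (707/256:ℝ) - y := by linarith
  have b0 := mul_nonneg (mul_nonneg p1 p1) p1
  have b1 := mul_nonneg (mul_nonneg p1 p1) p2
  have b2 := mul_nonneg (mul_nonneg p1 p2) p2
  have b3 := mul_nonneg (mul_nonneg p2 p2) p2
  have s1 := sq_nonneg (y - (699/256:ℝ))
  have s2 := sq_nonneg (y - (695/256:ℝ))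
  refine ⟨?_, ?_, ?_, ?_, ?_, ?_⟩ <;> nlinarith [b0, b1, b2, b3, s1, s2, mul_nonneg p1 s1, mul_nonneg p2 s1, mul_nonneg p1 s2, mul_nonneg p2 s2, mul_nonneg p1 p2, mul_nonneg p1 p1, mul_nonneg p2 p2]

lemma piece7 (y : ℝ) (h1 : (707/256:ℝ) ≤ y) (h2 : y ≤ (803/256:ℝ)) :
    aa y = (885697577/134217728:ℝ) * y ^ 0 + (-2353865/524288:ℝ) * y ^ 1 + (1827/2048:ℝ) * y ^ 2 + (-1/24:ℝ) * y ^ 3 ∧ a1 y = (-2353865/524288:ℝ) * y ^ 0 + (1827/1024:ℝ) * y ^ 1 + (-1/8:ℝ) * y ^ 2 ∧ a2 y = (1827/1024:ℝ) * y ^ 0 + (-1/4:ℝ) * y ^ 1 := by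
    have e0 : pp (y - (0:ℝ)) = y - (0:ℝ) := pp_pos (by linarith)
    have e1 : pp (y - (1/256:ℝ)) = y - (1/256:ℝ) := pp_pos (by linarith)
    have e2 : pp (y - (1/8:ℝ)) = y - (1/8:ℝ) := pp_pos (by linarith)
    have e3 : pp (y - (1/2:ℝ)) = y - (1/2:ℝ) := pp_pos (by linarith)
    have e4 : pp (y - (9/16:ℝ)) = y - (9/16:ℝ) := pp_pos (by linarith)
    have e5 : pp (y - (691/256:ℝ)) = y - (691/256:ℝ) := pp_pos (by linarith)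
    have e6 : pp (y - (707/256:ℝ)) = y - (707/256:ℝ) := pp_pos (by linarith)
    have e7 : pp (y - (803/256:ℝ)) = 0 := pp_neg (by linarith)
    have e8 : pp (y - (417/128:ℝ)) = 0 := pp_neg (by linarith)
    have e9 : pp (y - (835/256:ℝ)) = 0 := pp_neg (by linarith)
    refine ⟨?_, ?_, ?_⟩
    · unfold aa; rw [e0, e1, e2, e3, e4, e5, e6, e7, e8, e9]; ring
    · unfold a1; rw [e0, e1, e2, e3, e4, e5, e6, e7, e8, e9]; ring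
    · unfold a2; rw [e0, e1, e2, e3, e4, e5, e6, e7, e8, e9]; ring

lemma bd7 (y : ℝ) (h1 : (707/256:ℝ) ≤ y) (h2 : y ≤ (803/256:ℝ)) :
    0 ≤ aa y ∧ aa y ≤ 1/2 ∧ a2 y - aa y ≤ 1001/1000 ∧ -(1001/1000) ≤ a2 y - aa y ∧ a1 y ≤ 1 ∧ -1 ≤ a1 y := by
  obtain ⟨ea, ed, eh⟩ := piece7 y h1 h2
  rw [ea, ed, eh]
  have p1 : 0 ≤ y - (707/256:ℝ) := by linarith
  have p2 : 0 ≤ (803/256:ℝ) - y := by linarith
  have b0 := mul_nonneg (mul_nonneg p1 p1) p1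
  have b1 := mul_nonneg (mul_nonneg p1 p1) p2
  have b2 := mul_nonneg (mul_nonneg p1 p2) p2
  have b3 := mul_nonneg (mul_nonneg p2 p2) p2
  have s1 := sq_nonneg (y - (755/256:ℝ))
  have s2 := sq_nonneg (y - (771/256:ℝ))
  refine ⟨?_, ?_, ?_, ?_, ?_, ?_⟩ <;> nlinarith [b0, b1, b2, b3, s1, s2, mul_nonneg p1 s1, mul_nonneg p2 s1, mul_nonneg p1 s2, mul_nonneg p2 s2, mul_nonneg p1 p2, mul_nonneg p1 p1, mul_nonneg p2 p2]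

lemma piece8 (y : ℝ) (h1 : (803/256:ℝ) ≤ y) (h2 : y ≤ (417/128:ℝ)) :
    aa y = (2089171/393216:ℝ) * y ^ 0 + (-1669/512:ℝ) * y ^ 1 + (1/2:ℝ) * y ^ 2 + (0:ℝ) * y ^ 3 ∧ a1 y = (-1669/512:ℝ) * y ^ 0 + (1:ℝ) * y ^ 1 + (0:ℝ) * y ^ 2 ∧ a2 y = (1:ℝ) * y ^ 0 + (0:ℝ) * y ^ 1 := by
    have e0 : pp (y - (0:ℝ)) = y - (0:ℝ) := pp_pos (by linarith)
    have e1 : pp (y - (1/256:ℝ)) = y - (1/256:ℝ) := pp_pos (by linarith)
    have e2 : pp (y - (1/8:ℝ)) = y - (1/8:ℝ) := pp_pos (by linarith)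
    have e3 : pp (y - (1/2:ℝ)) = y - (1/2:ℝ) := pp_pos (by linarith)
    have e4 : pp (y - (9/16:ℝ)) = y - (9/16:ℝ) := pp_pos (by linarith)
    have e5 : pp (y - (691/256:ℝ)) = y - (691/256:ℝ) := pp_pos (by linarith)
    have e6 : pp (y - (707/256:ℝ)) = y - (707/256:ℝ) := pp_pos (by linarith)
    have e7 : pp (y - (803/256:ℝ)) = y - (803/256:ℝ) := pp_pos (by linarith)
    have e8 : pp (y - (417/128:ℝ)) = 0 := pp_neg (by linarith)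
    have e9 : pp (y - (835/256:ℝ)) = 0 := pp_neg (by linarith)
    refine ⟨?_, ?_, ?_⟩
    · unfold aa; rw [e0, e1, e2, e3, e4, e5, e6, e7, e8, e9]; ring
    · unfold a1; rw [e0, e1, e2, e3, e4, e5, e6, e7, e8, e9]; ring
    · unfold a2; rw [e0, e1, e2, e3, e4, e5, e6, e7, e8, e9]; ring

lemma bd8 (y : ℝ) (h1 : (803/256:ℝ) ≤ y) (h2 : y ≤ (417/128:ℝ)) :
    0 ≤ aa y ∧ aa y ≤ 1/2 ∧ a2 y - aa y ≤ 1001/1000 ∧ -(1001/1000) ≤ a2 y - aa y ∧ a1 y ≤ 1 ∧ -1 ≤ a1 y := by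
  obtain ⟨ea, ed, eh⟩ := piece8 y h1 h2
  rw [ea, ed, eh]
  have p1 : 0 ≤ y - (803/256:ℝ) := by linarith
  have p2 : 0 ≤ (417/128:ℝ) - y := by linarith
  have b0 := mul_nonneg (mul_nonneg p1 p1) p1
  have b1 := mul_nonneg (mul_nonneg p1 p1) p2
  have b2 := mul_nonneg (mul_nonneg p1 p2) p2
  have b3 := mul_nonneg (mul_nonneg p2 p2) p2
  have s1 := sq_nonneg (y - (1637/512:ℝ))
  have s2 := sq_nonneg (y - (3243/1024:ℝ))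
  refine ⟨?_, ?_, ?_, ?_, ?_, ?_⟩ <;> nlinarith [b0, b1, b2, b3, s1, s2, mul_nonneg p1 s1, mul_nonneg p2 s1, mul_nonneg p1 s2, mul_nonneg p2 s2, mul_nonneg p1 p2, mul_nonneg p1 p1, mul_nonneg p2 p2]

lemma piece9 (y : ℝ) (h1 : (417/128:ℝ) ≤ y) (h2 : y ≤ (835/256:ℝ)) :
    aa y = (582182875/393216:ℝ) * y ^ 0 + (-697225/512:ℝ) * y ^ 1 + (835/2:ℝ) * y ^ 2 + (-128/3:ℝ) * y ^ 3 ∧ a1 y = (-697225/512:ℝ) * y ^ 0 + (835:ℝ) * y ^ 1 + (-128:ℝ) * y ^ 2 ∧ a2 y = (835:ℝ) * y ^ 0 + (-256:ℝ) * y ^ 1 := by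
    have e0 : pp (y - (0:ℝ)) = y - (0:ℝ) := pp_pos (by linarith)
    have e1 : pp (y - (1/256:ℝ)) = y - (1/256:ℝ) := pp_pos (by linarith)
    have e2 : pp (y - (1/8:ℝ)) = y - (1/8:ℝ) := pp_pos (by linarith)
    have e3 : pp (y - (1/2:ℝ)) = y - (1/2:ℝ) := pp_pos (by linarith)
    have e4 : pp (y - (9/16:ℝ)) = y - (9/16:ℝ) := pp_pos (by linarith)
    have e5 : pp (y - (691/256:ℝ)) = y - (691/256:ℝ) := pp_pos (by linarith)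
    have e6 : pp (y - (707/256:ℝ)) = y - (707/256:ℝ) := pp_pos (by linarith)
    have e7 : pp (y - (803/256:ℝ)) = y - (803/256:ℝ) := pp_pos (by linarith)
    have e8 : pp (y - (417/128:ℝ)) = y - (417/128:ℝ) := pp_pos (by linarith)
    have e9 : pp (y - (835/256:ℝ)) = 0 := pp_neg (by linarith)
    refine ⟨?_, ?_, ?_⟩
    · unfold aa; rw [e0, e1, e2, e3, e4, e5, e6, e7, e8, e9]; ring
    · unfold a1; rw [e0, e1, e2, e3, e4, e5, e6, e7, e8, e9]; ring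
    · unfold a2; rw [e0, e1, e2, e3, e4, e5, e6, e7, e8, e9]; ring

lemma bd9 (y : ℝ) (h1 : (417/128:ℝ) ≤ y) (h2 : y ≤ (835/256:ℝ)) :
    0 ≤ aa y ∧ aa y ≤ 1/2 ∧ a2 y - aa y ≤ 1001/1000 ∧ -(1001/1000) ≤ a2 y - aa y ∧ a1 y ≤ 1 ∧ -1 ≤ a1 y := by
  obtain ⟨ea, ed, eh⟩ := piece9 y h1 h2
  rw [ea, ed, eh]
  have p1 : 0 ≤ y - (417/128:ℝ) := by linarith
  have p2 : 0 ≤ (835/256:ℝ) - y := by linarith
  have b0 := mul_nonneg (mul_nonneg p1 p1) p1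
  have b1 := mul_nonneg (mul_nonneg p1 p1) p2
  have b2 := mul_nonneg (mul_nonneg p1 p2) p2
  have b3 := mul_nonneg (mul_nonneg p2 p2) p2
  have s1 := sq_nonneg (y - (1669/512:ℝ))
  have s2 := sq_nonneg (y - (3337/1024:ℝ))
  refine ⟨?_, ?_, ?_, ?_, ?_, ?_⟩ <;> nlinarith [b0, b1, b2, b3, s1, s2, mul_nonneg p1 s1, mul_nonneg p2 s1, mul_nonneg p1 s2, mul_nonneg p2 s2, mul_nonneg p1 p2, mul_nonneg p1 p1, mul_nonneg p2 p2]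

lemma left0 (y : ℝ) (h : y ≤ 0) : aa y = 0 ∧ a1 y = 0 ∧ a2 y = 0 := by
    have e0 : pp (y - (0:ℝ)) = 0 := pp_neg (by linarith)
    have e1 : pp (y - (1/256:ℝ)) = 0 := pp_neg (by linarith)
    have e2 : pp (y - (1/8:ℝ)) = 0 := pp_neg (by linarith)
    have e3 : pp (y - (1/2:ℝ)) = 0 := pp_neg (by linarith)
    have e4 : pp (y - (9/16:ℝ)) = 0 := pp_neg (by linarith)
    have e5 : pp (y - (691/256:ℝ)) = 0 := pp_neg (by linarith)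
    have e6 : pp (y - (707/256:ℝ)) = 0 := pp_neg (by linarith)
    have e7 : pp (y - (803/256:ℝ)) = 0 := pp_neg (by linarith)
    have e8 : pp (y - (417/128:ℝ)) = 0 := pp_neg (by linarith)
    have e9 : pp (y - (835/256:ℝ)) = 0 := pp_neg (by linarith)
    refine ⟨?_, ?_, ?_⟩
    · unfold aa; rw [e0, e1, e2, e3, e4, e5, e6, e7, e8, e9]; ring
    · unfold a1; rw [e0, e1, e2, e3, e4, e5, e6, e7, e8, e9]; ring
    · unfold a2; rw [e0, e1, e2, e3, e4, e5, e6, e7, e8, e9]; ring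

lemma right0 (y : ℝ) (h : (835/256:ℝ) ≤ y) : aa y = 0 ∧ a1 y = 0 ∧ a2 y = 0 := by
    have e0 : pp (y - (0:ℝ)) = y - (0:ℝ) := pp_pos (by linarith)
    have e1 : pp (y - (1/256:ℝ)) = y - (1/256:ℝ) := pp_pos (by linarith)
    have e2 : pp (y - (1/8:ℝ)) = y - (1/8:ℝ) := pp_pos (by linarith)
    have e3 : pp (y - (1/2:ℝ)) = y - (1/2:ℝ) := pp_pos (by linarith)
    have e4 : pp (y - (9/16:ℝ)) = y - (9/16:ℝ) := pp_pos (by linarith)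
    have e5 : pp (y - (691/256:ℝ)) = y - (691/256:ℝ) := pp_pos (by linarith)
    have e6 : pp (y - (707/256:ℝ)) = y - (707/256:ℝ) := pp_pos (by linarith)
    have e7 : pp (y - (803/256:ℝ)) = y - (803/256:ℝ) := pp_pos (by linarith)
    have e8 : pp (y - (417/128:ℝ)) = y - (417/128:ℝ) := pp_pos (by linarith)
    have e9 : pp (y - (835/256:ℝ)) = y - (835/256:ℝ) := pp_pos (by linarith)
    refine ⟨?_, ?_, ?_⟩
    · unfold aa; rw [e0, e1, e2, e3, e4, e5, e6, e7, e8, e9]; ring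
    · unfold a1; rw [e0, e1, e2, e3, e4, e5, e6, e7, e8, e9]; ring
    · unfold a2; rw [e0, e1, e2, e3, e4, e5, e6, e7, e8, e9]; ring

lemma bd (y : ℝ) :
    0 ≤ aa y ∧ aa y ≤ 1/2 ∧ a2 y - aa y ≤ 1001/1000 ∧ -(1001/1000) ≤ a2 y - aa y ∧ a1 y ≤ 1 ∧ -1 ≤ a1 y := by
  rcases le_total y (0:ℝ) with g0 | g0
  · obtain ⟨x1, x2, x3⟩ := left0 y g0
    rw [x1, x2, x3]; norm_num
  rcases le_total y (1/256:ℝ) with g1 | g1
  · exact bd1 y g0 g1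
  rcases le_total y (1/8:ℝ) with g2 | g2
  · exact bd2 y g1 g2
  rcases le_total y (1/2:ℝ) with g3 | g3
  · exact bd3 y g2 g3
  rcases le_total y (9/16:ℝ) with g4 | g4
  · exact bd4 y g3 g4
  rcases le_total y (691/256:ℝ) with g5 | g5
  · exact bd5 y g4 g5
  rcases le_total y (707/256:ℝ) with g6 | g6
  · exact bd6 y g5 g6
  rcases le_total y (803/256:ℝ) with g7 | g7
  · exact bd7 y g6 g7
  rcases le_total y (417/128:ℝ) with g8 | g8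
  · exact bd8 y g7 g8
  rcases le_total y (835/256:ℝ) with g9 | g9
  · exact bd9 y g8 g9
  obtain ⟨x1, x2, x3⟩ := right0 y g9
  rw [x1, x2, x3]; norm_num

lemma aa_half : (5025/1000 : ℝ) / 10 * (1/2)^2 < aa (1/2) := by
  obtain ⟨ea, -, -⟩ := piece3 (1/2) (by norm_num) (by norm_num)
  rw [ea]; norm_num

end
end X122HR
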