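import Pool.Agent.X122.HR1

/-! Cutoff `b` and the two-variable bound for MP_ec5c38_an. -/

namespace X122HR
noncomputable section

open Filter Topology Asymptotics

/-- the cutoff -/
def bb (z : ℝ) : ℝ := pp (1 - z ^ 2 / 6) ^ 3
/-- its first derivative -/
def b1 (z : ℝ) : ℝ := - z * pp (1 - z ^ 2 / 6) ^ 2
/-- its second derivative -/
def b2 (z : ℝ) : ℝ := - pp (1 - z ^ 2 / 6) ^ 2 + 2 / 3 * z ^ 2 * pp (1 - z ^ 2 / 6)

lemma hasDerivAt_in (z : ℝ) : HasDerivAt (fun z : ℝ => 1 - z ^ 2 / 6) (-(z / 3)) z := by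
  have h := ((hasDerivAt_pow 2 z).div_const 6).const_sub 1
  refine h.congr_deriv ?_
  norm_num; ring

lemma hasDerivAt_bb (z : ℝ) : HasDerivAt bb (b1 z) z := by
  have h := (hasDerivAt_pp 1 (1 - z ^ 2 / 6)).comp z (hasDerivAt_in z)
  refine h.congr_deriv ?_
  unfold b1; norm_num; ring

lemma hasDerivAt_b1 (z : ℝ) : HasDerivAt b1 (b2 z) z := by
  have h := (hasDerivAt_pp 0 (1 - z ^ 2 / 6)).comp z (hasDerivAt_in z)
  have h2 := (hasDerivAt_id z).neg.mul h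
  refine h2.congr_deriv ?_
  unfold b2; simp only [Function.comp, id]; norm_num; ring

lemma b2_cont : Continuous b2 := by
  unfold b2
  have := pp_cont
  fun_prop

lemma bb_cont : Continuous bb := by
  unfold bb
  have := pp_cont
  fun_prop

lemma aa_cont : Continuous aa := by
  unfold aa
  have := pp_cont
  fun_prop

lemma pp_in (z : ℝ) : 0 ≤ pp (1 - z ^ 2 / 6) ∧ pp (1 - z ^ 2 / 6) ≤ 1 ∧
    pp (1 - z ^ 2 / 6) * z ^ 2 = 6 * (pp (1 - z ^ 2 / 6) - pp (1 - z ^ 2 / 6) ^ 2) := by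
  refine ⟨pp_nonneg _, max_le (by nlinarith [sq_nonneg z]) (by norm_num), ?_⟩
  rcases le_total (1 - z ^ 2 / 6) 0 with h | h
  · rw [pp_neg h]; ring
  · rw [pp_pos h]; ring

lemma bb_bd (z : ℝ) : 0 ≤ bb z ∧ bb z ≤ 1 := by
  obtain ⟨h1, h2, -⟩ := pp_in z
  exact ⟨pow_nonneg h1 3, pow_le_one₀ h1 h2⟩

/-- the main pointwise inequality -/
lemma main2 (y z : ℝ) : |a2 y * bb z + aa y * b2 z| ≤ 1001 / 1000 := by
  obtain ⟨h1, h2, h3, h4, -, -⟩ := bd y
  obtain ⟨k1, k2, k3⟩ := pp_in z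
  set m := pp (1 - z ^ 2 / 6) with hm
  have hb : bb z = m ^ 3 := rfl
  have hb2 : b2 z = - m ^ 2 + 4 * (m - m ^ 2) := by
    unfold b2
    have : 2 / 3 * z ^ 2 * m = 2 / 3 * (m * z ^ 2) := by ring
    rw [← hm, this, k3]; ring
  rw [hb, hb2]
  set A := aa y
  set H := a2 y
  have hs : H * m ^ 3 + A * (-m ^ 2 + 4 * (m - m ^ 2)) = (H - A) * m ^ 3 + A * (m * (1 - m) * (4 - m)) := by ring
  rw [hs]
  have m3 : 0 ≤ m ^ 3 := pow_nonneg k1 3
  have q : 0 ≤ m * (1 - m) * (4 - m) := mul_nonneg (mul_nonneg k1 (by linarith)) (by linarith)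
  have q2 : m * (1 - m) * (4 - m) ≤ 2 * (1 - m ^ 3) := by nlinarith [mul_nonneg (sub_nonneg.2 k2) (sq_nonneg (m - 1/3)), mul_nonneg (sub_nonneg.2 k2) (sq_nonneg m)]
  have q3 : A * (m * (1 - m) * (4 - m)) ≤ 1 - m ^ 3 := by nlinarith
  have q4 : 0 ≤ A * (m * (1 - m) * (4 - m)) := mul_nonneg h1 q
  have q5 : (H - A) * m ^ 3 ≤ 1001/1000 * m ^ 3 := mul_le_mul_of_nonneg_right h3 m3
  have q6 : -(1001/1000) * m ^ 3 ≤ (H - A) * m ^ 3 := mul_le_mul_of_nonneg_right h4 m3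
  have m31 : m ^ 3 ≤ 1 := pow_le_one₀ k1 k2
  rw [abs_le]
  constructor <;> nlinarith

/-- bound of the first derivative of the cutoff -/
lemma b1_bd (z : ℝ) : |b1 z| ≤ 3 := by
  obtain ⟨k1, k2, k3⟩ := pp_in z
  set m := pp (1 - z ^ 2 / 6) with hm
  have hb : b1 z = - z * m ^ 2 := rfl
  have h2 : (b1 z) ^ 2 ≤ 3 ^ 2 := by
    have : (b1 z) ^ 2 = m ^ 3 * (m * z ^ 2) := by rw [hb]; ring
    rw [this, k3]
    have m31 : m ^ 3 ≤ 1 := pow_le_one₀ k1 k2
    have m30 : 0 ≤ m ^ 3 := pow_nonneg k1 3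
    nlinarith [mul_nonneg m30 (sub_nonneg.2 k2), sq_nonneg m, mul_nonneg m30 (sq_nonneg m)]
  exact abs_le_of_sq_le_sq h2 (by norm_num)

lemma far_z (z : ℝ) (h : 3 < |z|) : bb z = 0 ∧ b1 z = 0 ∧ b2 z = 0 := by
  have hz : 9 < z ^ 2 := by
    have := sq_lt_sq' (by linarith [abs_nonneg z]) h
    rw [sq_abs] at this; linarith
  have h0 : pp (1 - z ^ 2 / 6) = 0 := pp_neg (by linarith)
  refine ⟨?_, ?_, ?_⟩
  · unfold bb; rw [h0]; norm_num
  · unfold b1; rw [h0]; norm_num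
  · unfold b2; rw [h0]; norm_num

lemma aa_contDiff : ContDiff ℝ 2 aa := by
  have h1 : deriv aa = a1 := funext fun y => (hasDerivAt_aa y).deriv
  have h2 : deriv a1 = a2 := funext fun y => (hasDerivAt_a1 y).deriv
  have h3 : ContDiff ℝ 1 a1 := by
    rw [contDiff_one_iff_deriv, h2]
    exact ⟨fun y => (hasDerivAt_a1 y).differentiableAt, a2_cont⟩
  have : ContDiff ℝ (1 + 1) aa := by
    rw [contDiff_succ_iff_deriv, h1]
    exact ⟨fun y => (hasDerivAt_aa y).differentiableAt, by simp, h3⟩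
  simpa [one_add_one_eq_two] using this

lemma bb_contDiff : ContDiff ℝ 2 bb := by
  have h1 : deriv bb = b1 := funext fun y => (hasDerivAt_bb y).deriv
  have h2 : deriv b1 = b2 := funext fun y => (hasDerivAt_b1 y).deriv
  have h3 : ContDiff ℝ 1 b1 := by
    rw [contDiff_one_iff_deriv, h2]
    exact ⟨fun y => (hasDerivAt_b1 y).differentiableAt, b2_cont⟩
  have : ContDiff ℝ (1 + 1) bb := by
    rw [contDiff_succ_iff_deriv, h1]
    exact ⟨fun y => (hasDerivAt_bb y).differentiableAt, by simp, h3⟩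
  simpa [one_add_one_eq_two] using this

/-- a neighbourhood where the profile beats the quadratic -/
lemma near_half : ∃ ρ : ℝ, 0 < ρ ∧ ρ < 1/4 ∧ ∀ y z s : ℝ, |y - 1/2| < ρ → |z| < ρ → 0 ≤ s → s < ρ →
    (502/1000) * (y + s) ^ 2 < aa y * bb z := by
  have hc : ContinuousAt (fun q : ℝ × ℝ × ℝ => aa q.1 * bb q.2.1 - 502/1000 * (q.1 + q.2.2) ^ 2)
      ((1/2 : ℝ), (0:ℝ), (0:ℝ)) := by
    have := aa_cont
    have := bb_cont
    exact Continuous.continuousAt (by fun_prop)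
  have hp : 0 < (fun q : ℝ × ℝ × ℝ => aa q.1 * bb q.2.1 - 502/1000 * (q.1 + q.2.2) ^ 2)
      ((1/2 : ℝ), (0:ℝ), (0:ℝ)) := by
    have hb : bb 0 = 1 := by
      unfold bb; rw [pp_pos (by norm_num)]; norm_num
    simp only [hb]
    have := aa_half
    linarith
  have hev := hc.eventually (lt_mem_nhds hp)
  rw [Metric.eventually_nhds_iff] at hev
  obtain ⟨ρ, hρ, h⟩ := hev
  refine ⟨min ρ (1/8), by positivity, lt_of_le_of_lt (min_le_right _ _) (by norm_num), ?_⟩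
  intro y z s hy hz hs0 hs
  have := @h (y, z, s) (by
    rw [Prod.dist_eq, Prod.dist_eq]
    simp only [Real.dist_eq, sub_zero]
    have hm : min ρ (1/8) ≤ ρ := min_le_left _ _
    refine max_lt (by linarith) (max_lt (by linarith) ?_)
    rw [abs_of_nonneg hs0]; linarith)
  simp only at this
  linarith

end
end X122HR
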