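import Pool.Agent.X122.HR2

/-! The test function and its Laplacian for MP_ec5c38_an. -/

namespace X122HR
noncomputable section

open Filter Topology Asymptotics MeasureTheory

/-- squared Euclidean norm -/
def sqn {N : ℕ} (x : Fin N → ℝ) : ℝ := ∑ i, x i ^ 2

/-- Laplacian: sum of the pure second derivatives in the coordinate directions. -/
def lap {N : ℕ} (u : (Fin N → ℝ) → ℝ) : (Fin N → ℝ) → ℝ := fun x =>
  ∑ i : Fin N, deriv (deriv fun t : ℝ => u (x + t • Pi.single i (1 : ℝ))) 0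

lemma sqn_line {N : ℕ} (x : Fin N → ℝ) (i : Fin N) (t : ℝ) :
    sqn (x + t • Pi.single i (1 : ℝ)) = sqn x + 2 * x i * t + t ^ 2 := by
  unfold sqn
  have h : ∀ j, (x + t • Pi.single i (1 : ℝ) : Fin N → ℝ) j ^ 2 = x j ^ 2 + (if j = i then 2 * x i * t + t ^ 2 else 0) := by
    intro j
    by_cases hj : j = i
    · subst hj; simp; ring
    · simp [hj]
  rw [Finset.sum_congr rfl (fun j _ => h j), Finset.sum_add_distrib]
  simp
  ring

/-- the test function -/
def uf {m : ℕ} (K c d : ℝ) (x : Fin (m + 1) → ℝ) : ℝ := aa (K - c / 2 * sqn x) * bb (d * x 0)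

lemma line_deriv {m : ℕ} (K c d : ℝ) (x : Fin (m + 1) → ℝ) (i : Fin (m + 1)) :
    deriv (deriv fun t : ℝ => uf K c d (x + t • Pi.single i (1 : ℝ))) 0 =
      c ^ 2 * x i ^ 2 * (a2 (K - c / 2 * sqn x) * bb (d * x 0))
      - c * (a1 (K - c / 2 * sqn x) * bb (d * x 0))
      - 2 * c * d * (x i * (if i = 0 then 1 else 0)) * (a1 (K - c / 2 * sqn x) * b1 (d * x 0))
      + d ^ 2 * (if i = 0 then 1 else 0) * (aa (K - c / 2 * sqn x) * b2 (d * x 0)) := by
  set δ : ℝ := if i = 0 then 1 else 0 with hδ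
  have hδ2 : δ * δ = δ := by rw [hδ]; split_ifs <;> norm_num
  have h0 : ∀ t : ℝ, (x + t • Pi.single i (1 : ℝ) : Fin (m + 1) → ℝ) 0 = x 0 + t * δ := by
    intro t
    by_cases hi : i = 0
    · subst hi; simp [hδ]
    · have : (Pi.single i (1:ℝ) : Fin (m+1) → ℝ) 0 = 0 := Pi.single_eq_of_ne (Ne.symm hi) _
      simp [hδ, hi, this]
  have hf : (fun t : ℝ => uf K c d (x + t • Pi.single i (1 : ℝ))) =
      fun t => aa (K - c / 2 * (sqn x + 2 * x i * t + t ^ 2)) * bb (d * (x 0 + t * δ)) := by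
    funext t; unfold uf; rw [sqn_line, h0]
  rw [hf]
  have hP : ∀ t : ℝ, HasDerivAt (fun t : ℝ => K - c / 2 * (sqn x + 2 * x i * t + t ^ 2)) (-(c * (x i + t))) t := by
    intro t
    have h1 : HasDerivAt (fun t : ℝ => sqn x + 2 * x i * t + t ^ 2) (2 * x i + 2 * t) t := by
      have ha := ((hasDerivAt_id t).const_mul (2 * x i)).const_add (sqn x)
      have hb := hasDerivAt_pow 2 t
      refine (ha.add hb).congr_deriv ?_
      norm_num
    refine ((h1.const_mul (c / 2)).const_sub K).congr_deriv ?_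
    ring
  have hQ : ∀ t : ℝ, HasDerivAt (fun t : ℝ => d * (x 0 + t * δ)) (d * δ) t := by
    intro t
    have ha := (((hasDerivAt_id t).mul_const δ).const_add (x 0)).const_mul d
    refine ha.congr_deriv ?_
    ring
  have hL : ∀ t : ℝ, HasDerivAt (fun t : ℝ => -(c * (x i + t))) (-c) t := by
    intro t
    have ha := (((hasDerivAt_id t).const_add (x i)).const_mul c).neg
    refine ha.congr_deriv ?_
    ring
  have hA : ∀ t, HasDerivAt (fun t => aa (K - c / 2 * (sqn x + 2 * x i * t + t ^ 2)))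
      (a1 (K - c / 2 * (sqn x + 2 * x i * t + t ^ 2)) * (-(c * (x i + t)))) t := fun t =>
    (hasDerivAt_aa _).comp t (hP t)
  have hA1 : ∀ t, HasDerivAt (fun t => a1 (K - c / 2 * (sqn x + 2 * x i * t + t ^ 2)))
      (a2 (K - c / 2 * (sqn x + 2 * x i * t + t ^ 2)) * (-(c * (x i + t)))) t := fun t =>
    (hasDerivAt_a1 _).comp t (hP t)
  have hB : ∀ t, HasDerivAt (fun t => bb (d * (x 0 + t * δ))) (b1 (d * (x 0 + t * δ)) * (d * δ)) t := fun t =>
    (hasDerivAt_bb _).comp t (hQ t)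
  have hB1 : ∀ t, HasDerivAt (fun t => b1 (d * (x 0 + t * δ))) (b2 (d * (x 0 + t * δ)) * (d * δ)) t := fun t =>
    (hasDerivAt_b1 _).comp t (hQ t)
  have hd1 : (deriv fun t => aa (K - c / 2 * (sqn x + 2 * x i * t + t ^ 2)) * bb (d * (x 0 + t * δ))) =
      fun t => (a1 (K - c / 2 * (sqn x + 2 * x i * t + t ^ 2)) * (-(c * (x i + t)))) * bb (d * (x 0 + t * δ))
        + aa (K - c / 2 * (sqn x + 2 * x i * t + t ^ 2)) * (b1 (d * (x 0 + t * δ)) * (d * δ)) := by
    funext t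
    exact ((hA t).mul (hB t)).deriv
  rw [hd1]
  have hd2 := ((((hA1 0).mul (hL 0)).mul (hB 0)).add ((hA 0).mul ((hB1 0).mul_const (d * δ)))).deriv
  have e0 : K - c / 2 * (sqn x + 2 * x i * 0 + 0 ^ 2) = K - c / 2 * sqn x := by ring
  have e1 : d * (x 0 + 0 * δ) = d * x 0 := by ring
  simp only [Pi.mul_apply] at hd2
  rw [e0, e1] at hd2
  refine Eq.trans ?_ (hd2.trans ?_)
  · rfl
  · rw [show d ^ 2 * δ = d ^ 2 * (δ * δ) by rw [hδ2]]
    ring

lemma lap_uf {m : ℕ} (K c d : ℝ) (x : Fin (m + 1) → ℝ) :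
    lap (uf K c d) x =
      c ^ 2 * sqn x * (a2 (K - c / 2 * sqn x) * bb (d * x 0))
      - (m + 1) * c * (a1 (K - c / 2 * sqn x) * bb (d * x 0))
      - 2 * c * d * x 0 * (a1 (K - c / 2 * sqn x) * b1 (d * x 0))
      + d ^ 2 * (aa (K - c / 2 * sqn x) * b2 (d * x 0)) := by
  unfold lap
  rw [Finset.sum_congr rfl (fun i _ => line_deriv K c d x i)]
  rw [Finset.sum_add_distrib, Finset.sum_sub_distrib, Finset.sum_sub_distrib]
  have s1 : ∑ i : Fin (m+1), c ^ 2 * x i ^ 2 * (a2 (K - c / 2 * sqn x) * bb (d * x 0)) =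
      c ^ 2 * sqn x * (a2 (K - c / 2 * sqn x) * bb (d * x 0)) := by
    rw [← Finset.sum_mul, ← Finset.mul_sum]; rfl
  have s2 : ∑ _i : Fin (m+1), c * (a1 (K - c / 2 * sqn x) * bb (d * x 0)) =
      (m + 1) * c * (a1 (K - c / 2 * sqn x) * bb (d * x 0)) := by
    rw [Finset.sum_const, Finset.card_univ, Fintype.card_fin, nsmul_eq_mul]; push_cast; ring
  have s3 : ∑ i : Fin (m+1), 2 * c * d * (x i * (if i = 0 then (1:ℝ) else 0)) * (a1 (K - c / 2 * sqn x) * b1 (d * x 0)) =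
      2 * c * d * x 0 * (a1 (K - c / 2 * sqn x) * b1 (d * x 0)) := by
    rw [← Finset.sum_mul, ← Finset.mul_sum]; simp
  have s4 : ∑ i : Fin (m+1), d ^ 2 * (if i = 0 then (1:ℝ) else 0) * (aa (K - c / 2 * sqn x) * b2 (d * x 0)) =
      d ^ 2 * (aa (K - c / 2 * sqn x) * b2 (d * x 0)) := by
    rw [← Finset.sum_mul, ← Finset.mul_sum]; simp
  rw [s1, s2, s3, s4]

lemma uf_contDiff {m : ℕ} (K c d : ℝ) : ContDiff ℝ 2 (uf (m := m) K c d) := by
  unfold uf sqn
  refine ContDiff.mul (aa_contDiff.comp ?_) (bb_contDiff.comp ?_)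
  · fun_prop
  · fun_prop

end
end X122HR
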