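import Pool.Agent.X122.HR3

/-! Pointwise bound of the Laplacian of the test function for MP_ec5c38_an. -/

namespace X122HR
noncomputable section

open Filter Topology Asymptotics MeasureTheory

/-- pointwise bound of the Laplacian -/
lemma lap_bd {m : ℕ} {R ε ρ : ℝ} (hR : 0 < R) (hε : 0 < ε) (hρ : 0 < ρ) (hρ1 : ρ < 1)
    (hε2 : ε * (m + 40) ≤ 1 / 1000) (x : Fin (m + 1) → ℝ) :
    let K := (1 - ρ * ε) / (2 * ε)
    let c := 1 / (ε * R ^ 2)
    let d := 1 / (R * ε)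
    |lap (uf K c d) x| ≤ 1002 / 1000 * d ^ 2 ∧
      (¬ (0 ≤ K - c / 2 * sqn x ∧ K - c / 2 * sqn x ≤ 4 ∧ |d * x 0| ≤ 3) → lap (uf K c d) x = 0) := by
  intro K c d
  have hform : lap (uf K c d) x = d ^ 2 * ((a2 (K - c / 2 * sqn x) * bb (d * x 0) + aa (K - c / 2 * sqn x) * b2 (d * x 0))
      - (ρ * ε + 2 * ε * (K - c / 2 * sqn x)) * (a2 (K - c / 2 * sqn x) * bb (d * x 0))
      - (m + 1) * ε * (a1 (K - c / 2 * sqn x) * bb (d * x 0))
      - 2 * ε * (d * x 0) * (a1 (K - c / 2 * sqn x) * b1 (d * x 0))) := by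
    rw [lap_uf]
    generalize a2 (K - c / 2 * sqn x) = A2
    generalize a1 (K - c / 2 * sqn x) = A1
    generalize aa (K - c / 2 * sqn x) = A0
    generalize b2 (d * x 0) = B2
    generalize b1 (d * x 0) = B1
    generalize bb (d * x 0) = B0
    simp only [K, c, d]
    field_simp
    ring
  set Y := K - c / 2 * sqn x with hY
  set z := d * x 0 with hz
  have hzero : ¬ (0 ≤ Y ∧ Y ≤ 4 ∧ |z| ≤ 3) → lap (uf K c d) x = 0 := by
    intro h
    rw [hform]
    by_cases h1 : 0 ≤ Y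
    · by_cases h2 : Y ≤ 4
      · have h3 : 3 < |z| := by
          by_contra h4
          exact h ⟨h1, h2, not_lt.1 h4⟩
        obtain ⟨e1, e2, e3⟩ := far_z z h3
        rw [e1, e2, e3]; ring
      · obtain ⟨e1, e2, e3⟩ := right0 Y (by push Not at h2; norm_num; linarith)
        rw [e1, e2, e3]; ring
    · obtain ⟨e1, e2, e3⟩ := left0 Y (by push Not at h1; linarith)
      rw [e1, e2, e3]; ring
  refine ⟨?_, hzero⟩
  clear_value z Y
  by_cases hS : (0 ≤ Y ∧ Y ≤ 4 ∧ |z| ≤ 3)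
  · obtain ⟨hY0, hY4, hz3⟩ := hS
    rw [hform, abs_mul, abs_of_nonneg (sq_nonneg d), mul_comm]
    refine mul_le_mul_of_nonneg_right ?_ (sq_nonneg d)
    have m1 := main2 Y z
    obtain ⟨q1, q2, q3, q4, q5, q6⟩ := bd Y
    obtain ⟨r1, r2⟩ := bb_bd z
    have r3 := b1_bd z
    have hA2 : |a2 Y * bb z| ≤ 2 := by
      rw [abs_mul, abs_of_nonneg r1]
      have : |a2 Y| ≤ 2 := abs_le.2 ⟨by linarith, by linarith⟩
      nlinarith [abs_nonneg (a2 Y)]
    have hA1 : |a1 Y * bb z| ≤ 1 := by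
      rw [abs_mul, abs_of_nonneg r1]
      have : |a1 Y| ≤ 1 := abs_le.2 ⟨by linarith, by linarith⟩
      nlinarith [abs_nonneg (a1 Y)]
    have hAB : |z * (a1 Y * b1 z)| ≤ 9 := by
      rw [abs_mul, abs_mul]
      have h1 : |a1 Y| ≤ 1 := abs_le.2 ⟨by linarith, by linarith⟩
      have h2 : |a1 Y| * |b1 z| ≤ 3 := by nlinarith [abs_nonneg (a1 Y), abs_nonneg (b1 z)]
      have h3 : 0 ≤ |a1 Y| * |b1 z| := by positivity
      nlinarith [abs_nonneg z]
    rw [abs_le] at m1 hA2 hA1 hAB ⊢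
    have hk : 0 ≤ ρ * ε + 2 * ε * Y := by positivity
    have hk2a : ρ * ε ≤ 1 * ε := mul_le_mul_of_nonneg_right hρ1.le hε.le
    have hk2b : ε * Y ≤ ε * 4 := mul_le_mul_of_nonneg_left hY4 hε.le
    have hk2 : ρ * ε + 2 * ε * Y ≤ 9 * ε := by linarith
    have hm : (0:ℝ) ≤ (m + 1) * ε := by positivity
    obtain ⟨hA2l, hA2u⟩ := hA2
    obtain ⟨hA1l, hA1u⟩ := hA1
    obtain ⟨hABl, hABu⟩ := hAB
    obtain ⟨ml, mu⟩ := m1
    have t1 : (ρ * ε + 2 * ε * Y) * (a2 Y * bb z) ≤ 18 * ε := by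
      have := mul_le_mul_of_nonneg_left hA2u hk
      linarith
    have t2 : -(18 * ε) ≤ (ρ * ε + 2 * ε * Y) * (a2 Y * bb z) := by
      have := mul_le_mul_of_nonneg_left hA2l hk
      linarith
    have t3 : (m + 1) * ε * (a1 Y * bb z) ≤ (m + 1) * ε := by
      have := mul_le_mul_of_nonneg_left hA1u hm
      linarith
    have t4 : -((m + 1) * ε) ≤ (m + 1) * ε * (a1 Y * bb z) := by
      have := mul_le_mul_of_nonneg_left hA1l hm
      linarith
    have t5 : 2 * ε * z * (a1 Y * b1 z) = 2 * ε * (z * (a1 Y * b1 z)) := by ring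
    have h2e : 0 ≤ 2 * ε := by positivity
    have t6 : 2 * ε * (z * (a1 Y * b1 z)) ≤ 18 * ε := by
      have := mul_le_mul_of_nonneg_left hABu h2e
      linarith
    have t7 : -(18 * ε) ≤ 2 * ε * (z * (a1 Y * b1 z)) := by
      have := mul_le_mul_of_nonneg_left hABl h2e
      linarith
    have t8 : (m + 1) * ε = ε * m + ε := by ring
    have t9 : ε * (m + 40) = ε * m + 40 * ε := by ring
    rw [t5]
    rw [t9] at hε2
    generalize (ρ * ε + 2 * ε * Y) * (a2 Y * bb z) = T1 at *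
    generalize (m + 1) * ε * (a1 Y * bb z) = T2 at *
    generalize 2 * ε * (z * (a1 Y * b1 z)) = T3 at *
    generalize a2 Y * bb z + aa Y * b2 z = T4 at *
    generalize ((m : ℝ) + 1) * ε = T6 at *
    generalize ε * (m : ℝ) = T5 at *
    constructor <;> linarith
  · rw [hzero hS, abs_zero]; positivity

end
end X122HR
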