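import Pool.Agent.X122.HR3

/-! Volumes of thin shells for MP_ec5c38_an. -/

namespace X122HR
noncomputable section

open Filter Topology MeasureTheory Pointwise

lemma sqn_smul {m : ℕ} (r : ℝ) (x : Fin m → ℝ) : sqn (r • x) = r ^ 2 * sqn x := by
  unfold sqn
  rw [Finset.mul_sum]
  refine Finset.sum_congr rfl fun i _ => ?_
  simp [mul_pow]

lemma sqn_cont {m : ℕ} : Continuous (sqn : (Fin m → ℝ) → ℝ) := by
  unfold sqn
  fun_prop

/-- volume of the unit Euclidean ball -/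
def om (m : ℕ) : ENNReal := volume {x : Fin m → ℝ | sqn x < 1}

lemma vol_ball (m : ℕ) {r : ℝ} (hr : 0 < r) :
    volume {x : Fin m → ℝ | sqn x < r ^ 2} = ENNReal.ofReal (r ^ m) * om m := by
  have h : {x : Fin m → ℝ | sqn x < r ^ 2} = r • {x : Fin m → ℝ | sqn x < 1} := by
    ext x
    rw [Set.mem_smul_set_iff_inv_smul_mem₀ hr.ne']
    simp only [Set.mem_setOf_eq, sqn_smul]
    rw [inv_pow, inv_mul_lt_iff₀ (by positivity), mul_one]
  rw [h, Measure.addHaar_smul]
  simp only [Module.finrank_fintype_fun_eq_card, Fintype.card_fin]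
  rw [abs_of_nonneg (by positivity)]
  rfl

lemma om_lt_top (m : ℕ) : om m < ⊤ := by
  have h : {x : Fin m → ℝ | sqn x < 1} ⊆ Metric.closedBall 0 1 := by
    intro x hx
    rw [mem_closedBall_zero_iff, pi_norm_le_iff_of_nonneg (by norm_num)]
    intro i
    rw [Real.norm_eq_abs]
    have h1 : x i ^ 2 ≤ sqn x := Finset.single_le_sum (f := fun i => x i ^ 2) (fun i _ => sq_nonneg _) (Finset.mem_univ i)
    have h2 : x i ^ 2 ≤ 1 ^ 2 := by
      have : sqn x < 1 := hx
      linarith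
    exact abs_le_of_sq_le_sq h2 (by norm_num)
  exact lt_of_le_of_lt (measure_mono h) (isCompact_closedBall _ _).measure_lt_top

lemma om_pos (m : ℕ) : 0 < om m := by
  have h : IsOpen {x : Fin m → ℝ | sqn x < 1} := isOpen_lt sqn_cont continuous_const
  refine h.measure_pos volume ⟨0, ?_⟩
  simp [sqn]

lemma vol_shell (m : ℕ) {a b : ℝ} (hb : 0 < b) (hab : b ≤ a) :
    volume {x : Fin m → ℝ | b ^ 2 ≤ sqn x ∧ sqn x < a ^ 2} = ENNReal.ofReal (a ^ m - b ^ m) * om m := by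
  have ha : 0 < a := lt_of_lt_of_le hb hab
  have h : {x : Fin m → ℝ | b ^ 2 ≤ sqn x ∧ sqn x < a ^ 2} =
      {x : Fin m → ℝ | sqn x < a ^ 2} \ {x : Fin m → ℝ | sqn x < b ^ 2} := by
    ext x
    simp only [Set.mem_setOf_eq, Set.mem_diff, not_lt]
    tauto
  have hsub : {x : Fin m → ℝ | sqn x < b ^ 2} ⊆ {x : Fin m → ℝ | sqn x < a ^ 2} := by
    intro x hx
    have : sqn x < b ^ 2 := hx
    have h2 : b ^ 2 ≤ a ^ 2 := pow_le_pow_left₀ hb.le hab 2
    exact lt_of_lt_of_le this h2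
  have hm : MeasurableSet {x : Fin m → ℝ | sqn x < b ^ 2} :=
    (isOpen_lt sqn_cont continuous_const).measurableSet
  rw [h, measure_diff hsub hm.nullMeasurableSet ?_, vol_ball m ha, vol_ball m hb,
    ENNReal.ofReal_sub _ (by positivity), ENNReal.sub_mul]
  · intro _ _
    exact (om_lt_top m).ne
  · rw [vol_ball m hb]
    exact ENNReal.mul_ne_top ENNReal.ofReal_ne_top (om_lt_top m).ne

lemma vol_prod (m : ℕ) (I : Set ℝ) (J : Set (Fin m → ℝ)) :
    volume {x : Fin (m + 1) → ℝ | x 0 ∈ I ∧ (fun j : Fin m => x j.succ) ∈ J} = volume I * volume J := by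
  have hmp := volume_preserving_piFinSuccAbove (fun _ : Fin (m + 1) => ℝ) 0
  have h : {x : Fin (m + 1) → ℝ | x 0 ∈ I ∧ (fun j : Fin m => x j.succ) ∈ J} =
      (MeasurableEquiv.piFinSuccAbove (fun _ : Fin (m + 1) => ℝ) 0) ⁻¹' (I ×ˢ J) := by
    ext x
    simp only [Set.mem_setOf_eq, Set.mem_preimage, Set.mem_prod]
    rfl
  rw [h, hmp.measure_preimage_equiv, Measure.volume_eq_prod, Measure.prod_prod]

lemma sqn_succ {m : ℕ} (x : Fin (m + 1) → ℝ) :
    sqn x = x 0 ^ 2 + sqn (fun j : Fin m => x j.succ) := by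
  unfold sqn
  rw [Fin.sum_univ_succ]

/-- real estimates for the shells -/
lemma shell_real (m : ℕ) {ε ρ : ℝ} (hε : 0 < ε) (hρ : 0 < ρ) (hρ1 : ρ < 1 / 4)
    (hm : ε * (m + 40) ≤ 1 / 1000) :
    1 - Real.sqrt (1 - 18 * ε) ^ m ≤ 18 * m * ε ∧
    m * (ρ * ε) / 2 ≤ Real.sqrt (1 - ε) ^ m - Real.sqrt (1 - ε - 2 * ρ * ε) ^ m := by
  have hm0 : (0:ℝ) ≤ m := Nat.cast_nonneg m
  have hεm : 0 ≤ ε * m := by positivity
  have hs : ε * (m + 40) = ε * m + 40 * ε := by ring
  rw [hs] at hm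
  have hρε : ρ * ε ≤ 1/4 * ε := mul_le_mul_of_nonneg_right hρ1.le hε.le
  have hρε0 : 0 < ρ * ε := by positivity
  constructor
  · set g := Real.sqrt (1 - 18 * ε) with hg
    have hg1 : g ^ 2 = 1 - 18 * ε := Real.sq_sqrt (by linarith)
    have hg0 : 0 ≤ g := Real.sqrt_nonneg _
    have hgle : g ≤ 1 := by
      rw [hg]; exact Real.sqrt_le_one.2 (by linarith) |> fun h => h
    have hgg : 1 - 18 * ε ≤ g := by nlinarith
    have hB := one_add_mul_le_pow (a := g - 1) (by linarith) m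
    have h2 : (1 + (g - 1)) ^ m = g ^ m := by ring_nf
    rw [h2] at hB
    have h3 : (m:ℝ) * (-(18 * ε)) ≤ m * (g - 1) := mul_le_mul_of_nonneg_left (by linarith) hm0
    nlinarith
  · set a := Real.sqrt (1 - ε) with ha
    set b := Real.sqrt (1 - ε - 2 * ρ * ε) with hb
    have ha2 : a ^ 2 = 1 - ε := Real.sq_sqrt (by linarith)
    have hb2 : b ^ 2 = 1 - ε - 2 * ρ * ε := Real.sq_sqrt (by nlinarith)
    have ha0 : 0 ≤ a := Real.sqrt_nonneg _
    have hb0 : 0 ≤ b := Real.sqrt_nonneg _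
    have ha1 : a ≤ 1 := by nlinarith
    have hb1 : b ≤ 1 := by nlinarith
    have hbpos : 0 < b := by
      rcases hb0.eq_or_lt with h | h
      · rw [← h] at hb2; nlinarith
      · exact h
    have hba : b ≤ a := by
      by_contra h
      push Not at h
      nlinarith
    have hdiff : ρ * ε ≤ a - b := by
      have h1 : (a - b) * (a + b) = 2 * (ρ * ε) := by nlinarith
      nlinarith
    have hbb : 1 - 2 * ε ≤ b := by nlinarith
    -- b^m ≥ 1/2
    have hB := one_add_mul_le_pow (a := b - 1) (by linarith) m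
    have h2 : (1 + (b - 1)) ^ m = b ^ m := by ring_nf
    rw [h2] at hB
    have h3 : (m:ℝ) * (-(2 * ε)) ≤ m * (b - 1) := mul_le_mul_of_nonneg_left (by linarith) hm0
    have h4 : 1 / 2 ≤ b ^ m := by nlinarith
    -- a^m ≥ b^m (1 + m (a-b)/b)
    have hB2 := one_add_mul_le_pow (a := (a - b) / b) (by
      have : 0 ≤ (a - b) / b := div_nonneg (by linarith) hb0
      linarith) m
    have h5 : 1 + (a - b) / b = a / b := by field_simp; ring
    rw [h5, div_pow, le_div_iff₀ (by positivity)] at hB2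
    have h6 : a - b ≤ (a - b) / b := by
      rw [le_div_iff₀ hbpos]; nlinarith
    have h7 : (m:ℝ) * (ρ * ε) ≤ m * ((a - b) / b) := mul_le_mul_of_nonneg_left (by linarith) hm0
    have h8 : 0 ≤ (m:ℝ) * (ρ * ε) := by positivity
    nlinarith

end
end X122HR
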