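import Pool.Agent.X122.HR3b
import Pool.Agent.X122.HR4

/-! Sets, supports and weights for MP_ec5c38_an. -/

namespace X122HR
noncomputable section

open Filter Topology MeasureTheory

/-- Euclidean norm on `Fin N → ℝ` -/
def en {N : ℕ} (x : Fin N → ℝ) : ℝ := Real.sqrt (sqn x)

/-- open Euclidean ball of radius `R` about the origin -/
def ballR (N : ℕ) (R : ℝ) : Set (Fin N → ℝ) := {x | en x < R}

lemma sqn_nonneg {N : ℕ} (x : Fin N → ℝ) : 0 ≤ sqn x := Finset.sum_nonneg fun _ _ => sq_nonneg _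

lemma en_sq {N : ℕ} (x : Fin N → ℝ) : en x ^ 2 = sqn x := Real.sq_sqrt (sqn_nonneg x)

lemma mem_ballR {N : ℕ} {R : ℝ} (hR : 0 < R) (x : Fin N → ℝ) : x ∈ ballR N R ↔ sqn x < R ^ 2 :=
  Real.sqrt_lt' hR

/-- parameters -/
def KK (ρ ε : ℝ) : ℝ := (1 - ρ * ε) / (2 * ε)
def cc (R ε : ℝ) : ℝ := 1 / (ε * R ^ 2)
def dd (R ε : ℝ) : ℝ := 1 / (R * ε)

lemma Yeq {m : ℕ} {R ε : ℝ} (hR : 0 < R) (hε : 0 < ε) (ρ : ℝ) (x : Fin (m + 1) → ℝ) :
    2 * ε * (KK ρ ε - cc R ε / 2 * sqn x) * R ^ 2 = R ^ 2 * (1 - ρ * ε) - sqn x := by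
  unfold KK cc
  field_simp

lemma supp_u {m : ℕ} {R ε ρ : ℝ} (hR : 0 < R) (hε : 0 < ε) (hρ : 0 < ρ) :
    HasCompactSupport (uf (m := m) (KK ρ ε) (cc R ε) (dd R ε)) ∧
      tsupport (uf (m := m) (KK ρ ε) (cc R ε) (dd R ε)) ⊆ ballR (m + 1) R := by
  set K0 : Set (Fin (m + 1) → ℝ) := {x | sqn x ≤ R ^ 2 * (1 - ρ * ε)} with hK0
  have hρε0 : 0 < ρ * ε := by positivity
  have hR2 : 0 < R ^ 2 := by positivity
  have hcl : IsClosed K0 := isClosed_le sqn_cont continuous_const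
  have hlt : R ^ 2 * (1 - ρ * ε) < R ^ 2 := by nlinarith
  have hK : IsCompact K0 := by
    refine (isCompact_closedBall (0 : Fin (m + 1) → ℝ) R).of_isClosed_subset hcl ?_
    intro x hx
    rw [mem_closedBall_zero_iff, pi_norm_le_iff_of_nonneg hR.le]
    intro i
    rw [Real.norm_eq_abs]
    have h1 : x i ^ 2 ≤ sqn x := Finset.single_le_sum (f := fun i => x i ^ 2) (fun i _ => sq_nonneg _) (Finset.mem_univ i)
    have h3 : sqn x ≤ R ^ 2 * (1 - ρ * ε) := hx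
    exact abs_le_of_sq_le_sq (by linarith) hR.le
  have hsub : Function.support (uf (m := m) (KK ρ ε) (cc R ε) (dd R ε)) ⊆ K0 := by
    intro x hx
    by_contra hn
    have hn' : R ^ 2 * (1 - ρ * ε) < sqn x := not_le.1 hn
    have hY := Yeq hR hε ρ x
    have hYneg : KK ρ ε - cc R ε / 2 * sqn x ≤ 0 := by
      by_contra h
      push Not at h
      have : 0 < 2 * ε * (KK ρ ε - cc R ε / 2 * sqn x) * R ^ 2 := by positivity
      linarith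
    apply hx
    unfold uf
    rw [(left0 _ hYneg).1]; ring
  refine ⟨HasCompactSupport.of_support_subset_isCompact hK hsub, ?_⟩
  intro x hx
  have h1 : x ∈ K0 := closure_minimal hsub hcl hx
  rw [mem_ballR hR]
  exact lt_of_le_of_lt h1 hlt

/-- support set of the Laplacian -/
def SS (m : ℕ) (R ε ρ : ℝ) : Set (Fin (m + 1) → ℝ) :=
  {x | 0 ≤ KK ρ ε - cc R ε / 2 * sqn x ∧ KK ρ ε - cc R ε / 2 * sqn x ≤ 4 ∧ |dd R ε * x 0| ≤ 3}

/-- the good set -/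
def AA (m : ℕ) (R ε ρ : ℝ) : Set (Fin (m + 1) → ℝ) :=
  {x | x 0 ∈ Set.Ioo (-(ρ * (R * ε))) (ρ * (R * ε)) ∧ (fun j : Fin m => x j.succ) ∈
    {y : Fin m → ℝ | (R * Real.sqrt (1 - ε - 2 * ρ * ε)) ^ 2 ≤ sqn y ∧ sqn y < (R * Real.sqrt (1 - ε)) ^ 2}}

lemma SS_sub {m : ℕ} {R ε ρ : ℝ} (hR : 0 < R) (hε : 0 < ε) (hρ : 0 < ρ) (hρ1 : ρ < 1 / 4) (hε1 : 40 * ε ≤ 1 / 1000) :
    SS m R ε ρ ⊆ {x | x 0 ∈ Set.Icc (-(3 * (R * ε))) (3 * (R * ε)) ∧ (fun j : Fin m => x j.succ) ∈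
    {y : Fin m → ℝ | (R * Real.sqrt (1 - 18 * ε)) ^ 2 ≤ sqn y ∧ sqn y < R ^ 2}} := by
  rintro x ⟨h1, h2, h3⟩
  have hRε : 0 < R * ε := by positivity
  have hR2 : 0 < R ^ 2 := by positivity
  have hx0 : |x 0| ≤ 3 * (R * ε) := by
    unfold dd at h3
    rw [abs_mul, abs_of_nonneg (by positivity : (0:ℝ) ≤ 1 / (R * ε)), one_div, inv_mul_le_iff₀ hRε] at h3
    linarith
  have hx2 : x 0 ^ 2 ≤ 9 * (R * ε) ^ 2 := by
    have := sq_le_sq' (by linarith [abs_nonneg (x 0)] : -(3 * (R * ε)) ≤ |x 0|) hx0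
    rw [sq_abs] at this; linarith
  have hY := Yeq hR hε ρ x
  have hs := sqn_succ x
  set Y := KK ρ ε - cc R ε / 2 * sqn x
  have hεR : 0 < ε * R ^ 2 := by positivity
  have hY0 : 0 ≤ 2 * ε * Y * R ^ 2 := by positivity
  have hY4 : 2 * ε * Y * R ^ 2 ≤ 8 * (ε * R ^ 2) := by
    have : (ε * R ^ 2) * Y ≤ (ε * R ^ 2) * 4 := mul_le_mul_of_nonneg_left h2 hεR.le
    nlinarith
  have hρε : ρ * (ε * R ^ 2) ≤ 1/4 * (ε * R ^ 2) := mul_le_mul_of_nonneg_right hρ1.le hεR.le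
  have hρε0 : 0 < ρ * (ε * R ^ 2) := by positivity
  have hε9 : 9 * (R * ε) ^ 2 ≤ (ε * R ^ 2) := by
    have : 9 * (R * ε) ^ 2 = (9 * ε) * (ε * R ^ 2) := by ring
    rw [this]
    have h9 : 9 * ε ≤ 1 := by linarith
    nlinarith
  have hsq : (R * Real.sqrt (1 - 18 * ε)) ^ 2 = R ^ 2 * (1 - 18 * ε) := by
    rw [mul_pow, Real.sq_sqrt (by linarith)]
  refine ⟨⟨by linarith [(abs_le.1 hx0).1], (abs_le.1 hx0).2⟩, ?_, ?_⟩
  · rw [hsq]
    nlinarith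
  · nlinarith [sq_nonneg (x 0)]

lemma AA_prop {m : ℕ} {R ε ρ : ℝ} (hR : 0 < R) (hε : 0 < ε) (hρ : 0 < ρ) (hρ1 : ρ < 1 / 4) (hε1 : 40 * ε ≤ 1 / 1000)
    {x : Fin (m + 1) → ℝ} (hx : x ∈ AA m R ε ρ) :
    |KK ρ ε - cc R ε / 2 * sqn x - 1 / 2| < ρ ∧ |dd R ε * x 0| < ρ ∧ 0 < sqn x ∧ sqn x < R ^ 2 := by
  obtain ⟨⟨g1, g2⟩, g3, g4⟩ := hx
  have hRε : 0 < R * ε := by positivity
  have hR2 : 0 < R ^ 2 := by positivity
  have hεR : 0 < ε * R ^ 2 := by positivity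
  have hρε : ρ * ε ≤ 1/4 * ε := mul_le_mul_of_nonneg_right hρ1.le hε.le
  have hρε0 : 0 < ρ * ε := by positivity
  rw [mul_pow, Real.sq_sqrt (by nlinarith)] at g3
  rw [mul_pow, Real.sq_sqrt (by linarith)] at g4
  have hY := Yeq hR hε ρ x
  have hs := sqn_succ x
  have hx0 : |x 0| < ρ * (R * ε) := abs_lt.2 ⟨g1, g2⟩
  have hx2 : x 0 ^ 2 < (ρ * (R * ε)) ^ 2 := by
    have := sq_lt_sq' (by linarith [abs_nonneg (x 0)] : -(ρ * (R * ε)) < |x 0|) hx0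
    rwa [sq_abs] at this
  have hx3 : (ρ * (R * ε)) ^ 2 ≤ R ^ 2 * (ρ * ε) := by
    have e : (ρ * (R * ε)) ^ 2 = (R ^ 2 * (ρ * ε)) * (ρ * ε) := by ring
    rw [e]
    have : ρ * ε ≤ 1 := by linarith
    have h0 : 0 ≤ R ^ 2 * (ρ * ε) := by positivity
    nlinarith
  have hx4 := sq_nonneg (x 0)
  set T := sqn (fun j : Fin m => x j.succ)
  have hlow : R ^ 2 * (1 - ε - 2 * ρ * ε) ≤ sqn x := by linarith
  have hup : sqn x < R ^ 2 * (1 - ε) + R ^ 2 * (ρ * ε) := by linarith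
  refine ⟨?_, ?_, ?_, ?_⟩
  · rw [abs_lt]
    set Y := KK ρ ε - cc R ε / 2 * sqn x
    constructor
    · by_contra h
      push Not at h
      have : (ε * R ^ 2) * (Y - 1 / 2) ≤ (ε * R ^ 2) * (-ρ) := mul_le_mul_of_nonneg_left h hεR.le
      nlinarith
    · by_contra h
      push Not at h
      have : (ε * R ^ 2) * ρ ≤ (ε * R ^ 2) * (Y - 1 / 2) := mul_le_mul_of_nonneg_left h hεR.le
      nlinarith
  · unfold dd
    rw [abs_mul, abs_of_nonneg (by positivity : (0:ℝ) ≤ 1 / (R * ε)), one_div, inv_mul_lt_iff₀ hRε]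
    linarith
  · have : 0 < R ^ 2 * (1 - ε - 2 * ρ * ε) := mul_pos hR2 (by nlinarith)
    linarith
  · nlinarith

lemma vol_bd {m : ℕ} {R ε ρ : ℝ} (hR : 0 < R) (hε : 0 < ε) (hρ : 0 < ρ) (hρ1 : ρ < 1 / 4)
    (hm0 : 0 < m) (hm : ε * (m + 40) ≤ 1 / 1000) :
    volume (SS m R ε ρ) ≤ ENNReal.ofReal (108 / ρ ^ 2) * volume (AA m R ε ρ) ∧
    0 < volume (AA m R ε ρ) ∧ volume (AA m R ε ρ) < ⊤ := by
  have hmm : (0:ℝ) < m := by exact_mod_cast hm0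
  have hεm : 0 < ε * m := by positivity
  have hs : ε * (m + 40) = ε * m + 40 * ε := by ring
  have hε1 : 40 * ε ≤ 1 / 1000 := by linarith
  have hRε : 0 < R * ε := by positivity
  have hρε : ρ * ε ≤ 1/4 * ε := mul_le_mul_of_nonneg_right hρ1.le hε.le
  have hρε0 : 0 < ρ * ε := by positivity
  obtain ⟨r1, r2⟩ := shell_real m hε hρ hρ1 hm
  have q18 : 0 < Real.sqrt (1 - 18 * ε) := Real.sqrt_pos.2 (by linarith)
  have q1 : 0 < Real.sqrt (1 - ε) := Real.sqrt_pos.2 (by linarith)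
  have q2 : 0 < Real.sqrt (1 - ε - 2 * ρ * ε) := Real.sqrt_pos.2 (by nlinarith)
  have q3 : Real.sqrt (1 - ε - 2 * ρ * ε) ≤ Real.sqrt (1 - ε) := Real.sqrt_le_sqrt (by nlinarith)
  have q4 : Real.sqrt (1 - 18 * ε) ≤ 1 := Real.sqrt_le_one.2 (by linarith)
  have hS := measure_mono (μ := volume) (SS_sub (m := m) hR hε hρ hρ1 hε1)
  rw [vol_prod, Real.volume_Icc, vol_shell m (mul_pos hR q18) (by nlinarith)] at hS
  have hA : volume (AA m R ε ρ) = ENNReal.ofReal (ρ * (R * ε) - -(ρ * (R * ε))) *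
      (ENNReal.ofReal ((R * Real.sqrt (1 - ε)) ^ m - (R * Real.sqrt (1 - ε - 2 * ρ * ε)) ^ m) * om m) := by
    unfold AA
    rw [vol_prod, Real.volume_Ioo, vol_shell m (mul_pos hR q2) (mul_le_mul_of_nonneg_left q3 hR.le)]
  have hRm : 0 < R ^ m := by positivity
  have e1 : R ^ m - (R * Real.sqrt (1 - 18 * ε)) ^ m ≤ R ^ m * (18 * m * ε) := by
    rw [mul_pow]
    have := mul_le_mul_of_nonneg_left r1 hRm.le
    linarith
  have e2 : R ^ m * (m * (ρ * ε) / 2) ≤ (R * Real.sqrt (1 - ε)) ^ m - (R * Real.sqrt (1 - ε - 2 * ρ * ε)) ^ m := by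
    rw [mul_pow, mul_pow]
    have := mul_le_mul_of_nonneg_left r2 hRm.le
    linarith
  have hA1 : ENNReal.ofReal (ρ ^ 2 * (R * ε) * (R ^ m * (m * ε))) * om m ≤ volume (AA m R ε ρ) := by
    rw [hA, ← mul_assoc (ENNReal.ofReal (ρ * (R * ε) - -(ρ * (R * ε)))), ← ENNReal.ofReal_mul (by linarith [mul_pos hρ hRε])]
    refine mul_le_mul_left ?_ _
    refine ENNReal.ofReal_le_ofReal ?_
    have h2 : 0 ≤ ρ * (R * ε) - -(ρ * (R * ε)) := by linarith [mul_pos hρ hRε]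
    have := mul_le_mul_of_nonneg_left e2 h2
    nlinarith
  have hS1 : volume (SS m R ε ρ) ≤ ENNReal.ofReal (108 * (R * ε) * (R ^ m * (m * ε))) * om m := by
    refine hS.trans ?_
    rw [← mul_assoc, ← ENNReal.ofReal_mul (by linarith)]
    refine mul_le_mul_left ?_ _
    refine ENNReal.ofReal_le_ofReal ?_
    have h2 : 0 ≤ 3 * (R * ε) - -(3 * (R * ε)) := by linarith
    have := mul_le_mul_of_nonneg_left e1 h2
    nlinarith
  refine ⟨?_, ?_, ?_⟩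
  · refine hS1.trans (le_trans (le_of_eq ?_) (mul_le_mul_right hA1 _))
    rw [← mul_assoc (ENNReal.ofReal (108 / ρ ^ 2)), ← ENNReal.ofReal_mul (by positivity)]
    congr 2
    field_simp
  · refine lt_of_lt_of_le (ENNReal.mul_pos ?_ (om_pos m).ne') hA1
    exact (ENNReal.ofReal_pos.2 (by positivity)).ne'
  · rw [hA]
    exact ENNReal.mul_lt_top ENNReal.ofReal_lt_top (ENNReal.mul_lt_top ENNReal.ofReal_lt_top (om_lt_top m))

lemma log_ineq {r R : ℝ} (hr : 0 < r) (hrR : r < R) :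
    0 < r * Real.log (R / r) ∧ r * Real.log (R / r) ≤ (R ^ 2 - r ^ 2) / (2 * R) := by
  have hR : 0 < R := hr.trans hrR
  have h1 : 1 < R / r := (one_lt_div hr).2 hrR
  have h2 : 0 < Real.log (R / r) := Real.log_pos h1
  refine ⟨by positivity, ?_⟩
  have h3 := Real.self_le_sinh_iff.2 h2.le
  rw [Real.sinh_eq, Real.exp_neg, Real.exp_log (by positivity)] at h3
  have h4 := mul_le_mul_of_nonneg_left h3 hr.le
  refine h4.trans (le_of_eq ?_)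
  field_simp

/-- weight bound on the good set -/
lemma weight_bd {m p : ℕ} {R ε ρ : ℝ} (hR : 0 < R) (hε : 0 < ε) (hρ : 0 < ρ) (hρ1 : ρ < 1 / 4) (hε1 : 40 * ε ≤ 1 / 1000)
    (hnear : ∀ y z s : ℝ, |y - 1/2| < ρ → |z| < ρ → 0 ≤ s → s < ρ →
    (502/1000) * (y + s) ^ 2 < aa y * bb z)
    {x : Fin (m + 1) → ℝ} (hx : x ∈ AA m R ε ρ) :
    (502 / 1000 * (dd R ε) ^ 2) ^ p ≤ |uf (KK ρ ε) (cc R ε) (dd R ε) x| ^ p /
      (en x ^ (2 * p) * Real.log (R / en x) ^ (2 * p)) := by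
  obtain ⟨h1, h2, h3, h4⟩ := AA_prop hR hε hρ hρ1 hε1 hx
  have hen0 : 0 < en x := Real.sqrt_pos.2 h3
  have henR : en x < R := (mem_ballR hR x).2 h4
  obtain ⟨l1, l2⟩ := log_ineq hen0 henR
  rw [en_sq] at l2
  have hY := Yeq hR hε ρ x
  have hn := hnear _ _ (ρ / 2) h1 h2 (by positivity) (by linarith)
  unfold uf
  set Y := KK ρ ε - cc R ε / 2 * sqn x with hYd
  set U := aa Y * bb (dd R ε * x 0) with hU
  have hh : (R ^ 2 - sqn x) / (2 * R) = R * ε * (Y + ρ / 2) := by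
    rw [div_eq_iff (by positivity)]
    nlinarith
  rw [hh] at l2
  set L := en x * Real.log (R / en x) with hL
  have hYpos : 0 < Y + ρ / 2 := by
    have := (abs_lt.1 h1).1
    linarith
  have hUpos : 0 ≤ U := by
    have : 0 ≤ 502/1000 * (Y + ρ/2)^2 := by positivity
    linarith
  have e1 : en x ^ (2 * p) * Real.log (R / en x) ^ (2 * p) = (L ^ 2) ^ p := by
    rw [← mul_pow, ← pow_mul]
  rw [e1, abs_of_nonneg hUpos, ← div_pow]
  apply pow_le_pow_left₀ (by positivity)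
  rw [le_div_iff₀ (by positivity)]
  have hL2 : L ^ 2 ≤ (R * ε * (Y + ρ / 2)) ^ 2 := pow_le_pow_left₀ l1.le l2 2
  have hd : 502 / 1000 * dd R ε ^ 2 * (R * ε * (Y + ρ / 2)) ^ 2 = 502 / 1000 * (Y + ρ / 2) ^ 2 := by
    unfold dd
    field_simp
  calc 502 / 1000 * dd R ε ^ 2 * L ^ 2 ≤ 502 / 1000 * dd R ε ^ 2 * (R * ε * (Y + ρ / 2)) ^ 2 :=
        mul_le_mul_of_nonneg_left hL2 (by positivity)
    _ = 502 / 1000 * (Y + ρ / 2) ^ 2 := hd
    _ ≤ U := hn.le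

end
end X122HR
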