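import Mathlib

set_option autoImplicit false

/-!
# Elementary inequalities for moments of sums
-/

namespace Pool.Agent.X122.PD

open Finset

lemma one_add_pow_le (k : ℕ) (t : ℝ) (h1 : -1 ≤ t) (h3 : t ≤ 3) :
    (1 + t) ^ k ≤ 1 + k * t + 5 ^ k * t ^ 2 := by
  induction k with
  | zero => simp; positivity
  | succ k ih =>
    have h0 : 0 ≤ 1 + t := by linarith
    have hk : (k : ℝ) ≤ 5 ^ k := by
      have : k < 5 ^ k := Nat.lt_pow_self (by norm_num)
      exact_mod_cast this.le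
    calc (1 + t) ^ (k + 1) = (1 + t) ^ k * (1 + t) := pow_succ _ _
      _ ≤ (1 + k * t + 5 ^ k * t ^ 2) * (1 + t) := mul_le_mul_of_nonneg_right ih h0
      _ = 1 + (k + 1) * t + (k + 5 ^ k * (1 + t)) * t ^ 2 := by ring
      _ ≤ 1 + (k + 1) * t + (5 ^ (k + 1)) * t ^ 2 := by
          have h5 : (5 : ℝ) ^ k * (1 + t) ≤ 5 ^ k * 4 :=
            mul_le_mul_of_nonneg_left (by linarith) (by positivity)
          have h6 : (k + 5 ^ k * (1 + t)) ≤ 5 ^ (k + 1) := by
            rw [pow_succ]; linarith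
          have := mul_le_mul_of_nonneg_right h6 (sq_nonneg t)
          linarith
      _ = _ := by push_cast; ring

/-- the constant -/
noncomputable def K1 (k : ℕ) : ℝ := 10 * 5 ^ k + 2 * k

lemma K1_pos (k : ℕ) : 0 < K1 k := by unfold K1; positivity

/-- the basic increment inequality, `A = ‖a‖²`, `B = ‖d‖²`, `c = ⟨a, d⟩` -/
lemma incr_le (k : ℕ) (hk : 1 ≤ k) (A B c : ℝ) (hA : 0 ≤ A) (hB : 0 ≤ B) (hc : c ^ 2 ≤ A * B) :
    (A + 2 * c + B) ^ k ≤ A ^ k + 2 * k * A ^ (k - 1) * c + K1 k * (A ^ (k - 1) * B + B ^ k) := by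
  have habs : 2 * |c| ≤ A + B := by
    have h1 : |c| ^ 2 ≤ A * B := by rw [sq_abs]; exact hc
    have h2 : 0 ≤ |c| := abs_nonneg _
    nlinarith [sq_nonneg (A - B)]
  have hcl := neg_abs_le c
  have hcu := le_abs_self c
  have hpos : 0 ≤ A + 2 * c + B := by linarith
  obtain ⟨j, rfl⟩ : ∃ j, k = j + 1 := ⟨k - 1, by omega⟩
  rw [Nat.add_sub_cancel]
  rcases le_or_gt B A with h | h
  · rcases eq_or_lt_of_le hA with h0 | h0
    · have hB0 : B = 0 := by linarith
      have hc0 : c = 0 := by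
        have : c ^ 2 ≤ 0 := by rw [hB0, mul_zero] at hc; exact hc
        nlinarith
      rw [← h0, hB0, hc0]
      simp
    · set t := (2 * c + B) / A with ht
      have htA : A * t = 2 * c + B := by rw [ht]; field_simp
      have ht1 : -1 ≤ t := by
        rw [ht, le_div_iff₀ h0]; linarith
      have ht3 : t ≤ 3 := by
        rw [ht, div_le_iff₀ h0]; linarith
      have h4 := one_add_pow_le (j + 1) t ht1 ht3
      have h5 : (A + 2 * c + B) ^ (j + 1) = A ^ (j + 1) * (1 + t) ^ (j + 1) := by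
        rw [← mul_pow]; congr 1; rw [mul_add, htA]; ring
      have h6 : A ^ (j + 1) * (1 + t) ^ (j + 1) ≤
          A ^ (j + 1) * (1 + ((j + 1 : ℕ) : ℝ) * t + 5 ^ (j + 1) * t ^ 2) :=
        mul_le_mul_of_nonneg_left h4 (by positivity)
      have h7 : A * t ^ 2 ≤ 10 * B := by
        have e1 : A * (A * t ^ 2) ≤ A * (10 * B) := by
          have : A * (A * t ^ 2) = (2 * c + B) ^ 2 := by rw [← htA]; ring
          rw [this]
          nlinarith [sq_nonneg (2 * c - B)]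
        exact le_of_mul_le_mul_left e1 h0
      have h8 : A ^ (j + 1) * (1 + ((j + 1 : ℕ) : ℝ) * t + 5 ^ (j + 1) * t ^ 2) =
          A ^ (j + 1) + ((j + 1 : ℕ) : ℝ) * A ^ j * (A * t) + 5 ^ (j + 1) * A ^ j * (A * t ^ 2) := by
        rw [pow_succ A j]; ring
      have hAj : 0 ≤ A ^ j := by positivity
      have h9 : 5 ^ (j + 1) * A ^ j * (A * t ^ 2) ≤ 5 ^ (j + 1) * A ^ j * (10 * B) :=
        mul_le_mul_of_nonneg_left h7 (by positivity)
      have h10 : 0 ≤ B ^ (j + 1) := by positivity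
      rw [h5]
      rw [h8, htA] at h6
      unfold K1
      have h11 : 0 ≤ ((j + 1 : ℕ) : ℝ) * (A ^ j * B) := by positivity
      have h12 : 0 ≤ (10 * 5 ^ (j + 1) + 2 * ((j + 1 : ℕ) : ℝ)) * B ^ (j + 1) := by positivity
      nlinarith
  · have hc1 : |c| ≤ B := by
      have h1 : |c| ^ 2 ≤ B ^ 2 := by rw [sq_abs]; nlinarith
      exact (pow_le_pow_iff_left₀ (abs_nonneg c) hB two_ne_zero).mp h1
    have h4 : (A + 2 * c + B) ^ (j + 1) ≤ (4 * B) ^ (j + 1) :=
      pow_le_pow_left₀ hpos (by linarith) _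
    have h5 : (4 * B) ^ (j + 1) ≤ 5 ^ (j + 1) * B ^ (j + 1) := by
      rw [mul_pow]
      exact mul_le_mul_of_nonneg_right (pow_le_pow_left₀ (by norm_num) (by norm_num) _) (by positivity)
    have hAj : 0 ≤ A ^ j := by positivity
    have h6 : -(2 * ((j + 1 : ℕ) : ℝ) * A ^ j * B) ≤ 2 * ((j + 1 : ℕ) : ℝ) * A ^ j * c := by
      have : -(2 * ((j + 1 : ℕ) : ℝ) * A ^ j * B) = 2 * ((j + 1 : ℕ) : ℝ) * A ^ j * (-B) := by ring
      rw [this]
      exact mul_le_mul_of_nonneg_left (by linarith) (by positivity)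
    have h7 : 0 ≤ A ^ (j + 1) := by positivity
    have h8 : 0 ≤ 5 ^ (j + 1) * (A ^ j * B) := by positivity
    have h9 : 0 ≤ 5 ^ (j + 1) * B ^ (j + 1) := by positivity
    have h10 : 0 ≤ ((j + 1 : ℕ) : ℝ) * B ^ (j + 1) := by positivity
    unfold K1
    nlinarith

lemma shift_le (k : ℕ) (A A' B : ℝ) (hA : 0 ≤ A) (hA' : 0 ≤ A') (hB : 0 ≤ B)
    (h : A' ≤ 2 * A + 2 * B) : A' ^ k * B ≤ 4 ^ k * (A ^ k * B + B ^ (k + 1)) := by
  have h1 : A' ^ k ≤ (2 * A + 2 * B) ^ k := pow_le_pow_left₀ hA' h k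
  have h2 : (2 * A + 2 * B) ^ k ≤ 4 ^ k * (A ^ k + B ^ k) := by
    rcases le_total A B with h3 | h3
    · calc (2 * A + 2 * B) ^ k ≤ (4 * B) ^ k := pow_le_pow_left₀ (by positivity) (by linarith) k
        _ = 4 ^ k * B ^ k := mul_pow _ _ _
        _ ≤ 4 ^ k * (A ^ k + B ^ k) := by
            apply mul_le_mul_of_nonneg_left _ (by positivity)
            have : 0 ≤ A ^ k := by positivity
            linarith
    · calc (2 * A + 2 * B) ^ k ≤ (4 * A) ^ k := pow_le_pow_left₀ (by positivity) (by linarith) k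
        _ = 4 ^ k * A ^ k := mul_pow _ _ _
        _ ≤ 4 ^ k * (A ^ k + B ^ k) := by
            apply mul_le_mul_of_nonneg_left _ (by positivity)
            have : 0 ≤ B ^ k := by positivity
            linarith
  calc A' ^ k * B ≤ (4 ^ k * (A ^ k + B ^ k)) * B := mul_le_mul_of_nonneg_right (h1.trans h2) hB
    _ = 4 ^ k * (A ^ k * B + B ^ (k + 1)) := by rw [pow_succ]; ring

lemma young (k : ℕ) (C a b : ℝ) (hC : 0 ≤ C) (ha : 0 ≤ a) (hb : 0 ≤ b) :
    C * (a ^ k * b) ≤ a ^ (k + 1) / 2 + C * (2 * C) ^ k * b ^ (k + 1) := by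
  rcases le_total (2 * C * b) a with h | h
  · have h1 : C * (a ^ k * b) ≤ a ^ (k + 1) / 2 := by
      have : C * (a ^ k * b) = a ^ k * (2 * C * b) / 2 := by ring
      rw [this, pow_succ]
      have h2 : a ^ k * (2 * C * b) ≤ a ^ k * a := mul_le_mul_of_nonneg_left h (by positivity)
      linarith
    have h3 : 0 ≤ C * (2 * C) ^ k * b ^ (k + 1) := by positivity
    linarith
  · have h1 : a ^ k ≤ (2 * C * b) ^ k := pow_le_pow_left₀ ha h k
    have h2 : C * (a ^ k * b) ≤ C * ((2 * C * b) ^ k * b) :=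
      mul_le_mul_of_nonneg_left (mul_le_mul_of_nonneg_right h1 hb) hC
    have h3 : C * ((2 * C * b) ^ k * b) = C * (2 * C) ^ k * b ^ (k + 1) := by
      rw [mul_pow (2 * C) b k, pow_succ b k]; ring
    have h4 : 0 ≤ a ^ (k + 1) / 2 := by positivity
    linarith

lemma add_pow_le_sum (k : ℕ) (a b : ℝ) (ha : 0 ≤ a) (hb : 0 ≤ b) :
    a ^ (k + 1) + b ^ (k + 1) ≤ (a + b) ^ (k + 1) := by
  rw [pow_succ, pow_succ, pow_succ]
  have h1 : a ^ k ≤ (a + b) ^ k := pow_le_pow_left₀ ha (by linarith) k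
  have h2 : b ^ k ≤ (a + b) ^ k := pow_le_pow_left₀ hb (by linarith) k
  have h3 := mul_le_mul_of_nonneg_right h1 ha
  have h4 := mul_le_mul_of_nonneg_right h2 hb
  linarith

/-- `∑ b^k ≤ (∑ b)^k` for `k ≥ 1` -/
lemma sum_pow_le_pow_sum {ι : Type*} (s : Finset ι) (k : ℕ) (b : ι → ℝ) (hb : ∀ i, 0 ≤ b i) :
    ∑ i ∈ s, b i ^ (k + 1) ≤ (∑ i ∈ s, b i) ^ (k + 1) := by
  classical
  induction s using Finset.induction_on with
  | empty => simp
  | insert i s hi ih =>
    rw [sum_insert hi, sum_insert hi]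
    have h1 := add_pow_le_sum k (b i) (∑ j ∈ s, b j) (hb i) (sum_nonneg fun j _ => hb j)
    linarith

/-- power mean inequality for averages -/
lemma avg_pow_le {ι : Type*} (s : Finset ι) (hs : s.Nonempty) (k : ℕ) (x : ι → ℝ)
    (hx : ∀ i, 0 ≤ x i) :
    ((∑ i ∈ s, x i) / s.card) ^ k ≤ (∑ i ∈ s, x i ^ k) / s.card := by
  have hc : (0 : ℝ) < s.card := by exact_mod_cast card_pos.mpr hs
  have h := Real.pow_arith_mean_le_arith_mean_pow s (fun _ => (1 : ℝ) / s.card) x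
    (fun i _ => by positivity) (by rw [sum_const, nsmul_eq_mul]; field_simp) (fun i _ => hx i) k
  rw [← mul_sum, ← mul_sum] at h
  rw [div_eq_inv_mul, div_eq_inv_mul]
  rw [one_div] at h
  exact h

end Pool.Agent.X122.PD
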