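import Pool.Agent.X122.PD1
import Pool.Agent.H730R2.LU.Av

set_option autoImplicit false

/-!
# The square function inequality for one digit string
-/

namespace Pool.Agent.X122.PD

open Finset Pool.Agent.H730R2.LU Pool.Agent.H730R2.LU.Av930

variable {p n : ℕ} [Fact p.Prime] {κ : Type} [Fintype κ]

/-- `f l` is invariant under the shifts of level `l`. -/
def Dep (f : ℕ → DS p n → ℝ) : Prop := ∀ l σ, ∀ t ∈ Tl p n l, f l (σ + t) = f l σ

/-- `f l` has mean zero on the cells of level `l - 1`, `l ≥ 1`. -/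
def Mean (f : ℕ → DS p n → ℝ) : Prop := ∀ l, 1 ≤ l → ∀ σ, ∑ t ∈ Tl p n (l - 1), f l (σ + t) = 0

/-- partial sums -/
def PS (f : ℕ → DS p n → ℝ) (l : ℕ) (σ : DS p n) : ℝ := ∑ i ∈ range l, f i σ

lemma PS_succ (f : ℕ → DS p n → ℝ) (l : ℕ) (σ : DS p n) : PS f (l + 1) σ = PS f l σ + f l σ :=
  sum_range_succ _ _

lemma PS_dep {f : ℕ → DS p n → ℝ} (hf : Dep f) (l : ℕ) (σ : DS p n) (t : DS p n)
    (ht : t ∈ Tl p n (l - 1)) : PS f l (σ + t) = PS f l σ := by
  unfold PS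
  apply sum_congr rfl
  intro i hi
  rw [mem_range] at hi
  exact hf i σ t (mono (by omega) t ht)

lemma sum_Tl_zero {f : ℕ → DS p n → ℝ} (hm : Mean f) (l i : ℕ) (h : l < i) (σ : DS p n) :
    ∑ t ∈ Tl p n l, f i (σ + t) = 0 := by
  have h1 : ∀ s ∈ Tl p n (i - 1), ∑ t ∈ Tl p n l, f i (σ + t + s) = ∑ t ∈ Tl p n l, f i (σ + t) := by
    intro s hs
    rw [← sum_shift (fun t => f i (σ + t)) (mono (by omega) s hs)]
    apply sum_congr rfl
    intro t _
    rw [add_assoc, add_comm t s]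
  have h2 : ∑ s ∈ Tl p n (i - 1), ∑ t ∈ Tl p n l, f i (σ + t + s) = 0 := by
    rw [sum_comm]
    exact sum_eq_zero fun t _ => hm i (by omega) (σ + t)
  rw [sum_congr rfl h1, sum_const, nsmul_eq_mul] at h2
  rcases mul_eq_zero.1 h2 with h3 | h3
  · exact absurd h3 (card_pos (i - 1)).ne'
  · exact h3

lemma PS_avg {f : ℕ → DS p n → ℝ} (hf : Dep f) (hm : Mean f) (l : ℕ) (hl : l ≤ n) (σ : DS p n) :
    PS f (l + 1) σ = (∑ t ∈ Tl p n l, PS f (n + 1) (σ + t)) / ((Tl p n l).card : ℝ) := by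
  rw [eq_div_iff (card_pos l).ne']
  unfold PS
  rw [sum_comm]
  have hsub : range (l + 1) ⊆ range (n + 1) := range_mono (by omega)
  rw [← sum_subset hsub (f := fun i => ∑ t ∈ Tl p n l, f i (σ + t)), sum_mul]
  · apply sum_congr rfl
    intro i hi
    rw [mem_range] at hi
    rw [sum_congr rfl fun t ht => hf i σ t (mono (by omega) t ht), sum_const, nsmul_eq_mul, mul_comm]
  · intro i _ hi
    rw [mem_range] at hi
    exact sum_Tl_zero hm l i (by omega) σ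

/-- squared norm of a vector -/
def nsq (v : κ → ℝ) : ℝ := ∑ a, v a ^ 2

omit [Fintype κ] in
lemma nsq_nonneg' [Fintype κ] (v : κ → ℝ) : 0 ≤ nsq v := sum_nonneg fun _ _ => sq_nonneg _

lemma nsq_add (v w : κ → ℝ) : nsq (fun a => v a + w a) = nsq v + 2 * (∑ a, v a * w a) + nsq w := by
  unfold nsq
  rw [mul_sum, ← sum_add_distrib, ← sum_add_distrib]
  apply sum_congr rfl
  intro a _
  ring

lemma inner_sq_le (v w : κ → ℝ) : (∑ a, v a * w a) ^ 2 ≤ nsq v * nsq w :=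
  sum_mul_sq_le_sq_mul_sq _ _ _

lemma nsq_le_two (v w : κ → ℝ) : nsq v ≤ 2 * nsq (fun a => v a + w a) + 2 * nsq w := by
  unfold nsq
  rw [mul_sum, mul_sum, ← sum_add_distrib]
  apply sum_le_sum
  intro a _
  nlinarith [sq_nonneg (v a + 2 * w a)]

lemma nsq_avg (s : Finset (DS p n)) (hs : s.Nonempty) (v : DS p n → κ → ℝ) :
    nsq (fun a => (∑ t ∈ s, v t a) / (s.card : ℝ)) ≤ (∑ t ∈ s, nsq (v t)) / s.card := by
  have hc : (0 : ℝ) < s.card := by exact_mod_cast Finset.card_pos.mpr hs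
  unfold nsq
  rw [sum_comm, sum_div]
  apply sum_le_sum
  intro a _
  rw [div_pow, div_le_div_iff₀ (by positivity) hc]
  have := sq_sum_le_card_mul_sum_sq (s := s) (f := fun t => v t a)
  calc (∑ t ∈ s, v t a) ^ 2 * (s.card : ℝ) ≤ ((s.card : ℝ) * ∑ t ∈ s, v t a ^ 2) * s.card :=
        mul_le_mul_of_nonneg_right this hc.le
    _ = (∑ t ∈ s, v t a ^ 2) * (s.card : ℝ) ^ 2 := by ring

lemma sum_add_right (F : DS p n → ℝ) (t : DS p n) : ∑ σ, F (σ + t) = ∑ σ, F σ :=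
  Equiv.sum_comp (Equiv.addRight t) F

/-- conditional Jensen -/
lemma jensen (f : κ → ℕ → DS p n → ℝ) (hf : ∀ a, Dep (f a)) (hm : ∀ a, Mean (f a)) (k l : ℕ)
    (hl : l ≤ n) (B : DS p n → ℝ) (hB0 : ∀ σ, 0 ≤ B σ) (hB : ∀ σ, ∀ t ∈ Tl p n l, B (σ + t) = B σ) :
    ∑ σ, nsq (fun a => PS (f a) (l + 1) σ) ^ k * B σ ≤
      ∑ σ, nsq (fun a => PS (f a) (n + 1) σ) ^ k * B σ := by
  have hne : (Tl p n l).Nonempty := ⟨0, zero_mem l⟩
  have hc : (0 : ℝ) < ((Tl p n l).card : ℝ) := card_pos l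
  have h1 : ∀ σ, nsq (fun a => PS (f a) (l + 1) σ) ^ k * B σ ≤
      (∑ t ∈ Tl p n l, nsq (fun a => PS (f a) (n + 1) (σ + t)) ^ k * B (σ + t)) /
        ((Tl p n l).card : ℝ) := by
    intro σ
    have e1 : nsq (fun a => PS (f a) (l + 1) σ) ≤
        (∑ t ∈ Tl p n l, nsq (fun a => PS (f a) (n + 1) (σ + t))) / ((Tl p n l).card : ℝ) := by
      have e2 : (fun a => PS (f a) (l + 1) σ) = fun a =>
          (∑ t ∈ Tl p n l, PS (f a) (n + 1) (σ + t)) / ((Tl p n l).card : ℝ) := by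
        funext a
        exact PS_avg (hf a) (hm a) l hl σ
      rw [e2]
      exact nsq_avg _ hne (fun t a => PS (f a) (n + 1) (σ + t))
    have e3 : nsq (fun a => PS (f a) (l + 1) σ) ^ k ≤
        (∑ t ∈ Tl p n l, nsq (fun a => PS (f a) (n + 1) (σ + t)) ^ k) / ((Tl p n l).card : ℝ) :=
      (pow_le_pow_left₀ (nsq_nonneg' _) e1 k).trans
        (avg_pow_le _ hne k _ fun t => nsq_nonneg' _)
    calc nsq (fun a => PS (f a) (l + 1) σ) ^ k * B σ
        ≤ ((∑ t ∈ Tl p n l, nsq (fun a => PS (f a) (n + 1) (σ + t)) ^ k) /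
            ((Tl p n l).card : ℝ)) * B σ := mul_le_mul_of_nonneg_right e3 (hB0 σ)
      _ = _ := by
          rw [div_mul_eq_mul_div, sum_mul]
          congr 1
          apply sum_congr rfl
          intro t ht
          rw [hB σ t ht]
  calc ∑ σ, nsq (fun a => PS (f a) (l + 1) σ) ^ k * B σ
      ≤ ∑ σ, (∑ t ∈ Tl p n l, nsq (fun a => PS (f a) (n + 1) (σ + t)) ^ k * B (σ + t)) /
        ((Tl p n l).card : ℝ) := sum_le_sum fun σ _ => h1 σ
    _ = ∑ σ, nsq (fun a => PS (f a) (n + 1) σ) ^ k * B σ := by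
        rw [← sum_div, sum_comm]
        rw [sum_congr rfl fun t _ => sum_add_right
          (fun σ => nsq (fun a => PS (f a) (n + 1) σ) ^ k * B σ) t]
        rw [sum_const, nsmul_eq_mul, mul_div_cancel_left₀ _ hc.ne']

/-- the constant of the square function inequality -/
noncomputable def K2 (k : ℕ) : ℝ := K1 k * 4 ^ (k - 1) + K1 k

/-- the constant of the square function inequality -/
noncomputable def K3 (k : ℕ) : ℝ := 2 * (K2 k * (2 * K2 k) ^ (k - 1) + 2 * K2 k)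

lemma K2_pos (k : ℕ) : 0 < K2 k := by
  have := K1_pos k
  unfold K2; positivity

lemma K3_pos (k : ℕ) : 0 < K3 k := by
  have := K2_pos k
  unfold K3; positivity

/-- **The square function inequality** for one digit string, vector valued, even exponent `2k`. -/
theorem one_param (f : κ → ℕ → DS p n → ℝ) (hf : ∀ a, Dep (f a)) (hm : ∀ a, Mean (f a)) (k : ℕ)
    (hk : 1 ≤ k) :
    ∑ σ, (∑ a, (∑ l ∈ range (n + 1), f a l σ) ^ 2) ^ k ≤
      K3 k * ∑ σ, (∑ a, ∑ l ∈ range (n + 1), f a l σ ^ 2) ^ k := by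
  obtain ⟨j, rfl⟩ : ∃ j, k = j + 1 := ⟨k - 1, by omega⟩
  have hK1 := K1_pos (j + 1)
  set S : ℕ → DS p n → ℝ := fun l σ => nsq (fun a => PS (f a) l σ) with hS
  set B : ℕ → DS p n → ℝ := fun l σ => nsq (fun a => f a l σ) with hB
  have hS0 : ∀ l σ, 0 ≤ S l σ := fun l σ => nsq_nonneg' _
  have hB0 : ∀ l σ, 0 ≤ B l σ := fun l σ => nsq_nonneg' _
  have hBdep : ∀ l σ, ∀ t ∈ Tl p n l, B l (σ + t) = B l σ := by
    intro l σ t ht
    simp only [hB]
    congr 1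
    funext a
    exact hf a l σ t ht
  -- increments
  have hincr : ∀ l, l ≤ n → ∑ σ, (S (l + 1) σ ^ (j + 1) - S l σ ^ (j + 1)) ≤
      K1 (j + 1) * ∑ σ, (S l σ ^ j * B l σ + B l σ ^ (j + 1)) := by
    intro l _
    have h1 : ∀ σ, S (l + 1) σ ^ (j + 1) - S l σ ^ (j + 1) ≤
        2 * ((j + 1 : ℕ) : ℝ) * (S l σ ^ j * ∑ a, PS (f a) l σ * f a l σ) +
          K1 (j + 1) * (S l σ ^ j * B l σ + B l σ ^ (j + 1)) := by
      intro σ
      have e1 : S (l + 1) σ = S l σ + 2 * (∑ a, PS (f a) l σ * f a l σ) + B l σ := by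
        simp only [hS, hB]
        rw [← nsq_add]
        congr 1
        funext a
        exact PS_succ _ _ _
      have e2 := incr_le (j + 1) (by omega) (S l σ) (B l σ) (∑ a, PS (f a) l σ * f a l σ)
        (hS0 l σ) (hB0 l σ) (inner_sq_le _ _)
      rw [← e1, Nat.add_sub_cancel] at e2
      linarith
    have h2 : ∑ σ, S l σ ^ j * ∑ a, PS (f a) l σ * f a l σ = 0 := by
      rcases Nat.eq_zero_or_pos l with h0 | h0
      · apply sum_eq_zero
        intro σ _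
        rw [h0]
        simp [PS]
      · simp_rw [mul_sum]
        rw [sum_comm]
        apply sum_eq_zero
        intro a _
        simp_rw [← mul_assoc]
        apply orth (l - 1) (fun σ => S l σ ^ j * PS (f a) l σ) (fun σ => f a l σ)
        · intro σ t ht
          simp only [hS]
          rw [PS_dep (hf a) l σ t ht]
          congr 3
          funext a'
          exact PS_dep (hf a') l σ t ht
        · intro σ
          exact hm a l h0 σ
    calc ∑ σ, (S (l + 1) σ ^ (j + 1) - S l σ ^ (j + 1))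
        ≤ ∑ σ, (2 * ((j + 1 : ℕ) : ℝ) * (S l σ ^ j * ∑ a, PS (f a) l σ * f a l σ) +
          K1 (j + 1) * (S l σ ^ j * B l σ + B l σ ^ (j + 1))) := sum_le_sum fun σ _ => h1 σ
      _ = K1 (j + 1) * ∑ σ, (S l σ ^ j * B l σ + B l σ ^ (j + 1)) := by
          rw [sum_add_distrib, ← mul_sum, h2, ← mul_sum, mul_zero, zero_add]
  -- replace the partial sums by the full sum
  have hstep : ∀ l, l ≤ n → ∑ σ, S l σ ^ j * B l σ ≤
      4 ^ j * ∑ σ, (S (n + 1) σ ^ j * B l σ + B l σ ^ (j + 1)) := by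
    intro l hl
    have h1 : ∀ σ, S l σ ^ j * B l σ ≤ 4 ^ j * (S (l + 1) σ ^ j * B l σ + B l σ ^ (j + 1)) := by
      intro σ
      apply shift_le j _ _ _ (hS0 _ _) (hS0 _ _) (hB0 _ _)
      simp only [hS, hB]
      have := nsq_le_two (fun a => PS (f a) l σ) (fun a => f a l σ)
      have e : (fun a => PS (f a) (l + 1) σ) = fun a => PS (f a) l σ + f a l σ := by
        funext a
        exact PS_succ _ _ _
      rw [e]
      exact this
    have h2 : ∑ σ, S (l + 1) σ ^ j * B l σ ≤ ∑ σ, S (n + 1) σ ^ j * B l σ :=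
      jensen f hf hm j l hl (B l) (hB0 l) (hBdep l)
    calc ∑ σ, S l σ ^ j * B l σ
        ≤ ∑ σ, 4 ^ j * (S (l + 1) σ ^ j * B l σ + B l σ ^ (j + 1)) := sum_le_sum fun σ _ => h1 σ
      _ = 4 ^ j * (∑ σ, S (l + 1) σ ^ j * B l σ + ∑ σ, B l σ ^ (j + 1)) := by
          rw [← mul_sum, sum_add_distrib]
      _ ≤ 4 ^ j * (∑ σ, S (n + 1) σ ^ j * B l σ + ∑ σ, B l σ ^ (j + 1)) :=
          mul_le_mul_of_nonneg_left (by linarith) (by positivity)
      _ = _ := by rw [sum_add_distrib]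
  -- telescoping
  set X : DS p n → ℝ := S (n + 1) with hX
  set Q : DS p n → ℝ := fun σ => ∑ l ∈ range (n + 1), B l σ with hQ
  have hQ0 : ∀ σ, 0 ≤ Q σ := fun σ => sum_nonneg fun l _ => hB0 l σ
  have hX0 : ∀ σ, 0 ≤ X σ := hS0 (n + 1)
  have htel : ∑ σ, X σ ^ (j + 1) = ∑ l ∈ range (n + 1), ∑ σ, (S (l + 1) σ ^ (j + 1) - S l σ ^ (j + 1)) := by
    rw [sum_comm]
    apply sum_congr rfl
    intro σ _
    rw [sum_range_sub (fun l => S l σ ^ (j + 1))]
    have : S 0 σ = 0 := by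
      simp [hS, nsq, PS]
    rw [this]
    simp [hX]
  have hmain : ∑ σ, X σ ^ (j + 1) ≤ K2 (j + 1) * (∑ σ, X σ ^ j * Q σ) +
      2 * K2 (j + 1) * ∑ σ, Q σ ^ (j + 1) := by
    have hBQ : ∑ l ∈ range (n + 1), ∑ σ, B l σ ^ (j + 1) ≤ ∑ σ, Q σ ^ (j + 1) := by
      rw [sum_comm]
      exact sum_le_sum fun σ _ => sum_pow_le_pow_sum _ j (fun l => B l σ) (fun l => hB0 l σ)
    have hXQ : ∑ l ∈ range (n + 1), ∑ σ, X σ ^ j * B l σ = ∑ σ, X σ ^ j * Q σ := by
      rw [sum_comm]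
      apply sum_congr rfl
      intro σ _
      rw [hQ, mul_sum]
    have h3 : ∀ l ∈ range (n + 1), ∑ σ, (S (l + 1) σ ^ (j + 1) - S l σ ^ (j + 1)) ≤
        K1 (j + 1) * 4 ^ j * (∑ σ, X σ ^ j * B l σ) +
          (K1 (j + 1) * 4 ^ j + K1 (j + 1)) * ∑ σ, B l σ ^ (j + 1) := by
      intro l hl
      rw [mem_range] at hl
      have a1 := hincr l (by omega)
      have a2 := hstep l (by omega)
      rw [sum_add_distrib] at a1 a2
      have a3 := mul_le_mul_of_nonneg_left a2 hK1.le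
      nlinarith
    rw [htel]
    refine (sum_le_sum h3).trans ?_
    rw [sum_add_distrib, ← mul_sum, ← mul_sum, hXQ]
    have hK2 : K2 (j + 1) = K1 (j + 1) * 4 ^ j + K1 (j + 1) := by
      unfold K2; rw [Nat.add_sub_cancel]
    rw [hK2]
    have p1 : 0 ≤ ∑ σ, X σ ^ j * Q σ := sum_nonneg fun σ _ => mul_nonneg (pow_nonneg (hX0 σ) _) (hQ0 σ)
    have p2 : 0 ≤ ∑ σ, Q σ ^ (j + 1) := sum_nonneg fun σ _ => pow_nonneg (hQ0 σ) _
    have p3 : 0 ≤ K1 (j + 1) * 4 ^ j + K1 (j + 1) := by positivity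
    have p4 := mul_le_mul_of_nonneg_left hBQ p3
    have p5 := mul_nonneg p3 p2
    have p6 := mul_nonneg hK1.le p1
    linarith
  have hyoung : K2 (j + 1) * (∑ σ, X σ ^ j * Q σ) ≤ (∑ σ, X σ ^ (j + 1)) / 2 +
      K2 (j + 1) * (2 * K2 (j + 1)) ^ j * ∑ σ, Q σ ^ (j + 1) := by
    rw [mul_sum, sum_div, mul_sum, ← sum_add_distrib]
    exact sum_le_sum fun σ _ => young j (K2 (j + 1)) (X σ) (Q σ) (K2_pos _).le (hX0 σ) (hQ0 σ)
  have hfin : ∑ σ, X σ ^ (j + 1) ≤ K3 (j + 1) * ∑ σ, Q σ ^ (j + 1) := by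
    unfold K3
    rw [Nat.add_sub_cancel]
    linarith
  have hl1 : ∀ σ, X σ = ∑ a, (∑ l ∈ range (n + 1), f a l σ) ^ 2 := fun σ => rfl
  have hl2 : ∀ σ, Q σ = ∑ a, ∑ l ∈ range (n + 1), f a l σ ^ 2 := by
    intro σ
    simp only [hQ, hB, nsq]
    rw [sum_comm]
  simp_rw [hl1, hl2] at hfin
  exact hfin

end Pool.Agent.X122.PD
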