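import Pool.Agent.X122.PD2

set_option autoImplicit false

/-!
# The square function inequality for several digit strings
-/

namespace Pool.Agent.X122.PD

open Finset Pool.Agent.H730R2.LU Pool.Agent.H730R2.LU.Av930

variable {p n : ℕ} [Fact p.Prime]

/-- a multi-parameter array of martingale differences -/
structure Mart {d : ℕ} (D : (Fin d → Fin (n + 1)) → (Fin d → DS p n) → ℝ) : Prop where
  dep : ∀ l i σ, ∀ t ∈ Tl p n (l i : ℕ), D l (Function.update σ i (σ i + t)) = D l σ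
  mean : ∀ l i σ, 1 ≤ (l i : ℕ) →
    ∑ t ∈ Tl p n ((l i : ℕ) - 1), D l (Function.update σ i (σ i + t)) = 0

lemma sum_cons {d : ℕ} {X : Type} [Fintype X] (F : (Fin (d + 1) → X) → ℝ) :
    ∑ l, F l = ∑ l' : Fin d → X, ∑ l₀ : X, F (Fin.cons l₀ l') := by
  classical
  rw [← (Fin.consEquiv (fun _ : Fin (d + 1) => X)).sum_comp, Fintype.sum_prod_type, sum_comm]
  rfl

theorem multi_param (k : ℕ) (hk : 1 ≤ k) : ∀ (d : ℕ) (κ : Type) [Fintype κ]
    (D : κ → (Fin d → Fin (n + 1)) → (Fin d → DS p n) → ℝ), (∀ a, Mart (D a)) →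
    ∑ σ, (∑ a, (∑ l, D a l σ) ^ 2) ^ k ≤ K3 k ^ d * ∑ σ, (∑ a, ∑ l, D a l σ ^ 2) ^ k := by
  classical
  have hK := K3_pos k
  intro d
  induction d with
  | zero =>
    intro κ _ D _
    simp
  | succ d ih =>
    intro κ _ D hD
    -- first the last coordinates
    have h1 : ∀ σ₀ : DS p n, ∑ σ' : Fin d → DS p n,
        (∑ a, (∑ l' : Fin d → Fin (n + 1), ∑ l₀, D a (Fin.cons l₀ l') (Fin.cons σ₀ σ')) ^ 2) ^ k ≤
        K3 k ^ d * ∑ σ' : Fin d → DS p n,
        (∑ a, ∑ l' : Fin d → Fin (n + 1), (∑ l₀, D a (Fin.cons l₀ l') (Fin.cons σ₀ σ')) ^ 2) ^ k := by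
      intro σ₀
      apply ih κ (fun a l' σ' => ∑ l₀, D a (Fin.cons l₀ l') (Fin.cons σ₀ σ'))
      intro a
      constructor
      · intro l' i σ' t ht
        apply sum_congr rfl
        intro l₀ _
        rw [Fin.cons_update]
        have := (hD a).dep (Fin.cons l₀ l') i.succ (Fin.cons σ₀ σ') t (by rw [Fin.cons_succ]; exact ht)
        rw [Fin.cons_succ] at this
        exact this
      · intro l' i σ' hl
        rw [sum_comm]
        apply sum_eq_zero
        intro l₀ _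
        have := (hD a).mean (Fin.cons l₀ l') i.succ (Fin.cons σ₀ σ') (by rw [Fin.cons_succ]; exact hl)
        rw [Fin.cons_succ, Fin.cons_succ] at this
        simp_rw [Fin.cons_update]
        exact this
    -- then the first one
    have h2 : ∀ σ' : Fin d → DS p n, ∑ σ₀ : DS p n,
        (∑ a, ∑ l' : Fin d → Fin (n + 1), (∑ l₀, D a (Fin.cons l₀ l') (Fin.cons σ₀ σ')) ^ 2) ^ k ≤
        K3 k * ∑ σ₀ : DS p n,
        (∑ a, ∑ l' : Fin d → Fin (n + 1), ∑ l₀, D a (Fin.cons l₀ l') (Fin.cons σ₀ σ') ^ 2) ^ k := by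
      intro σ'
      set f : κ × (Fin d → Fin (n + 1)) → ℕ → DS p n → ℝ := fun b l σ₀ =>
        if h : l < n + 1 then D b.1 (Fin.cons (⟨l, h⟩ : Fin (n + 1)) b.2) (Fin.cons σ₀ σ') else 0
        with hf
      have hone := one_param f (by
        intro b l σ₀ t ht
        simp only [hf]
        split_ifs with h
        · have := (hD b.1).dep (Fin.cons (⟨l, h⟩ : Fin (n + 1)) b.2) 0 (Fin.cons σ₀ σ') t
            (by rw [Fin.cons_zero]; exact ht)
          rw [Fin.cons_zero, Fin.update_cons_zero] at this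
          exact this
        · rfl) (by
        intro b l hl σ₀
        simp only [hf]
        split_ifs with h
        · have := (hD b.1).mean (Fin.cons (⟨l, h⟩ : Fin (n + 1)) b.2) 0 (Fin.cons σ₀ σ')
            (by rw [Fin.cons_zero]; exact hl)
          rw [Fin.cons_zero, Fin.cons_zero] at this
          simp_rw [Fin.update_cons_zero] at this
          exact this
        · simp) k hk
      have e1 : ∀ (σ₀ : DS p n) (b : κ × (Fin d → Fin (n + 1))),
          ∑ l ∈ range (n + 1), f b l σ₀ = ∑ l₀, D b.1 (Fin.cons l₀ b.2) (Fin.cons σ₀ σ') := by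
        intro σ₀ b
        rw [Finset.sum_range]
        apply sum_congr rfl
        intro l _
        simp only [hf]
        rw [dif_pos l.isLt]
      have e2 : ∀ (σ₀ : DS p n) (b : κ × (Fin d → Fin (n + 1))),
          ∑ l ∈ range (n + 1), f b l σ₀ ^ 2 = ∑ l₀, D b.1 (Fin.cons l₀ b.2) (Fin.cons σ₀ σ') ^ 2 := by
        intro σ₀ b
        rw [Finset.sum_range]
        apply sum_congr rfl
        intro l _
        simp only [hf]
        rw [dif_pos l.isLt]
      simp_rw [e1, e2, Fintype.sum_prod_type] at hone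
      exact hone
    calc ∑ σ, (∑ a, (∑ l, D a l σ) ^ 2) ^ k
        = ∑ σ' : Fin d → DS p n, ∑ σ₀ : DS p n,
          (∑ a, (∑ l' : Fin d → Fin (n + 1), ∑ l₀, D a (Fin.cons l₀ l') (Fin.cons σ₀ σ')) ^ 2) ^ k := by
          rw [sum_cons]
          simp_rw [sum_cons (X := Fin (n + 1))]
      _ = ∑ σ₀ : DS p n, ∑ σ' : Fin d → DS p n,
          (∑ a, (∑ l' : Fin d → Fin (n + 1), ∑ l₀, D a (Fin.cons l₀ l') (Fin.cons σ₀ σ')) ^ 2) ^ k :=
          sum_comm
      _ ≤ ∑ σ₀ : DS p n, K3 k ^ d * ∑ σ' : Fin d → DS p n,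
          (∑ a, ∑ l' : Fin d → Fin (n + 1), (∑ l₀, D a (Fin.cons l₀ l') (Fin.cons σ₀ σ')) ^ 2) ^ k :=
          sum_le_sum fun σ₀ _ => h1 σ₀
      _ = K3 k ^ d * ∑ σ' : Fin d → DS p n, ∑ σ₀ : DS p n,
          (∑ a, ∑ l' : Fin d → Fin (n + 1), (∑ l₀, D a (Fin.cons l₀ l') (Fin.cons σ₀ σ')) ^ 2) ^ k := by
          rw [← mul_sum, sum_comm]
      _ ≤ K3 k ^ d * ∑ σ' : Fin d → DS p n, K3 k * ∑ σ₀ : DS p n,
          (∑ a, ∑ l' : Fin d → Fin (n + 1), ∑ l₀, D a (Fin.cons l₀ l') (Fin.cons σ₀ σ') ^ 2) ^ k :=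
          mul_le_mul_of_nonneg_left (sum_le_sum fun σ' _ => h2 σ') (by positivity)
      _ = K3 k ^ (d + 1) * ∑ σ' : Fin d → DS p n, ∑ σ₀ : DS p n,
          (∑ a, ∑ l' : Fin d → Fin (n + 1), ∑ l₀, D a (Fin.cons l₀ l') (Fin.cons σ₀ σ') ^ 2) ^ k := by
          rw [← mul_sum, pow_succ]; ring
      _ = K3 k ^ (d + 1) * ∑ σ, (∑ a, ∑ l, D a l σ ^ 2) ^ k := by
          rw [sum_cons (X := DS p n)]
          simp_rw [sum_cons (X := Fin (n + 1))]

end Pool.Agent.X122.PD
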