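import Pool.Agent.X122.PD3
import Pool.Agent.H730R2.LU.Var

set_option autoImplicit false

/-!
# The components of the discrepancy function of a shifted net
-/

namespace Pool.Agent.X122.PD

open Finset Pool.Agent.H730R2.LU Pool.Agent.H730R2.LU.Av930

variable {p n d : ℕ} [Fact p.Prime]

/-- the component of level `l` -/
noncomputable def Dl (H : Finset (Fin d → DS p n)) (X : Fin d → ℕ) (l : Fin d → ℕ)
    (σ : Fin d → DS p n) : ℝ := ∑ h ∈ H, ∏ i, Ul (l i) (ind p n (X i)) (h i + σ i)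

lemma sum_Dl (H : Finset (Fin d → DS p n)) (X : Fin d → ℕ) (σ : Fin d → DS p n) :
    ∑ l : Fin d → Fin (n + 1), Dl H X (fun i => (l i : ℕ)) σ =
      ∑ h ∈ H, ∏ i, ind p n (X i) (h i + σ i) := by
  unfold Dl
  rw [sum_comm]
  apply sum_congr rfl
  intro h _
  have h1 : ∀ i, ind p n (X i) (h i + σ i) =
      ∑ l : Fin (n + 1), Ul (l : ℕ) (ind p n (X i)) (h i + σ i) := by
    intro i
    rw [← Finset.sum_range (fun l => Ul l (ind p n (X i)) (h i + σ i)), sum_Ul_range]
  simp_rw [h1]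
  rw [Finset.prod_univ_sum, Fintype.piFinset_univ]

lemma Av_zero (X : ℕ) (hX : X ≤ p ^ n) (σ : DS p n) : Av 0 (ind p n X) σ = (X : ℝ) / p ^ n := by
  have hT : Tl p n 0 = univ := by
    ext t
    simp [Tl]
  unfold Av
  rw [hT, card_univ, card_DS]
  have h1 : ∑ t : DS p n, ind p n X (σ + t) = ∑ t : DS p n, ind p n X t :=
    Equiv.sum_comp (Equiv.addLeft σ) (ind p n X)
  rw [h1]
  have h2 : ∑ t : DS p n, ind p n X t = X := by
    unfold ind
    rw [Finset.sum_boole]
    rw [card_idx_lt X hX]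
  rw [h2]
  push_cast
  rfl

lemma Dl_zero_level (H : Finset (Fin d → DS p n)) (hH : H.card = p ^ n) (X : Fin d → ℕ)
    (hX : ∀ i, X i ≤ p ^ n) (σ : Fin d → DS p n) :
    Dl H X 0 σ = p ^ n * ∏ i, ((X i : ℝ) / p ^ n) := by
  unfold Dl
  have h1 : ∀ h : Fin d → DS p n, ∏ i, Ul ((0 : Fin d → ℕ) i) (ind p n (X i)) (h i + σ i) =
      ∏ i, ((X i : ℝ) / p ^ n) := by
    intro h
    apply prod_congr rfl
    intro i _
    unfold Ul
    rw [Pi.zero_apply, if_pos rfl, sub_zero, Av_zero (X i) (hX i)]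
  simp_rw [h1]
  rw [sum_const, hH, nsmul_eq_mul]
  push_cast
  rfl

lemma Dl_low (H : Finset (Fin d → DS p n))
    (hH1 : ∀ (a : Fin d → ℕ), (∀ i, a i ≤ n) → ∑ i, a i ≤ n → ∀ τ : Fin d → DS p n,
        (H.filter (fun h => ∀ i, ∀ l : Fin n, l.val < a i → h i l = τ i l)).card =
          p ^ (n - ∑ i, a i)) (X : Fin d → ℕ) (l : Fin d → ℕ) (hl : ∀ i, l i ≤ n) (hl0 : l ≠ 0)
    (hs : ∑ i, l i ≤ n) (σ : Fin d → DS p n) : Dl H X l σ = 0 := by
  unfold Dl
  rw [sum_net p d n H l hl hs (hH1 l hl hs)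
    (fun h => ∏ i, Ul (l i) (ind p n (X i)) (h i + σ i))]
  · obtain ⟨i0, hi0⟩ : ∃ i, l i ≠ 0 := by
      by_contra hc
      push Not at hc
      exact hl0 (funext hc)
    have key : ∑ h : Fin d → DS p n, ∏ i, Ul (l i) (ind p n (X i)) (h i + σ i) =
        ∏ i, ∑ b : DS p n, Ul (l i) (ind p n (X i)) (b + σ i) := by
      rw [Finset.prod_univ_sum, Fintype.piFinset_univ]
    rw [key]
    have hz : ∑ b : DS p n, Ul (l i0) (ind p n (X i0)) (b + σ i0) = 0 := by
      rw [← Ul_total (l i0) (Nat.one_le_iff_ne_zero.mpr hi0) (ind p n (X i0))]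
      exact Equiv.sum_comp (Equiv.addRight (σ i0)) _
    rw [Finset.prod_eq_zero (Finset.mem_univ i0) hz, mul_zero]
  · intro a b hab
    apply Finset.prod_congr rfl
    intro i _
    apply Ul_congr
    intro j hj
    simp [hab i j hj]

lemma Dl_mart (H : Finset (Fin d → DS p n)) (X : Fin d → ℕ) (c : (Fin d → Fin (n + 1)) → Prop)
    [DecidablePred c] :
    Mart (fun l σ => if c l then Dl H X (fun i => (l i : ℕ)) σ else 0) := by
  classical
  constructor
  · intro l i σ t ht
    split_ifs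
    · unfold Dl
      apply sum_congr rfl
      intro h _
      apply prod_congr rfl
      intro j _
      rcases eq_or_ne j i with rfl | hj
      · rw [Function.update_self]
        apply Ul_congr
        intro k hk
        rw [mem_Tl] at ht
        rw [Pi.add_apply, Pi.add_apply, Pi.add_apply, ht k hk, add_zero]
      · rw [Function.update_of_ne hj]
    · rfl
  · intro l i σ hl
    split_ifs
    · unfold Dl
      rw [sum_comm]
      apply sum_eq_zero
      intro h _
      have h1 : ∀ t : DS p n, ∏ j, Ul (l j : ℕ) (ind p n (X j))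
          (h j + Function.update σ i (σ i + t) j) =
          Ul (l i : ℕ) (ind p n (X i)) (h i + σ i + t) *
            ∏ j ∈ univ.erase i, Ul (l j : ℕ) (ind p n (X j)) (h j + σ j) := by
        intro t
        rw [← Finset.mul_prod_erase univ _ (mem_univ i), Function.update_self, add_assoc]
        congr 1
        apply prod_congr rfl
        intro j hj
        rw [Function.update_of_ne (ne_of_mem_erase hj)]
      simp_rw [h1]
      rw [← sum_mul, sum_Ul _ hl, zero_mul]
    · simp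

section bound
variable (H : Finset (Fin d → DS p n)) (hH : H.card = p ^ n)
    (hH1 : ∀ (a : Fin d → ℕ), (∀ i, a i ≤ n) → ∑ i, a i ≤ n → ∀ τ : Fin d → DS p n,
        (H.filter (fun h => ∀ i, ∀ l : Fin n, l.val < a i → h i l = τ i l)).card =
          p ^ (n - ∑ i, a i))
    (hH2 : ∀ (a : Fin d → ℕ), (∀ i, a i ≤ n) → n ≤ ∑ i, a i → ∀ τ : Fin d → DS p n,
        (H.filter (fun h => ∀ i, ∀ l : Fin n, l.val < a i → h i l = τ i l)).card ≤ 1)
    (X : Fin d → ℕ) (l : Fin d → ℕ) (hl : ∀ i, l i ≤ n)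

open Classical in
/-- the number of net points which contribute -/
noncomputable def cnt (H : Finset (Fin d → DS p n)) (X : Fin d → ℕ) (l : Fin d → ℕ)
    (σ : Fin d → DS p n) : ℕ :=
  (H.filter (fun h => ∀ i, Ul (l i) (ind p n (X i)) (h i + σ i) ≠ 0)).card

lemma abs_Dl_le (σ : Fin d → DS p n) : |Dl H X l σ| ≤ cnt H X l σ := by
  classical
  unfold Dl
  calc |∑ h ∈ H, ∏ i, Ul (l i) (ind p n (X i)) (h i + σ i)|
      ≤ ∑ h ∈ H, |∏ i, Ul (l i) (ind p n (X i)) (h i + σ i)| := abs_sum_le_sum_abs _ _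
    _ ≤ ∑ h ∈ H, (if (∀ i, Ul (l i) (ind p n (X i)) (h i + σ i) ≠ 0) then (1 : ℝ) else 0) := by
        apply sum_le_sum
        intro h _
        split_ifs with hc
        · rw [abs_prod]
          exact prod_le_one (fun i _ => abs_nonneg _) (fun i _ => abs_Ul_le _ _ _)
        · push Not at hc
          obtain ⟨i, hi⟩ := hc
          rw [prod_eq_zero (mem_univ i) hi, abs_zero]
    _ = cnt H X l σ := by
        rw [sum_boole]
        unfold cnt
        congr 1

include hH1 hH2 hl in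
lemma cnt_le (hs : n < ∑ i, l i) (σ : Fin d → DS p n) : cnt H X l σ ≤ p ^ d := by
  classical
  have hp1 : 1 ≤ p := (Fact.out : p.Prime).one_le
  set b : Fin d → ℕ := fun i => l i - 1 with hb
  have hbl : ∀ i, b i ≤ n := fun i => (Nat.sub_le _ _).trans (hl i)
  unfold cnt
  set F := H.filter (fun h => ∀ i, Ul (l i) (ind p n (X i)) (h i + σ i) ≠ 0) with hF
  rcases F.eq_empty_or_nonempty with h0 | ⟨h₀, hh₀⟩
  · have : F.card = 0 := by rw [h0]; rfl
    have h2 : (Finset.filter (fun h => ∀ i, Ul (l i) (ind p n (X i)) (h i + σ i) ≠ 0) H).card = 0 := by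
      rw [← hF]; exact this
    calc _ = 0 := by convert h2
      _ ≤ p ^ d := Nat.zero_le _
  · have hsub : F ⊆ H.filter (fun h' => ∀ i, ∀ j : Fin n, j.val < b i → h' i j = h₀ i j) := by
      intro h hh
      rw [hF, mem_filter] at hh hh₀
      rw [mem_filter]
      refine ⟨hh.1, ?_⟩
      intro i j hj
      have hl1 : 1 ≤ l i := by simp only [hb] at hj; omega
      have := Ul_cell (l i) hl1 (X i) _ _ (hh.2 i) (hh₀.2 i) j (by simp only [hb] at hj; exact hj)
      simpa using this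
    have hcount : (H.filter (fun h' => ∀ i, ∀ j : Fin n, j.val < b i → h' i j = h₀ i j)).card ≤ p ^ d := by
      rcases le_total (∑ i, b i) n with hbn | hbn
      · rw [hH1 b hbl hbn h₀]
        apply Nat.pow_le_pow_right hp1
        have h1 : ∑ i, l i ≤ ∑ i, (b i + 1) := by
          apply Finset.sum_le_sum
          intro i _
          simp only [hb]
          omega
        rw [Finset.sum_add_distrib] at h1
        simp only [Finset.sum_const, Finset.card_univ, Fintype.card_fin, smul_eq_mul, mul_one] at h1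
        omega
      · exact (hH2 b hbl hbn h₀).trans (Nat.one_le_pow _ _ hp1)
    have h3 := (card_le_card hsub).trans hcount
    convert h3

/-- the number of strings with a nonzero difference -/
lemma card_Ul_ne (X l : ℕ) (hl : l ≤ n) : ∀ [DecidablePred fun s : DS p n => Ul l (ind p n X) s ≠ 0],
    (univ.filter (fun s : DS p n => Ul l (ind p n X) s ≠ 0)).card ≤ p ^ (n - (l - 1)) := by
  intro _
  classical
  rcases Nat.eq_zero_or_pos l with h0 | h0
  · have h5 : (univ.filter (fun s : DS p n => Ul l (ind p n X) s ≠ 0)).card ≤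
        (univ : Finset (DS p n)).card := card_le_card (filter_subset _ _)
    rw [card_univ, card_DS] at h5
    have h6 : n - (l - 1) = n := by omega
    rw [h6]
    exact h5
  · set F := univ.filter (fun s : DS p n => Ul l (ind p n X) s ≠ 0) with hF
    rcases F.eq_empty_or_nonempty with h1 | ⟨s₀, hs₀⟩
    · rw [h1]; simp
    · rw [hF, mem_filter] at hs₀
      have hsub : F ⊆ univ.filter (fun y : DS p n => ∀ j : Fin n, j.val < l - 1 → s₀ j = y j) := by
        intro s hs
        rw [hF, mem_filter] at hs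
        rw [mem_filter]
        exact ⟨mem_univ _, fun j hj => (Ul_cell l h0 X _ _ hs.2 hs₀.2 j hj).symm⟩
      have h2 := card_le_card hsub
      have h3 := Equi930.card_pref p n (l - 1) (by omega) s₀
      have h4 : (univ.filter (fun y : DS p n => ∀ j : Fin n, j.val < l - 1 → s₀ j = y j)).card =
          p ^ (n - (l - 1)) := by
        rw [← h3]
        congr 1
        ext y
        rw [mem_filter, Fintype.mem_piFinset]
        constructor
        · rintro ⟨-, h⟩ j
          split_ifs with hj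
          · rw [mem_singleton]; exact (h j hj).symm
          · exact mem_univ _
        · intro h
          refine ⟨mem_univ _, fun j hj => ?_⟩
          have h7 := h j
          rw [if_pos hj, mem_singleton] at h7
          exact h7.symm
      exact h2.trans h4.le

include hH hl in
lemma sum_cnt_le : ∑ σ, (cnt H X l σ : ℝ) ≤
    (p : ℝ) ^ d * (p : ℝ) ^ (n * d) * (p : ℝ) ^ n / (p : ℝ) ^ (∑ i, l i) := by
  classical
  have hp1 : 1 ≤ p := (Fact.out : p.Prime).one_le
  have hpR : (1 : ℝ) ≤ p := by exact_mod_cast hp1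
  have hp0 : (0 : ℝ) < p := by linarith
  have h1 : ∀ σ, (cnt H X l σ : ℝ) =
      ∑ h ∈ H, ∏ i, (if Ul (l i) (ind p n (X i)) (h i + σ i) ≠ 0 then (1 : ℝ) else 0) := by
    intro σ
    unfold cnt
    rw [Finset.card_filter]
    push_cast
    apply sum_congr rfl
    intro h _
    rw [Finset.prod_ite_zero]
    simp
  simp_rw [h1]
  rw [sum_comm]
  have h2 : ∀ h ∈ H, ∑ σ : Fin d → DS p n,
      ∏ i, (if Ul (l i) (ind p n (X i)) (h i + σ i) ≠ 0 then (1 : ℝ) else 0) ≤
      ∏ i, (p : ℝ) ^ (n - (l i - 1)) := by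
    intro h _
    have e1 : ∑ σ : Fin d → DS p n,
      ∏ i, (if Ul (l i) (ind p n (X i)) (h i + σ i) ≠ 0 then (1 : ℝ) else 0) =
      ∏ i, ∑ s : DS p n, (if Ul (l i) (ind p n (X i)) (h i + s) ≠ 0 then (1 : ℝ) else 0) := by
      rw [Finset.prod_univ_sum, Fintype.piFinset_univ]
    rw [e1]
    apply prod_le_prod
    · intro i _
      exact sum_nonneg fun s _ => by split_ifs <;> norm_num
    · intro i _
      have e2 : ∑ s : DS p n, (if Ul (l i) (ind p n (X i)) (h i + s) ≠ 0 then (1 : ℝ) else 0) =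
          ∑ s : DS p n, (if Ul (l i) (ind p n (X i)) s ≠ 0 then (1 : ℝ) else 0) :=
        Equiv.sum_comp (Equiv.addLeft (h i))
          (fun s => if Ul (l i) (ind p n (X i)) s ≠ 0 then (1 : ℝ) else 0)
      rw [e2, sum_boole]
      have := card_Ul_ne (p := p) (n := n) (X i) (l i) (hl i)
      exact_mod_cast this
  refine (sum_le_sum h2).trans ?_
  rw [sum_const, hH, nsmul_eq_mul]
  have h3 : ∏ i, (p : ℝ) ^ (n - (l i - 1)) ≤ (p : ℝ) ^ d * (p : ℝ) ^ (n * d) / (p : ℝ) ^ (∑ i, l i) := by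
    rw [le_div_iff₀ (by positivity), ← prod_pow_eq_pow_sum, ← prod_mul_distrib]
    have e3 : ∀ i ∈ (univ : Finset (Fin d)), (p : ℝ) ^ (n - (l i - 1)) * (p : ℝ) ^ (l i) ≤
        (p : ℝ) ^ (n + 1) := by
      intro i _
      rw [← pow_add]
      apply pow_le_pow_right₀ hpR
      have := hl i
      omega
    calc ∏ i, ((p : ℝ) ^ (n - (l i - 1)) * (p : ℝ) ^ (l i)) ≤ ∏ _i : Fin d, (p : ℝ) ^ (n + 1) :=
          prod_le_prod (fun i _ => by positivity) e3
      _ = (p : ℝ) ^ d * (p : ℝ) ^ (n * d) := by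
          rw [prod_const, card_univ, Fintype.card_fin, ← pow_mul, ← pow_add]
          congr 1
          ring
  calc ((p ^ n : ℕ) : ℝ) * ∏ i, (p : ℝ) ^ (n - (l i - 1))
      ≤ (p : ℝ) ^ n * ((p : ℝ) ^ d * (p : ℝ) ^ (n * d) / (p : ℝ) ^ (∑ i, l i)) := by
        push_cast
        exact mul_le_mul_of_nonneg_left h3 (by positivity)
    _ = _ := by ring

include hH hH1 hH2 hl in
/-- the even moments of the components -/
lemma sum_Dl_pow (hs : n < ∑ i, l i) (k : ℕ) (hk : 1 ≤ k) :
    ∑ σ, (Dl H X l σ ^ 2) ^ k ≤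
      ((p : ℝ) ^ d) ^ (2 * k) * (p : ℝ) ^ (n * d) * ((p : ℝ) ^ n / (p : ℝ) ^ (∑ i, l i)) := by
  have hp1 : 1 ≤ p := (Fact.out : p.Prime).one_le
  have hpR : (1 : ℝ) ≤ p := by exact_mod_cast hp1
  have hp0 : (0 : ℝ) < p := by linarith
  obtain ⟨j, hj⟩ : ∃ j, 2 * k = j + 1 := ⟨2 * k - 1, by omega⟩
  have h1 : ∀ σ, (Dl H X l σ ^ 2) ^ k ≤ ((p : ℝ) ^ d) ^ j * (cnt H X l σ : ℝ) := by
    intro σ
    have a1 := abs_Dl_le H X l σ
    have a2 : (cnt H X l σ : ℝ) ≤ (p : ℝ) ^ d := by exact_mod_cast cnt_le H hH1 hH2 X l hl hs σ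
    rw [← pow_mul, ← Even.pow_abs (even_two_mul k), hj, pow_succ]
    calc |Dl H X l σ| ^ j * |Dl H X l σ| ≤ ((p : ℝ) ^ d) ^ j * (cnt H X l σ : ℝ) := by
          apply mul_le_mul (pow_le_pow_left₀ (abs_nonneg _) (a1.trans a2) j) a1 (abs_nonneg _)
          positivity
      _ = _ := rfl
  calc ∑ σ, (Dl H X l σ ^ 2) ^ k ≤ ∑ σ, ((p : ℝ) ^ d) ^ j * (cnt H X l σ : ℝ) :=
        sum_le_sum fun σ _ => h1 σ
    _ = ((p : ℝ) ^ d) ^ j * ∑ σ, (cnt H X l σ : ℝ) := by rw [mul_sum]
    _ ≤ ((p : ℝ) ^ d) ^ j * ((p : ℝ) ^ d * (p : ℝ) ^ (n * d) * (p : ℝ) ^ n / (p : ℝ) ^ (∑ i, l i)) :=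
        mul_le_mul_of_nonneg_left (sum_cnt_le H hH X l hl) (by positivity)
    _ = _ := by rw [hj, pow_succ]; ring

end bound

end Pool.Agent.X122.PD
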