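import Pool.Agent.X122.PD4

set_option autoImplicit false

/-!
# Even moments of the discrepancy function of a randomly shifted net
-/

namespace Pool.Agent.X122.PD

open Finset Pool.Agent.H730R2.LU Pool.Agent.H730R2.LU.Av930

lemma wpow {ι : Type*} (s : Finset ι) (k : ℕ) (w x : ι → ℝ) (hw : ∀ i ∈ s, 0 < w i)
    (hx : ∀ i, 0 ≤ x i) :
    (∑ i ∈ s, x i) ^ (k + 1) ≤ (∑ i ∈ s, w i) ^ k * ∑ i ∈ s, x i ^ (k + 1) / w i ^ k := by
  classical
  rcases s.eq_empty_or_nonempty with rfl | hne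
  · simp
  set W := ∑ i ∈ s, w i with hW
  have hW0 : 0 < W := sum_pos hw hne
  have h := Real.pow_arith_mean_le_arith_mean_pow s (fun i => if i ∈ s then w i / W else 0)
    (fun i => if i ∈ s then x i / w i else 0)
    (fun i hi => by simp only [if_pos hi]; exact div_nonneg (hw i hi).le hW0.le)
    (by
      rw [sum_congr rfl fun i hi => if_pos hi, ← sum_div, ← hW]
      exact div_self hW0.ne')
    (fun i hi => by simp only [if_pos hi]; exact div_nonneg (hx i) (hw i hi).le) (k + 1)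
  have e1 : ∑ i ∈ s, (if i ∈ s then w i / W else 0) * (if i ∈ s then x i / w i else 0) =
      (∑ i ∈ s, x i) / W := by
    rw [sum_div]
    apply sum_congr rfl
    intro i hi
    rw [if_pos hi, if_pos hi]
    have := (hw i hi).ne'
    field_simp
  have e2 : ∑ i ∈ s, (if i ∈ s then w i / W else 0) * (if i ∈ s then x i / w i else 0) ^ (k + 1) =
      (∑ i ∈ s, x i ^ (k + 1) / w i ^ k) / W := by
    rw [sum_div]
    apply sum_congr rfl
    intro i hi
    rw [if_pos hi, if_pos hi, div_pow, pow_succ (w i)]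
    have := (hw i hi).ne'
    field_simp
  rw [e1, e2, div_pow, div_le_div_iff₀ (by positivity) hW0, pow_succ W] at h
  have h2 : (∑ i ∈ s, x i) ^ (k + 1) * W ≤ (W ^ k * ∑ i ∈ s, x i ^ (k + 1) / w i ^ k) * W := by
    calc _ ≤ (∑ i ∈ s, x i ^ (k + 1) / w i ^ k) * (W ^ k * W) := h
      _ = _ := by ring
  exact le_of_mul_le_mul_right h2 hW0

lemma level_tsum (k n : ℕ) (F : ℕ → ℝ) (hF : ∀ s, 0 ≤ F s) (hS : Summable F) :
    ∑ l ∈ (univ : Finset (Fin (k + 1) → Fin (n + 1))).filter (fun l => n < ∑ i, (l i : ℕ)),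
      F (∑ i, (l i : ℕ) - n) ≤ (n + 1) ^ k * ∑' s, F s := by
  set A := (univ : Finset (Fin (k + 1) → Fin (n + 1))).filter (fun l => n < ∑ i, (l i : ℕ)) with hA
  set B := (univ : Finset (Fin k → Fin (n + 1))) ×ˢ range ((k + 1) * (n + 1) + 1) with hB
  set e : (Fin (k + 1) → Fin (n + 1)) → (Fin k → Fin (n + 1)) × ℕ :=
    fun l => (fun i => l i.succ, ∑ i, (l i : ℕ) - n) with he
  have hinj : Set.InjOn e A := by
    intro l hl m hm hlm
    rw [hA, coe_filter] at hl hm
    have hl2 : n < ∑ i, (l i : ℕ) := hl.2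
    have hm2 : n < ∑ i, (m i : ℕ) := hm.2
    simp only [he, Prod.mk.injEq] at hlm
    obtain ⟨h1, h2⟩ := hlm
    have h3 : ∀ i : Fin k, l i.succ = m i.succ := fun i => congrFun h1 i
    have h4 : ∑ i : Fin k, (l i.succ : ℕ) = ∑ i : Fin k, (m i.succ : ℕ) :=
      sum_congr rfl fun i _ => by rw [h3 i]
    rw [Fin.sum_univ_succ] at hl2 hm2
    rw [Fin.sum_univ_succ, Fin.sum_univ_succ] at h2
    have h5 : l 0 = m 0 := by
      apply Fin.ext
      omega
    funext i
    refine Fin.cases h5 (fun j => h3 j) i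
  have himg : A.image e ⊆ B := by
    intro x hx
    obtain ⟨l, hl, rfl⟩ := mem_image.mp hx
    rw [hB, mem_product, mem_range]
    refine ⟨mem_univ _, ?_⟩
    have h1 : ∑ i, (l i : ℕ) ≤ ∑ _i : Fin (k + 1), (n + 1) := by
      refine sum_le_sum fun i _ => ?_
      have := (l i).isLt
      omega
    simp only [sum_const, card_univ, Fintype.card_fin, smul_eq_mul] at h1
    simp only [he]
    omega
  calc ∑ l ∈ A, F (∑ i, (l i : ℕ) - n) = ∑ x ∈ A.image e, F x.2 := by
        rw [sum_image hinj]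
    _ ≤ ∑ x ∈ B, F x.2 := sum_le_sum_of_subset_of_nonneg himg fun x _ _ => hF _
    _ = (n + 1) ^ k * ∑ s ∈ range ((k + 1) * (n + 1) + 1), F s := by
        rw [hB, sum_product]
        simp only [sum_const, card_univ, Fintype.card_fun, Fintype.card_fin, nsmul_eq_mul]
        push_cast
        ring
    _ ≤ _ := mul_le_mul_of_nonneg_left (hS.sum_le_tsum _ fun s _ => hF s) (by positivity)

theorem moment (p d k : ℕ) [Fact p.Prime] (hd : 1 ≤ d) (hdp : d ≤ p) (hk : 1 ≤ k) :
    ∃ C : ℝ, 0 < C ∧ ∀ n : ℕ, ∃ H : Finset (Fin d → DS p n), H.card = p ^ n ∧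
      (∀ (i : Fin d) (b : DS p n), (H.filter (fun h => h i = b)).card = 1) ∧
      ∀ X : Fin d → ℕ, (∀ i, X i ≤ p ^ n) →
        ∑ σ, (DX p d n H X σ ^ 2) ^ k ≤
          C * (((n : ℝ) + 1) ^ (d - 1)) ^ k * (p : ℝ) ^ (n * d) := by
  classical
  obtain ⟨d', rfl⟩ : ∃ d', d = d' + 1 := ⟨d - 1, by omega⟩
  obtain ⟨j, rfl⟩ : ∃ j, k = j + 1 := ⟨k - 1, by omega⟩
  rw [Nat.add_sub_cancel]
  have hp2 : 2 ≤ p := (Fact.out : p.Prime).two_le
  have hp1 : 1 ≤ p := (Fact.out : p.Prime).one_le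
  have hpR : (2 : ℝ) ≤ p := by exact_mod_cast hp2
  have hp0 : (0 : ℝ) < p := by linarith
  set F1 : ℕ → ℝ := fun s => 1 / (s : ℝ) ^ 2 with hF1
  set F2 : ℕ → ℝ := fun s => (s : ℝ) ^ (2 * j) * (1 / (p : ℝ)) ^ s with hF2
  have hS1 : Summable F1 := Real.summable_one_div_nat_pow.mpr (by norm_num)
  have hS2 : Summable F2 := by
    apply summable_pow_mul_geometric_of_norm_lt_one
    rw [Real.norm_eq_abs, abs_of_pos (by positivity), div_lt_one hp0]
    linarith
  set T1 := ∑' s, F1 s with hT1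
  set T2 := ∑' s, F2 s with hT2
  have hF10 : ∀ s, 0 ≤ F1 s := fun s => by positivity
  have hF20 : ∀ s, 0 ≤ F2 s := fun s => by positivity
  have hT10 : 0 ≤ T1 := tsum_nonneg hF10
  have hT20 : 0 ≤ T2 := tsum_nonneg hF20
  set A := ((p : ℝ) ^ (d' + 1)) ^ (2 * (j + 1)) with hA
  have hK := K3_pos (j + 1)
  refine ⟨K3 (j + 1) ^ (d' + 1) * (T1 ^ j * (T2 * A)) + 1, by positivity, ?_⟩
  intro n
  obtain ⟨H, hH, hH1, hH2⟩ := exists_net p (d' + 1) n hd hdp
  refine ⟨H, hH, ?_, ?_⟩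
  · intro i b
    have hsum : ∑ j, (Function.update (0 : Fin (d' + 1) → ℕ) i n) j = n := by
      rw [Finset.sum_update_of_mem (Finset.mem_univ i)]
      simp
    have h1 := hH1 (Function.update 0 i n) (by
      intro j
      rcases eq_or_ne j i with rfl | hj
      · simp
      · simp [Function.update_of_ne hj]) (by rw [hsum]) (fun _ => b)
    rw [hsum, Nat.sub_self, pow_zero] at h1
    refine Eq.trans ?_ h1
    congr 1
    apply Finset.filter_congr
    intro h _
    constructor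
    · intro hb j l hl
      rcases eq_or_ne j i with rfl | hj
      · rw [hb]
      · simp [Function.update_of_ne hj] at hl
    · intro hb
      funext l
      exact hb i l (by simp)
  intro X hX
  set D : (Fin (d' + 1) → Fin (n + 1)) → (Fin (d' + 1) → DS p n) → ℝ :=
    fun l σ => if n < ∑ i, (l i : ℕ) then Dl H X (fun i => (l i : ℕ)) σ else 0 with hD
  have hmart : Mart D := Dl_mart H X (fun l => n < ∑ i, (l i : ℕ))
  have hDX : ∀ σ, DX p (d' + 1) n H X σ = ∑ l, D l σ := by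
    intro σ
    unfold DX
    rw [← Dl_zero_level H hH X hX σ, ← sum_Dl H X σ]
    have e1 : ∑ l : Fin (d' + 1) → Fin (n + 1), (Dl H X (fun i => (l i : ℕ)) σ - D l σ) =
        Dl H X 0 σ := by
      rw [Finset.sum_eq_single (0 : Fin (d' + 1) → Fin (n + 1))]
      · have e2 : (fun i => ((0 : Fin (d' + 1) → Fin (n + 1)) i : ℕ)) = 0 := by
          funext i; simp
        have e3 : D 0 σ = 0 := by
          simp only [hD]
          rw [if_neg]
          simp
        rw [e2, e3, sub_zero]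
      · intro l _ hl
        simp only [hD]
        split_ifs with hc
        · ring
        · rw [sub_zero]
          have hl0 : (fun i => ((l i : Fin (n + 1)) : ℕ)) ≠ 0 := by
            intro h0
            apply hl
            funext i
            apply Fin.ext
            have := congrFun h0 i
            simpa using this
          exact Dl_low H hH1 X _ (fun i => by have := (l i).isLt; omega) hl0 (by omega) σ
      · intro h
        exact absurd (mem_univ _) h
    rw [sum_sub_distrib] at e1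
    linarith
  have hmulti := multi_param (p := p) (n := n) (j + 1) (by omega) (d' + 1) Unit
    (fun _ => D) (fun _ => hmart)
  simp only [univ_unique, sum_singleton] at hmulti
  have hsq : ∑ σ, (∑ l, D l σ ^ 2) ^ (j + 1) ≤
      T1 ^ j * (T2 * A) * (((n : ℝ) + 1) ^ d') ^ (j + 1) * (p : ℝ) ^ (n * (d' + 1)) := by
    set S := (univ : Finset (Fin (d' + 1) → Fin (n + 1))).filter (fun l => n < ∑ i, (l i : ℕ))
      with hS
    have e1 : ∀ σ, ∑ l, D l σ ^ 2 = ∑ l ∈ S, Dl H X (fun i => (l i : ℕ)) σ ^ 2 := by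
      intro σ
      rw [hS, sum_filter]
      apply sum_congr rfl
      intro l _
      simp only [hD]
      split_ifs
      · rfl
      · norm_num
    set w : (Fin (d' + 1) → Fin (n + 1)) → ℝ := fun l => F1 (∑ i, (l i : ℕ) - n) with hw
    have hwpos : ∀ l ∈ S, 0 < w l := by
      intro l hl
      rw [hS, mem_filter] at hl
      simp only [hw, hF1]
      have : 0 < ∑ i, (l i : ℕ) - n := by omega
      have h2 : (0 : ℝ) < ((∑ i, (l i : ℕ) - n : ℕ) : ℝ) := by exact_mod_cast this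
      positivity
    have e2 : ∀ σ, (∑ l, D l σ ^ 2) ^ (j + 1) ≤ (∑ l ∈ S, w l) ^ j *
        ∑ l ∈ S, (Dl H X (fun i => (l i : ℕ)) σ ^ 2) ^ (j + 1) / w l ^ j := by
      intro σ
      rw [e1]
      exact wpow S j w _ hwpos (fun l => sq_nonneg _)
    have hW : ∑ l ∈ S, w l ≤ ((n : ℝ) + 1) ^ d' * T1 := level_tsum d' n F1 hF10 hS1
    have hW0 : 0 ≤ ∑ l ∈ S, w l := sum_nonneg fun l hl => (hwpos l hl).le
    have e3 : ∑ l ∈ S, ∑ σ, (Dl H X (fun i => (l i : ℕ)) σ ^ 2) ^ (j + 1) / w l ^ j ≤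
        A * (p : ℝ) ^ (n * (d' + 1)) * (((n : ℝ) + 1) ^ d' * T2) := by
      have f1 : ∀ l ∈ S, ∑ σ, (Dl H X (fun i => (l i : ℕ)) σ ^ 2) ^ (j + 1) / w l ^ j ≤
          A * (p : ℝ) ^ (n * (d' + 1)) * F2 (∑ i, (l i : ℕ) - n) := by
        intro l hl
        have hl' : n < ∑ i, (l i : ℕ) := by rw [hS, mem_filter] at hl; exact hl.2
        have g1 := sum_Dl_pow H hH hH1 hH2 X (fun i => (l i : ℕ))
          (fun i => by have := (l i).isLt; omega) hl' (j + 1) (by omega)
        rw [← sum_div, div_le_iff₀ (pow_pos (hwpos l hl) j)]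
        refine g1.trans (le_of_eq ?_)
        obtain ⟨s, hs⟩ : ∃ s, ∑ i, (l i : ℕ) = n + s := ⟨_, (Nat.add_sub_cancel' hl'.le).symm⟩
        simp only [hw, hF1, hF2]
        rw [hs, Nat.add_sub_cancel_left]
        have hs0 : (s : ℝ) ≠ 0 := by
          have : s ≠ 0 := by omega
          exact_mod_cast this
        rw [pow_add (p : ℝ) n s, div_pow 1 ((s : ℝ) ^ 2), one_pow, ← pow_mul (s : ℝ) 2 j, one_div_pow]
        field_simp
        exact hA.symm
      refine (sum_le_sum f1).trans ?_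
      rw [← mul_sum]
      exact mul_le_mul_of_nonneg_left (level_tsum d' n F2 hF20 hS2) (by positivity)
    calc ∑ σ, (∑ l, D l σ ^ 2) ^ (j + 1)
        ≤ ∑ σ, (∑ l ∈ S, w l) ^ j *
          ∑ l ∈ S, (Dl H X (fun i => (l i : ℕ)) σ ^ 2) ^ (j + 1) / w l ^ j :=
          sum_le_sum fun σ _ => e2 σ
      _ = (∑ l ∈ S, w l) ^ j *
          ∑ l ∈ S, ∑ σ, (Dl H X (fun i => (l i : ℕ)) σ ^ 2) ^ (j + 1) / w l ^ j := by
          rw [← mul_sum, sum_comm]
      _ ≤ (((n : ℝ) + 1) ^ d' * T1) ^ j *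
          (A * (p : ℝ) ^ (n * (d' + 1)) * (((n : ℝ) + 1) ^ d' * T2)) := by
          apply mul_le_mul (pow_le_pow_left₀ hW0 hW j) e3 _ (by positivity)
          exact sum_nonneg fun l hl => sum_nonneg fun σ _ =>
            div_nonneg (pow_nonneg (sq_nonneg _) _) (pow_nonneg (hwpos l hl).le _)
      _ = _ := by rw [mul_pow, pow_succ]; ring
  calc ∑ σ, (DX p (d' + 1) n H X σ ^ 2) ^ (j + 1) = ∑ σ, ((∑ l, D l σ) ^ 2) ^ (j + 1) := by
        simp_rw [hDX]
    _ ≤ K3 (j + 1) ^ (d' + 1) * ∑ σ, (∑ l, D l σ ^ 2) ^ (j + 1) := hmulti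
    _ ≤ K3 (j + 1) ^ (d' + 1) *
        (T1 ^ j * (T2 * A) * (((n : ℝ) + 1) ^ d') ^ (j + 1) * (p : ℝ) ^ (n * (d' + 1))) :=
        mul_le_mul_of_nonneg_left hsq (by positivity)
    _ ≤ _ := by
        have : 0 ≤ (((n : ℝ) + 1) ^ d') ^ (j + 1) * (p : ℝ) ^ (n * (d' + 1)) := by positivity
        nlinarith

end Pool.Agent.X122.PD
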