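import Pool.Agent.X122.PD5
import Pool.Agent.H730R2.LU.Round
import Pool.Agent.H730R2.LU.Avg

set_option autoImplicit false

/-!
# The point sets: `N` points from a shifted net with `p ^ n ≥ N` points, and rounding
-/

namespace Pool.Agent.X122.PD

open Finset MeasureTheory Pool.Agent.H730R2.LU

/-- rounding of a corner -/
noncomputable def Xc (k m N : ℕ) (x : Fin (k + 1) → ℝ) (i : Fin (k + 1)) : ℕ :=
  if i = 0 then ⌈x i * m⌉₊ else ⌈x i * N⌉₊

lemma ceil_err (N : ℕ) (t : ℝ) (h0 : 0 ≤ t) : |t * N - (⌈t * N⌉₊ : ℕ)| ≤ 1 := by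
  have h1 := Nat.le_ceil (t * N)
  have h2 := Nat.ceil_lt_add_one (show 0 ≤ t * N by positivity)
  rw [abs_le]
  constructor <;> linarith

lemma ceil_le_N (N : ℕ) (t : ℝ) (h1 : t ≤ 1) : ⌈t * N⌉₊ ≤ N := by
  apply Nat.ceil_le.mpr
  have : (0 : ℝ) ≤ N := Nat.cast_nonneg _
  nlinarith

lemma Xc_le (k m N : ℕ) (hmN : m ≤ N) (x : Fin (k + 1) → ℝ) (hx1 : ∀ i, x i ≤ 1)
    (i : Fin (k + 1)) : Xc k m N x i ≤ N := by
  unfold Xc
  split_ifs
  · exact (ceil_le_N m _ (hx1 i)).trans hmN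
  · exact ceil_le_N N _ (hx1 i)

/-- ROUND -/
lemma round_c (k m N : ℕ) (hm : 1 ≤ m) (hmN : m ≤ N) (x : Fin (k + 1) → ℝ)
    (hx0 : ∀ i, 0 ≤ x i) (hx1 : ∀ i, x i ≤ 1) :
    |N * ∏ i, ((Xc k m N x i : ℝ) / N) - (m : ℝ) * ∏ i, x i| ≤ k + 1 := by
  have hN : 1 ≤ N := le_trans hm hmN
  have hN' : (0 : ℝ) < N := by exact_mod_cast hN
  have hm' : (0 : ℝ) < m := by exact_mod_cast hm
  rw [abs_sub_comm, Fin.prod_univ_succ, Fin.prod_univ_succ]
  set A := ∏ i : Fin k, x i.succ with hA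
  set B := ∏ i : Fin k, ((Xc k m N x i.succ : ℝ) / N) with hB
  have hX0 : |x 0 * m - (Xc k m N x 0 : ℝ)| ≤ 1 := by
    unfold Xc
    simp only [if_true]
    exact ceil_err m (x 0) (hx0 0)
  have hXm : (Xc k m N x 0 : ℝ) ≤ m := by
    unfold Xc
    simp only [if_true]
    exact_mod_cast ceil_le_N m (x 0) (hx1 0)
  have hXs : ∀ i : Fin k, |x i.succ - (Xc k m N x i.succ : ℝ) / N| ≤ 1 / N := by
    intro i
    have h := ceil_err N (x i.succ) (hx0 _)
    have e : x i.succ - (Xc k m N x i.succ : ℝ) / N =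
        (x i.succ * N - (Xc k m N x i.succ : ℝ)) / N := by field_simp
    rw [e, abs_div, abs_of_pos hN']
    apply div_le_div_of_nonneg_right _ hN'.le
    unfold Xc
    rw [if_neg (Fin.succ_ne_zero i)]
    exact h
  have hXn : ∀ i : Fin k, (Xc k m N x i.succ : ℝ) / N ≤ 1 := by
    intro i
    rw [div_le_one hN']
    exact_mod_cast Xc_le k m N hmN x hx1 _
  have hAB : |A - B| ≤ k * (1 / N) := by
    have := prod_diff (univ : Finset (Fin k)) (fun i => x i.succ)
      (fun i => (Xc k m N x i.succ : ℝ) / N) (1 / N) (fun i => hx0 _) (fun i => hx1 _)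
      (fun i => by positivity) hXn hXs
    rw [Finset.card_univ, Fintype.card_fin] at this
    exact this
  have hA0 : 0 ≤ A := Finset.prod_nonneg (fun j _ => hx0 _)
  have hA1 : A ≤ 1 := Finset.prod_le_one (fun j _ => hx0 _) (fun j _ => hx1 _)
  have e : (m : ℝ) * (x 0 * A) - N * ((Xc k m N x 0 : ℝ) / N * B) =
      (x 0 * m - (Xc k m N x 0 : ℝ)) * A + (Xc k m N x 0 : ℝ) * (A - B) := by
    field_simp
    ring
  rw [e]
  have hXnn : (0 : ℝ) ≤ (Xc k m N x 0 : ℝ) := Nat.cast_nonneg _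
  calc |(x 0 * m - (Xc k m N x 0 : ℝ)) * A + (Xc k m N x 0 : ℝ) * (A - B)|
      ≤ |(x 0 * m - (Xc k m N x 0 : ℝ)) * A| + |(Xc k m N x 0 : ℝ) * (A - B)| := abs_add_le _ _
    _ = |x 0 * m - (Xc k m N x 0 : ℝ)| * A + (Xc k m N x 0 : ℝ) * |A - B| := by
        rw [abs_mul, abs_mul, abs_of_nonneg hA0, abs_of_nonneg hXnn]
    _ ≤ 1 * 1 + (m : ℝ) * (k * (1 / N)) := by
        apply add_le_add
        · exact mul_le_mul hX0 hA1 hA0 zero_le_one
        · exact mul_le_mul hXm hAB (abs_nonneg _) hm'.le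
    _ ≤ k + 1 := by
        have h1 : (m : ℝ) ≤ N := by exact_mod_cast hmN
        have h2 : (m : ℝ) * (k * (1 / N)) = k * (m / N) := by ring
        have h3 : (m : ℝ) / N ≤ 1 := (div_le_one hN').mpr h1
        rw [h2]
        have h4 : (k : ℝ) * (m / N) ≤ k * 1 := mul_le_mul_of_nonneg_left h3 (Nat.cast_nonneg k)
        linarith

lemma half_iff (y N : ℕ) (hN : 1 ≤ N) (t : ℝ) : ((y : ℝ) / N < t) ↔ y < ⌈t * N⌉₊ := by
  have hN' : (0 : ℝ) < N := by exact_mod_cast hN
  rw [div_lt_iff₀ hN', Nat.lt_ceil]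

/-- the `m` points -/
theorem exists_pts' (p k n m : ℕ) [Fact p.Prime] (hm : 1 ≤ m) (hmN : m ≤ p ^ n)
    (H : Finset (Fin (k + 1) → DS p n))
    (hH : ∀ (i : Fin (k + 1)) (b : DS p n), (H.filter (fun h => h i = b)).card = 1)
    (σ : Fin (k + 1) → DS p n) :
    ∃ P : Finset (Fin (k + 1) → ℝ), P.card = m ∧ (∀ z ∈ P, ∀ i, z i ∈ Set.Ico (0 : ℝ) 1) ∧
      ∀ x : Fin (k + 1) → ℝ, (∀ i, x i ≤ 1) →
        ∑ z ∈ P, ∏ i, (if z i < x i then (1 : ℝ) else 0) =
          ∑ h ∈ H, ∏ i, ind p n (Xc k m (p ^ n) x i) (h i + σ i) := by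
  classical
  have hex : ∀ μ : Fin m, ∃ h ∈ H, idx (h 0 + σ 0) = μ.val := by
    intro μ
    obtain ⟨b, -, hb⟩ := (idx_bij (p := p) (n := n)).surjOn
      (show μ.val ∈ Set.Iio (p ^ n) from lt_of_lt_of_le μ.isLt hmN)
    obtain ⟨h, hh⟩ := Finset.card_eq_one.mp (hH 0 (b - σ 0))
    have hmem : h ∈ H.filter (fun h => h 0 = b - σ 0) := by rw [hh]; simp
    rw [Finset.mem_filter] at hmem
    refine ⟨h, hmem.1, ?_⟩
    rw [hmem.2, sub_add_cancel, hb]
  choose hh hhH hidx using hex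
  have hinj : Function.Injective hh := by
    intro μ ν hμν
    apply Fin.ext
    rw [← hidx μ, ← hidx ν, hμν]
  have huniq : ∀ h ∈ H, idx (h 0 + σ 0) < m → h ∈ (univ.image hh) := by
    intro h hhm hlt
    rw [Finset.mem_image]
    refine ⟨⟨idx (h 0 + σ 0), hlt⟩, mem_univ _, ?_⟩
    set μ : Fin m := ⟨idx (h 0 + σ 0), hlt⟩ with hμ
    have h1 : hh μ 0 + σ 0 = h 0 + σ 0 :=
      (idx_bij (p := p) (n := n)).injOn (Set.mem_univ _) (Set.mem_univ _) (by rw [hidx μ])
    have h2 : hh μ 0 = h 0 := add_right_cancel h1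
    obtain ⟨g, hg⟩ := Finset.card_eq_one.mp (hH 0 (h 0))
    have e1 : h ∈ H.filter (fun h' => h' 0 = h 0) := by simp [hhm]
    have e2 : hh μ ∈ H.filter (fun h' => h' 0 = h 0) := by simp [hhH μ, h2]
    rw [hg, Finset.mem_singleton] at e1 e2
    rw [e1, e2]
  have hp : 0 < p ^ n := lt_of_lt_of_le hm hmN
  have hp' : (0 : ℝ) < ((p ^ n : ℕ) : ℝ) := by exact_mod_cast hp
  have hm' : (0 : ℝ) < (m : ℝ) := by exact_mod_cast hm
  set ξ : Fin m → Fin (k + 1) → ℝ := fun μ i =>
    if i = 0 then (μ.val : ℝ) / m else (idx (hh μ i + σ i) : ℝ) / ((p ^ n : ℕ) : ℝ) with hξ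
  have hξinj : Function.Injective ξ := by
    intro μ ν hμν
    have h0 := congrFun hμν 0
    simp only [hξ, if_true] at h0
    rw [div_left_inj' hm'.ne'] at h0
    exact Fin.ext (by exact_mod_cast h0)
  refine ⟨univ.image ξ, ?_, ?_, ?_⟩
  · rw [card_image_of_injective _ hξinj, card_univ, Fintype.card_fin]
  · intro z hz i
    obtain ⟨μ, -, rfl⟩ := mem_image.mp hz
    simp only [hξ]
    rw [Set.mem_Ico]
    constructor
    · split_ifs <;> positivity
    · split_ifs
      · rw [div_lt_one hm']; exact_mod_cast μ.isLt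
      · rw [div_lt_one hp']; exact_mod_cast idx_lt _
  · intro x hx1
    rw [sum_image (fun a _ b _ h => hξinj h)]
    have hsub : ∑ h ∈ H, ∏ i, ind p n (Xc k m (p ^ n) x i) (h i + σ i) =
        ∑ h ∈ univ.image hh, ∏ i, ind p n (Xc k m (p ^ n) x i) (h i + σ i) := by
      symm
      apply Finset.sum_subset
      · intro h hh1
        rw [Finset.mem_image] at hh1
        obtain ⟨μ, -, rfl⟩ := hh1
        exact hhH μ
      · intro h h1 h2
        apply Finset.prod_eq_zero (mem_univ (0 : Fin (k + 1)))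
        have h3 : ¬ idx (h 0 + σ 0) < m := fun h4 => h2 (huniq h h1 h4)
        unfold ind
        rw [if_neg]
        intro h4
        apply h3
        refine lt_of_lt_of_le h4 ?_
        unfold Xc
        rw [if_pos rfl]
        exact ceil_le_N m _ (hx1 0)
    rw [hsub, Finset.sum_image (fun a _ b _ h => hinj h)]
    apply Finset.sum_congr rfl
    intro μ _
    apply prod_congr rfl
    intro i _
    unfold ind
    have hiff : ξ μ i < x i ↔ idx (hh μ i + σ i) < Xc k m (p ^ n) x i := by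
      unfold Xc
      simp only [hξ]
      by_cases hi : i = 0
      · subst hi
        simp only [if_true]
        rw [hidx μ]
        exact half_iff μ.val m hm (x 0)
      · simp only [if_neg hi]
        exact half_iff _ (p ^ n) hp (x i)
    by_cases hc : ξ μ i < x i
    · rw [if_pos hc, if_pos (hiff.mp hc)]
    · rw [if_neg hc, if_neg (fun h => hc (hiff.mpr h))]

/-- corners -/
noncomputable def Tc {d : ℕ} (x y : Fin d → ℝ) (c : Fin d → Fin 3) (i : Fin d) : ℝ :=
  if c i = 0 then y i else if c i = 1 then x i else 1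

/-- signs -/
noncomputable def Sc {d : ℕ} (x y : Fin d → ℝ) (c : Fin d → Fin 3) : ℝ :=
  ∏ i, (if c i = 0 then (1 : ℝ) else if c i = 1 then -1 else if y i < x i then 1 else 0)

lemma abs_Sc_le {d : ℕ} (x y : Fin d → ℝ) (c : Fin d → Fin 3) : |Sc x y c| ≤ 1 := by
  unfold Sc
  rw [abs_prod]
  refine prod_le_one (fun i _ => abs_nonneg _) (fun i _ => ?_)
  split_ifs <;> simp

open Classical in
lemma indicator_dec {d : ℕ} (x y z : Fin d → ℝ) (hz : ∀ i, z i < 1) :
    (if (∀ i : Fin d, (x i ≤ y i ∧ x i ≤ z i ∧ z i < y i) ∨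
        (y i < x i ∧ (z i < y i ∨ x i ≤ z i))) then (1 : ℝ) else 0) =
      ∑ c : Fin d → Fin 3, Sc x y c * ∏ i, (if z i < Tc x y c i then (1 : ℝ) else 0) := by
  have h1 : ∀ i, (if ((x i ≤ y i ∧ x i ≤ z i ∧ z i < y i) ∨
        (y i < x i ∧ (z i < y i ∨ x i ≤ z i))) then (1 : ℝ) else 0) =
      ∑ c : Fin 3, (if c = 0 then (1 : ℝ) else if c = 1 then -1 else if y i < x i then 1 else 0) *
        (if z i < (if c = 0 then y i else if c = 1 then x i else 1) then (1 : ℝ) else 0) := by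
    intro i
    have := hz i
    rw [Fin.sum_univ_three]
    simp only [Fin.isValue, if_true, one_ne_zero, if_false,
      show (2 : Fin 3) ≠ 0 by decide, show (2 : Fin 3) ≠ 1 by decide]
    split_ifs <;> first | (exfalso; simp_all; linarith) | (exfalso; simp_all; done) | simp
  calc (if (∀ i : Fin d, (x i ≤ y i ∧ x i ≤ z i ∧ z i < y i) ∨
        (y i < x i ∧ (z i < y i ∨ x i ≤ z i))) then (1 : ℝ) else 0)
      = ∏ i, (if ((x i ≤ y i ∧ x i ≤ z i ∧ z i < y i) ∨
        (y i < x i ∧ (z i < y i ∨ x i ≤ z i))) then (1 : ℝ) else 0) := by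
        rw [prod_ite_zero]
        simp
    _ = ∏ i, ∑ c : Fin 3, (if c = 0 then (1 : ℝ) else if c = 1 then -1 else if y i < x i then 1 else 0) *
        (if z i < (if c = 0 then y i else if c = 1 then x i else 1) then (1 : ℝ) else 0) :=
        prod_congr rfl fun i _ => h1 i
    _ = _ := by
        rw [prod_univ_sum, Fintype.piFinset_univ]
        apply sum_congr rfl
        intro c _
        rw [prod_mul_distrib]
        rfl

lemma volume_dec {d : ℕ} (x y : Fin d → ℝ) :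
    ∏ i, (if x i ≤ y i then y i - x i else 1 - x i + y i) =
      ∑ c : Fin d → Fin 3, Sc x y c * ∏ i, Tc x y c i := by
  have h1 : ∀ i, (if x i ≤ y i then y i - x i else 1 - x i + y i) =
      ∑ c : Fin 3, (if c = 0 then (1 : ℝ) else if c = 1 then -1 else if y i < x i then 1 else 0) *
        (if c = 0 then y i else if c = 1 then x i else 1) := by
    intro i
    rw [Fin.sum_univ_three]
    simp only [Fin.isValue, if_true, one_ne_zero, if_false,
      show (2 : Fin 3) ≠ 0 by decide, show (2 : Fin 3) ≠ 1 by decide]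
    rcases lt_or_ge (y i) (x i) with h | h
    · rw [if_pos h, if_neg (not_le.mpr h)]; ring
    · rw [if_neg (not_lt.mpr h), if_pos h]; ring
  calc _ = ∏ i, ∑ c : Fin 3, (if c = 0 then (1 : ℝ) else if c = 1 then -1 else if y i < x i then 1 else 0) *
        (if c = 0 then y i else if c = 1 then x i else 1) :=
        prod_congr rfl fun i _ => h1 i
    _ = _ := by
        rw [prod_univ_sum, Fintype.piFinset_univ]
        apply sum_congr rfl
        intro c _
        rw [prod_mul_distrib]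
        rfl

end Pool.Agent.X122.PD
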