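import Pool.Agent.X122.PD6

set_option autoImplicit false

/-!
# The periodic discrepancy: averaging over the shifts
-/

namespace Pool.Agent.X122.PD

open Finset MeasureTheory Pool.Agent.H730R2.LU

/-- the local discrepancy, decomposed -/
noncomputable def Dc {d : ℕ} (N : ℕ) (P : Finset (Fin d → ℝ)) (x y : Fin d → ℝ) : ℝ :=
  ∑ c : Fin d → Fin 3, Sc x y c *
    (∑ z ∈ P, ∏ i, (if z i < Tc x y c i then (1 : ℝ) else 0) - N * ∏ i, Tc x y c i)

lemma Dc_eq {d : ℕ} (N : ℕ) (P : Finset (Fin d → ℝ)) (hP : ∀ z ∈ P, ∀ i, z i < 1)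
    (x y : Fin d → ℝ) [DecidablePred fun z : Fin d → ℝ => ∀ i : Fin d,
      (x i ≤ y i ∧ x i ≤ z i ∧ z i < y i) ∨ (y i < x i ∧ (z i < y i ∨ x i ≤ z i))] :
    ((P.filter (fun z : Fin d → ℝ => ∀ i : Fin d, (x i ≤ y i ∧ x i ≤ z i ∧ z i < y i) ∨
        (y i < x i ∧ (z i < y i ∨ x i ≤ z i)))).card : ℝ)
      - (N : ℝ) * ∏ i : Fin d, (if x i ≤ y i then y i - x i else 1 - x i + y i) =
    Dc N P x y := by
  classical
  have h1 : ((P.filter (fun z : Fin d → ℝ => ∀ i : Fin d, (x i ≤ y i ∧ x i ≤ z i ∧ z i < y i) ∨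
        (y i < x i ∧ (z i < y i ∨ x i ≤ z i)))).card : ℝ) =
      ∑ c : Fin d → Fin 3, Sc x y c *
        ∑ z ∈ P, ∏ i, (if z i < Tc x y c i then (1 : ℝ) else 0) := by
    rw [card_filter]
    push_cast
    simp_rw [mul_sum]
    rw [sum_comm]
    apply sum_congr rfl
    intro z hz
    rw [← indicator_dec x y z (hP z hz)]
    congr
  rw [h1, volume_dec, mul_sum, ← sum_sub_distrib]
  unfold Dc
  apply sum_congr rfl
  intro c _
  ring

lemma Tc_mem {d : ℕ} (x y : Fin d → ℝ) (hx : ∀ i, x i ∈ Set.Ico (0 : ℝ) 1)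
    (hy : ∀ i, y i ∈ Set.Ico (0 : ℝ) 1) (c : Fin d → Fin 3) (i : Fin d) :
    0 ≤ Tc x y c i ∧ Tc x y c i ≤ 1 := by
  unfold Tc
  split_ifs
  · exact ⟨(hy i).1, (hy i).2.le⟩
  · exact ⟨(hx i).1, (hx i).2.le⟩
  · exact ⟨zero_le_one, le_rfl⟩

lemma abs_Dc_le {d : ℕ} (N : ℕ) (P : Finset (Fin d → ℝ)) (x y : Fin d → ℝ) :
    |Dc N P x y| ≤ ∑ c : Fin d → Fin 3,
      |∑ z ∈ P, ∏ i, (if z i < Tc x y c i then (1 : ℝ) else 0) - N * ∏ i, Tc x y c i| := by
  unfold Dc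
  refine (abs_sum_le_sum_abs _ _).trans (sum_le_sum fun c _ => ?_)
  rw [abs_mul]
  exact mul_le_of_le_one_left (abs_nonneg _) (abs_Sc_le x y c)

lemma abs_Dc_crude {d : ℕ} (N : ℕ) (P : Finset (Fin d → ℝ)) (hP : P.card = N) (x y : Fin d → ℝ)
    (hx : ∀ i, x i ∈ Set.Ico (0 : ℝ) 1) (hy : ∀ i, y i ∈ Set.Ico (0 : ℝ) 1) :
    |Dc N P x y| ≤ 3 ^ d * (N : ℝ) := by
  refine (abs_Dc_le N P x y).trans ?_
  have h1 : ∀ c : Fin d → Fin 3,
      |∑ z ∈ P, ∏ i, (if z i < Tc x y c i then (1 : ℝ) else 0) - N * ∏ i, Tc x y c i| ≤ N := by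
    intro c
    have a1 : 0 ≤ ∑ z ∈ P, ∏ i, (if z i < Tc x y c i then (1 : ℝ) else 0) :=
      sum_nonneg fun z _ => prod_nonneg fun i _ => by split_ifs <;> norm_num
    have a2 : ∑ z ∈ P, ∏ i, (if z i < Tc x y c i then (1 : ℝ) else 0) ≤ N := by
      calc _ ≤ ∑ z ∈ P, (1 : ℝ) := by
            refine sum_le_sum fun z _ => prod_le_one (fun i _ => ?_) (fun i _ => ?_)
            · split_ifs <;> norm_num
            · split_ifs <;> norm_num
        _ = N := by rw [sum_const, hP, nsmul_eq_mul, mul_one]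
    have a3 : 0 ≤ ∏ i, Tc x y c i := prod_nonneg fun i _ => (Tc_mem x y hx hy c i).1
    have a4 : ∏ i, Tc x y c i ≤ 1 :=
      prod_le_one (fun i _ => (Tc_mem x y hx hy c i).1) (fun i _ => (Tc_mem x y hx hy c i).2)
    have hN : (0 : ℝ) ≤ N := Nat.cast_nonneg _
    rw [abs_le]
    constructor <;> nlinarith
  calc _ ≤ ∑ _c : Fin d → Fin 3, (N : ℝ) := sum_le_sum fun c _ => h1 c
    _ = _ := by
      simp only [sum_const, card_univ, Fintype.card_fun, Fintype.card_fin, nsmul_eq_mul]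
      push_cast
      ring

lemma measurable_Dc {d : ℕ} (N : ℕ) (P : Finset (Fin d → ℝ)) :
    Measurable (fun q : (Fin d → ℝ) × (Fin d → ℝ) => Dc N P q.1 q.2) := by
  have hT : ∀ (c : Fin d → Fin 3) (i : Fin d),
      Measurable (fun q : (Fin d → ℝ) × (Fin d → ℝ) => Tc q.1 q.2 c i) := by
    intro c i
    unfold Tc
    split_ifs
    · exact (measurable_pi_apply i).comp measurable_snd
    · exact (measurable_pi_apply i).comp measurable_fst
    · exact measurable_const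
  have hS : ∀ (c : Fin d → Fin 3),
      Measurable (fun q : (Fin d → ℝ) × (Fin d → ℝ) => Sc q.1 q.2 c) := by
    intro c
    unfold Sc
    apply Finset.measurable_prod
    intro i _
    split_ifs
    · exact measurable_const
    · exact measurable_const
    · exact Measurable.ite (measurableSet_lt ((measurable_pi_apply i).comp measurable_snd)
        ((measurable_pi_apply i).comp measurable_fst)) measurable_const measurable_const
  unfold Dc
  apply Finset.measurable_sum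
  intro c _
  apply (hS c).mul
  apply Measurable.sub
  · apply Finset.measurable_sum
    intro z _
    apply Finset.measurable_prod
    intro i _
    exact Measurable.ite (measurableSet_lt measurable_const (hT c i)) measurable_const
      measurable_const
  · apply measurable_const.mul
    apply Finset.measurable_prod
    intro i _
    exact hT c i

lemma sum_pow_le {ι : Type*} [Fintype ι] (m : ℕ) (x : ι → ℝ) (hx : ∀ i, 0 ≤ x i) :
    (∑ i, x i) ^ (m + 1) ≤ (Fintype.card ι : ℝ) ^ m * ∑ i, x i ^ (m + 1) := by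
  have h := wpow (univ : Finset ι) m (fun _ => 1) x (fun _ _ => one_pos) hx
  simpa using h

/-- the average over the shifts -/
lemma avg_bound (p k n m κ : ℕ) [Fact p.Prime] (hκ : 1 ≤ κ) (hm : 1 ≤ m) (hmN : m ≤ p ^ n)
    (H : Finset (Fin (k + 1) → DS p n)) (C : ℝ) (hC : 0 < C)
    (hmom : ∀ X : Fin (k + 1) → ℕ, (∀ i, X i ≤ p ^ n) →
        ∑ σ, (DX p (k + 1) n H X σ ^ 2) ^ κ ≤
          C * (((n : ℝ) + 1) ^ k) ^ κ * (p : ℝ) ^ (n * (k + 1)))
    (P : (Fin (k + 1) → DS p n) → Finset (Fin (k + 1) → ℝ))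
    (hP : ∀ σ, ∀ x : Fin (k + 1) → ℝ, (∀ i, x i ≤ 1) →
        ∑ z ∈ P σ, ∏ i, (if z i < x i then (1 : ℝ) else 0) =
          ∑ h ∈ H, ∏ i, ind p n (Xc k m (p ^ n) x i) (h i + σ i))
    (x y : Fin (k + 1) → ℝ) (hx : ∀ i, x i ∈ Set.Ico (0 : ℝ) 1)
    (hy : ∀ i, y i ∈ Set.Ico (0 : ℝ) 1) :
    ∑ σ, (Dc m (P σ) x y ^ 2) ^ κ ≤
      (3 ^ (k + 1) * 2) ^ (2 * κ) * (C + ((k : ℝ) + 1) ^ (2 * κ)) *
        (((n : ℝ) + 1) ^ k) ^ κ * (p : ℝ) ^ (n * (k + 1)) := by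
  obtain ⟨j, hj⟩ : ∃ j, 2 * κ = j + 1 := ⟨2 * κ - 1, by omega⟩
  have hpR : (0 : ℝ) < p := by exact_mod_cast (Fact.out : p.Prime).pos
  have hE1 : (1 : ℝ) ≤ (((n : ℝ) + 1) ^ k) ^ κ := by
    apply one_le_pow₀
    apply one_le_pow₀
    have : (0 : ℝ) ≤ n := Nat.cast_nonneg _
    linarith
  have h1 : ∀ σ c, |∑ z ∈ P σ, ∏ i, (if z i < Tc x y c i then (1 : ℝ) else 0)
      - m * ∏ i, Tc x y c i| ≤ |DX p (k + 1) n H (Xc k m (p ^ n) (Tc x y c)) σ| + (k + 1) := by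
    intro σ c
    have a1 := hP σ (Tc x y c) (fun i => (Tc_mem x y hx hy c i).2)
    have a2 := round_c k m (p ^ n) hm hmN (Tc x y c) (fun i => (Tc_mem x y hx hy c i).1)
      (fun i => (Tc_mem x y hx hy c i).2)
    rw [a1]
    have e : ∑ h ∈ H, ∏ i, ind p n (Xc k m (p ^ n) (Tc x y c) i) (h i + σ i)
        - m * ∏ i, Tc x y c i = DX p (k + 1) n H (Xc k m (p ^ n) (Tc x y c)) σ +
          ((p ^ n : ℕ) * ∏ i, ((Xc k m (p ^ n) (Tc x y c) i : ℝ) / (p ^ n : ℕ)) -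
            m * ∏ i, Tc x y c i) := by
      unfold DX
      push_cast
      ring
    rw [e]
    exact (abs_add_le _ _).trans (add_le_add le_rfl a2)
  have h2 : ∀ σ, (Dc m (P σ) x y ^ 2) ^ κ ≤ (3 ^ (k + 1)) ^ j *
      ∑ c : Fin (k + 1) → Fin 3, 2 ^ j *
        ((DX p (k + 1) n H (Xc k m (p ^ n) (Tc x y c)) σ ^ 2) ^ κ + ((k : ℝ) + 1) ^ (2 * κ)) := by
    intro σ
    rw [← pow_mul, ← Even.pow_abs (even_two_mul κ), hj]
    have b1 : |Dc m (P σ) x y| ≤ ∑ c : Fin (k + 1) → Fin 3,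
        (|DX p (k + 1) n H (Xc k m (p ^ n) (Tc x y c)) σ| + (k + 1)) :=
      (abs_Dc_le m (P σ) x y).trans (sum_le_sum fun c _ => h1 σ c)
    have b2 := sum_pow_le (ι := Fin (k + 1) → Fin 3) j
      (fun c => |DX p (k + 1) n H (Xc k m (p ^ n) (Tc x y c)) σ| + (k + 1))
      (fun c => by positivity)
    have b3 : (Fintype.card (Fin (k + 1) → Fin 3) : ℝ) = 3 ^ (k + 1) := by
      simp
    rw [b3] at b2
    refine (pow_le_pow_left₀ (abs_nonneg _) b1 _).trans (b2.trans ?_)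
    apply mul_le_mul_of_nonneg_left _ (by positivity)
    apply sum_le_sum
    intro c _
    have b4 := add_pow_le (abs_nonneg (DX p (k + 1) n H (Xc k m (p ^ n) (Tc x y c)) σ))
      (show (0 : ℝ) ≤ (k : ℝ) + 1 by positivity) (j + 1)
    rw [Nat.add_sub_cancel] at b4
    refine b4.trans (le_of_eq ?_)
    rw [← hj, Even.pow_abs (even_two_mul κ), pow_mul]
  calc ∑ σ, (Dc m (P σ) x y ^ 2) ^ κ
      ≤ ∑ σ : Fin (k + 1) → DS p n, (3 ^ (k + 1)) ^ j *
      ∑ c : Fin (k + 1) → Fin 3, 2 ^ j *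
        ((DX p (k + 1) n H (Xc k m (p ^ n) (Tc x y c)) σ ^ 2) ^ κ + ((k : ℝ) + 1) ^ (2 * κ)) :=
        sum_le_sum fun σ _ => h2 σ
    _ = (3 ^ (k + 1)) ^ j * (2 ^ j * ∑ c : Fin (k + 1) → Fin 3,
        (∑ σ, (DX p (k + 1) n H (Xc k m (p ^ n) (Tc x y c)) σ ^ 2) ^ κ +
          (p : ℝ) ^ (n * (k + 1)) * ((k : ℝ) + 1) ^ (2 * κ))) := by
        rw [← mul_sum, sum_comm]
        congr 1
        rw [mul_sum]
        apply sum_congr rfl
        intro c _
        rw [← mul_sum, sum_add_distrib, sum_const, card_univ, Fintype.card_fun, card_DS,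
          Fintype.card_fin, nsmul_eq_mul, pow_mul (p : ℝ) n (k + 1)]
        push_cast
        rfl
    _ ≤ (3 ^ (k + 1)) ^ j * (2 ^ j * ∑ _c : Fin (k + 1) → Fin 3,
        ((C + ((k : ℝ) + 1) ^ (2 * κ)) *
        (((n : ℝ) + 1) ^ k) ^ κ * (p : ℝ) ^ (n * (k + 1)))) := by
        apply mul_le_mul_of_nonneg_left _ (by positivity)
        apply mul_le_mul_of_nonneg_left _ (by positivity)
        apply sum_le_sum
        intro c _
        have c1 := hmom (Xc k m (p ^ n) (Tc x y c))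
          (Xc_le k m (p ^ n) hmN _ (fun i => (Tc_mem x y hx hy c i).2))
        have c2 : (p : ℝ) ^ (n * (k + 1)) * ((k : ℝ) + 1) ^ (2 * κ) ≤
            ((k : ℝ) + 1) ^ (2 * κ) * (((n : ℝ) + 1) ^ k) ^ κ * (p : ℝ) ^ (n * (k + 1)) := by
          have : (0 : ℝ) ≤ (p : ℝ) ^ (n * (k + 1)) * ((k : ℝ) + 1) ^ (2 * κ) := by positivity
          nlinarith
        calc _ ≤ C * (((n : ℝ) + 1) ^ k) ^ κ * (p : ℝ) ^ (n * (k + 1)) +
              ((k : ℝ) + 1) ^ (2 * κ) * (((n : ℝ) + 1) ^ k) ^ κ * (p : ℝ) ^ (n * (k + 1)) :=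
              add_le_add c1 c2
          _ = _ := by ring
    _ = (3 ^ (k + 1)) ^ (j + 1) * 2 ^ j * (C + ((k : ℝ) + 1) ^ (2 * κ)) *
        (((n : ℝ) + 1) ^ k) ^ κ * (p : ℝ) ^ (n * (k + 1)) := by
        rw [sum_const, card_univ, Fintype.card_fun, Fintype.card_fin, Fintype.card_fin,
          nsmul_eq_mul]
        push_cast
        ring
    _ ≤ _ := by
        rw [hj, mul_pow _ (2 : ℝ)]
        have d1 : (2 : ℝ) ^ j ≤ 2 ^ (j + 1) := pow_le_pow_right₀ (by norm_num) (Nat.le_succ j)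
        have d2 : (3 ^ (k + 1)) ^ (j + 1) * (2 : ℝ) ^ j ≤ (3 ^ (k + 1)) ^ (j + 1) * 2 ^ (j + 1) :=
          mul_le_mul_of_nonneg_left d1 (by positivity)
        have d3 : (0 : ℝ) ≤ (C + ((k : ℝ) + 1) ^ (j + 1)) := by positivity
        gcongr

lemma rpow_split (a M q : ℝ) (κ : ℕ) (ha : 0 ≤ a) (hM : 0 < M) (hq : 0 ≤ q) (hqκ : q ≤ 2 * κ) :
    a ^ q ≤ M ^ q + M ^ (q - 2 * κ) * (a ^ 2) ^ κ := by
  rcases le_or_gt a M with h | h
  · have h1 : a ^ q ≤ M ^ q := Real.rpow_le_rpow ha h hq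
    have h2 : 0 ≤ M ^ (q - 2 * κ) * (a ^ 2) ^ κ :=
      mul_nonneg (Real.rpow_nonneg hM.le _) (by positivity)
    linarith
  · have ha0 : 0 < a := hM.trans h
    have h1 : a ^ q = a ^ (q - 2 * κ) * (a ^ 2) ^ κ := by
      have e1 : (a ^ 2) ^ κ = a ^ ((2 * κ : ℝ)) := by
        rw [← pow_mul, ← Real.rpow_natCast]
        push_cast
        rfl
      rw [e1, ← Real.rpow_add ha0]
      congr 1
      ring
    rw [h1]
    have h2 : a ^ (q - 2 * κ) ≤ M ^ (q - 2 * κ) :=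
      Real.rpow_le_rpow_of_nonpos hM h.le (by linarith)
    have h3 := mul_le_mul_of_nonneg_right h2 (show 0 ≤ (a ^ 2) ^ κ by positivity)
    have h4 : 0 ≤ M ^ q := Real.rpow_nonneg hM.le _
    linarith

end Pool.Agent.X122.PD
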