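import Pool.Agent.X122.PD7

set_option autoImplicit false

/-!
# The periodic discrepancy: the upper bound for every number of points
-/

namespace Pool.Agent.X122.PD

open Finset MeasureTheory Pool.Agent.H730R2.LU

/-- the half-open unit cube -/
def cube (d : ℕ) : Set (Fin d → ℝ) := Set.pi Set.univ (fun _ : Fin d => Set.Ico (0 : ℝ) 1)

lemma measurableSet_cube (d : ℕ) : MeasurableSet (cube d) :=
  MeasurableSet.univ_pi fun _ => measurableSet_Ico

lemma volume_cube (d : ℕ) : (volume : Measure (Fin d → ℝ)) (cube d) = 1 := by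
  unfold cube
  rw [volume_pi_pi]
  simp

instance prob_cube (d : ℕ) : IsProbabilityMeasure ((volume : Measure (Fin d → ℝ)).restrict (cube d)) :=
  ⟨by rw [Measure.restrict_apply_univ]; exact volume_cube d⟩

lemma ae_cube (d : ℕ) (Q : (Fin d → ℝ) × (Fin d → ℝ) → Prop)
    (h : ∀ x y, (∀ i, x i ∈ Set.Ico (0 : ℝ) 1) → (∀ i, y i ∈ Set.Ico (0 : ℝ) 1) → Q (x, y)) :
    ∀ᵐ q ∂((volume.restrict (cube d)).prod (volume.restrict (cube d))), Q q := by
  rw [Measure.prod_restrict]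
  apply ae_restrict_of_forall_mem ((measurableSet_cube d).prod (measurableSet_cube d))
  rintro ⟨x, y⟩ hxy
  rw [Set.mem_prod] at hxy
  exact h x y (fun i => hxy.1 i (Set.mem_univ i)) (fun i => hxy.2 i (Set.mem_univ i))

lemma integrable_Dc {d : ℕ} (N : ℕ) (P : Finset (Fin d → ℝ)) (hP : P.card = N) (q : ℝ)
    (hq : 0 ≤ q) :
    Integrable (fun z : (Fin d → ℝ) × (Fin d → ℝ) => |Dc N P z.1 z.2| ^ q)
      ((volume.restrict (cube d)).prod (volume.restrict (cube d))) := by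
  apply Integrable.of_bound (C := (3 ^ d * (N : ℝ)) ^ q)
  · exact ((measurable_Dc N P).abs.pow_const q).aestronglyMeasurable
  · apply ae_cube
    intro x y hx hy
    rw [Real.norm_eq_abs, abs_of_nonneg (Real.rpow_nonneg (abs_nonneg _) _)]
    exact Real.rpow_le_rpow (abs_nonneg _) (abs_Dc_crude N P hP x y hx hy) hq

/-- choice of the shift -/
lemma exists_shift {ι : Type} [Fintype ι] [Nonempty ι] {d : ℕ} (N : ℕ)
    (P : ι → Finset (Fin d → ℝ)) (hP : ∀ σ, (P σ).card = N) (q : ℝ) (hq : 0 ≤ q) (B : ℝ)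
    (h : ∀ x y : Fin d → ℝ, (∀ i, x i ∈ Set.Ico (0 : ℝ) 1) → (∀ i, y i ∈ Set.Ico (0 : ℝ) 1) →
      ∑ σ, |Dc N (P σ) x y| ^ q ≤ Fintype.card ι * B) :
    ∃ σ, ∫ x in cube d, ∫ y in cube d, |Dc N (P σ) x y| ^ q ≤ B := by
  classical
  set μ := (volume : Measure (Fin d → ℝ)).restrict (cube d) with hμ
  have hint : ∀ σ, Integrable (fun z : (Fin d → ℝ) × (Fin d → ℝ) => |Dc N (P σ) z.1 z.2| ^ q)
      (μ.prod μ) := fun σ => integrable_Dc N (P σ) (hP σ) q hq
  have h1 : ∑ σ, ∫ x in cube d, ∫ y in cube d, |Dc N (P σ) x y| ^ q ≤ ∑ _σ : ι, B := by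
    calc ∑ σ, ∫ x in cube d, ∫ y in cube d, |Dc N (P σ) x y| ^ q
        = ∑ σ, ∫ z, |Dc N (P σ) z.1 z.2| ^ q ∂(μ.prod μ) := by
          apply sum_congr rfl
          intro σ _
          rw [integral_prod _ (hint σ)]
      _ = ∫ z, ∑ σ, |Dc N (P σ) z.1 z.2| ^ q ∂(μ.prod μ) := by
          rw [integral_finset_sum]
          intro σ _
          exact hint σ
      _ ≤ ∫ _z, (Fintype.card ι * B) ∂(μ.prod μ) := by
          apply integral_mono_ae (integrable_finset_sum _ fun σ _ => hint σ) (integrable_const _)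
          exact ae_cube d _ fun x y hx hy => h x y hx hy
      _ = ∑ _σ : ι, B := by
          rw [integral_const, sum_const, card_univ, nsmul_eq_mul]
          simp
  obtain ⟨σ, -, hσ⟩ := exists_le_of_sum_le univ_nonempty h1
  exact ⟨σ, hσ⟩

theorem exists_points (q : ℝ) (hq : 1 ≤ q) (k : ℕ) : ∃ C : ℝ, 0 < C ∧ ∀ N : ℕ,
    ∃ P : Finset (Fin (k + 1) → ℝ), P.card = N ∧ (∀ z ∈ P, ∀ i, z i ∈ Set.Ico (0 : ℝ) 1) ∧
      (∫ x in cube (k + 1), ∫ y in cube (k + 1), |Dc N P x y| ^ q) ^ (1 / q) ≤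
        C * (1 + Real.log (N : ℝ)) ^ ((k : ℝ) / 2) := by
  classical
  have hq0 : 0 < q := by linarith
  obtain ⟨p, hpk, hpp⟩ := Nat.exists_infinite_primes (k + 1)
  haveI : Fact p.Prime := ⟨hpp⟩
  have hpR : (0 : ℝ) < p := by exact_mod_cast hpp.pos
  obtain ⟨κ, hκ1, hκ⟩ : ∃ κ : ℕ, 1 ≤ κ ∧ q ≤ 2 * κ := by
    refine ⟨⌈q⌉₊, Nat.one_le_iff_ne_zero.mpr (Nat.ceil_pos.mpr hq0).ne', ?_⟩
    have := Nat.le_ceil q
    linarith
  obtain ⟨C₁, hC₁, hmom⟩ := moment p (k + 1) κ (by omega) hpk hκ1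
  obtain ⟨C₂, hC₂, hn⟩ := exists_n p hpp.two_le
  set K : ℝ := (3 ^ (k + 1) * 2) ^ (2 * κ) * (C₁ + ((k : ℝ) + 1) ^ (2 * κ)) with hK
  have hK0 : 0 < K := by positivity
  refine ⟨(1 + K) * C₂ ^ ((k : ℝ) / 2), by positivity, ?_⟩
  intro N
  rcases Nat.eq_zero_or_pos N with rfl | hN
  · refine ⟨∅, rfl, by simp, ?_⟩
    have h0 : ∀ x y : Fin (k + 1) → ℝ, |Dc 0 ∅ x y| ^ q = 0 := by
      intro x y
      unfold Dc
      simp [Real.zero_rpow hq0.ne']
    simp_rw [h0]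
    simp only [integral_zero]
    rw [Real.zero_rpow (by positivity)]
    simp only [Nat.cast_zero, Real.log_zero]
    positivity
  obtain ⟨n, hn1, hn2⟩ := hn (max N 2) (le_max_right _ _)
  have hNn : N ≤ p ^ n := (le_max_left _ _).trans hn1
  obtain ⟨H, hHc, hHb, hHm⟩ := hmom n
  rw [Nat.add_sub_cancel] at hHm
  have hpts := fun σ => exists_pts' p k n N hN hNn H hHb σ
  choose P hPc hPm hPs using hpts
  set M : ℝ := ((n : ℝ) + 1) ^ ((k : ℝ) / 2) with hM
  have hM0 : 0 < M := by positivity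
  have hE : (((n : ℝ) + 1) ^ k) ^ κ = M ^ ((2 * κ : ℝ)) := by
    rw [hM, ← Real.rpow_mul (by positivity), ← pow_mul, ← Real.rpow_natCast]
    congr 1
    push_cast
    ring
  have hcard : (Fintype.card (Fin (k + 1) → DS p n) : ℝ) = (p : ℝ) ^ (n * (k + 1)) := by
    rw [Fintype.card_fun, card_DS, Fintype.card_fin, ← pow_mul]
    push_cast
    rfl
  obtain ⟨σ, hσ⟩ := exists_shift N P hPc q hq0.le ((1 + K) * M ^ q) (by
    intro x y hx hy
    have h1 := avg_bound p k n N κ hκ1 hN hNn H C₁ hC₁ hHm P hPs x y hx hy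
    rw [← hK, hE] at h1
    have h2 : ∀ σ, |Dc N (P σ) x y| ^ q ≤
        M ^ q + M ^ (q - 2 * κ) * (Dc N (P σ) x y ^ 2) ^ κ := by
      intro σ
      have := rpow_split |Dc N (P σ) x y| M q κ (abs_nonneg _) hM0 hq0.le hκ
      rwa [sq_abs] at this
    calc ∑ σ, |Dc N (P σ) x y| ^ q
        ≤ ∑ σ, (M ^ q + M ^ (q - 2 * κ) * (Dc N (P σ) x y ^ 2) ^ κ) := sum_le_sum fun σ _ => h2 σ
      _ = (p : ℝ) ^ (n * (k + 1)) * M ^ q +
          M ^ (q - 2 * κ) * ∑ σ, (Dc N (P σ) x y ^ 2) ^ κ := by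
          rw [sum_add_distrib, sum_const, card_univ, nsmul_eq_mul, ← mul_sum, hcard]
      _ ≤ (p : ℝ) ^ (n * (k + 1)) * M ^ q +
          M ^ (q - 2 * κ) * (K * M ^ ((2 * κ : ℝ)) * (p : ℝ) ^ (n * (k + 1))) := by
          gcongr
      _ = _ := by
          rw [hcard]
          have e1 : M ^ (q - 2 * κ) * M ^ ((2 * κ : ℝ)) = M ^ q := by
            rw [← Real.rpow_add hM0]
            congr 1
            ring
          calc (p : ℝ) ^ (n * (k + 1)) * M ^ q +
              M ^ (q - 2 * κ) * (K * M ^ ((2 * κ : ℝ)) * (p : ℝ) ^ (n * (k + 1)))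
              = (p : ℝ) ^ (n * (k + 1)) * M ^ q +
                (M ^ (q - 2 * κ) * M ^ ((2 * κ : ℝ))) * K * (p : ℝ) ^ (n * (k + 1)) := by ring
            _ = _ := by rw [e1]; ring)
  refine ⟨P σ, hPc σ, hPm σ, ?_⟩
  have hI0 : 0 ≤ ∫ x in cube (k + 1), ∫ y in cube (k + 1), |Dc N (P σ) x y| ^ q :=
    integral_nonneg fun x => integral_nonneg fun y => Real.rpow_nonneg (abs_nonneg _) _
  have h3 : (∫ x in cube (k + 1), ∫ y in cube (k + 1), |Dc N (P σ) x y| ^ q) ^ (1 / q) ≤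
      (1 + K) * M := by
    calc _ ≤ ((1 + K) * M ^ q) ^ (1 / q) := Real.rpow_le_rpow hI0 hσ (by positivity)
      _ = (1 + K) ^ (1 / q) * M := by
          rw [Real.mul_rpow (by positivity) (by positivity), ← Real.rpow_mul hM0.le,
            mul_one_div_cancel hq0.ne', Real.rpow_one]
      _ ≤ (1 + K) ^ (1 : ℝ) * M := by
          apply mul_le_mul_of_nonneg_right _ hM0.le
          apply Real.rpow_le_rpow_of_exponent_le (by linarith)
          rw [div_le_one hq0]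
          exact hq
      _ = (1 + K) * M := by rw [Real.rpow_one]
  have hlog : Real.log ((max N 2 : ℕ) : ℝ) ≤ 1 + Real.log N := by
    rcases le_total 2 N with h | h
    · rw [max_eq_left h]; linarith
    · rw [max_eq_right h]
      have e1 : Real.log ((2 : ℕ) : ℝ) ≤ 1 := by
        have := Real.log_two_lt_d9
        push_cast
        linarith
      have e2 : 0 ≤ Real.log N := Real.log_natCast_nonneg N
      linarith
  have h4 : M ≤ C₂ ^ ((k : ℝ) / 2) * (1 + Real.log N) ^ ((k : ℝ) / 2) := by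
    have e2 : 0 ≤ Real.log N := Real.log_natCast_nonneg N
    rw [← Real.mul_rpow hC₂.le (by linarith), hM]
    apply Real.rpow_le_rpow (by positivity) _ (by positivity)
    exact hn2.trans (mul_le_mul_of_nonneg_left hlog hC₂.le)
  calc _ ≤ (1 + K) * M := h3
    _ ≤ (1 + K) * (C₂ ^ ((k : ℝ) / 2) * (1 + Real.log N) ^ ((k : ℝ) / 2)) :=
        mul_le_mul_of_nonneg_left h4 (by positivity)
    _ = _ := by ring

end Pool.Agent.X122.PD
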