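import Mathlib

set_option autoImplicit false

/-! # Root counts of all derivatives of a real monic quintic -/

namespace Pool.Agent.X122.RD

open Polynomial Topology

/-- The monic polynomial `x ^ d + ∑ a_j x ^ j`. -/
noncomputable def Q (d : ℕ) (a : Fin d → ℝ) : ℝ[X] := X ^ d + ∑ j : Fin d, C (a j) * X ^ (j : ℕ)

/-- The set of `a` such that the `ℓ`-th derivative of `Q_d` has a multiple real root
(this is `Δ_{d-ℓ}`). -/
def Disc (d ℓ : ℕ) : Set (Fin d → ℝ) :=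
  {a | ∃ x : ℝ, 2 ≤ (derivative^[ℓ] (Q d a)).rootMultiplicity x}

/-- The set `R_{4,d}`. -/
def R4 (d : ℕ) : Set (Fin d → ℝ) :=
  {a | (∀ ℓ : ℕ, ℓ < d → a ∉ Disc d ℓ) ∧ ∀ j : Fin d, a j ≠ 0}

/-- The number of positive roots. -/
noncomputable def pos (p : ℝ[X]) : ℕ := Set.ncard {x : ℝ | 0 < x ∧ p.eval x = 0}

/-- The number of negative roots. -/
noncomputable def neg (p : ℝ[X]) : ℕ := Set.ncard {x : ℝ | x < 0 ∧ p.eval x = 0}

/-- The set `R_{4,d}(τ)`. -/
def R4τ (d : ℕ) (τ : Fin d → ℕ × ℕ) : Set (Fin d → ℝ) :=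
  {a | a ∈ R4 d ∧ ∀ ℓ : Fin d, (pos (derivative^[ℓ] (Q d a)), neg (derivative^[ℓ] (Q d a))) = τ ℓ}

/-! ### Explicit derivatives for `d = 5` -/

def q0 (a : Fin 5 → ℝ) (x : ℝ) : ℝ := x ^ 5 + a 4 * x ^ 4 + a 3 * x ^ 3 + a 2 * x ^ 2 + a 1 * x + a 0
def q1 (a : Fin 5 → ℝ) (x : ℝ) : ℝ := 5 * x ^ 4 + 4 * a 4 * x ^ 3 + 3 * a 3 * x ^ 2 + 2 * a 2 * x + a 1
def q2 (a : Fin 5 → ℝ) (x : ℝ) : ℝ := 20 * x ^ 3 + 12 * a 4 * x ^ 2 + 6 * a 3 * x + 2 * a 2
def q3 (a : Fin 5 → ℝ) (x : ℝ) : ℝ := 60 * x ^ 2 + 24 * a 4 * x + 6 * a 3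
def q4 (a : Fin 5 → ℝ) (x : ℝ) : ℝ := 120 * x + 24 * a 4

/-- A quintic by its coefficients. -/
noncomputable def P (c5 c4 c3 c2 c1 c0 : ℝ) : ℝ[X] :=
  C c5 * X ^ 5 + C c4 * X ^ 4 + C c3 * X ^ 3 + C c2 * X ^ 2 + C c1 * X + C c0

lemma P_eval (c5 c4 c3 c2 c1 c0 x : ℝ) : (P c5 c4 c3 c2 c1 c0).eval x =
    c5 * x ^ 5 + c4 * x ^ 4 + c3 * x ^ 3 + c2 * x ^ 2 + c1 * x + c0 := by
  simp only [P, eval_add, eval_mul, eval_C, eval_pow, eval_X]

lemma P_der (c5 c4 c3 c2 c1 c0 : ℝ) : derivative (P c5 c4 c3 c2 c1 c0) =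
    P 0 (5 * c5) (4 * c4) (3 * c3) (2 * c2) c1 := by
  simp only [P, derivative_add, derivative_C_mul_X_pow, derivative_C_mul_X, derivative_C]
  norm_num
  ring

lemma Q5 (a : Fin 5 → ℝ) : Q 5 a = P 1 (a 4) (a 3) (a 2) (a 1) (a 0) := by
  have e0 : ((0 : Fin 5) : ℕ) = 0 := rfl
  have e1 : ((1 : Fin 5) : ℕ) = 1 := rfl
  have e2 : ((2 : Fin 5) : ℕ) = 2 := rfl
  have e3 : ((3 : Fin 5) : ℕ) = 3 := rfl
  have e4 : ((4 : Fin 5) : ℕ) = 4 := rfl
  simp only [Q, Fin.sum_univ_five, P, e0, e1, e2, e3, e4, pow_zero, mul_one, pow_one, C_1]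
  ring

lemma ev0 (a : Fin 5 → ℝ) (x : ℝ) : (derivative^[0] (Q 5 a)).eval x = q0 a x := by
  rw [Q5, Function.iterate_zero, id, P_eval, q0]; ring

lemma ev1 (a : Fin 5 → ℝ) (x : ℝ) : (derivative^[1] (Q 5 a)).eval x = q1 a x := by
  rw [Q5, Function.iterate_one, P_der, P_eval, q1]; ring

lemma D2 (a : Fin 5 → ℝ) : derivative^[2] (Q 5 a) =
    P 0 0 (20 * 1) (12 * a 4) (6 * a 3) (2 * a 2) := by
  rw [Q5, Function.iterate_succ_apply, Function.iterate_one, P_der, P_der]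
  congr 1 <;> ring

lemma ev2 (a : Fin 5 → ℝ) (x : ℝ) : (derivative^[2] (Q 5 a)).eval x = q2 a x := by
  rw [D2, P_eval, q2]; ring

lemma D3 (a : Fin 5 → ℝ) : derivative^[3] (Q 5 a) = P 0 0 0 60 (24 * a 4) (6 * a 3) := by
  rw [Function.iterate_succ_apply', D2, P_der]
  congr 1 <;> ring

lemma ev3 (a : Fin 5 → ℝ) (x : ℝ) : (derivative^[3] (Q 5 a)).eval x = q3 a x := by
  rw [D3, P_eval, q3]; ring

lemma D4 (a : Fin 5 → ℝ) : derivative^[4] (Q 5 a) = P 0 0 0 0 120 (24 * a 4) := by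
  rw [Function.iterate_succ_apply', D3, P_der]
  congr 1 <;> ring

lemma ev4 (a : Fin 5 → ℝ) (x : ℝ) : (derivative^[4] (Q 5 a)).eval x = q4 a x := by
  rw [D4, P_eval, q4]; ring

lemma ev5 (a : Fin 5 → ℝ) (x : ℝ) : (derivative^[5] (Q 5 a)).eval x = 120 := by
  rw [Function.iterate_succ_apply', D4, P_der, P_eval]; ring

lemma der_ne (a : Fin 5 → ℝ) (ℓ : ℕ) (h : ℓ < 5) : derivative^[ℓ] (Q 5 a) ≠ 0 := by
  intro h0
  have h1 : derivative^[5] (Q 5 a) = derivative^[5 - ℓ] (derivative^[ℓ] (Q 5 a)) := by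
    rw [← Function.iterate_add_apply, Nat.sub_add_cancel h.le]
  have h2 := ev5 a 0
  rw [h1, h0, Polynomial.iterate_derivative_zero] at h2
  simp at h2

lemma disc_iff (a : Fin 5 → ℝ) (ℓ : ℕ) (h : ℓ < 5) :
    a ∈ Disc 5 ℓ ↔ ∃ x : ℝ, (derivative^[ℓ] (Q 5 a)).eval x = 0 ∧
      (derivative^[ℓ + 1] (Q 5 a)).eval x = 0 := by
  unfold Disc
  simp only [Set.mem_ofPred_eq]
  constructor
  · rintro ⟨x, hx⟩
    have := (Polynomial.one_lt_rootMultiplicity_iff_isRoot (t := x) (der_ne a ℓ h)).1 (by omega)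
    exact ⟨x, this.1, by rw [Function.iterate_succ_apply']; exact this.2⟩
  · rintro ⟨x, hx1, hx2⟩
    refine ⟨x, ?_⟩
    have := (Polynomial.one_lt_rootMultiplicity_iff_isRoot (t := x) (der_ne a ℓ h)).2
      ⟨hx1, by rw [Function.iterate_succ_apply'] at hx2; exact hx2⟩
    omega

/-! ### The two open sets -/

def U : Set (Fin 5 → ℝ) := {a | ∃ x : ℝ, 0 ≤ x ∧ (∀ y ∈ Set.Icc 0 x, 0 < q1 a y) ∧ 0 < q0 a x}
def V : Set (Fin 5 → ℝ) := {a | ∃ x : ℝ, 0 ≤ x ∧ q1 a x < 0 ∧ ∀ y ∈ Set.Icc 0 x, q0 a y < 0}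

lemma isOpen_forall (f : (Fin 5 → ℝ) → ℝ → ℝ) (hf : Continuous fun p : (Fin 5 → ℝ) × ℝ => f p.1 p.2)
    (x : ℝ) : IsOpen {a | ∀ y ∈ Set.Icc 0 x, 0 < f a y} := by
  rw [isOpen_iff_eventually]
  intro a ha
  apply IsCompact.eventually_forall_of_forall_eventually isCompact_Icc
  intro y hy
  exact hf.continuousAt.eventually_const_lt (ha y hy)

lemma cont0 : Continuous fun p : (Fin 5 → ℝ) × ℝ => q0 p.1 p.2 := by unfold q0; fun_prop
lemma cont1 : Continuous fun p : (Fin 5 → ℝ) × ℝ => q1 p.1 p.2 := by unfold q1; fun_prop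

lemma isOpen_U : IsOpen U := by
  have : U = ⋃ x ∈ Set.Ici (0 : ℝ), ({a | ∀ y ∈ Set.Icc 0 x, 0 < q1 a y} ∩ {a | 0 < q0 a x}) := by
    ext a
    simp only [U, Set.mem_iUnion, Set.mem_inter_iff, Set.mem_ofPred_eq, Set.mem_Ici, exists_prop]
  rw [this]
  apply isOpen_biUnion
  intro x _
  apply (isOpen_forall q1 cont1 x).inter
  exact isOpen_lt continuous_const (by unfold q0; fun_prop)

lemma isOpen_V : IsOpen V := by
  have : V = ⋃ x ∈ Set.Ici (0 : ℝ), ({a | q1 a x < 0} ∩ {a | ∀ y ∈ Set.Icc 0 x, 0 < -q0 a y}) := by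
    ext a
    simp only [V, Set.mem_iUnion, Set.mem_inter_iff, Set.mem_ofPred_eq, Set.mem_Ici, exists_prop,
      Left.neg_pos_iff]
  rw [this]
  apply isOpen_biUnion
  intro x _
  apply IsOpen.inter
  · exact isOpen_lt (by unfold q1; fun_prop) continuous_const
  · exact isOpen_forall (fun a y => -q0 a y) cont0.neg x

lemma disjoint_UV (a : Fin 5 → ℝ) (hU : a ∈ U) (hV : a ∈ V) : False := by
  obtain ⟨x, hx, h1, h2⟩ := hU
  obtain ⟨x', hx', h3, h4⟩ := hV
  rcases le_total x x' with h | h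
  · have := h4 x ⟨hx, h⟩; linarith
  · have := h1 x' ⟨hx', h⟩; linarith

/-- A point without multiple roots and with a positive critical point lies in one of the sets. -/
lemma cover (a : Fin 5 → ℝ) (ha : a ∈ R4 5) (hpos : {x : ℝ | 0 < x ∧ q1 a x = 0}.Nonempty)
    (hfin : {x : ℝ | 0 < x ∧ q1 a x = 0}.Finite) (h1 : ¬ a 1 < 0) : a ∈ U ∨ a ∈ V := by
  obtain ⟨c, ⟨hc0, hc1⟩, hmin⟩ := Set.exists_min_image _ id hfin hpos
  simp only [id] at hmin
  have ha1 : 0 < a 1 := lt_of_le_of_ne (not_lt.1 h1) (ha.2 1).symm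
  have hcont1 : Continuous (q1 a) := by unfold q1; fun_prop
  have hcont0 : Continuous (q0 a) := by unfold q0; fun_prop
  -- `q1 > 0` on `[0, c)`
  have hq1 : ∀ x, 0 ≤ x → x < c → 0 < q1 a x := by
    intro x hx hxc
    by_contra hcon
    push Not at hcon
    have h0 : 0 < q1 a 0 := by simp [q1, ha1]
    obtain ⟨y, hy, hy0⟩ := intermediate_value_Icc' hx hcont1.continuousOn ⟨hcon, h0.le⟩
    have hypos : 0 < y := by
      rcases lt_or_eq_of_le hy.1 with h | h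
      · exact h
      · rw [← h] at hy0; linarith
    have := hmin y ⟨hypos, hy0⟩
    linarith [hy.2]
  -- no common zeros
  have hn0 : q0 a c ≠ 0 := by
    intro h
    exact ha.1 0 (by norm_num) ((disc_iff a 0 (by norm_num)).2 ⟨c, by rw [ev0]; exact h,
      by rw [ev1]; exact hc1⟩)
  have hn2 : q2 a c ≠ 0 := by
    intro h
    exact ha.1 1 (by norm_num) ((disc_iff a 1 (by norm_num)).2 ⟨c, by rw [ev1]; exact hc1,
      by rw [ev2]; exact h⟩)
  rcases lt_or_gt_of_ne hn0 with h | h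
  · right
    -- the quotient of `q1` by `x - c`
    set g : ℝ → ℝ := fun x => 5 * (x ^ 3 + x ^ 2 * c + x * c ^ 2 + c ^ 3) +
      4 * a 4 * (x ^ 2 + x * c + c ^ 2) + 3 * a 3 * (x + c) + 2 * a 2 with hg
    have hgc : g c = q2 a c := by simp only [hg, q2]; ring
    have hfac : ∀ x, q1 a x = (x - c) * g x := by
      intro x
      have : q1 a x = q1 a x - q1 a c := by rw [hc1, sub_zero]
      rw [this]; simp only [hg, q1]; ring
    have hgcont : Continuous g := by rw [hg]; fun_prop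
    have hq2neg : q2 a c < 0 := by
      rcases lt_or_gt_of_ne hn2 with h2 | h2
      · exact h2
      · exfalso
        have ev : ∀ᶠ x in 𝓝[<] c, 0 < g x :=
          (hgcont.continuousAt.eventually_const_lt (by rw [hgc]; exact h2)).filter_mono
            nhdsWithin_le_nhds
        have ev' : ∀ᶠ x in 𝓝[<] c, x ∈ Set.Ioo 0 c := Ioo_mem_nhdsLT hc0
        obtain ⟨x, hx1, hx2⟩ := (ev.and ev').exists
        have := hq1 x hx2.1.le hx2.2
        rw [hfac] at this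
        nlinarith [hx2.2]
    have ev1' : ∀ᶠ x in 𝓝 c, g x < 0 :=
      hgcont.continuousAt.eventually_lt_const (by rw [hgc]; exact hq2neg)
    have ev2' : ∀ᶠ x in 𝓝 c, q0 a x < 0 := hcont0.continuousAt.eventually_lt_const h
    obtain ⟨η, hη, hball⟩ := Metric.eventually_nhds_iff.1 (ev1'.and ev2')
    refine ⟨c + η / 2, by linarith, ?_, ?_⟩
    · rw [hfac]
      have := (hball (y := c + η / 2) (by rw [Real.dist_eq]; rw [abs_of_pos] <;> linarith)).1
      nlinarith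
    · intro y hy
      rcases le_or_gt y c with hyc | hyc
      · -- monotone on `[0, c]`
        have hmono : MonotoneOn (q0 a) (Set.Icc 0 c) := by
          apply monotoneOn_of_deriv_nonneg (convex_Icc 0 c) hcont0.continuousOn
          · intro x _
            unfold q0
            fun_prop
          · intro x hx
            rw [interior_Icc] at hx
            have hd : HasDerivAt (q0 a) (q1 a x) x := by
              have h5 := (Polynomial.hasDerivAt (derivative^[0] (Q 5 a)) x)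
              have h6 : (fun x => (derivative^[0] (Q 5 a)).eval x) = q0 a := by
                funext x; exact ev0 a x
              rw [h6] at h5
              have h7 : (derivative (derivative^[0] (Q 5 a))).eval x = q1 a x := ev1 a x
              rw [h7] at h5
              exact h5
            rw [hd.deriv]
            exact (hq1 x hx.1.le hx.2).le
        have := hmono ⟨hy.1, hyc⟩ ⟨hc0.le, le_rfl⟩ hyc
        linarith
      · exact (hball (y := y) (by rw [Real.dist_eq, abs_of_pos (by linarith)]; linarith [hy.2])).2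
  · left
    have ev1' : ∀ᶠ x in 𝓝[<] c, 0 < q0 a x :=
      (hcont0.continuousAt.eventually_const_lt h).filter_mono nhdsWithin_le_nhds
    have ev' : ∀ᶠ x in 𝓝[<] c, x ∈ Set.Ioo 0 c := Ioo_mem_nhdsLT hc0
    obtain ⟨x, hx1, hx2⟩ := (ev1'.and ev').exists
    exact ⟨x, hx2.1.le, fun y hy => hq1 y hy.1 (hy.2.trans_lt hx2.2), hx1⟩

end Pool.Agent.X122.RD
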