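import Pool.Agent.X122.RD1

set_option autoImplicit false

/-! # Two quintics with the same root counts in different components -/

namespace Pool.Agent.X122.RD

open Polynomial Topology

def AB (s : ℝ) : Fin 5 → ℝ := ![-48 + s, 160, -180, 80, -15]

lemma AB0 (s : ℝ) : AB s 0 = -48 + s := rfl
lemma AB1 (s : ℝ) : AB s 1 = 160 := rfl
lemma AB2 (s : ℝ) : AB s 2 = -180 := rfl
lemma AB3 (s : ℝ) : AB s 3 = 80 := rfl
lemma AB4 (s : ℝ) : AB s 4 = -15 := rfl

lemma q0AB (s x : ℝ) : q0 (AB s) x = (x - 3) * ((x - 3) ^ 2 - 5) ^ 2 + s := by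
  rw [q0, AB0, AB1, AB2, AB3, AB4]; ring
lemma q1AB (s x : ℝ) : q1 (AB s) x = 5 * (((x - 3) ^ 2 - 1) * ((x - 3) ^ 2 - 5)) := by
  rw [q1, AB1, AB2, AB3, AB4]; ring
lemma q2AB (s x : ℝ) : q2 (AB s) x = 20 * ((x - 3) * ((x - 3) ^ 2 - 3)) := by
  rw [q2, AB2, AB3, AB4]; ring
lemma q3AB (s x : ℝ) : q3 (AB s) x = 60 * ((x - 3) ^ 2 - 1) := by
  rw [q3, AB3, AB4]; ring
lemma q4AB (s x : ℝ) : q4 (AB s) x = 120 * (x - 3) := by
  rw [q4, AB4]; ring

lemma mem_R4 (s : ℝ) (hs : s = 8 ∨ s = -8) : AB s ∈ R4 5 := by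
  constructor
  · intro ℓ hℓ
    rw [disc_iff _ _ hℓ]
    rintro ⟨x, h1, h2⟩
    interval_cases ℓ
    · rw [ev0, q0AB] at h1
      rw [ev1, q1AB] at h2
      set Y := x - 3
      rcases mul_eq_zero.1 ((mul_eq_zero.1 h2).resolve_left (by norm_num)) with h | h
      · have hY : (Y - 1) * (Y + 1) = 0 := by linear_combination h
        rcases mul_eq_zero.1 hY with h3 | h3
        · have : Y = 1 := by linarith
          rw [this] at h1; rcases hs with rfl | rfl <;> norm_num at h1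
        · have : Y = -1 := by linarith
          rw [this] at h1; rcases hs with rfl | rfl <;> norm_num at h1
      · rw [h] at h1; rcases hs with rfl | rfl <;> norm_num at h1
    · rw [ev1, q1AB] at h1
      rw [ev2, q2AB] at h2
      set Y := x - 3
      rcases mul_eq_zero.1 ((mul_eq_zero.1 h1).resolve_left (by norm_num)) with h | h <;>
      rcases mul_eq_zero.1 ((mul_eq_zero.1 h2).resolve_left (by norm_num)) with h3 | h3
      · rw [h3] at h; norm_num at h
      · linarith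
      · rw [h3] at h; norm_num at h
      · linarith
    · rw [ev2, q2AB] at h1
      rw [ev3, q3AB] at h2
      set Y := x - 3
      rcases mul_eq_zero.1 ((mul_eq_zero.1 h1).resolve_left (by norm_num)) with h | h
      · rw [h] at h2; norm_num at h2
      · linarith
    · rw [ev3, q3AB] at h1
      rw [ev4, q4AB] at h2
      set Y := x - 3
      have : Y = 0 := by linarith
      rw [this] at h1; norm_num at h1
    · rw [ev5] at h2
      norm_num at h2
  · intro j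
    fin_cases j
    · show AB s 0 ≠ 0
      rw [AB0]; rcases hs with rfl | rfl <;> norm_num
    · show AB s 1 ≠ 0
      rw [AB1]; norm_num
    · show AB s 2 ≠ 0
      rw [AB2]; norm_num
    · show AB s 3 ≠ 0
      rw [AB3]; norm_num
    · show AB s 4 ≠ 0
      rw [AB4]; norm_num

lemma root_mem (s : ℝ) (hs : s = 8 ∨ s = -8) (x : ℝ) (h : q0 (AB s) x = 0) : 0 < x ∧ x < 6 := by
  rw [q0AB] at h
  have hs1 : |s| ≤ 8 := by rcases hs with rfl | rfl <;> norm_num
  have hs2 := abs_le.1 hs1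
  constructor
  · by_contra hcon
    push Not at hcon
    have h1 : 3 ≤ -(x - 3) := by linarith
    have h2 : 4 ≤ (x - 3) ^ 2 - 5 := by nlinarith
    have h3 : 16 ≤ ((x - 3) ^ 2 - 5) ^ 2 := by nlinarith
    nlinarith
  · by_contra hcon
    push Not at hcon
    have h1 : 3 ≤ x - 3 := by linarith
    have h2 : 4 ≤ (x - 3) ^ 2 - 5 := by nlinarith
    have h3 : 16 ≤ ((x - 3) ^ 2 - 5) ^ 2 := by nlinarith
    nlinarith

lemma neg_zero' (s : ℝ) (hs : s = 8 ∨ s = -8) : neg (derivative^[0] (Q 5 (AB s))) = 0 := by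
  unfold neg
  have : {x : ℝ | x < 0 ∧ (derivative^[0] (Q 5 (AB s))).eval x = 0} = ∅ := by
    ext x
    simp only [Set.mem_ofPred_eq, Set.mem_empty_iff_false, iff_false, not_and]
    intro hx h
    rw [ev0] at h
    have := (root_mem s hs x h).1
    linarith
  rw [this, Set.ncard_empty]

lemma pos_eq : pos (derivative^[0] (Q 5 (AB (-8)))) = pos (derivative^[0] (Q 5 (AB 8))) := by
  unfold pos
  have : {x : ℝ | 0 < x ∧ (derivative^[0] (Q 5 (AB (-8)))).eval x = 0} =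
      (fun x => 6 - x) '' {x : ℝ | 0 < x ∧ (derivative^[0] (Q 5 (AB 8))).eval x = 0} := by
    ext x
    simp only [Set.mem_image, Set.mem_ofPred_eq, ev0]
    constructor
    · rintro ⟨_, h⟩
      have h1 : q0 (AB 8) (6 - x) = 0 := by
        rw [q0AB] at h ⊢
        linear_combination -h
      exact ⟨6 - x, ⟨(root_mem 8 (Or.inl rfl) _ h1).1, h1⟩, by ring⟩
    · rintro ⟨y, ⟨_, h⟩, rfl⟩
      have h1 : q0 (AB (-8)) (6 - y) = 0 := by
        rw [q0AB] at h ⊢
        linear_combination -h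
      exact ⟨(root_mem (-8) (Or.inr rfl) _ h1).1, h1⟩
  rw [this, Set.ncard_image_of_injective]
  intro a b h
  simpa using h

/-- The common tuple of root counts. -/
noncomputable def τ₀ : Fin 5 → ℕ × ℕ :=
  fun ℓ => (pos (derivative^[ℓ] (Q 5 (AB 8))), neg (derivative^[ℓ] (Q 5 (AB 8))))

lemma memA : AB 8 ∈ R4τ 5 τ₀ := ⟨mem_R4 8 (Or.inl rfl), fun _ => rfl⟩

lemma der_eq (ℓ : ℕ) (h : 1 ≤ ℓ) :
    derivative^[ℓ] (Q 5 (AB (-8))) = derivative^[ℓ] (Q 5 (AB 8)) := by
  obtain ⟨m, rfl⟩ := Nat.exists_eq_add_of_le' h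
  rw [Function.iterate_succ_apply, Function.iterate_succ_apply]
  congr 1
  rw [Q5, Q5, P_der, P_der]
  rfl

lemma memB : AB (-8) ∈ R4τ 5 τ₀ := by
  refine ⟨mem_R4 (-8) (Or.inr rfl), ?_⟩
  intro ℓ
  unfold τ₀
  rcases Nat.eq_zero_or_pos (ℓ : ℕ) with h | h
  · rw [h, pos_eq, neg_zero' (-8) (Or.inr rfl), neg_zero' 8 (Or.inl rfl)]
  · rw [der_eq ℓ h]

lemma A_mem_U : AB 8 ∈ U := by
  refine ⟨3 / 4, by norm_num, ?_, ?_⟩
  · intro y hy
    rw [q1AB]
    have h1 : y - 3 ≤ -(9 / 4) := by linarith [hy.2]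
    have h2 : 5 < (y - 3) ^ 2 := by nlinarith
    have h3 : 0 < (y - 3) ^ 2 - 1 := by linarith
    have h4 : 0 < (y - 3) ^ 2 - 5 := by linarith
    positivity
  · rw [q0AB]; norm_num

lemma B_mem_V : AB (-8) ∈ V := by
  refine ⟨1, by norm_num, ?_, ?_⟩
  · rw [q1AB]; norm_num
  · intro y hy
    rw [q0AB]
    have h1 : y - 3 < 0 := by linarith [hy.2]
    have h2 : 0 ≤ ((y - 3) ^ 2 - 5) ^ 2 := sq_nonneg _
    nlinarith

lemma fin_roots (a : Fin 5 → ℝ) : {x : ℝ | 0 < x ∧ q1 a x = 0}.Finite := by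
  have h1 : derivative^[1] (Q 5 a) ≠ 0 := der_ne a 1 (by norm_num)
  apply ((derivative^[1] (Q 5 a)).roots.toFinset.finite_toSet).subset
  intro x hx
  simp only [Set.mem_ofPred_eq] at hx
  simp only [Finset.mem_coe, Multiset.mem_toFinset, Polynomial.mem_roots h1, Polynomial.IsRoot.def,
    ev1]
  exact hx.2

lemma hcov : R4τ 5 τ₀ ⊆ U ∪ (V ∪ {a : Fin 5 → ℝ | a 1 < 0}) := by
  intro a ha
  by_cases h1 : a 1 < 0
  · exact Or.inr (Or.inr h1)
  · have hcount : pos (derivative^[1] (Q 5 a)) = pos (derivative^[1] (Q 5 (AB 8))) := by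
      have := ha.2 1
      exact (Prod.ext_iff.1 this).1
    have hset : ∀ a : Fin 5 → ℝ, pos (derivative^[1] (Q 5 a)) =
        Set.ncard {x : ℝ | 0 < x ∧ q1 a x = 0} := by
      intro a
      unfold pos
      simp only [ev1]
    rw [hset, hset] at hcount
    have hne : {x : ℝ | 0 < x ∧ q1 (AB 8) x = 0}.Nonempty := ⟨2, by norm_num, by
      rw [q1AB]; norm_num⟩
    have h2 : Set.ncard {x : ℝ | 0 < x ∧ q1 (AB 8) x = 0} ≠ 0 := by
      intro h0
      rw [Set.ncard_eq_zero (fin_roots _)] at h0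
      rw [h0] at hne
      exact Set.not_nonempty_empty hne
    rw [← hcount] at h2
    have h3 : {x : ℝ | 0 < x ∧ q1 a x = 0}.Nonempty := Set.nonempty_of_ncard_ne_zero h2
    rcases cover a ha.1 h3 (fin_roots a) h1 with h | h
    · exact Or.inl h
    · exact Or.inr (Or.inl h)

theorem no_connected (S : Set (Fin 5 → ℝ)) (hS : S ⊆ R4τ 5 τ₀) (hpre : IsPreconnected S)
    (hA : AB 8 ∈ S) (hB : AB (-8) ∈ S) : False := by
  have hVopen : IsOpen (V ∪ {a : Fin 5 → ℝ | a 1 < 0}) :=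
    isOpen_V.union (isOpen_lt (by fun_prop) continuous_const)
  have key := hpre U (V ∪ {a : Fin 5 → ℝ | a 1 < 0}) isOpen_U hVopen (hS.trans hcov)
    ⟨AB 8, hA, A_mem_U⟩ ⟨AB (-8), hB, Or.inl B_mem_V⟩
  obtain ⟨a, _, haU, haV⟩ := key
  rcases haV with h | h
  · exact disjoint_UV a haU h
  · obtain ⟨x, hx, h1, _⟩ := haU
    have h2 := h1 0 ⟨le_rfl, hx⟩
    have h3 : q1 a 0 = a 1 := by unfold q1; ring
    rw [h3] at h2
    exact lt_asymm h h2

lemma AB_pos : AB 8 = ![-40, 160, -180, 80, -15] := by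
  unfold AB; norm_num

lemma AB_neg : AB (-8) = ![-56, 160, -180, 80, -15] := by
  unfold AB; norm_num

end Pool.Agent.X122.RD
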