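import Mathlib

/-! Topological core for MP_7a056a_gt. -/

namespace X122SK

open Set Topology

/-- core: passing the square property to the inverse limit -/
lemma core {P Q : Type*} [TopologicalSpace P] [CompactSpace P] [T2Space P]
    [TopologicalSpace Q] [CompactSpace Q] [T2Space Q]
    {Pn Qn : ℕ → Type*} [∀ n, TopologicalSpace (Pn n)] [∀ n, CompactSpace (Pn n)] [∀ n, T2Space (Pn n)]
    [∀ n, TopologicalSpace (Qn n)] [∀ n, CompactSpace (Qn n)] [∀ n, T2Space (Qn n)]
    (π : ∀ n, P → Pn n) (q : ∀ n, Q → Qn n)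
    (a : ∀ n m, n ≤ m → Pn m → Pn n) (b : ∀ n m, n ≤ m → Qn m → Qn n)
    (g : ∀ n, Pn n → Qn n) (h : P → Q)
    (cπ : ∀ n, Continuous (π n)) (cq : ∀ n, Continuous (q n))
    (ca : ∀ n m hnm, Continuous (a n m hnm))
    (cg : ∀ n, Continuous (g n)) (ch : Continuous h)
    (sπ : ∀ n, Function.Surjective (π n)) (sq : ∀ n, Function.Surjective (q n))
    (ha : ∀ n m hnm x, a n m hnm (π m x) = π n x) (hb : ∀ n m hnm x, b n m hnm (q m x) = q n x)
    (hg : ∀ n x, g n (π n x) = q n (h x))
    (sepP : ∀ x x', (∀ n, π n x = π n x') → x = x') (sepQ : ∀ y y', (∀ n, q n y = q n y') → y = y')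
    (hsq : ∀ n m hnm (U : Set (Pn n)), IsOpen U → U.Nonempty →
      ∃ V : Set (Qn n), IsOpen V ∧ V.Nonempty ∧ V ⊆ g n '' U ∧ b n m hnm ⁻¹' V ⊆ g m '' (a n m hnm ⁻¹' U))
    (hbs : ∀ n m hnm (U : Set (Qn m)), IsOpen U → U.Nonempty →
      ∃ V : Set (Qn n), IsOpen V ∧ V.Nonempty ∧ V ⊆ b n m hnm '' U)
    (W : Set P) (hW : IsOpen W) (hWne : W.Nonempty) :
    ∃ O : Set Q, IsOpen O ∧ O.Nonempty ∧ O ⊆ h '' W := by
  classical
  -- basis argument, valid for both sides
  have basisP : ∀ x0 ∈ W, ∀ k, ∃ n, k ≤ n ∧ ∀ x, π n x = π n x0 → x ∈ W := by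
    intro x0 hx0 k
    by_contra hcon
    push Not at hcon
    have hne : (⋂ n, ({x | π (k + n) x = π (k + n) x0} ∩ Wᶜ)).Nonempty := by
      apply IsCompact.nonempty_iInter_of_sequence_nonempty_isCompact_isClosed
      · intro n x hx
        refine ⟨?_, hx.2⟩
        have h1 : π (k + (n + 1)) x = π (k + (n + 1)) x0 := hx.1
        show π (k + n) x = π (k + n) x0
        rw [← ha (k + n) (k + (n + 1)) (by omega) x, h1, ha]
      · intro n
        obtain ⟨x, hx1, hx2⟩ := hcon (k + n) (by omega)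
        exact ⟨x, hx1, hx2⟩
      · exact ((isClosed_eq (cπ _) continuous_const).inter hW.isClosed_compl).isCompact
      · intro n
        exact (isClosed_eq (cπ _) continuous_const).inter hW.isClosed_compl
    obtain ⟨x, hx⟩ := hne
    rw [mem_iInter] at hx
    have : x = x0 := by
      apply sepP
      intro n
      have h1 : π (k + n) x = π (k + n) x0 := (hx n).1
      rw [← ha n (k + n) (by omega) x, h1, ha]
    exact (hx 0).2 (this ▸ hx0)
  have basisQ : ∀ (W' : Set Q), IsOpen W' → ∀ y0 ∈ W', ∀ k, ∃ n, k ≤ n ∧ ∀ y, q n y = q n y0 → y ∈ W' := by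
    intro W' hW' y0 hy0 k
    by_contra hcon
    push Not at hcon
    have hne : (⋂ n, ({x | q (k + n) x = q (k + n) y0} ∩ W'ᶜ)).Nonempty := by
      apply IsCompact.nonempty_iInter_of_sequence_nonempty_isCompact_isClosed
      · intro n x hx
        refine ⟨?_, hx.2⟩
        have h1 : q (k + (n + 1)) x = q (k + (n + 1)) y0 := hx.1
        show q (k + n) x = q (k + n) y0
        rw [← hb (k + n) (k + (n + 1)) (by omega) x, h1, hb]
      · intro n
        obtain ⟨x, hx1, hx2⟩ := hcon (k + n) (by omega)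
        exact ⟨x, hx1, hx2⟩
      · exact ((isClosed_eq (cq _) continuous_const).inter hW'.isClosed_compl).isCompact
      · intro n
        exact (isClosed_eq (cq _) continuous_const).inter hW'.isClosed_compl
    obtain ⟨x, hx⟩ := hne
    rw [mem_iInter] at hx
    have : x = y0 := by
      apply sepQ
      intro n
      have h1 : q (k + n) x = q (k + n) y0 := (hx n).1
      rw [← hb n (k + n) (by omega) x, h1, hb]
    exact (hx 0).2 (this ▸ hy0)
  -- the maps q n are skeletal
  have skq : ∀ n (W' : Set Q), IsOpen W' → W'.Nonempty → ∃ V : Set (Qn n), IsOpen V ∧ V.Nonempty ∧ V ⊆ q n '' W' := by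
    intro n W' hW' ⟨y0, hy0⟩
    obtain ⟨m, hnm, hm⟩ := basisQ W' hW' y0 hy0 n
    set U : Set (Qn m) := (q m '' W'ᶜ)ᶜ with hU
    have hUo : IsOpen U := (hW'.isClosed_compl.isCompact.image (cq m)).isClosed.isOpen_compl
    have hUy : q m y0 ∈ U := by
      rintro ⟨y, hy, he⟩
      exact hy (hm y he)
    obtain ⟨V, hVo, hVne, hV⟩ := hbs n m hnm U hUo ⟨_, hUy⟩
    refine ⟨V, hVo, hVne, fun v hv => ?_⟩
    obtain ⟨u, hu, rfl⟩ := hV hv
    obtain ⟨y, rfl⟩ := sq m u
    refine ⟨y, ?_, (hb n m hnm y).symm⟩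
    by_contra hy
    exact hu ⟨y, hy, rfl⟩
  -- choose the level n and the open set U
  obtain ⟨x0, hx0⟩ := hWne
  obtain ⟨n, -, hn⟩ := basisP x0 hx0 0
  set U : Set (Pn n) := (π n '' Wᶜ)ᶜ with hU
  have hUo : IsOpen U := (hW.isClosed_compl.isCompact.image (cπ n)).isClosed.isOpen_compl
  have hUx : π n x0 ∈ U := by
    rintro ⟨x, hx, he⟩
    exact hx (hn x he)
  obtain ⟨C, hCn, hCc, hCU⟩ := exists_mem_nhds_isClosed_subset (hUo.mem_nhds hUx)
  set U' : Set (Pn n) := interior C with hU'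
  have hU'ne : U'.Nonempty := ⟨_, mem_interior_iff_mem_nhds.2 hCn⟩
  have hU'o : IsOpen U' := isOpen_interior
  set K := closure U' with hK
  have hKc : IsClosed K := isClosed_closure
  have hKU : K ⊆ U := (closure_minimal interior_subset hCc).trans hCU
  set O : Set (Qn n) := interior (g n '' K) with hO
  have hOne : O.Nonempty := by
    obtain ⟨V, hVo, ⟨v, hv⟩, hV, -⟩ := hsq n n le_rfl U' hU'o hU'ne
    exact ⟨v, mem_interior.2 ⟨V, hV.trans (image_mono subset_closure), hVo, hv⟩⟩
  -- the sets G m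
  let G : ℕ → Set Q := fun m => if hnm : n ≤ m then {y | q m y ∈ g m '' (a n m hnm ⁻¹' K)} else univ
  have hGc : ∀ m, IsClosed (G m) := by
    intro m
    by_cases hnm : n ≤ m
    · simp only [G, hnm, dif_pos]
      have : IsClosed (g m '' (a n m hnm ⁻¹' K)) :=
        ((hKc.preimage (ca n m hnm)).isCompact.image (cg m)).isClosed
      exact this.preimage (cq m)
    · simp only [G, hnm, dif_neg, not_false_eq_true]
      exact isClosed_univ
  have hGO : ∀ m, q n ⁻¹' O ⊆ G m := by
    intro m y hy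
    by_cases hnm : n ≤ m
    · rw [← (hGc m).closure_eq]
      rw [mem_closure_iff]
      intro N hN hyN
      -- skeletality of q n on N ∩ q n ⁻¹ O
      obtain ⟨V1, hV1o, hV1ne, hV1⟩ := skq n (N ∩ q n ⁻¹' O) (hN.inter (isOpen_interior.preimage (cq n))) ⟨y, hyN, hy⟩
      have hV1O : V1 ⊆ g n '' K := by
        intro v hv
        obtain ⟨z, hz, rfl⟩ := hV1 hv
        exact interior_subset hz.2
      have hmeet : ((g n ⁻¹' V1) ∩ U').Nonempty := by
        obtain ⟨v, hv⟩ := hV1ne
        obtain ⟨k, hk, hkv⟩ := hV1O hv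
        rw [hK, mem_closure_iff] at hk
        exact hk (g n ⁻¹' V1) (hV1o.preimage (cg n)) (by rw [mem_preimage, hkv]; exact hv)
      obtain ⟨V, hVo, hVne, hV2, hV3⟩ := hsq n m hnm (g n ⁻¹' V1 ∩ U') ((hV1o.preimage (cg n)).inter hU'o) hmeet
      obtain ⟨v, hv⟩ := hVne
      have hvV1 : v ∈ V1 := by
        obtain ⟨u, hu, rfl⟩ := hV2 hv
        exact hu.1
      obtain ⟨z, hz, hzv⟩ := hV1 hvV1
      refine ⟨z, hz.1, ?_⟩
      simp only [G, hnm, dif_pos]
      have h1 : q m z ∈ b n m hnm ⁻¹' V := by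
        rw [mem_preimage, hb, hzv]; exact hv
      obtain ⟨w, hw, hwz⟩ := hV3 h1
      exact ⟨w, subset_closure hw.2, hwz⟩
    · simp only [G, hnm, dif_neg, not_false_eq_true]
      exact mem_univ _
  refine ⟨q n ⁻¹' O, isOpen_interior.preimage (cq n), ?_, ?_⟩
  · obtain ⟨v, hv⟩ := hOne
    obtain ⟨y, rfl⟩ := sq n v
    exact ⟨y, hv⟩
  · intro y hy
    have hne : (⋂ i, {x | π n x ∈ K ∧ q (n + i) (h x) = q (n + i) y}).Nonempty := by
      apply IsCompact.nonempty_iInter_of_sequence_nonempty_isCompact_isClosed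
      · intro i x hx
        refine ⟨hx.1, ?_⟩
        have h1 : q (n + (i + 1)) (h x) = q (n + (i + 1)) y := hx.2
        rw [← hb (n + i) (n + (i + 1)) (by omega) (h x), h1, hb]
      · intro i
        have h1 := hGO (n + i) hy
        have hni : n ≤ n + i := by omega
        simp only [G, hni, dif_pos] at h1
        obtain ⟨w, hw, hwy⟩ := h1
        obtain ⟨x, rfl⟩ := sπ (n + i) w
        refine ⟨x, ?_, ?_⟩
        · rw [mem_preimage, ha] at hw; exact hw
        · rw [← hg, hwy]
      · exact ((hKc.preimage (cπ n)).inter (isClosed_eq ((cq _).comp ch) continuous_const)).isCompact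
      · intro i
        exact (hKc.preimage (cπ n)).inter (isClosed_eq ((cq _).comp ch) continuous_const)
    obtain ⟨x, hx⟩ := hne
    rw [mem_iInter] at hx
    refine ⟨x, ?_, ?_⟩
    · have hxK := hKU (hx 0).1
      by_contra hxW
      exact hxK ⟨x, hxW, rfl⟩
    · apply sepQ
      intro k
      have h1 := (hx k).2
      rw [← hb k (n + k) (by omega) (h x), h1, hb]

/-- a map whose images of nonempty open sets have nonempty interior pulls nowhere dense sets back to
nowhere dense sets -/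
lemma skeletal_of_open {P Q : Type*} [TopologicalSpace P] [TopologicalSpace Q] {h : P → Q} (ch : Continuous h)
    (H : ∀ W : Set P, IsOpen W → W.Nonempty → ∃ O : Set Q, IsOpen O ∧ O.Nonempty ∧ O ⊆ h '' W)
    {A : Set Q} (hA : IsNowhereDense A) : IsNowhereDense (h ⁻¹' A) := by
  unfold IsNowhereDense at *
  by_contra hne
  rw [← Ne, ← nonempty_iff_ne_empty] at hne
  obtain ⟨O, hOo, hOne, hO⟩ := H _ isOpen_interior hne
  have h1 : (O \ closure A).Nonempty := by
    by_contra h2
    rw [not_nonempty_iff_eq_empty, diff_eq_empty] at h2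
    have : O ⊆ interior (closure A) := interior_maximal h2 hOo
    rw [hA] at this
    exact hOne.ne_empty (subset_empty_iff.1 this)
  obtain ⟨v, hv1, hv2⟩ := h1
  obtain ⟨x, hx, rfl⟩ := hO hv1
  have hx2 : x ∈ closure (h ⁻¹' A) := interior_subset hx
  rw [mem_closure_iff] at hx2
  obtain ⟨z, hz1, hz2⟩ := hx2 (h ⁻¹' (closure A)ᶜ) (isClosed_closure.isOpen_compl.preimage ch) hv2
  exact hz1 (subset_closure hz2)

end X122SK
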