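import Pool.Agent.X122.SK1

/-! Bicommutative sequences of finite quotients of an open map, for MP_7a056a_gt. -/

namespace X122SK

open Set Topology TopologicalSpace

variable {X Y : Type} [TopologicalSpace X] [CompactSpace X] [T2Space X] [TotallyDisconnectedSpace X]
  [SecondCountableTopology X]
  [TopologicalSpace Y] [CompactSpace Y] [T2Space Y] [TotallyDisconnectedSpace Y] [SecondCountableTopology Y]

instance countDQ : Countable (DiscreteQuotient X) := by
  haveI : Countable (Clopens X) := Clopens.countable_iff_secondCountable.2 inferInstance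
  exact (DiscreteQuotient.finsetClopens_inj X).countable

noncomputable def enumDQ (X : Type) [TopologicalSpace X] [CompactSpace X] [T2Space X] [TotallyDisconnectedSpace X]
    [SecondCountableTopology X] : ℕ → DiscreteQuotient X :=
  (exists_surjective_nat (DiscreteQuotient X)).choose

lemma enumDQ_surj : Function.Surjective (enumDQ X) :=
  (exists_surjective_nat (DiscreteQuotient X)).choose_spec

/-- decreasing sequence of quotients -/
noncomputable def sQ (X : Type) [TopologicalSpace X] [CompactSpace X] [T2Space X] [TotallyDisconnectedSpace X]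
    [SecondCountableTopology X] (n : ℕ) : DiscreteQuotient X :=
  (Finset.range n).inf (enumDQ X)

lemma sQ_anti {n m : ℕ} (h : n ≤ m) : sQ X m ≤ sQ X n :=
  Finset.inf_mono (Finset.range_mono h)

lemma sQ_le (i : ℕ) : sQ X (i + 1) ≤ enumDQ X i := Finset.inf_le (by simp)

omit [T2Space X] [TotallyDisconnectedSpace X] [SecondCountableTopology X]
  [TotallyDisconnectedSpace Y] [SecondCountableTopology Y] [CompactSpace Y] in
/-- quotient of `Y` by the images of the classes of `S` -/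
def imgQ (f : C(X, Y)) (hf : IsOpenMap f) (S : DiscreteQuotient X) : DiscreteQuotient Y where
  toSetoid := ⟨fun y y' => ∀ s : S, y ∈ f '' (S.proj ⁻¹' {s}) ↔ y' ∈ f '' (S.proj ⁻¹' {s}),
    ⟨fun _ _ => Iff.rfl, fun h s => (h s).symm, fun h h' s => (h s).trans (h' s)⟩⟩
  isOpen_setOfPred_rel y := by
    have h : {y' | ∀ s : S, y ∈ f '' (S.proj ⁻¹' {s}) ↔ y' ∈ f '' (S.proj ⁻¹' {s})} =
        ⋂ s : S, {y' | y ∈ f '' (S.proj ⁻¹' {s}) ↔ y' ∈ f '' (S.proj ⁻¹' {s})} := by
      ext y'; simp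
    show IsOpen {y' | ∀ s : S, y ∈ f '' (S.proj ⁻¹' {s}) ↔ y' ∈ f '' (S.proj ⁻¹' {s})}
    rw [h]
    apply isOpen_iInter_of_finite
    intro s
    have hc : IsClopen (f '' (S.proj ⁻¹' {s})) :=
      ⟨((S.isClosed_preimage _).isCompact.image f.continuous).isClosed, hf _ (S.isOpen_preimage _)⟩
    by_cases hy : y ∈ f '' (S.proj ⁻¹' {s})
    · have : {y' | y ∈ f '' (S.proj ⁻¹' {s}) ↔ y' ∈ f '' (S.proj ⁻¹' {s})} = f '' (S.proj ⁻¹' {s}) := by
        ext y'; simp only [mem_setOf_eq, hy, true_iff]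
      rw [this]; exact hc.isOpen
    · have : {y' | y ∈ f '' (S.proj ⁻¹' {s}) ↔ y' ∈ f '' (S.proj ⁻¹' {s})} = (f '' (S.proj ⁻¹' {s}))ᶜ := by
        ext y'; simp only [mem_setOf_eq, hy, false_iff, mem_compl_iff]
      rw [this]; exact hc.compl.isOpen

omit [T2Space X] [TotallyDisconnectedSpace X] [SecondCountableTopology X]
  [TotallyDisconnectedSpace Y] [SecondCountableTopology Y] [CompactSpace Y] in
lemma imgQ_mono (f : C(X, Y)) (hf : IsOpenMap f) {S T : DiscreteQuotient X} (h : S ≤ T) :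
    imgQ f hf S ≤ imgQ f hf T := by
  intro y y' hyy t
  have key : ∀ y y' : Y, (∀ s : S, y ∈ f '' (S.proj ⁻¹' {s}) ↔ y' ∈ f '' (S.proj ⁻¹' {s})) →
      y ∈ f '' (T.proj ⁻¹' {t}) → y' ∈ f '' (T.proj ⁻¹' {t}) := by
    rintro y y' hs ⟨x, hx, rfl⟩
    obtain ⟨x', hx', rfl⟩ := (hs (S.proj x)).1 ⟨x, rfl, rfl⟩
    refine ⟨x', ?_, rfl⟩
    rw [mem_preimage, mem_singleton_iff] at hx hx' ⊢
    rw [← hx, ← DiscreteQuotient.ofLE_proj h, hx', DiscreteQuotient.ofLE_proj]
  exact ⟨key y y' hyy, key y' y (fun s => (hyy s).symm)⟩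

/-- quotients of `Y` -/
noncomputable def BQ (f : C(X, Y)) (hf : IsOpenMap f) (n : ℕ) : DiscreteQuotient Y :=
  sQ Y n ⊓ imgQ f hf (sQ X n)

/-- quotients of `X` -/
noncomputable def AQ (f : C(X, Y)) (hf : IsOpenMap f) (n : ℕ) : DiscreteQuotient X :=
  sQ X n ⊓ (BQ f hf n).comap f

lemma BQ_anti (f : C(X, Y)) (hf : IsOpenMap f) {n m : ℕ} (h : n ≤ m) : BQ f hf m ≤ BQ f hf n :=
  inf_le_inf (sQ_anti h) (imgQ_mono f hf (sQ_anti h))

lemma AQ_anti (f : C(X, Y)) (hf : IsOpenMap f) {n m : ℕ} (h : n ≤ m) : AQ f hf m ≤ AQ f hf n :=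
  inf_le_inf (sQ_anti h) (DiscreteQuotient.comap_mono f (BQ_anti f hf h))

lemma AB (f : C(X, Y)) (hf : IsOpenMap f) (n : ℕ) : DiscreteQuotient.LEComap f (AQ f hf n) (BQ f hf n) :=
  inf_le_right

lemma proj_eq_iff {S : DiscreteQuotient X} {x x' : X} : S.proj x = S.proj x' ↔ S.toSetoid x x' :=
  Quotient.eq''

/-- the bicommutativity property -/
lemma bic (f : C(X, Y)) (hf : IsOpenMap f) (n : ℕ) (x : X) (y : Y)
    (h : (BQ f hf n).proj (f x) = (BQ f hf n).proj y) :
    ∃ x', (AQ f hf n).proj x' = (AQ f hf n).proj x ∧ f x' = y := by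
  have h1 : (BQ f hf n).toSetoid (f x) y := Quotient.eq''.1 h
  have h2 : ∀ s : (sQ X n), f x ∈ f '' ((sQ X n).proj ⁻¹' {s}) ↔ y ∈ f '' ((sQ X n).proj ⁻¹' {s}) := h1.2
  obtain ⟨x', hx', hy⟩ := (h2 ((sQ X n).proj x)).1 ⟨x, rfl, rfl⟩
  refine ⟨x', ?_, hy⟩
  rw [proj_eq_iff]
  refine ⟨?_, ?_⟩
  · exact Quotient.eq''.1 (hx' : (sQ X n).proj x' = (sQ X n).proj x)
  · show (BQ f hf n).toSetoid (f x') (f x)
    rw [hy]
    exact (BQ f hf n).toSetoid.symm h1

lemma sepA (f : C(X, Y)) (hf : IsOpenMap f) (x x' : X) (h : ∀ n, (AQ f hf n).proj x = (AQ f hf n).proj x') : x = x' := by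
  apply DiscreteQuotient.eq_of_forall_proj_eq
  intro Q
  obtain ⟨i, rfl⟩ := enumDQ_surj Q
  have h1 : AQ f hf (i + 1) ≤ enumDQ X i := inf_le_left.trans (sQ_le i)
  rw [← DiscreteQuotient.ofLE_proj h1 x, ← DiscreteQuotient.ofLE_proj h1 x', h]

lemma sepB (f : C(X, Y)) (hf : IsOpenMap f) (x x' : Y) (h : ∀ n, (BQ f hf n).proj x = (BQ f hf n).proj x') : x = x' := by
  apply DiscreteQuotient.eq_of_forall_proj_eq
  intro Q
  obtain ⟨i, rfl⟩ := enumDQ_surj Q
  have h1 : BQ f hf (i + 1) ≤ enumDQ Y i := inf_le_left.trans (sQ_le i)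
  rw [← DiscreteQuotient.ofLE_proj h1 x, ← DiscreteQuotient.ofLE_proj h1 x', h]

omit [TotallyDisconnectedSpace X] [SecondCountableTopology X] in
/-- threads of a decreasing sequence of quotients are realised -/
lemma thread (S : ℕ → DiscreteQuotient X) (hS : ∀ n, S (n + 1) ≤ S n) (s : ∀ n, S n)
    (hs : ∀ n, DiscreteQuotient.ofLE (hS n) (s (n + 1)) = s n) : ∃ x, ∀ n, (S n).proj x = s n := by
  have hne : (⋂ n, (S n).proj ⁻¹' {s n}).Nonempty := by
    apply IsCompact.nonempty_iInter_of_sequence_nonempty_isCompact_isClosed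
    · intro n x hx
      have h1 : (S (n + 1)).proj x = s (n + 1) := hx
      show (S n).proj x = s n
      rw [← DiscreteQuotient.ofLE_proj (hS n), h1, hs]
    · intro n
      obtain ⟨x, hx⟩ := (S n).proj_surjective (s n)
      exact ⟨x, hx⟩
    · exact ((S 0).isClosed_preimage _).isCompact
    · intro n
      exact (S n).isClosed_preimage _
  obtain ⟨x, hx⟩ := hne
  rw [mem_iInter] at hx
  exact ⟨x, hx⟩

end X122SK
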