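import Pool.Agent.X122.SK2

/-! Directed version of the core, and finite quotients of an open map between zero-dimensional
compacta, for MP_7a056a_gt. -/

namespace X122SK

open Set Topology

/-- core: passing the square property to the inverse limit (directed version) -/
lemma coreD {ι : Type*} [Preorder ι] [IsDirected ι (· ≤ ·)] [Nonempty ι]
    {P Q : Type*} [TopologicalSpace P] [CompactSpace P] [T2Space P]
    [TopologicalSpace Q] [CompactSpace Q] [T2Space Q]
    {Pn Qn : ι → Type*} [∀ n, TopologicalSpace (Pn n)] [∀ n, CompactSpace (Pn n)] [∀ n, T2Space (Pn n)]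
    [∀ n, TopologicalSpace (Qn n)] [∀ n, CompactSpace (Qn n)] [∀ n, T2Space (Qn n)]
    (π : ∀ n, P → Pn n) (q : ∀ n, Q → Qn n)
    (a : ∀ n m, n ≤ m → Pn m → Pn n) (b : ∀ n m, n ≤ m → Qn m → Qn n)
    (g : ∀ n, Pn n → Qn n) (h : P → Q)
    (cπ : ∀ n, Continuous (π n)) (cq : ∀ n, Continuous (q n))
    (ca : ∀ n m hnm, Continuous (a n m hnm))
    (cg : ∀ n, Continuous (g n)) (ch : Continuous h)
    (sπ : ∀ n, Function.Surjective (π n)) (sq : ∀ n, Function.Surjective (q n))
    (ha : ∀ n m hnm x, a n m hnm (π m x) = π n x) (hb : ∀ n m hnm x, b n m hnm (q m x) = q n x)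
    (hg : ∀ n x, g n (π n x) = q n (h x))
    (sepP : ∀ x x', (∀ n, π n x = π n x') → x = x') (sepQ : ∀ y y', (∀ n, q n y = q n y') → y = y')
    (hsq : ∀ n m hnm (U : Set (Pn n)), IsOpen U → U.Nonempty →
      ∃ V : Set (Qn n), IsOpen V ∧ V.Nonempty ∧ V ⊆ g n '' U ∧ b n m hnm ⁻¹' V ⊆ g m '' (a n m hnm ⁻¹' U))
    (hbs : ∀ n m hnm (U : Set (Qn m)), IsOpen U → U.Nonempty →
      ∃ V : Set (Qn n), IsOpen V ∧ V.Nonempty ∧ V ⊆ b n m hnm '' U)
    (W : Set P) (hW : IsOpen W) (hWne : W.Nonempty) :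
    ∃ O : Set Q, IsOpen O ∧ O.Nonempty ∧ O ⊆ h '' W := by
  classical
  have basisP : ∀ x0 ∈ W, ∃ n, ∀ x, π n x = π n x0 → x ∈ W := by
    intro x0 hx0
    by_contra hcon
    push Not at hcon
    have hne : (⋂ n, ({x | π n x = π n x0} ∩ Wᶜ)).Nonempty := by
      apply IsCompact.nonempty_iInter_of_directed_nonempty_isCompact_isClosed
      · intro i j
        obtain ⟨k, hik, hjk⟩ := directed_of (· ≤ ·) i j
        refine ⟨k, fun x hx => ⟨?_, hx.2⟩, fun x hx => ⟨?_, hx.2⟩⟩
        · have h1 : π k x = π k x0 := hx.1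
          show π i x = π i x0
          rw [← ha i k hik x, h1, ha]
        · have h1 : π k x = π k x0 := hx.1
          show π j x = π j x0
          rw [← ha j k hjk x, h1, ha]
      · intro n
        obtain ⟨x, hx1, hx2⟩ := hcon n
        exact ⟨x, hx1, hx2⟩
      · intro n
        exact ((isClosed_eq (cπ _) continuous_const).inter hW.isClosed_compl).isCompact
      · intro n
        exact (isClosed_eq (cπ _) continuous_const).inter hW.isClosed_compl
    obtain ⟨x, hx⟩ := hne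
    rw [mem_iInter] at hx
    have : x = x0 := sepP _ _ fun n => (hx n).1
    exact (hx (Classical.arbitrary ι)).2 (this ▸ hx0)
  have basisQ : ∀ (W' : Set Q), IsOpen W' → ∀ y0 ∈ W', ∃ n, ∀ y, q n y = q n y0 → y ∈ W' := by
    intro W' hW' y0 hy0
    by_contra hcon
    push Not at hcon
    have hne : (⋂ n, ({x | q n x = q n y0} ∩ W'ᶜ)).Nonempty := by
      apply IsCompact.nonempty_iInter_of_directed_nonempty_isCompact_isClosed
      · intro i j
        obtain ⟨k, hik, hjk⟩ := directed_of (· ≤ ·) i j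
        refine ⟨k, fun x hx => ⟨?_, hx.2⟩, fun x hx => ⟨?_, hx.2⟩⟩
        · have h1 : q k x = q k y0 := hx.1
          show q i x = q i y0
          rw [← hb i k hik x, h1, hb]
        · have h1 : q k x = q k y0 := hx.1
          show q j x = q j y0
          rw [← hb j k hjk x, h1, hb]
      · intro n
        obtain ⟨x, hx1, hx2⟩ := hcon n
        exact ⟨x, hx1, hx2⟩
      · intro n
        exact ((isClosed_eq (cq _) continuous_const).inter hW'.isClosed_compl).isCompact
      · intro n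
        exact (isClosed_eq (cq _) continuous_const).inter hW'.isClosed_compl
    obtain ⟨x, hx⟩ := hne
    rw [mem_iInter] at hx
    have : x = y0 := sepQ _ _ fun n => (hx n).1
    exact (hx (Classical.arbitrary ι)).2 (this ▸ hy0)
  have skq : ∀ n (W' : Set Q), IsOpen W' → W'.Nonempty → ∃ V : Set (Qn n), IsOpen V ∧ V.Nonempty ∧ V ⊆ q n '' W' := by
    intro n W' hW' ⟨y0, hy0⟩
    obtain ⟨m0, hm0⟩ := basisQ W' hW' y0 hy0
    obtain ⟨m, hnm, hm0m⟩ := directed_of (· ≤ ·) n m0
    have hm : ∀ y, q m y = q m y0 → y ∈ W' := fun y hy => hm0 y (by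
      rw [← hb m0 m hm0m y, hy, hb])
    set U : Set (Qn m) := (q m '' W'ᶜ)ᶜ with hU
    have hUo : IsOpen U := (hW'.isClosed_compl.isCompact.image (cq m)).isClosed.isOpen_compl
    have hUy : q m y0 ∈ U := by
      rintro ⟨y, hy, he⟩
      exact hy (hm y he)
    obtain ⟨V, hVo, hVne, hV⟩ := hbs n m hnm U hUo ⟨_, hUy⟩
    refine ⟨V, hVo, hVne, fun v hv => ?_⟩
    obtain ⟨u, hu, rfl⟩ := hV hv
    obtain ⟨y, rfl⟩ := sq m u
    refine ⟨y, ?_, (hb n m hnm y).symm⟩
    by_contra hy
    exact hu ⟨y, hy, rfl⟩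
  obtain ⟨x0, hx0⟩ := hWne
  obtain ⟨n, hn⟩ := basisP x0 hx0
  set U : Set (Pn n) := (π n '' Wᶜ)ᶜ with hU
  have hUo : IsOpen U := (hW.isClosed_compl.isCompact.image (cπ n)).isClosed.isOpen_compl
  have hUx : π n x0 ∈ U := by
    rintro ⟨x, hx, he⟩
    exact hx (hn x he)
  obtain ⟨C, hCn, hCc, hCU⟩ := exists_mem_nhds_isClosed_subset (hUo.mem_nhds hUx)
  set U' : Set (Pn n) := interior C with hU'
  have hU'ne : U'.Nonempty := ⟨_, mem_interior_iff_mem_nhds.2 hCn⟩
  have hU'o : IsOpen U' := isOpen_interior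
  set K := closure U' with hK
  have hKc : IsClosed K := isClosed_closure
  have hKU : K ⊆ U := (closure_minimal interior_subset hCc).trans hCU
  set O : Set (Qn n) := interior (g n '' K) with hO
  have hOne : O.Nonempty := by
    obtain ⟨V, hVo, ⟨v, hv⟩, hV, -⟩ := hsq n n le_rfl U' hU'o hU'ne
    exact ⟨v, mem_interior.2 ⟨V, hV.trans (image_mono subset_closure), hVo, hv⟩⟩
  let G : ι → Set Q := fun m => if hnm : n ≤ m then {y | q m y ∈ g m '' (a n m hnm ⁻¹' K)} else univ
  have hGc : ∀ m, IsClosed (G m) := by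
    intro m
    by_cases hnm : n ≤ m
    · simp only [G, hnm, dif_pos]
      have : IsClosed (g m '' (a n m hnm ⁻¹' K)) :=
        ((hKc.preimage (ca n m hnm)).isCompact.image (cg m)).isClosed
      exact this.preimage (cq m)
    · simp only [G, hnm, dif_neg, not_false_eq_true]
      exact isClosed_univ
  have hGO : ∀ m, q n ⁻¹' O ⊆ G m := by
    intro m y hy
    by_cases hnm : n ≤ m
    · rw [← (hGc m).closure_eq]
      rw [mem_closure_iff]
      intro N hN hyN
      obtain ⟨V1, hV1o, hV1ne, hV1⟩ := skq n (N ∩ q n ⁻¹' O) (hN.inter (isOpen_interior.preimage (cq n))) ⟨y, hyN, hy⟩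
      have hV1O : V1 ⊆ g n '' K := by
        intro v hv
        obtain ⟨z, hz, rfl⟩ := hV1 hv
        exact interior_subset hz.2
      have hmeet : ((g n ⁻¹' V1) ∩ U').Nonempty := by
        obtain ⟨v, hv⟩ := hV1ne
        obtain ⟨k, hk, hkv⟩ := hV1O hv
        rw [hK, mem_closure_iff] at hk
        exact hk (g n ⁻¹' V1) (hV1o.preimage (cg n)) (by rw [mem_preimage, hkv]; exact hv)
      obtain ⟨V, hVo, hVne, hV2, hV3⟩ := hsq n m hnm (g n ⁻¹' V1 ∩ U') ((hV1o.preimage (cg n)).inter hU'o) hmeet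
      obtain ⟨v, hv⟩ := hVne
      have hvV1 : v ∈ V1 := by
        obtain ⟨u, hu, rfl⟩ := hV2 hv
        exact hu.1
      obtain ⟨z, hz, hzv⟩ := hV1 hvV1
      refine ⟨z, hz.1, ?_⟩
      simp only [G, hnm, dif_pos]
      have h1 : q m z ∈ b n m hnm ⁻¹' V := by
        rw [mem_preimage, hb, hzv]; exact hv
      obtain ⟨w, hw, hwz⟩ := hV3 h1
      exact ⟨w, subset_closure hw.2, hwz⟩
    · simp only [G, hnm, dif_neg, not_false_eq_true]
      exact mem_univ _
  refine ⟨q n ⁻¹' O, isOpen_interior.preimage (cq n), ?_, ?_⟩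
  · obtain ⟨v, hv⟩ := hOne
    obtain ⟨y, rfl⟩ := sq n v
    exact ⟨y, hv⟩
  · intro y hy
    have hne : (⋂ i, {x | π n x ∈ K ∧ q i (h x) = q i y}).Nonempty := by
      apply IsCompact.nonempty_iInter_of_directed_nonempty_isCompact_isClosed
      · intro i j
        obtain ⟨k, hik, hjk⟩ := directed_of (· ≤ ·) i j
        refine ⟨k, fun x hx => ⟨hx.1, ?_⟩, fun x hx => ⟨hx.1, ?_⟩⟩
        · have h1 : q k (h x) = q k y := hx.2
          rw [← hb i k hik (h x), h1, hb]
        · have h1 : q k (h x) = q k y := hx.2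
          rw [← hb j k hjk (h x), h1, hb]
      · intro i
        obtain ⟨k, hik, hnk⟩ := directed_of (· ≤ ·) i n
        have h1 := hGO k hy
        simp only [G, hnk, dif_pos] at h1
        obtain ⟨w, hw, hwy⟩ := h1
        obtain ⟨x, rfl⟩ := sπ k w
        refine ⟨x, ?_, ?_⟩
        · rw [mem_preimage, ha] at hw; exact hw
        · rw [← hb i k hik (h x), ← hg, hwy, hb]
      · intro i
        exact ((hKc.preimage (cπ n)).inter (isClosed_eq ((cq _).comp ch) continuous_const)).isCompact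
      · intro i
        exact (hKc.preimage (cπ n)).inter (isClosed_eq ((cq _).comp ch) continuous_const)
    obtain ⟨x, hx⟩ := hne
    rw [mem_iInter] at hx
    refine ⟨x, ?_, ?_⟩
    · have hxK := hKU (hx n).1
      by_contra hxW
      exact hxK ⟨x, hxW, rfl⟩
    · apply sepQ
      intro k
      exact (hx k).2

section quot

variable {X Y : Type} [TopologicalSpace X] [CompactSpace X] [T2Space X] [TotallyDisconnectedSpace X]
  [TopologicalSpace Y] [CompactSpace Y] [T2Space Y] [TotallyDisconnectedSpace Y]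

/-- index set -/
abbrev IX (X Y : Type) [TopologicalSpace X] [TopologicalSpace Y] := (DiscreteQuotient X × DiscreteQuotient Y)ᵒᵈ

/-- quotients of `Y` -/
def BD (f : C(X, Y)) (hf : IsOpenMap f) (i : IX X Y) : DiscreteQuotient Y :=
  (OrderDual.ofDual i).2 ⊓ imgQ f hf (OrderDual.ofDual i).1

/-- quotients of `X` -/
def AD (f : C(X, Y)) (hf : IsOpenMap f) (i : IX X Y) : DiscreteQuotient X :=
  (OrderDual.ofDual i).1 ⊓ (BD f hf i).comap f

lemma BD_anti (f : C(X, Y)) (hf : IsOpenMap f) {n m : IX X Y} (h : n ≤ m) : BD f hf m ≤ BD f hf n := by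
  have h' : OrderDual.ofDual m ≤ OrderDual.ofDual n := h
  exact inf_le_inf h'.2 (imgQ_mono f hf h'.1)

lemma AD_anti (f : C(X, Y)) (hf : IsOpenMap f) {n m : IX X Y} (h : n ≤ m) : AD f hf m ≤ AD f hf n := by
  have h' : OrderDual.ofDual m ≤ OrderDual.ofDual n := h
  exact inf_le_inf h'.1 (DiscreteQuotient.comap_mono f (BD_anti f hf h))

lemma ABD (f : C(X, Y)) (hf : IsOpenMap f) (n : IX X Y) : DiscreteQuotient.LEComap f (AD f hf n) (BD f hf n) :=
  inf_le_right

lemma bicD (f : C(X, Y)) (hf : IsOpenMap f) (n : IX X Y) (x : X) (y : Y)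
    (h : (BD f hf n).proj (f x) = (BD f hf n).proj y) :
    ∃ x', (AD f hf n).proj x' = (AD f hf n).proj x ∧ f x' = y := by
  have h1 : (BD f hf n).toSetoid (f x) y := Quotient.eq''.1 h
  have h2 : ∀ s : (OrderDual.ofDual n).1, f x ∈ f '' ((OrderDual.ofDual n).1.proj ⁻¹' {s}) ↔
      y ∈ f '' ((OrderDual.ofDual n).1.proj ⁻¹' {s}) := h1.2
  obtain ⟨x', hx', hy⟩ := (h2 ((OrderDual.ofDual n).1.proj x)).1 ⟨x, rfl, rfl⟩
  refine ⟨x', ?_, hy⟩
  refine Quotient.eq''.2 ⟨?_, ?_⟩
  · exact Quotient.eq''.1 (hx' : (OrderDual.ofDual n).1.proj x' = (OrderDual.ofDual n).1.proj x)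
  · show (BD f hf n).toSetoid (f x') (f x)
    rw [hy]
    exact (BD f hf n).toSetoid.symm h1

lemma sepAD (f : C(X, Y)) (hf : IsOpenMap f) (x x' : X) (h : ∀ n, (AD f hf n).proj x = (AD f hf n).proj x') : x = x' := by
  apply DiscreteQuotient.eq_of_forall_proj_eq
  intro Q
  have h1 : AD f hf (OrderDual.toDual (Q, ⊤)) ≤ Q := inf_le_left
  rw [← DiscreteQuotient.ofLE_proj h1 x, ← DiscreteQuotient.ofLE_proj h1 x', h]

lemma sepBD (f : C(X, Y)) (hf : IsOpenMap f) (x x' : Y) (h : ∀ n, (BD f hf n).proj x = (BD f hf n).proj x') : x = x' := by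
  apply DiscreteQuotient.eq_of_forall_proj_eq
  intro Q
  have h1 : BD f hf (OrderDual.toDual (⊤, Q)) ≤ Q := inf_le_left
  rw [← DiscreteQuotient.ofLE_proj h1 x, ← DiscreteQuotient.ofLE_proj h1 x', h]

omit [T2Space X] [TotallyDisconnectedSpace X] in
lemma threadD {ι : Type*} [Preorder ι] [IsDirected ι (· ≤ ·)] [Nonempty ι] (S : ι → DiscreteQuotient X)
    (hS : ∀ i j, i ≤ j → S j ≤ S i) (s : ∀ n, S n)
    (hs : ∀ i j h, DiscreteQuotient.ofLE (hS i j h) (s j) = s i) : ∃ x, ∀ n, (S n).proj x = s n := by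
  have hne : (⋂ n, (S n).proj ⁻¹' {s n}).Nonempty := by
    apply IsCompact.nonempty_iInter_of_directed_nonempty_isCompact_isClosed
    · intro i j
      obtain ⟨k, hik, hjk⟩ := directed_of (· ≤ ·) i j
      refine ⟨k, fun x hx => ?_, fun x hx => ?_⟩
      · have h1 : (S k).proj x = s k := hx
        show (S i).proj x = s i
        rw [← DiscreteQuotient.ofLE_proj (hS i k hik), h1, hs i k hik]
      · have h1 : (S k).proj x = s k := hx
        show (S j).proj x = s j
        rw [← DiscreteQuotient.ofLE_proj (hS j k hjk), h1, hs j k hjk]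
    · intro n
      obtain ⟨x, hx⟩ := (S n).proj_surjective (s n)
      exact ⟨x, hx⟩
    · intro n
      exact ((S n).isClosed_preimage _).isCompact
    · intro n
      exact (S n).isClosed_preimage _
  obtain ⟨x, hx⟩ := hne
  rw [mem_iInter] at hx
  exact ⟨x, hx⟩

end quot

end X122SK
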