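import Mathlib

/-! Gleason covers and open lifts, for MP_7a056a_gt. -/

namespace X122SK

open Set Topology Function

/-- irreducibility (Zorn subset condition) -/
def Irr {E A : Type} [TopologicalSpace E] (p : E → A) : Prop :=
  ∀ E₀ : Set E, E₀ ≠ univ → IsClosed E₀ → p '' E₀ ≠ univ

lemma ultra_proj (Y : Type) : CompactT2.Projective (Ultrafilter Y) := by
  intro B C _ _ _ _ _ _ f g hf hg g_sur
  obtain ⟨g', hg'⟩ := g_sur.hasRightInverse
  let t : Y → B := g' ∘ f ∘ (pure : Y → Ultrafilter Y)
  let h : Ultrafilter Y → B := Ultrafilter.extend t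
  have hh : Continuous h := continuous_ultrafilter_extend _
  refine ⟨h, hh, ?_⟩
  have hid : g ∘ g' = id := hg'.comp_eq_id
  refine denseRange_pure.equalizer (hg.comp hh) hf ?_
  show (g ∘ h) ∘ pure = f ∘ pure
  rw [comp_assoc]
  show g ∘ (Ultrafilter.extend t ∘ pure) = f ∘ pure
  rw [ultrafilter_extend_extends]
  show (g ∘ g') ∘ (f ∘ pure) = f ∘ pure
  rw [hid, id_comp]

lemma irr_id {E A : Type} [TopologicalSpace E] [T2Space E] {p : E → A} (hp : Irr p) (hsurj : Surjective p)
    {g : E → E} (hg : Continuous g) (h : ∀ x, p (g x) = p x) : ∀ x, g x = x := by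
  intro x
  by_contra hne
  obtain ⟨U, V, hU, hV, hgx, hx, hd⟩ := t2_separation hne
  set W := V ∩ g ⁻¹' U with hW
  have hWo : IsOpen W := hV.inter (hU.preimage hg)
  have hxW : x ∈ W := ⟨hx, hgx⟩
  have h1 : Wᶜ ≠ univ := by
    intro h2
    have : x ∈ Wᶜ := h2 ▸ mem_univ x
    exact this hxW
  apply hp Wᶜ h1 hWo.isClosed_compl
  rw [eq_univ_iff_forall]
  intro a
  obtain ⟨z, rfl⟩ := hsurj a
  by_cases hz : z ∈ W
  · refine ⟨g z, ?_, h z⟩
    intro hgz
    exact (disjoint_left.1 hd hz.2) hgz.1
  · exact ⟨z, hz, rfl⟩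

/-- existence of Gleason covers -/
lemma gleason (Y : Type) [TopologicalSpace Y] [CompactSpace Y] [T2Space Y] :
    ∃ (Z : Type) (_ : TopologicalSpace Z) (_ : CompactSpace Z) (_ : T2Space Z) (_ : ExtremallyDisconnected Z)
      (p : Z → Y), Continuous p ∧ Surjective p ∧ Irr p := by
  let q : Ultrafilter Y → Y := Ultrafilter.extend id
  have hq : Continuous q := continuous_ultrafilter_extend _
  have hqs : Surjective q := fun y => ⟨pure y, congrFun (ultrafilter_extend_extends id) y⟩
  obtain ⟨E, hE, hEs, hEm⟩ := exists_compact_surjective_zorn_subset hq hqs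
  let p : E → Y := fun z => q z.1
  have hp : Continuous p := hq.comp continuous_subtype_val
  have hps : Surjective p := by
    intro y
    have : y ∈ q '' E := hEs ▸ mem_univ y
    obtain ⟨z, hz, rfl⟩ := this
    exact ⟨⟨z, hz⟩, rfl⟩
  have hpi : Irr p := fun E₀ h1 h2 => hEm E₀ h1 h2
  obtain ⟨g, hg, hgp⟩ := ultra_proj Y hq hp hps
  have hgid : ∀ x : E, g x.1 = x := by
    refine irr_id hpi hps (g := fun x => g x.1) (hg.comp continuous_subtype_val) fun x => ?_
    exact congrFun hgp x.1
  have hproj : CompactT2.Projective E := by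
    intro B C _ _ _ _ _ _ φ f hφ hf hfs
    obtain ⟨h, hh, hhe⟩ := ultra_proj Y (hφ.comp hg) hf hfs
    refine ⟨fun x => h x.1, hh.comp continuous_subtype_val, ?_⟩
    funext x
    have := congrFun hhe x.1
    show f (h x.1) = φ x
    have h2 : f (h x.1) = φ (g x.1) := this
    rw [h2, hgid]
  exact ⟨E, inferInstance, hE, inferInstance, hproj.extremallyDisconnected, p, hp, hps, hpi⟩

/-- lifts of open maps to Gleason covers are open surjections -/
lemma open_lift {X Y ZX ZY : Type} [TopologicalSpace X] [CompactSpace X] [T2Space X]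
    [TopologicalSpace Y] [CompactSpace Y] [T2Space Y]
    [TopologicalSpace ZX] [CompactSpace ZX] [T2Space ZX] [ExtremallyDisconnected ZX]
    [TopologicalSpace ZY] [CompactSpace ZY] [T2Space ZY] [ExtremallyDisconnected ZY]
    {f : X → Y} (hfo : IsOpenMap f) (hfs : Surjective f)
    {pX : ZX → X} (cX : Continuous pX) (sX : Surjective pX) (iX : Irr pX)
    {pY : ZY → Y} (cY : Continuous pY) (iY : Irr pY)
    {h : ZX → ZY} (ch : Continuous h) (hc : ∀ z, pY (h z) = f (pX z)) :
    IsOpenMap h ∧ Surjective h := by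
  constructor
  · rw [(loc_compact_Haus_tot_disc_of_zero_dim (H := ZX)).isOpenMap_iff]
    intro U hU
    have hUc : IsClopen U := hU
    set V : Set X := (pX '' Uᶜ)ᶜ with hV
    have hVo : IsOpen V := (hUc.compl.isClosed.isCompact.image cX).isClosed.isOpen_compl
    have hVU : pX ⁻¹' V ⊆ U := by
      intro z hz
      by_contra hzU
      exact hz ⟨z, hzU, rfl⟩
    have hdense : U ⊆ closure (pX ⁻¹' V) := by
      intro z hz
      rw [mem_closure_iff]
      intro N hN hzN
      have h1 : (N ∩ U)ᶜ ≠ univ := by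
        intro h2
        have : z ∈ (N ∩ U)ᶜ := h2 ▸ mem_univ z
        exact this ⟨hzN, hz⟩
      have h3 := iX _ h1 (hN.inter hUc.isOpen).isClosed_compl
      rw [Ne, eq_univ_iff_forall] at h3
      push Not at h3
      obtain ⟨x, hx⟩ := h3
      obtain ⟨w, rfl⟩ := sX x
      have hwNU : w ∈ N ∩ U := by
        by_contra hw
        exact hx ⟨w, hw, rfl⟩
      refine ⟨w, hwNU.1, ?_⟩
      rintro ⟨w', hw', he⟩
      exact hx ⟨w', fun hh => hw' hh.2, he⟩
    have hclosed : IsClosed (h '' U) := (hUc.isClosed.isCompact.image ch).isClosed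
    have hfV : IsOpen (f '' V) := hfo _ hVo
    have heq : h '' U = closure (pY ⁻¹' (f '' V)) := by
      apply subset_antisymm
      · rintro _ ⟨z, hz, rfl⟩
        have h1 := hdense hz
        have h2 : h z ∈ closure (h '' (pX ⁻¹' V)) := image_closure_subset_closure_image ch ⟨z, h1, rfl⟩
        refine closure_mono ?_ h2
        rintro _ ⟨w, hw, rfl⟩
        exact ⟨pX w, hw, (hc w).symm⟩
      · apply closure_minimal _ hclosed
        by_contra hcon
        rw [not_subset] at hcon
        obtain ⟨w, hw1, hw2⟩ := hcon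
        set G : Set ZY := (pY ⁻¹' (f '' V)) ∩ (h '' U)ᶜ with hG
        have hGo : IsOpen G := (hfV.preimage cY).inter hclosed.isOpen_compl
        have h1 : Gᶜ ≠ univ := by
          intro h2
          have : w ∈ Gᶜ := h2 ▸ mem_univ w
          exact this ⟨hw1, hw2⟩
        apply iY _ h1 hGo.isClosed_compl
        rw [eq_univ_iff_forall]
        intro y
        by_cases hy : y ∈ f '' V
        · obtain ⟨x, hx, rfl⟩ := hy
          obtain ⟨z, rfl⟩ := sX x
          refine ⟨h z, ?_, hc z⟩
          intro hh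
          exact hh.2 ⟨z, hVU hx, rfl⟩
        · obtain ⟨x, rfl⟩ := hfs y
          obtain ⟨z, rfl⟩ := sX x
          refine ⟨h z, ?_, hc z⟩
          intro hh
          apply hy
          have := hh.1
          rw [mem_preimage, hc] at this
          exact this
    rw [heq]
    exact ExtremallyDisconnected.open_closure _ (hfV.preimage cY)
  · rw [← range_eq_univ]
    by_contra hne
    apply iY _ hne (isCompact_range ch).isClosed
    rw [eq_univ_iff_forall]
    intro y
    obtain ⟨x, rfl⟩ := hfs y
    obtain ⟨z, rfl⟩ := sX x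
    exact ⟨h z, mem_range_self z, hc z⟩

end X122SK
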