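import Pool.Agent.X122.SK3
import Pool.Agent.X122.SK4

/-!
# MP_7a056a_gt, Q1: yes

A functor `F : Comp → Comp` that preserves surjectivity, limits of inverse spectra and preimages (in
particular every normal functor) and is finitely square-skeletal, is skeletal.
-/

namespace Pool.Agent.Results.MP_7a056a_gt.FullAnswer

open CategoryTheory Topology Set X122SK

/-- A map is skeletal if preimages of nowhere dense sets are nowhere dense. -/
def SkeletalMap {X Y : CompHaus.{0}} (f : X ⟶ Y) : Prop :=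
  ∀ A : Set Y, IsNowhereDense A → IsNowhereDense (f ⁻¹' A)

/-- `F` is skeletal: `F f` is skeletal for every open surjection `f`. -/
def SkeletalFunctor (F : CompHaus.{0} ⥤ CompHaus.{0}) : Prop :=
  ∀ (X Y : CompHaus.{0}) (f : X ⟶ Y), IsOpenMap f → Function.Surjective f → SkeletalMap (F.map f)

/-- The square `f : X → Y`, `f' : X' → Y'`, `pX : X' → X`, `pY : Y' → Y` is skeletal (at every point). -/
def SquareSkeletal {X Y X' Y' : CompHaus.{0}} (f : X ⟶ Y) (f' : X' ⟶ Y') (pX : X' ⟶ X) (pY : Y' ⟶ Y) : Prop :=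
  ∀ x : X, ∀ U ∈ 𝓝 x, ∃ V : Set Y, IsOpen V ∧ V.Nonempty ∧ V ⊆ f '' U ∧ pY ⁻¹' V ⊆ f' '' (pX ⁻¹' U)

/-- `F D` is skeletal for every skeletal commutative square `D` of surjections between finite spaces. -/
def FinitelySquareSkeletal (F : CompHaus.{0} ⥤ CompHaus.{0}) : Prop :=
  ∀ (X Y X' Y' : CompHaus.{0}) (f : X ⟶ Y) (f' : X' ⟶ Y') (pX : X' ⟶ X) (pY : Y' ⟶ Y),
    Finite X → Finite Y → Finite X' → Finite Y' → pX ≫ f = f' ≫ pY →
    Function.Surjective f → Function.Surjective f' → Function.Surjective pX → Function.Surjective pY →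
    SquareSkeletal f f' pX pY → SquareSkeletal (F.map f) (F.map f') (F.map pX) (F.map pY)

/-- `F` is epimorphic: it preserves surjectivity. -/
def Epimorphic (F : CompHaus.{0} ⥤ CompHaus.{0}) : Prop :=
  ∀ (X Y : CompHaus.{0}) (f : X ⟶ Y), Function.Surjective f → Function.Surjective (F.map f)

/-- The commutative square is bicommutative. -/
def Bicommutative {X Y X' Y' : CompHaus.{0}} (f : X ⟶ Y) (f' : X' ⟶ Y') (pX : X' ⟶ X) (pY : Y' ⟶ Y) : Prop :=
  pX ≫ f = f' ≫ pY ∧ ∀ x : X, f' '' (pX ⁻¹' {x}) = pY ⁻¹' {f x}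

/-- `F` preserves preimages: bicommutative squares with injective horizontal maps go to
bicommutative squares. -/
def PreservesPreimages (F : CompHaus.{0} ⥤ CompHaus.{0}) : Prop :=
  ∀ (X Y X' Y' : CompHaus.{0}) (f : X ⟶ Y) (f' : X' ⟶ Y') (pX : X' ⟶ X) (pY : Y' ⟶ Y),
    Function.Injective f → Function.Injective f' → Bicommutative f f' pX pY →
    Bicommutative (F.map f) (F.map f') (F.map pX) (F.map pY)

/-- `X`, with the maps `π i`, is the limit of the inverse spectrum `(S i, b i j)` over the directed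
set `ι` (for compacta this bijectivity statement is equivalent to being the topological inverse
limit). -/
def IsInvLimit {ι : Type} [Preorder ι] (X : CompHaus.{0}) (S : ι → CompHaus.{0})
    (b : ∀ i j, i ≤ j → (S j ⟶ S i)) (π : ∀ i, X ⟶ S i) : Prop :=
  (∀ i j h, π j ≫ b i j h = π i) ∧
    ∀ s : ∀ i, S i, (∀ i j h, b i j h (s j) = s i) → ∃! x : X, ∀ i, π i x = s i

/-- `F` is continuous: it commutes with limits of inverse spectra. -/
def ContinuousFunctor (F : CompHaus.{0} ⥤ CompHaus.{0}) : Prop :=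
  ∀ (ι : Type) [Preorder ι] [IsDirected ι (· ≤ ·)] [Nonempty ι] (X : CompHaus.{0}) (S : ι → CompHaus.{0})
    (b : ∀ i j, i ≤ j → (S j ⟶ S i)) (π : ∀ i, X ⟶ S i),
    (∀ i, b i i le_rfl = 𝟙 _) → (∀ i j k (h : i ≤ j) (h' : j ≤ k), b j k h' ≫ b i j h = b i k (h.trans h')) →
    IsInvLimit X S b π →
      IsInvLimit (F.obj X) (fun i => F.obj (S i)) (fun i j h => F.map (b i j h)) (fun i => F.map (π i))

lemma app (F : CompHaus.{0} ⥤ CompHaus.{0}) {U V W : CompHaus.{0}} (u : U ⟶ V) (v : V ⟶ W) (w : U ⟶ W)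
    (h : u ≫ v = w) (x : F.obj U) : F.map v (F.map u x) = F.map w x := by
  rw [← h, F.map_comp]; rfl

section
variable {X Y : CompHaus.{0}} [TotallyDisconnectedSpace X] [TotallyDisconnectedSpace Y]

noncomputable def fA (f : C(X, Y)) (hf : IsOpenMap f) (n : IX X Y) : CompHaus.{0} := CompHaus.of (AD f hf n)
noncomputable def fB (f : C(X, Y)) (hf : IsOpenMap f) (n : IX X Y) : CompHaus.{0} := CompHaus.of (BD f hf n)

noncomputable def pA (f : C(X, Y)) (hf : IsOpenMap f) (n : IX X Y) : X ⟶ fA f hf n :=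
  ConcreteCategory.ofHom (⟨(AD f hf n).proj, (AD f hf n).proj_continuous⟩ : C(X, AD f hf n))
noncomputable def pB (f : C(X, Y)) (hf : IsOpenMap f) (n : IX X Y) : Y ⟶ fB f hf n :=
  ConcreteCategory.ofHom (⟨(BD f hf n).proj, (BD f hf n).proj_continuous⟩ : C(Y, BD f hf n))

noncomputable def bA (f : C(X, Y)) (hf : IsOpenMap f) (n m : IX X Y) (h : n ≤ m) : fA f hf m ⟶ fA f hf n :=
  ConcreteCategory.ofHom (⟨DiscreteQuotient.ofLE (AD_anti f hf h), DiscreteQuotient.ofLE_continuous _⟩ :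
    C(AD f hf m, AD f hf n))
noncomputable def bB (f : C(X, Y)) (hf : IsOpenMap f) (n m : IX X Y) (h : n ≤ m) : fB f hf m ⟶ fB f hf n :=
  ConcreteCategory.ofHom (⟨DiscreteQuotient.ofLE (BD_anti f hf h), DiscreteQuotient.ofLE_continuous _⟩ :
    C(BD f hf m, BD f hf n))

noncomputable def gg (f : C(X, Y)) (hf : IsOpenMap f) (n : IX X Y) : fA f hf n ⟶ fB f hf n :=
  ConcreteCategory.ofHom (⟨DiscreteQuotient.map f (ABD f hf n), DiscreteQuotient.map_continuous (ABD f hf n)⟩ :
    C(AD f hf n, BD f hf n))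

end

/-- the zero-dimensional case -/
lemma zero_dim (F : CompHaus.{0} ⥤ CompHaus.{0}) (hepi : Epimorphic F) (hcont : ContinuousFunctor F)
    (hsq : FinitelySquareSkeletal F) (X Y : CompHaus.{0})
    [TotallyDisconnectedSpace X] [TotallyDisconnectedSpace Y]
    (f : X ⟶ Y) (hf : IsOpenMap f) (hfs : Function.Surjective f)
    (W : Set (F.obj X)) (hW : IsOpen W) (hWne : W.Nonempty) :
    ∃ O : Set (F.obj Y), IsOpen O ∧ O.Nonempty ∧ O ⊆ F.map f '' W := by
  set fc : C(X, Y) := ConcreteCategory.hom f with hfc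
  have hf' : IsOpenMap fc := hf
  have finA : ∀ n, Finite (fA fc hf' n) := fun n => (inferInstance : Finite (AD fc hf' n))
  have finB : ∀ n, Finite (fB fc hf' n) := fun n => (inferInstance : Finite (BD fc hf' n))
  have disB : ∀ n, DiscreteTopology (fB fc hf' n) := fun n => (inferInstance : DiscreteTopology (BD fc hf' n))
  have spA : ∀ n, Function.Surjective (pA fc hf' n) := fun n => (AD fc hf' n).proj_surjective
  have spB : ∀ n, Function.Surjective (pB fc hf' n) := fun n => (BD fc hf' n).proj_surjective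
  have cA : ∀ n m h, pA fc hf' m ≫ bA fc hf' n m h = pA fc hf' n := fun n m h => by
    ext x; exact DiscreteQuotient.ofLE_proj (AD_anti fc hf' h) x
  have cB : ∀ n m h, pB fc hf' m ≫ bB fc hf' n m h = pB fc hf' n := fun n m h => by
    ext x; exact DiscreteQuotient.ofLE_proj (BD_anti fc hf' h) x
  have cg : ∀ n, pA fc hf' n ≫ gg fc hf' n = f ≫ pB fc hf' n := fun n => by
    ext x; rfl
  have sbA : ∀ n m h, Function.Surjective (bA fc hf' n m h) := fun n m h z => by
    obtain ⟨x, rfl⟩ := spA n z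
    refine ⟨pA fc hf' m x, ?_⟩
    rw [← cA n m h]; rfl
  have sbB : ∀ n m h, Function.Surjective (bB fc hf' n m h) := fun n m h z => by
    obtain ⟨x, rfl⟩ := spB n z
    refine ⟨pB fc hf' m x, ?_⟩
    rw [← cB n m h]; rfl
  have sg : ∀ n, Function.Surjective (gg fc hf' n) := fun n z => by
    obtain ⟨y, rfl⟩ := spB n z
    obtain ⟨x, rfl⟩ := hfs y
    exact ⟨pA fc hf' n x, rfl⟩
  have csq : ∀ n m h, bA fc hf' n m h ≫ gg fc hf' n = gg fc hf' m ≫ bB fc hf' n m h := fun n m h => by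
    ext z
    obtain ⟨x, rfl⟩ := spA m z
    rfl
  have limX : IsInvLimit X (fA fc hf') (bA fc hf') (pA fc hf') := by
    refine ⟨fun n m h => cA _ _ _, fun s hs => ?_⟩
    obtain ⟨x, hx⟩ := threadD (fun n => AD fc hf' n) (fun i j h => AD_anti fc hf' h) s hs
    refine ⟨x, hx, fun x' hx' => sepAD fc hf' x' x fun n => ?_⟩
    exact (hx' n).trans (hx n).symm
  have limY : IsInvLimit Y (fB fc hf') (bB fc hf') (pB fc hf') := by
    refine ⟨fun n m h => cB _ _ _, fun s hs => ?_⟩
    obtain ⟨x, hx⟩ := threadD (fun n => BD fc hf' n) (fun i j h => BD_anti fc hf' h) s hs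
    refine ⟨x, hx, fun x' hx' => sepBD fc hf' x' x fun n => ?_⟩
    exact (hx' n).trans (hx n).symm
  have idA : ∀ i, bA fc hf' i i le_rfl = 𝟙 _ := fun i => by
    ext z; obtain ⟨x, rfl⟩ := spA i z; rfl
  have idB : ∀ i, bB fc hf' i i le_rfl = 𝟙 _ := fun i => by
    ext z; obtain ⟨x, rfl⟩ := spB i z; rfl
  have cpA : ∀ i j k (h : i ≤ j) (h' : j ≤ k), bA fc hf' j k h' ≫ bA fc hf' i j h = bA fc hf' i k (h.trans h') :=
    fun i j k h h' => by ext z; obtain ⟨x, rfl⟩ := spA k z; rfl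
  have cpB : ∀ i j k (h : i ≤ j) (h' : j ≤ k), bB fc hf' j k h' ≫ bB fc hf' i j h = bB fc hf' i k (h.trans h') :=
    fun i j k h h' => by ext z; obtain ⟨x, rfl⟩ := spB k z; rfl
  have FX := hcont _ _ _ _ _ idA cpA limX
  have FY := hcont _ _ _ _ _ idB cpB limY
  refine coreD (P := F.obj X) (Q := F.obj Y) (Pn := fun n => F.obj (fA fc hf' n)) (Qn := fun n => F.obj (fB fc hf' n))
    (fun n => F.map (pA fc hf' n)) (fun n => F.map (pB fc hf' n))
    (fun n m h => F.map (bA fc hf' n m h)) (fun n m h => F.map (bB fc hf' n m h))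
    (fun n => F.map (gg fc hf' n)) (F.map f)
    (fun n => (F.map (pA fc hf' n)).hom.hom.continuous) (fun n => (F.map (pB fc hf' n)).hom.hom.continuous)
    (fun n m h => (F.map (bA fc hf' n m h)).hom.hom.continuous)
    (fun n => (F.map (gg fc hf' n)).hom.hom.continuous) (F.map f).hom.hom.continuous
    (fun n => hepi _ _ _ (spA n)) (fun n => hepi _ _ _ (spB n))
    (fun n m h x => app F _ _ _ (cA n m h) x) (fun n m h x => app F _ _ _ (cB n m h) x)
    (fun n x => ?_) ?_ ?_ ?_ ?_ W hW hWne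
  · rw [app F _ _ _ (cg n) x, F.map_comp]; rfl
  · intro x x' h
    obtain ⟨z, hz, hu⟩ := FX.2 (fun n => F.map (pA fc hf' n) x') (fun n m hnm => app F _ _ _ (cA n m hnm) x')
    exact (hu x h).trans (hu x' (fun n => rfl)).symm
  · intro y y' h
    obtain ⟨z, hz, hu⟩ := FY.2 (fun n => F.map (pB fc hf' n) y') (fun n m hnm => app F _ _ _ (cB n m hnm) y')
    exact (hu y h).trans (hu y' (fun n => rfl)).symm
  · intro n m hnm U hU hUne
    obtain ⟨u, hu⟩ := hUne
    refine hsq _ _ _ _ (gg fc hf' n) (gg fc hf' m) (bA fc hf' n m hnm) (bB fc hf' n m hnm)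
      (finA n) (finB n) (finA m) (finB m) (csq n m hnm) (sg n) (sg m) (sbA n m hnm) (sbB n m hnm) ?_ u U (hU.mem_nhds hu)
    intro a N hN
    refine ⟨{gg fc hf' n a}, @isOpen_discrete _ _ (disB n) _, singleton_nonempty _, ?_, ?_⟩
    · rintro _ rfl
      exact ⟨a, mem_of_mem_nhds hN, rfl⟩
    · intro w hw
      obtain ⟨y, rfl⟩ := spB m w
      obtain ⟨x, rfl⟩ := spA n a
      have h1 : (BD fc hf' n).proj (fc x) = (BD fc hf' n).proj y := by
        have h2 : bB fc hf' n m hnm (pB fc hf' m y) = gg fc hf' n (pA fc hf' n x) := hw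
        have h3 : bB fc hf' n m hnm (pB fc hf' m y) = pB fc hf' n y := by
          rw [← cB n m hnm]; rfl
        exact (h3.symm.trans h2).symm
      obtain ⟨x', hx1, hx2⟩ := bicD fc hf' n x y h1
      refine ⟨pA fc hf' m x', ?_, ?_⟩
      · have h4 : bA fc hf' n m hnm (pA fc hf' m x') = pA fc hf' n x' := by
          rw [← cA n m hnm]; rfl
        rw [mem_preimage, h4]
        have h5 : pA fc hf' n x' = pA fc hf' n x := hx1
        rw [h5]
        exact mem_of_mem_nhds hN
      · show (BD fc hf' m).proj (fc x') = (BD fc hf' m).proj y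
        rw [hx2]
  · intro n m hnm U hU hUne
    obtain ⟨u, hu⟩ := hUne
    have h := hsq _ _ _ _ (bB fc hf' n m hnm) (bB fc hf' n m hnm) (𝟙 _) (𝟙 _)
      (finB m) (finB n) (finB m) (finB n) (by simp) (sbB n m hnm) (sbB n m hnm)
      (fun z => ⟨z, rfl⟩) (fun z => ⟨z, rfl⟩) (by
        intro a N hN
        refine ⟨{bB fc hf' n m hnm a}, @isOpen_discrete _ _ (disB n) _, singleton_nonempty _, ?_, ?_⟩
        · rintro _ rfl
          exact ⟨a, mem_of_mem_nhds hN, rfl⟩
        · rintro w hw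
          have hw' : w = bB fc hf' n m hnm a := hw
          exact ⟨a, mem_of_mem_nhds hN, hw'.symm⟩) u U (hU.mem_nhds hu)
    obtain ⟨V, hV1, hV2, hV3, -⟩ := h
    exact ⟨V, hV1, hV2, hV3⟩

/-- the underlying discrete quotient -/
def dq {Z : CompHaus.{0}} (S : (DiscreteQuotient Z)ᵒᵈ) : DiscreteQuotient Z := OrderDual.ofDual S

/-- quotient objects of a single zero-dimensional compactum -/
noncomputable def qO (Z : CompHaus.{0}) (S : (DiscreteQuotient Z)ᵒᵈ) : CompHaus.{0} := CompHaus.of (dq S)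
noncomputable def qP (Z : CompHaus.{0}) (S : (DiscreteQuotient Z)ᵒᵈ) : Z ⟶ qO Z S :=
  ConcreteCategory.ofHom (⟨(dq S).proj, (dq S).proj_continuous⟩ : C(Z, dq S))
noncomputable def qB (Z : CompHaus.{0}) (S T : (DiscreteQuotient Z)ᵒᵈ) (h : S ≤ T) : qO Z T ⟶ qO Z S :=
  ConcreteCategory.ofHom (⟨DiscreteQuotient.ofLE (A := dq T) (B := dq S) h,
    DiscreteQuotient.ofLE_continuous _⟩ : C(dq T, dq S))

/-- `F p` is skeletal for an irreducible surjection `p` of a zero-dimensional compactum -/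
lemma irr_skel (F : CompHaus.{0} ⥤ CompHaus.{0}) (hepi : Epimorphic F) (hcont : ContinuousFunctor F)
    (hpre : PreservesPreimages F) (Z Y : CompHaus.{0}) [TotallyDisconnectedSpace Z]
    (p : Z ⟶ Y) (hps : Function.Surjective p) (hpi : Irr (p : Z → Y))
    (O : Set (F.obj Z)) (hO : IsOpen O) (hOne : O.Nonempty) :
    ∃ N : Set (F.obj Y), IsOpen N ∧ N.Nonempty ∧ N ⊆ F.map p '' O := by
  classical
  have sP : ∀ S, Function.Surjective (qP Z S) := fun S => (dq S).proj_surjective
  have cP : ∀ S T h, qP Z T ≫ qB Z S T h = qP Z S := fun S T h => by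
    ext x; exact DiscreteQuotient.ofLE_proj (A := dq T) (B := dq S) h x
  have lim : IsInvLimit Z (qO Z) (qB Z) (qP Z) := by
    refine ⟨cP, fun s hs => ?_⟩
    obtain ⟨x, hx⟩ := threadD (fun S : (DiscreteQuotient Z)ᵒᵈ => dq S) (fun i j h => h) s hs
    refine ⟨x, hx, fun x' hx' => ?_⟩
    apply DiscreteQuotient.eq_of_forall_proj_eq
    intro Q
    exact (hx' (OrderDual.toDual Q)).trans (hx (OrderDual.toDual Q)).symm
  have FZ := hcont _ _ _ _ _ (fun i => by ext z; obtain ⟨x, rfl⟩ := sP i z; rfl)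
    (fun i j k h h' => by ext z; obtain ⟨x, rfl⟩ := sP k z; rfl) lim
  obtain ⟨a0, ha0⟩ := hOne
  -- basis
  have basis : ∃ S, ∀ a, F.map (qP Z S) a = F.map (qP Z S) a0 → a ∈ O := by
    by_contra hcon
    push Not at hcon
    have cc : ∀ S, Continuous (F.map (qP Z S)) := fun S => (F.map (qP Z S)).hom.hom.continuous
    have hne : (⋂ S, ({a | F.map (qP Z S) a = F.map (qP Z S) a0} ∩ Oᶜ)).Nonempty := by
      apply IsCompact.nonempty_iInter_of_directed_nonempty_isCompact_isClosed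
      · intro i j
        obtain ⟨k, hik, hjk⟩ : ∃ k, i ≤ k ∧ j ≤ k :=
          ⟨OrderDual.toDual (dq i ⊓ dq j), (inf_le_left : dq i ⊓ dq j ≤ dq i), (inf_le_right : dq i ⊓ dq j ≤ dq j)⟩
        refine ⟨k, fun x hx => ⟨?_, hx.2⟩, fun x hx => ⟨?_, hx.2⟩⟩
        · have h1 : F.map (qP Z k) x = F.map (qP Z k) a0 := hx.1
          show F.map (qP Z i) x = F.map (qP Z i) a0
          rw [← app F _ _ _ (cP i k hik) x, h1, app F _ _ _ (cP i k hik)]
        · have h1 : F.map (qP Z k) x = F.map (qP Z k) a0 := hx.1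
          show F.map (qP Z j) x = F.map (qP Z j) a0
          rw [← app F _ _ _ (cP j k hjk) x, h1, app F _ _ _ (cP j k hjk)]
      · intro n
        obtain ⟨x, hx1, hx2⟩ := hcon n
        exact ⟨x, hx1, hx2⟩
      · intro n
        exact ((isClosed_eq (cc _) continuous_const).inter hO.isClosed_compl).isCompact
      · intro n
        exact (isClosed_eq (cc _) continuous_const).inter hO.isClosed_compl
    obtain ⟨x, hx⟩ := hne
    rw [mem_iInter] at hx
    have hxa : x = a0 := by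
      obtain ⟨z, hz, hu⟩ := FZ.2 (fun S => F.map (qP Z S) a0) (fun i j h => app F _ _ _ (cP i j h) a0)
      exact (hu x (fun S => (hx S).1)).trans (hu a0 (fun S => rfl)).symm
    exact (hx (OrderDual.toDual ⊤)).2 (hxa ▸ ha0)
  obtain ⟨S, hS⟩ := basis
  set S' : DiscreteQuotient Z := dq S with hS'
  have cp : Continuous (p : Z → Y) := p.hom.hom.continuous
  -- points y_s
  have hy : ∀ s : S', ∃ y : Y, ∀ z : Z, p z = y → S'.proj z = s := by
    intro s
    obtain ⟨z0, hz0⟩ := S'.proj_surjective s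
    have h1 : (S'.proj ⁻¹' {s})ᶜ ≠ univ := by
      intro h2
      have : z0 ∈ (S'.proj ⁻¹' {s})ᶜ := h2 ▸ mem_univ z0
      exact this hz0
    have h3 := hpi _ h1 (S'.isOpen_preimage _).isClosed_compl
    rw [Ne, eq_univ_iff_forall] at h3
    push Not at h3
    obtain ⟨y, hy⟩ := h3
    refine ⟨y, fun z hz => ?_⟩
    by_contra hn
    exact hy ⟨z, hn, hz⟩
  choose i hi using hy
  have hinj : Function.Injective i := by
    intro s s' hss
    obtain ⟨z, hz⟩ := hps (i s)
    rw [← hi s z hz, hi s' z (hz.trans hss)]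
  have ci : Continuous i := continuous_of_discreteTopology
  set Xt : Set Z := {z | p z = i (S'.proj z)} with hXt
  have hXc : IsClosed Xt := isClosed_eq cp (ci.comp S'.proj_continuous)
  haveI : CompactSpace Xt := isCompact_iff_compactSpace.mp hXc.isCompact
  let im : qO Z S ⟶ Y := ConcreteCategory.ofHom (⟨i, ci⟩ : C(S', Y))
  let j : CompHaus.of Xt ⟶ Z := ConcreteCategory.ofHom (⟨Subtype.val, continuous_subtype_val⟩ : C(Xt, Z))
  let pr : CompHaus.of Xt ⟶ qO Z S :=
    ConcreteCategory.ofHom (⟨fun z => S'.proj z.1, S'.proj_continuous.comp continuous_subtype_val⟩ : C(Xt, S'))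
  have hbic : Bicommutative im j pr p := by
    constructor
    · ext z
      exact z.2.symm
    · intro s
      ext z
      constructor
      · rintro ⟨w, hw, rfl⟩
        have hw' : S'.proj w.1 = s := hw
        show p w.1 = i s
        rw [← hw']; exact w.2
      · intro hz
        have hz' : p z = i s := hz
        have h1 : S'.proj z = s := hi s z hz'
        exact ⟨⟨z, by rw [hXt, mem_setOf_eq, h1]; exact hz'⟩, h1, rfl⟩
  have hjs : Function.Injective j := fun z z' h => Subtype.ext h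
  have hF := hpre _ _ _ _ im j pr p hinj hjs hbic
  set c : F.obj (qO Z S) := F.map (qP Z S) a0 with hc
  have hjp : j ≫ qP Z S = pr := by ext z; rfl
  have key : ∀ a : F.obj Z, F.map p a = F.map im c → a ∈ O := by
    intro a ha
    have h1 : a ∈ F.map p ⁻¹' {F.map im c} := ha
    rw [← hF.2 c] at h1
    obtain ⟨a', ha', rfl⟩ := h1
    apply hS
    rw [app F _ _ _ hjp a']
    exact ha'
  refine ⟨(F.map p '' Oᶜ)ᶜ, ?_, ⟨F.map im c, ?_⟩, ?_⟩
  · exact (hO.isClosed_compl.isCompact.image (F.map p).hom.hom.continuous).isClosed.isOpen_compl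
  · rintro ⟨a, ha, he⟩
    exact ha (key a he)
  · intro n hn
    obtain ⟨a, rfl⟩ := hepi _ _ p hps n
    refine ⟨a, ?_, rfl⟩
    by_contra h
    exact hn ⟨a, h, rfl⟩

/-- **Q1 of MP_7a056a_gt, answered affirmatively.**  A functor on compacta that is epimorphic,
continuous, preserves preimages and is finitely square-skeletal is skeletal.  (Every normal functor has
the first three properties.) -/
theorem result (F : CompHaus.{0} ⥤ CompHaus.{0}) (hepi : Epimorphic F) (hcont : ContinuousFunctor F)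
    (hpre : PreservesPreimages F) (hsq : FinitelySquareSkeletal F) : SkeletalFunctor F := by
  intro X Y f hf hfs A hA
  refine skeletal_of_open (F.map f).hom.hom.continuous ?_ hA
  intro W hW hWne
  obtain ⟨ZX, _, _, _, _, pX, cX, sX, iX⟩ := gleason X
  obtain ⟨ZY, _, _, _, _, pY, cY, sY, iY⟩ := gleason Y
  have cf : Continuous (f : X → Y) := f.hom.hom.continuous
  obtain ⟨h, ch, hh⟩ := (CompactT2.ExtremallyDisconnected.projective (A := ZX)) (cf.comp cX) cY sY
  have hc : ∀ z, pY (h z) = f (pX z) := fun z => congrFun hh z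
  obtain ⟨ho, hs⟩ := open_lift (f := (f : X → Y)) hf hfs cX sX iX cY iY ch hc
  let mX : CompHaus.of ZX ⟶ X := ConcreteCategory.ofHom (⟨pX, cX⟩ : C(ZX, X))
  let mY : CompHaus.of ZY ⟶ Y := ConcreteCategory.ofHom (⟨pY, cY⟩ : C(ZY, Y))
  let mh : CompHaus.of ZX ⟶ CompHaus.of ZY := ConcreteCategory.ofHom (⟨h, ch⟩ : C(ZX, ZY))
  have hcomm : mX ≫ f = mh ≫ mY := by
    ext z; exact (hc z).symm
  have hW' : IsOpen (F.map mX ⁻¹' W) := hW.preimage (F.map mX).hom.hom.continuous
  have hWne' : (F.map mX ⁻¹' W).Nonempty := by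
    obtain ⟨w, hw⟩ := hWne
    obtain ⟨v, rfl⟩ := hepi _ _ mX sX w
    exact ⟨v, hw⟩
  haveI : TotallyDisconnectedSpace (CompHaus.of ZX) := (inferInstance : TotallyDisconnectedSpace ZX)
  haveI : TotallyDisconnectedSpace (CompHaus.of ZY) := (inferInstance : TotallyDisconnectedSpace ZY)
  obtain ⟨O, hO1, hO2, hO3⟩ := zero_dim F hepi hcont hsq (CompHaus.of ZX) (CompHaus.of ZY) mh ho hs _ hW' hWne'
  obtain ⟨N, hN1, hN2, hN3⟩ := irr_skel F hepi hcont hpre (CompHaus.of ZY) Y mY sY iY O hO1 hO2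
  refine ⟨N, hN1, hN2, fun n hn => ?_⟩
  obtain ⟨o, ho', rfl⟩ := hN3 hn
  obtain ⟨w, hw, rfl⟩ := hO3 ho'
  refine ⟨F.map mX w, hw, ?_⟩
  exact (app F mX f (mh ≫ mY) hcomm w).trans (app F mh mY (mh ≫ mY) rfl w).symm

end Pool.Agent.Results.MP_7a056a_gt.FullAnswer
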