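import Pool.Agent.X122.SK2

/-!
# MP_7a056a_gt, Q1

Every epimorphic, sequentially continuous functor `F : Comp → Comp` (in particular every normal
functor) that is finitely square-skeletal sends open surjections between metrizable
zero-dimensional compacta to skeletal maps.
-/

namespace Pool.Agent.Results.MP_7a056a_gt.ZeroDimMetrizable

open CategoryTheory Topology Set X122SK

/-- A map is skeletal if preimages of nowhere dense sets are nowhere dense. -/
def SkeletalMap {X Y : CompHaus.{0}} (f : X ⟶ Y) : Prop :=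
  ∀ A : Set Y, IsNowhereDense A → IsNowhereDense (f ⁻¹' A)

/-- The square `f : X → Y`, `f' : X' → Y'`, `pX : X' → X`, `pY : Y' → Y` is skeletal (at every point). -/
def SquareSkeletal {X Y X' Y' : CompHaus.{0}} (f : X ⟶ Y) (f' : X' ⟶ Y') (pX : X' ⟶ X) (pY : Y' ⟶ Y) : Prop :=
  ∀ x : X, ∀ U ∈ 𝓝 x, ∃ V : Set Y, IsOpen V ∧ V.Nonempty ∧ V ⊆ f '' U ∧ pY ⁻¹' V ⊆ f' '' (pX ⁻¹' U)

/-- `F D` is skeletal for every skeletal commutative square `D` of surjections between finite spaces. -/
def FinitelySquareSkeletal (F : CompHaus.{0} ⥤ CompHaus.{0}) : Prop :=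
  ∀ (X Y X' Y' : CompHaus.{0}) (f : X ⟶ Y) (f' : X' ⟶ Y') (pX : X' ⟶ X) (pY : Y' ⟶ Y),
    Finite X → Finite Y → Finite X' → Finite Y' → pX ≫ f = f' ≫ pY →
    Function.Surjective f → Function.Surjective f' → Function.Surjective pX → Function.Surjective pY →
    SquareSkeletal f f' pX pY → SquareSkeletal (F.map f) (F.map f') (F.map pX) (F.map pY)

/-- `F` preserves surjectivity. -/
def Epimorphic (F : CompHaus.{0} ⥤ CompHaus.{0}) : Prop :=
  ∀ (X Y : CompHaus.{0}) (f : X ⟶ Y), Function.Surjective f → Function.Surjective (F.map f)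

/-- `X`, with the maps `π n`, is the limit of the inverse sequence `S 0 ← S 1 ← ⋯` (for compacta this
bijectivity statement is equivalent to being the topological inverse limit). -/
def IsSeqLimit (X : CompHaus.{0}) (S : ℕ → CompHaus.{0}) (b : ∀ n, S (n + 1) ⟶ S n) (π : ∀ n, X ⟶ S n) : Prop :=
  (∀ n, π (n + 1) ≫ b n = π n) ∧
    ∀ s : ∀ n, S n, (∀ n, b n (s (n + 1)) = s n) → ∃! x : X, ∀ n, π n x = s n

/-- `F` commutes with limits of inverse sequences. -/
def SeqContinuous (F : CompHaus.{0} ⥤ CompHaus.{0}) : Prop :=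
  ∀ (X : CompHaus.{0}) (S : ℕ → CompHaus.{0}) (b : ∀ n, S (n + 1) ⟶ S n) (π : ∀ n, X ⟶ S n),
    IsSeqLimit X S b π →
      IsSeqLimit (F.obj X) (fun n => F.obj (S n)) (fun n => F.map (b n)) (fun n => F.map (π n))

section
variable {X Y : CompHaus.{0}} [TotallyDisconnectedSpace X] [SecondCountableTopology X]
  [TotallyDisconnectedSpace Y] [SecondCountableTopology Y]

noncomputable def fA (f : C(X, Y)) (hf : IsOpenMap f) (n : ℕ) : CompHaus.{0} := CompHaus.of (AQ f hf n)
noncomputable def fB (f : C(X, Y)) (hf : IsOpenMap f) (n : ℕ) : CompHaus.{0} := CompHaus.of (BQ f hf n)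

noncomputable def pA (f : C(X, Y)) (hf : IsOpenMap f) (n : ℕ) : X ⟶ fA f hf n :=
  ConcreteCategory.ofHom (⟨(AQ f hf n).proj, (AQ f hf n).proj_continuous⟩ : C(X, AQ f hf n))
noncomputable def pB (f : C(X, Y)) (hf : IsOpenMap f) (n : ℕ) : Y ⟶ fB f hf n :=
  ConcreteCategory.ofHom (⟨(BQ f hf n).proj, (BQ f hf n).proj_continuous⟩ : C(Y, BQ f hf n))

noncomputable def bA (f : C(X, Y)) (hf : IsOpenMap f) (n m : ℕ) (h : n ≤ m) : fA f hf m ⟶ fA f hf n :=
  ConcreteCategory.ofHom (⟨DiscreteQuotient.ofLE (AQ_anti f hf h), DiscreteQuotient.ofLE_continuous _⟩ :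
    C(AQ f hf m, AQ f hf n))
noncomputable def bB (f : C(X, Y)) (hf : IsOpenMap f) (n m : ℕ) (h : n ≤ m) : fB f hf m ⟶ fB f hf n :=
  ConcreteCategory.ofHom (⟨DiscreteQuotient.ofLE (BQ_anti f hf h), DiscreteQuotient.ofLE_continuous _⟩ :
    C(BQ f hf m, BQ f hf n))

noncomputable def gg (f : C(X, Y)) (hf : IsOpenMap f) (n : ℕ) : fA f hf n ⟶ fB f hf n :=
  ConcreteCategory.ofHom (⟨DiscreteQuotient.map f (AB f hf n), DiscreteQuotient.map_continuous (AB f hf n)⟩ :
    C(AQ f hf n, BQ f hf n))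

end

theorem result (F : CompHaus.{0} ⥤ CompHaus.{0}) (hepi : Epimorphic F) (hcont : SeqContinuous F)
    (hsq : FinitelySquareSkeletal F) (X Y : CompHaus.{0})
    [TopologicalSpace.MetrizableSpace X] [TopologicalSpace.MetrizableSpace Y]
    [TotallyDisconnectedSpace X] [TotallyDisconnectedSpace Y]
    (f : X ⟶ Y) (hf : IsOpenMap f) (hfs : Function.Surjective f) : SkeletalMap (F.map f) := by
  haveI : SecondCountableTopology X := by
    letI := TopologicalSpace.metrizableSpaceMetric X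
    exact UniformSpace.secondCountable_of_separable X
  haveI : SecondCountableTopology Y := by
    letI := TopologicalSpace.metrizableSpaceMetric Y
    exact UniformSpace.secondCountable_of_separable Y
  set fc : C(X, Y) := ConcreteCategory.hom f with hfc
  have hf' : IsOpenMap fc := hf
  -- finiteness
  have finA : ∀ n, Finite (fA fc hf' n) := fun n => (inferInstance : Finite (AQ fc hf' n))
  have finB : ∀ n, Finite (fB fc hf' n) := fun n => (inferInstance : Finite (BQ fc hf' n))
  have disB : ∀ n, DiscreteTopology (fB fc hf' n) := fun n => (inferInstance : DiscreteTopology (BQ fc hf' n))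
  -- surjectivity
  have spA : ∀ n, Function.Surjective (pA fc hf' n) := fun n => (AQ fc hf' n).proj_surjective
  have spB : ∀ n, Function.Surjective (pB fc hf' n) := fun n => (BQ fc hf' n).proj_surjective
  -- commutation
  have cA : ∀ n m h, pA fc hf' m ≫ bA fc hf' n m h = pA fc hf' n := fun n m h => by
    ext x; exact DiscreteQuotient.ofLE_proj (AQ_anti fc hf' h) x
  have cB : ∀ n m h, pB fc hf' m ≫ bB fc hf' n m h = pB fc hf' n := fun n m h => by
    ext x; exact DiscreteQuotient.ofLE_proj (BQ_anti fc hf' h) x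
  have cg : ∀ n, pA fc hf' n ≫ gg fc hf' n = f ≫ pB fc hf' n := fun n => by
    ext x; rfl
  have sbA : ∀ n m h, Function.Surjective (bA fc hf' n m h) := fun n m h z => by
    obtain ⟨x, rfl⟩ := spA n z
    refine ⟨pA fc hf' m x, ?_⟩
    rw [← cA n m h]; rfl
  have sbB : ∀ n m h, Function.Surjective (bB fc hf' n m h) := fun n m h z => by
    obtain ⟨x, rfl⟩ := spB n z
    refine ⟨pB fc hf' m x, ?_⟩
    rw [← cB n m h]; rfl
  have sg : ∀ n, Function.Surjective (gg fc hf' n) := fun n z => by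
    obtain ⟨y, rfl⟩ := spB n z
    obtain ⟨x, rfl⟩ := hfs y
    exact ⟨pA fc hf' n x, rfl⟩
  have csq : ∀ n m h, bA fc hf' n m h ≫ gg fc hf' n = gg fc hf' m ≫ bB fc hf' n m h := fun n m h => by
    ext z
    obtain ⟨x, rfl⟩ := spA m z
    rfl
  -- limits
  have limX : IsSeqLimit X (fA fc hf') (fun n => bA fc hf' n (n + 1) (Nat.le_succ n)) (pA fc hf') := by
    refine ⟨fun n => cA _ _ _, fun s hs => ?_⟩
    obtain ⟨x, hx⟩ := thread (fun n => AQ fc hf' n) (fun n => AQ_anti fc hf' (Nat.le_succ n)) s hs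
    refine ⟨x, hx, fun x' hx' => sepA fc hf' x' x fun n => ?_⟩
    exact (hx' n).trans (hx n).symm
  have limY : IsSeqLimit Y (fB fc hf') (fun n => bB fc hf' n (n + 1) (Nat.le_succ n)) (pB fc hf') := by
    refine ⟨fun n => cB _ _ _, fun s hs => ?_⟩
    obtain ⟨x, hx⟩ := thread (fun n => BQ fc hf' n) (fun n => BQ_anti fc hf' (Nat.le_succ n)) s hs
    refine ⟨x, hx, fun x' hx' => sepB fc hf' x' x fun n => ?_⟩
    exact (hx' n).trans (hx n).symm
  have FX := hcont _ _ _ _ limX
  have FY := hcont _ _ _ _ limY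
  -- pointwise commutation after applying F
  have app : ∀ {U V W : CompHaus.{0}} (u : U ⟶ V) (v : V ⟶ W) (w : U ⟶ W), u ≫ v = w → ∀ x, F.map v (F.map u x) = F.map w x := by
    intro U V W u v w h x
    rw [← h, F.map_comp]; rfl
  intro A hA
  refine skeletal_of_open (F.map f).hom.hom.continuous ?_ hA
  intro W hW hWne
  refine core (P := F.obj X) (Q := F.obj Y) (Pn := fun n => F.obj (fA fc hf' n)) (Qn := fun n => F.obj (fB fc hf' n))
    (fun n => F.map (pA fc hf' n)) (fun n => F.map (pB fc hf' n))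
    (fun n m h => F.map (bA fc hf' n m h)) (fun n m h => F.map (bB fc hf' n m h))
    (fun n => F.map (gg fc hf' n)) (F.map f)
    (fun n => (F.map (pA fc hf' n)).hom.hom.continuous) (fun n => (F.map (pB fc hf' n)).hom.hom.continuous)
    (fun n m h => (F.map (bA fc hf' n m h)).hom.hom.continuous)
    (fun n => (F.map (gg fc hf' n)).hom.hom.continuous) (F.map f).hom.hom.continuous
    (fun n => hepi _ _ _ (spA n)) (fun n => hepi _ _ _ (spB n))
    (fun n m h x => app _ _ _ (cA n m h) x) (fun n m h x => app _ _ _ (cB n m h) x)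
    (fun n x => ?_) ?_ ?_ ?_ ?_ W hW hWne
  · rw [app _ _ _ (cg n) x, F.map_comp]; rfl
  · intro x x' h
    obtain ⟨z, hz, hu⟩ := FX.2 (fun n => F.map (pA fc hf' n) x') (fun n => app _ _ _ (cA n (n + 1) _) x')
    exact (hu x h).trans (hu x' (fun n => rfl)).symm
  · intro y y' h
    obtain ⟨z, hz, hu⟩ := FY.2 (fun n => F.map (pB fc hf' n) y') (fun n => app _ _ _ (cB n (n + 1) _) y')
    exact (hu y h).trans (hu y' (fun n => rfl)).symm
  · intro n m hnm U hU hUne
    obtain ⟨u, hu⟩ := hUne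
    refine hsq _ _ _ _ (gg fc hf' n) (gg fc hf' m) (bA fc hf' n m hnm) (bB fc hf' n m hnm)
      (finA n) (finB n) (finA m) (finB m) (csq n m hnm) (sg n) (sg m) (sbA n m hnm) (sbB n m hnm) ?_ u U (hU.mem_nhds hu)
    intro a N hN
    refine ⟨{gg fc hf' n a}, @isOpen_discrete _ _ (disB n) _, singleton_nonempty _, ?_, ?_⟩
    · rintro _ rfl
      exact ⟨a, mem_of_mem_nhds hN, rfl⟩
    · intro w hw
      obtain ⟨y, rfl⟩ := spB m w
      obtain ⟨x, rfl⟩ := spA n a
      have h1 : (BQ fc hf' n).proj (fc x) = (BQ fc hf' n).proj y := by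
        have h2 : bB fc hf' n m hnm (pB fc hf' m y) = gg fc hf' n (pA fc hf' n x) := hw
        have h3 : bB fc hf' n m hnm (pB fc hf' m y) = pB fc hf' n y := by
          rw [← cB n m hnm]; rfl
        exact (h3.symm.trans h2).symm
      obtain ⟨x', hx1, hx2⟩ := bic fc hf' n x y h1
      refine ⟨pA fc hf' m x', ?_, ?_⟩
      · have h4 : bA fc hf' n m hnm (pA fc hf' m x') = pA fc hf' n x' := by
          rw [← cA n m hnm]; rfl
        rw [mem_preimage, h4]
        have h5 : pA fc hf' n x' = pA fc hf' n x := hx1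
        rw [h5]
        exact mem_of_mem_nhds hN
      · show (BQ fc hf' m).proj (fc x') = (BQ fc hf' m).proj y
        rw [hx2]
  · intro n m hnm U hU hUne
    obtain ⟨u, hu⟩ := hUne
    have h := hsq _ _ _ _ (bB fc hf' n m hnm) (bB fc hf' n m hnm) (𝟙 _) (𝟙 _)
      (finB m) (finB n) (finB m) (finB n) (by simp) (sbB n m hnm) (sbB n m hnm)
      (fun z => ⟨z, rfl⟩) (fun z => ⟨z, rfl⟩) (by
        intro a N hN
        refine ⟨{bB fc hf' n m hnm a}, @isOpen_discrete _ _ (disB n) _, singleton_nonempty _, ?_, ?_⟩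
        · rintro _ rfl
          exact ⟨a, mem_of_mem_nhds hN, rfl⟩
        · rintro w hw
          have hw' : w = bB fc hf' n m hnm a := hw
          exact ⟨a, mem_of_mem_nhds hN, hw'.symm⟩) u U (hU.mem_nhds hu)
    obtain ⟨V, hV1, hV2, hV3, -⟩ := h
    exact ⟨V, hV1, hV2, hV3⟩

end Pool.Agent.Results.MP_7a056a_gt.ZeroDimMetrizable
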